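import Pool.Agent.H88.LE.Defs

/-!
# LE-CDa: from Vandermonde determinants to polynomials (Fekete)

PROOF of `fekete`. Suppose the conclusion fails for every `N ≥ 1`. For `N ≥ 1` let `V N` be the maximum of
`‖det vandermonde z‖` over `z ∈ K^N` (compact, nonempty). `V 1 = 1`. Let `z` be a maximiser for `N`. By assumption there is `x ∈ K` with
`∏ ‖x - z i‖ > c^N`. Adding `x` as last point: `‖det vandermonde (z, x)‖ = ‖det vandermonde z‖ ∏ ‖x - z i‖` (`Matrix.det_vandermonde`),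
so `V (N+1) ≥ c^N V N`, hence `V N ≥ c^{N(N-1)/2}` for all `N ≥ 1`. This contradicts `hV` (`V N < c^{N(N-1)/2}` for `N = N₀ ≥ 1`).
(Equivalently, by induction on `N ≥ 1` there is `z : Fin N → K` with `‖det vandermonde z‖ ≥ c^{N(N-1)/2}`: choose a maximiser among
the `z` at each step: if `‖det‖ ≥ c^{N(N-1)/2}` for some `z`, then also for a maximiser.)
-/

set_option autoImplicit false

open Polynomial Complex MeasureTheory Set
open scoped Real ComplexConjugate
open Pool.Agent.H88.LD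

noncomputable section

namespace Pool.Agent.H88.LE

/-- adding a point in front -/
theorem cda_cons (n : ℕ) (z : Fin n → ℂ) (x : ℂ) :
    ‖(Matrix.vandermonde (Fin.cons x z : Fin (n + 1) → ℂ)).det‖ =
      (∏ i, ‖x - z i‖) * ‖(Matrix.vandermonde z).det‖ := by
  rw [Matrix.det_vandermonde, Matrix.det_vandermonde, Fin.prod_univ_succ, norm_mul]
  congr 1
  · rw [Fin.prod_Ioi_zero, norm_prod]
    refine Finset.prod_congr rfl fun i _ => ?_
    simp only [Fin.cons_succ, Fin.cons_zero]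
    exact norm_sub_rev _ _
  · congr 1
    refine Finset.prod_congr rfl fun i _ => ?_
    rw [Fin.prod_Ioi_succ]
    refine Finset.prod_congr rfl fun j _ => ?_
    simp only [Fin.cons_succ]

theorem fekete (K : Set ℂ) (hK : IsCompact K) (hne : K.Nonempty) (c : ℝ) (hc : 0 < c)
    (N₀ : ℕ) (hN₀ : 0 < N₀)
    (hV : ∀ z : Fin N₀ → ℂ, (∀ i, z i ∈ K) →
      ‖(Matrix.vandermonde z).det‖ < c ^ ((N₀ : ℝ) * (N₀ - 1) / 2)) :
    ∃ N : ℕ, 0 < N ∧ ∃ z : Fin N → ℂ, (∀ i, z i ∈ K) ∧ ∀ x ∈ K, ∏ i, ‖x - z i‖ ≤ c ^ N := by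
  by_contra hcon
  push Not at hcon
  have key : ∀ n : ℕ, ∃ z : Fin (n + 1) → ℂ, (∀ i, z i ∈ K) ∧
      c ^ (((n + 1 : ℕ) : ℝ) * (((n + 1 : ℕ) : ℝ) - 1) / 2) ≤ ‖(Matrix.vandermonde z).det‖ := by
    intro n
    induction n with
    | zero =>
      obtain ⟨x0, hx0⟩ := hne
      refine ⟨fun _ => x0, fun _ => hx0, ?_⟩
      simp
    | succ n ih =>
      obtain ⟨z, hz, hzc⟩ := ih
      obtain ⟨x, hx, hxc⟩ := hcon (n + 1) (Nat.succ_pos n) z hz
      refine ⟨Fin.cons x z, ?_, ?_⟩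
      · intro i
        refine Fin.cases ?_ (fun j => ?_) i
        · simpa using hx
        · simpa using hz j
      · rw [cda_cons]
        have e1 : c ^ (((n + 1 + 1 : ℕ) : ℝ) * (((n + 1 + 1 : ℕ) : ℝ) - 1) / 2) =
            c ^ (n + 1) * c ^ (((n + 1 : ℕ) : ℝ) * (((n + 1 : ℕ) : ℝ) - 1) / 2) := by
          rw [← Real.rpow_natCast c (n + 1), ← Real.rpow_add hc]
          congr 1
          push_cast
          ring
        rw [e1]
        exact mul_le_mul hxc.le hzc (Real.rpow_nonneg hc.le _)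
          (Finset.prod_nonneg fun i _ => norm_nonneg _)
  obtain ⟨m, rfl⟩ : ∃ m, N₀ = m + 1 := ⟨N₀ - 1, by omega⟩
  obtain ⟨z, hz, hzc⟩ := key m
  exact absurd (hV z hz) (not_lt.mpr hzc)

end Pool.Agent.H88.LE
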