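import Pool.Agent.H88.LE.Defs
import Pool.Agent.H88.LD.LN

/-!
# LE-CA: polynomials divisible by a power of `f₁` are small on the part of the lemniscate

PROOF. `D = {z | ‖f.eval z‖ < r} ∩ O`: open and bounded (`exists_bound`/`sublevel_bounded`; `r = e^{log r}`). Let `w ∈ frontier D`: then
`‖f.eval w‖ ≤ r`, so `w ∈ O ∪ O'`; `w ∉ O'` because `O'` is open and disjoint from `D`; so `w ∈ O`, and `‖f.eval w‖ = r` since otherwise
`w` would be in the open set `D`. So `closure D ⊆ O`, where `f₂` has no zeros: `h = Q/f₂^i` is holomorphic on a neighbourhood of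
`closure D`. On the frontier `f₁ w ≠ 0` (as `f w ≠ 0`) and `‖h w‖ = ‖P w‖/‖f w‖^i ≤ M/r^i`. Maximum principle
(`Complex.norm_le_of_forall_mem_frontier_norm_le`): `‖h z‖ ≤ M/r^i` on `D ∋ z` (`z ∈ lem f 1 ∩ O`, `1 < r`). Finally
`‖P z‖ = ‖f₁ z‖^i ‖Q z‖ = ‖f z‖^i ‖h z‖ ≤ M/r^i`.
-/

set_option autoImplicit false

open Polynomial Complex MeasureTheory Set
open scoped Real ComplexConjugate
open Pool.Agent.H88.LD

noncomputable section

namespace Pool.Agent.H88.LE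

theorem ca_sub {f : ℂ[X]} {r : ℝ} {O O' : Set ℂ} (hS : Sep f r O O') :
    closure ({z : ℂ | ‖f.eval z‖ < r} ∩ O) ⊆ {z : ℂ | ‖f.eval z‖ ≤ r} ∩ O := by
  intro w hw
  have hc : Continuous (fun z : ℂ => ‖f.eval z‖) := by fun_prop
  have h1 : ‖f.eval w‖ ≤ r := by
    have hcl : IsClosed {z : ℂ | ‖f.eval z‖ ≤ r} := isClosed_le hc continuous_const
    have h2 : closure ({z : ℂ | ‖f.eval z‖ < r} ∩ O) ⊆ {z : ℂ | ‖f.eval z‖ ≤ r} :=
      closure_minimal (fun z hz => (show ‖f.eval z‖ < r from hz.1).le) hcl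
    exact h2 hw
  refine ⟨h1, ?_⟩
  rcases hS.cover (show w ∈ lem f r from h1) with h | h
  · exact h
  · exfalso
    obtain ⟨z, hz, hz2⟩ := mem_closure_iff.1 hw O' hS.isOpen' h
    exact (Set.disjoint_left.1 hS.disj) hz2.2 hz

theorem part_max {f : ℂ[X]} (hf : f.Monic) (hn0 : f.natDegree ≠ 0) {r : ℝ} (hr : 1 < r)
    {O O' : Set ℂ} (hS : Sep f r O O') (f₁ f₂ : ℂ[X]) (h12 : f = f₁ * f₂)
    (h2 : ∀ z ∈ O, f₂.eval z ≠ 0) (P Q : ℂ[X]) (i : ℕ) (hP : P = f₁ ^ i * Q) (M : ℝ)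
    (hM : ∀ w ∈ lem f r, ‖P.eval w‖ ≤ M) : ∀ z ∈ lem f 1 ∩ O, ‖P.eval z‖ ≤ M / r ^ i := by
  intro z hz
  have hr0 : 0 < r := by linarith
  have hc : Continuous (fun z : ℂ => ‖f.eval z‖) := by fun_prop
  have hDo : IsOpen ({z : ℂ | ‖f.eval z‖ < r} ∩ O) :=
    (isOpen_lt hc continuous_const).inter hS.isOpen
  have hDb : Bornology.IsBounded ({z : ℂ | ‖f.eval z‖ < r} ∩ O) := by
    have h := sublevel_bounded f hf hn0 (Real.log r)
    rw [Real.exp_log hr0] at h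
    exact h.subset inter_subset_left
  have hcl := ca_sub hS
  have hd : DiffContOnCl ℂ (fun w => Q.eval w / (f₂.eval w) ^ i)
      ({z : ℂ | ‖f.eval z‖ < r} ∩ O) := by
    have hdo : DifferentiableOn ℂ (fun w => Q.eval w / (f₂.eval w) ^ i)
        (closure ({z : ℂ | ‖f.eval z‖ < r} ∩ O)) := by
      intro w hw
      have h3 : f₂.eval w ≠ 0 := h2 w (hcl hw).2
      have h4 : (f₂.eval w) ^ i ≠ 0 := pow_ne_zero _ h3
      exact ((Q.differentiableAt).div ((f₂.differentiableAt).pow i) h4).differentiableWithinAt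
    exact hdo.diffContOnCl
  have hzD : z ∈ {z : ℂ | ‖f.eval z‖ < r} ∩ O := ⟨lt_of_le_of_lt hz.1 hr, hz.2⟩
  have hfr : ∀ w ∈ frontier ({z : ℂ | ‖f.eval z‖ < r} ∩ O),
      ‖(fun w => Q.eval w / (f₂.eval w) ^ i) w‖ ≤ M / r ^ i := by
    intro w hw
    have hw1 : w ∈ closure ({z : ℂ | ‖f.eval z‖ < r} ∩ O) := hw.1
    have hw2 := hcl hw1
    have hw3 : ‖f.eval w‖ = r := by
      refine le_antisymm hw2.1 (not_lt.1 fun hlt => ?_)
      have h5 : w ∈ interior ({z : ℂ | ‖f.eval z‖ < r} ∩ O) := by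
        rw [hDo.interior_eq]
        exact ⟨hlt, hw2.2⟩
      exact hw.2 h5
    have h6 : ‖f₁.eval w‖ * ‖f₂.eval w‖ = r := by
      rw [← norm_mul, ← eval_mul, ← h12, hw3]
    have h7 : 0 < ‖f₂.eval w‖ := norm_pos_iff.2 (h2 w hw2.2)
    have h8 := hM w hw2.1
    rw [hP, eval_mul, eval_pow, norm_mul, norm_pow] at h8
    change ‖Q.eval w / (f₂.eval w) ^ i‖ ≤ M / r ^ i
    rw [norm_div, norm_pow, div_le_div_iff₀ (pow_pos h7 i) (pow_pos hr0 i), ← h6, mul_pow]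
    calc ‖Q.eval w‖ * (‖f₁.eval w‖ ^ i * ‖f₂.eval w‖ ^ i)
        = (‖f₁.eval w‖ ^ i * ‖Q.eval w‖) * ‖f₂.eval w‖ ^ i := by ring
      _ ≤ M * ‖f₂.eval w‖ ^ i := mul_le_mul_of_nonneg_right h8 (by positivity)
  have hmain := Complex.norm_le_of_forall_mem_frontier_norm_le hDb hd hfr (subset_closure hzD)
  have h7 : 0 < ‖f₂.eval z‖ := norm_pos_iff.2 (h2 z hz.2)
  change ‖Q.eval z / (f₂.eval z) ^ i‖ ≤ M / r ^ i at hmain
  rw [norm_div, norm_pow, div_le_iff₀ (pow_pos h7 i)] at hmain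
  have h9 : ‖f₁.eval z‖ * ‖f₂.eval z‖ ≤ 1 := by
    rw [← norm_mul, ← eval_mul, ← h12]
    exact hz.1
  have h10 : (‖f₁.eval z‖ * ‖f₂.eval z‖) ^ i ≤ 1 := pow_le_one₀ (by positivity) h9
  have hM0 : 0 ≤ M / r ^ i := by
    by_contra hneg
    push Not at hneg
    have h11 : ‖Q.eval z‖ < 0 :=
      lt_of_le_of_lt hmain (mul_neg_of_neg_of_pos hneg (pow_pos h7 i))
    exact absurd (norm_nonneg _) (not_le.2 h11)
  rw [hP, eval_mul, eval_pow, norm_mul, norm_pow]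
  calc ‖f₁.eval z‖ ^ i * ‖Q.eval z‖ ≤ ‖f₁.eval z‖ ^ i * (M / r ^ i * ‖f₂.eval z‖ ^ i) :=
        mul_le_mul_of_nonneg_left hmain (by positivity)
    _ = (‖f₁.eval z‖ * ‖f₂.eval z‖) ^ i * (M / r ^ i) := by rw [mul_pow]; ring
    _ ≤ 1 * (M / r ^ i) := mul_le_mul_of_nonneg_right h10 hM0
    _ = M / r ^ i := one_mul _

/-- compactness of lemniscates and of their parts -/
theorem lem_compact {f : ℂ[X]} (hf : f.Monic) (hn0 : f.natDegree ≠ 0) (r : ℝ) :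
    IsCompact (lem f r) := by
  have hc : Continuous (fun z : ℂ => ‖f.eval z‖) := by fun_prop
  have hcl : IsClosed (lem f r) := isClosed_le hc continuous_const
  refine Metric.isCompact_of_isClosed_isBounded hcl ?_
  have h := sublevel_bounded f hf hn0 (|r| + 1)
  refine h.subset fun z hz => ?_
  have h1 : ‖f.eval z‖ ≤ r := hz
  have h2 : r ≤ |r| := le_abs_self r
  have h3 := Real.add_one_le_exp (|r| + 1)
  change ‖f.eval z‖ < Real.exp (|r| + 1)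
  linarith

theorem part_compact {f : ℂ[X]} (hf : f.Monic) (hn0 : f.natDegree ≠ 0) {r : ℝ} (hr : 1 ≤ r)
    {O O' : Set ℂ} (hS : Sep f r O O') : IsCompact (lem f 1 ∩ O) := by
  have h1 : lem f 1 ∩ O = lem f 1 ∩ O'ᶜ := by
    ext z
    refine ⟨fun h => ⟨h.1, fun h' => (Set.disjoint_left.1 hS.disj) h.2 h'⟩, fun h => ⟨h.1, ?_⟩⟩
    rcases hS.cover (show z ∈ lem f r from le_trans h.1 hr) with h' | h'
    · exact h'
    · exact absurd h' h.2
  rw [h1]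
  exact (lem_compact hf hn0 1).inter_right hS.isOpen'.isClosed_compl

end Pool.Agent.H88.LE
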