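import Pool.Agent.H88.LE.Defs

/-!
# LE-IA: elementary facts on covers

PROOFS. `Cov.mono`, `Cov.subset`, `Cov.nonneg`: clear. `Cov.union`: concatenate the two families (`Fin.append`, `Fin.sum_univ_add`).
`Cov.scale`: multiply centres by `c` and radii by `‖c‖`. `Hc`: `{ρ | Cov S ρ}` is bounded below by `0`, and nonempty for bounded
`S` (one disc). `Hc_add`: if `Hc S₁ + Hc S₂ < h` take `ρ_i` with `Cov S_i ρ_i`, `ρ₁ + ρ₂ < h` (`exists_lt_of_csInf_lt`) and use `Cov.union`.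
`Hc_le_of_forall`: if `Cov S ρ` for all `ρ > x` then `Hc S ≤ x`.
-/

set_option autoImplicit false

open Polynomial Complex MeasureTheory Set
open scoped Real ComplexConjugate
open Pool.Agent.H88.LD

noncomputable section

namespace Pool.Agent.H88.LE

theorem Cov.mono {S : Set ℂ} {ρ ρ' : ℝ} (h : Cov S ρ) (hρ : ρ ≤ ρ') : Cov S ρ' := by
  obtain ⟨m, M, R, h0, h1, h2⟩ := h
  exact ⟨m, M, R, h0, h1, h2.trans hρ⟩

theorem Cov.subset {S S' : Set ℂ} {ρ : ℝ} (h : Cov S ρ) (hS : S' ⊆ S) : Cov S' ρ := by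
  obtain ⟨m, M, R, h0, h1, h2⟩ := h
  exact ⟨m, M, R, h0, fun z hz => h1 z (hS hz), h2⟩

theorem Cov.nonneg {S : Set ℂ} {ρ : ℝ} (h : Cov S ρ) : 0 ≤ ρ := by
  obtain ⟨m, M, R, h0, h1, h2⟩ := h
  exact (Finset.sum_nonneg fun c _ => h0 c).trans h2

theorem Cov.union {S S' : Set ℂ} {ρ ρ' : ℝ} (h : Cov S ρ) (h' : Cov S' ρ') :
    Cov (S ∪ S') (ρ + ρ') := by
  obtain ⟨m, M, R, h0, h1, h2⟩ := h
  obtain ⟨m', M', R', h0', h1', h2'⟩ := h'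
  refine ⟨m + m', Fin.append M M', Fin.append R R', ?_, ?_, ?_⟩
  · intro c
    refine Fin.addCases (fun i => ?_) (fun i => ?_) c
    · rw [Fin.append_left]; exact h0 i
    · rw [Fin.append_right]; exact h0' i
  · rintro z (hz | hz)
    · obtain ⟨c, hc⟩ := h1 z hz
      exact ⟨Fin.castAdd m' c, by rw [Fin.append_left, Fin.append_left]; exact hc⟩
    · obtain ⟨c, hc⟩ := h1' z hz
      exact ⟨Fin.natAdd m c, by rw [Fin.append_right, Fin.append_right]; exact hc⟩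
  · rw [Fin.sum_univ_add]
    simp only [Fin.append_left, Fin.append_right]
    exact add_le_add h2 h2'

theorem Cov.scale {S : Set ℂ} {ρ : ℝ} (h : Cov S ρ) (c : ℂ) :
    Cov ((fun z => c * z) '' S) (‖c‖ * ρ) := by
  obtain ⟨m, M, R, h0, h1, h2⟩ := h
  refine ⟨m, fun i => c * M i, fun i => ‖c‖ * R i,
    fun i => mul_nonneg (norm_nonneg c) (h0 i), ?_, ?_⟩
  · rintro _ ⟨z, hz, rfl⟩
    obtain ⟨i, hi⟩ := h1 z hz
    refine ⟨i, ?_⟩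
    rw [← mul_sub, norm_mul]
    exact mul_le_mul_of_nonneg_left hi (norm_nonneg c)
  · rw [← Finset.mul_sum]
    exact mul_le_mul_of_nonneg_left h2 (norm_nonneg c)

theorem Cov.of_bounded {S : Set ℂ} (h : Bornology.IsBounded S) : ∃ ρ, Cov S ρ := by
  obtain ⟨r, hr⟩ := h.subset_closedBall (0 : ℂ)
  refine ⟨max r 0, 1, fun _ => 0, fun _ => max r 0, fun _ => le_max_right _ _, ?_, ?_⟩
  · intro z hz
    refine ⟨0, ?_⟩
    have h1 := hr hz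
    rw [Metric.mem_closedBall, dist_eq_norm] at h1
    exact h1.trans (le_max_left _ _)
  · simp

theorem ia_bddBelow (S : Set ℂ) : BddBelow {ρ : ℝ | Cov S ρ} :=
  ⟨0, fun _ hρ => Cov.nonneg hρ⟩

theorem Hc_nonneg (S : Set ℂ) : 0 ≤ Hc S :=
  Real.sInf_nonneg fun _ hρ => Cov.nonneg hρ

theorem Hc_le {S : Set ℂ} {ρ : ℝ} (h : Cov S ρ) : Hc S ≤ ρ :=
  csInf_le (ia_bddBelow S) h

theorem Hc_le_of_forall {S : Set ℂ} {x : ℝ} (h : ∀ ρ, x < ρ → Cov S ρ) : Hc S ≤ x :=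
  le_of_forall_gt_imp_ge_of_dense fun ρ hρ => Hc_le (h ρ hρ)

theorem Hc_add {S S₁ S₂ : Set ℂ} (hS : S ⊆ S₁ ∪ S₂) (hb₁ : Bornology.IsBounded S₁)
    (hb₂ : Bornology.IsBounded S₂) {h : ℝ} (hh : ¬ Cov S h) : h ≤ Hc S₁ + Hc S₂ := by
  by_contra hlt
  rw [not_le] at hlt
  apply hh
  obtain ⟨a, ha⟩ := Cov.of_bounded hb₁
  obtain ⟨b, hb⟩ := Cov.of_bounded hb₂
  obtain ⟨ρ₁, h₁, h₁'⟩ := exists_lt_of_csInf_lt (⟨a, ha⟩ : {ρ : ℝ | Cov S₁ ρ}.Nonempty)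
    (show sInf {ρ : ℝ | Cov S₁ ρ} < h - Hc S₂ by
      have : sInf {ρ : ℝ | Cov S₁ ρ} = Hc S₁ := rfl
      linarith)
  obtain ⟨ρ₂, h₂, h₂'⟩ := exists_lt_of_csInf_lt (⟨b, hb⟩ : {ρ : ℝ | Cov S₂ ρ}.Nonempty)
    (show sInf {ρ : ℝ | Cov S₂ ρ} < h - ρ₁ by
      have : sInf {ρ : ℝ | Cov S₂ ρ} = Hc S₂ := rfl
      linarith)
  exact ((Cov.union h₁ h₂).subset hS).mono (by linarith)

end Pool.Agent.H88.LE
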