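import Pool.Agent.H88.LE.Defs

/-!
# LE-XF: the smallest enclosing disc

PROOF. Let `ρ c = max_{z ∈ K} ‖z - c‖`, continuous in `c` and tending to infinity, so it has a minimum `R` at some `c`. Let
`E = {z ∈ K | ‖z - c‖ = R}` (compact, nonempty). CLAIM: `c ∈ convexHull ℝ E`. Otherwise (the convex hull of a compact set
in finite dimension is compact) there is a unit vector `v` and `δ > 0` with `Re (conj v (z - c)) ≥ δ` for all `z ∈ E`
(separation). By compactness there is `η > 0` with: `z ∈ K` and `Re (conj v (z - c)) ≤ δ/2` imply `‖z - c‖ ≤ R - η`. For small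
`ε > 0` the centre `c + ε v` gives `‖z - c - εv‖² = ‖z - c‖² - 2ε Re(conj v (z-c)) + ε² ≤ R² - εδ + ε² < R²` for the `z ∈ K` with
`Re (..) ≥ δ/2`, and `≤ R - η + ε < R` for the others: so `ρ (c + εv) < R`, contradiction.
Then write `c` as a finite convex combination (`mem_convexHull_iff_exists_fintype` or `convexHull_eq`) and
reindex by `Fin m`.
-/

set_option autoImplicit false

open Polynomial Complex MeasureTheory Set
open scoped Real ComplexConjugate
open Pool.Agent.H88.LD

noncomputable section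

namespace Pool.Agent.H88.LE

/-- the convex hull of a compact set in the plane is compact -/
private theorem xf_hull_compact (E : Set ℂ) (hE : IsCompact E) : IsCompact (convexHull ℝ E) := by
  rcases E.eq_empty_or_nonempty with rfl | ⟨z0, hz0⟩
  · rw [convexHull_empty]; exact isCompact_empty
  have hP : IsCompact ((Set.univ.pi fun _ : Fin 3 => E) ×ˢ stdSimplex ℝ (Fin 3)) :=
    (isCompact_univ_pi fun _ => hE).prod (isCompact_stdSimplex ℝ (Fin 3))
  have hc : Continuous fun p : (Fin 3 → ℂ) × (Fin 3 → ℝ) => ∑ i, p.2 i • p.1 i := by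
    fun_prop
  have himg := hP.image hc
  suffices h : convexHull ℝ E =
      (fun p : (Fin 3 → ℂ) × (Fin 3 → ℝ) => ∑ i, p.2 i • p.1 i) ''
        ((Set.univ.pi fun _ : Fin 3 => E) ×ˢ stdSimplex ℝ (Fin 3)) by
    rw [h]; exact himg
  apply Set.Subset.antisymm
  · intro x hx
    obtain ⟨ι, hι, z, w, hz, hai, hw, hw1, hx1⟩ := eq_pos_convex_span_of_mem_convexHull hx
    have hcard : Fintype.card ι ≤ Fintype.card (Fin 3) := by
      have h1 := hai.card_le_finrank_succ
      have h2 : Module.finrank ℝ (vectorSpan ℝ (Set.range z)) ≤ Module.finrank ℝ ℂ :=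
        Submodule.finrank_le _
      rw [Complex.finrank_real_complex] at h2
      rw [Fintype.card_fin]
      omega
    obtain ⟨e⟩ := Function.Embedding.nonempty_of_card_le hcard
    refine ⟨(Function.extend e z fun _ => z0, Function.extend e w fun _ => 0), ⟨?_, ?_, ?_⟩, ?_⟩
    · intro i _
      by_cases h : ∃ a, e a = i
      · obtain ⟨a, rfl⟩ := h
        show Function.extend e z (fun _ => z0) (e a) ∈ E
        rw [e.injective.extend_apply]
        exact hz (Set.mem_range_self a)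
      · show Function.extend e z (fun _ => z0) i ∈ E
        rw [Function.extend_apply' _ _ _ h]
        exact hz0
    · intro i
      by_cases h : ∃ a, e a = i
      · obtain ⟨a, rfl⟩ := h
        show 0 ≤ Function.extend e w (fun _ => 0) (e a)
        rw [e.injective.extend_apply]
        exact (hw a).le
      · show 0 ≤ Function.extend e w (fun _ => 0) i
        rw [Function.extend_apply' _ _ _ h]
    · show ∑ i, Function.extend e w (fun _ => 0) i = 1
      rw [← hw1]
      symm
      apply Fintype.sum_of_injective e e.injective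
      · intro i hi
        exact Function.extend_apply' _ _ _ (by simpa using hi)
      · intro a
        rw [e.injective.extend_apply]
    · show ∑ i, Function.extend e w (fun _ => 0) i • Function.extend e z (fun _ => z0) i = x
      rw [← hx1]
      symm
      apply Fintype.sum_of_injective e e.injective
      · intro i hi
        rw [Function.extend_apply' w _ i (by simpa using hi), zero_smul]
      · intro a
        rw [e.injective.extend_apply, e.injective.extend_apply]
  · rintro x ⟨⟨z, w⟩, ⟨hz, hw0, hw1⟩, rfl⟩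
    refine (convex_convexHull ℝ E).sum_mem (fun i _ => hw0 i) hw1 fun i _ => ?_
    exact subset_convexHull ℝ E (hz i (Set.mem_univ i))

theorem enclosing (K : Set ℂ) (hK : IsCompact K) (hne : K.Nonempty) :
    ∃ (c : ℂ) (R : ℝ), 0 ≤ R ∧ (∀ z ∈ K, ‖z - c‖ ≤ R) ∧
      ∃ (m : ℕ) (z : Fin m → ℂ) (l : Fin m → ℝ), (∀ i, 0 ≤ l i) ∧ ∑ i, l i = 1 ∧
        (∀ i, z i ∈ K) ∧ (∀ i, ‖z i - c‖ = R) ∧ ∑ i, (l i : ℂ) * z i = c := by
  obtain ⟨z0, hz0⟩ := hne
  have hcz : ∀ c : ℂ, Continuous fun z : ℂ => ‖z - c‖ := fun c => by fun_prop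
  have hF : Continuous fun c : ℂ => sSup ((fun z : ℂ => ‖z - c‖) '' K) :=
    hK.continuous_sSup (f := fun c z => ‖z - c‖) (by
      show Continuous fun p : ℂ × ℂ => ‖p.2 - p.1‖
      fun_prop)
  have hle : ∀ c : ℂ, ∀ z ∈ K, ‖z - c‖ ≤ sSup ((fun z : ℂ => ‖z - c‖) '' K) := fun c z hz =>
    le_csSup (hK.bddAbove_image (hcz c).continuousOn) ⟨z, hz, rfl⟩
  have hat : ∀ c : ℂ, ∃ z ∈ K, sSup ((fun z : ℂ => ‖z - c‖) '' K) = ‖z - c‖ := fun c =>
    hK.exists_sSup_image_eq ⟨z0, hz0⟩ (hcz c).continuousOn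
  have hlim : Filter.Tendsto (fun c : ℂ => sSup ((fun z : ℂ => ‖z - c‖) '' K))
      (Filter.cocompact ℂ) Filter.atTop := by
    have h1 : Filter.Tendsto (fun c : ℂ => ‖c‖ - ‖z0‖) (Filter.cocompact ℂ) Filter.atTop :=
      Filter.tendsto_atTop_add_const_right _ _ (tendsto_norm_cocompact_atTop (E := ℂ))
    refine Filter.tendsto_atTop_mono (fun c => ?_) h1
    have h2 := norm_sub_norm_le c z0
    rw [norm_sub_rev] at h2
    exact h2.trans (hle c z0 hz0)
  obtain ⟨c, hcmin⟩ := hF.exists_forall_le hlim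
  obtain ⟨R, hR⟩ : ∃ R, R = sSup ((fun z : ℂ => ‖z - c‖) '' K) := ⟨_, rfl⟩
  have hleR : ∀ z ∈ K, ‖z - c‖ ≤ R := fun z hz => hR ▸ hle c z hz
  have hmem : c ∈ convexHull ℝ {z ∈ K | ‖z - c‖ = R} := by
    by_contra hc
    have hEc : IsCompact {z ∈ K | ‖z - c‖ = R} := by
      have : {z ∈ K | ‖z - c‖ = R} = K ∩ (fun z : ℂ => ‖z - c‖) ⁻¹' {R} := rfl
      rw [this]
      exact hK.inter_right (isClosed_singleton.preimage (hcz c))
    have hcl := (xf_hull_compact _ hEc).isClosed
    obtain ⟨f, u, hfc, hfu⟩ :=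
      geometric_hahn_banach_point_closed (convex_convexHull ℝ {z ∈ K | ‖z - c‖ = R}) hcl hc
    -- the vector representing `f`
    obtain ⟨v, hv⟩ : ∃ v : ℂ, ∀ z : ℂ, f z = v.re * z.re + v.im * z.im := by
      refine ⟨⟨f 1, f Complex.I⟩, fun z => ?_⟩
      have hz : z = z.re • (1 : ℂ) + z.im • Complex.I := by
        apply Complex.ext <;> simp
      conv_lhs => rw [hz]
      rw [map_add, map_smul, map_smul, smul_eq_mul, smul_eq_mul]
      ring
    have hδ : 0 < u - f c := sub_pos.mpr hfc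
    have hexp : ∀ (z : ℂ) (ε : ℝ),
        ‖z - (c + (ε : ℂ) * v)‖ ^ 2 = ‖z - c‖ ^ 2 - 2 * ε * (f z - f c) + ε ^ 2 * ‖v‖ ^ 2 := by
      intro z ε
      rw [hv z, hv c, ← Complex.normSq_eq_norm_sq, ← Complex.normSq_eq_norm_sq,
        ← Complex.normSq_eq_norm_sq, Complex.normSq_apply, Complex.normSq_apply,
        Complex.normSq_apply]
      simp only [Complex.sub_re, Complex.sub_im, Complex.add_re, Complex.add_im,
        Complex.mul_re, Complex.mul_im, Complex.ofReal_re, Complex.ofReal_im]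
      ring
    obtain ⟨R', hR'R, hR'⟩ : ∃ R' < R, ∀ z ∈ K, f z ≤ u → ‖z - c‖ ≤ R' := by
      have hK' : IsCompact (K ∩ (fun z : ℂ => f z) ⁻¹' Set.Iic u) :=
        hK.inter_right (isClosed_Iic.preimage f.continuous)
      rcases (K ∩ (fun z : ℂ => f z) ⁻¹' Set.Iic u).eq_empty_or_nonempty with h0 | h0
      · refine ⟨R - 1, by linarith, fun z hz hzu => ?_⟩
        exfalso
        have : z ∈ K ∩ (fun z : ℂ => f z) ⁻¹' Set.Iic u := ⟨hz, hzu⟩
        rw [h0] at this
        exact this
      · obtain ⟨w, hw, hmax⟩ := hK'.exists_isMaxOn h0 (hcz c).continuousOn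
        refine ⟨‖w - c‖, ?_, fun z hz hzu => hmax ⟨hz, hzu⟩⟩
        refine lt_of_le_of_ne (hleR w hw.1) fun h => ?_
        have h1 := hfu w (subset_convexHull ℝ _ ⟨hw.1, h⟩)
        have h2 : f w ≤ u := hw.2
        linarith
    have hR0 : 0 ≤ R := (norm_nonneg _).trans (hleR z0 hz0)
    -- a small step
    obtain ⟨ε, hε, hε1, hε2⟩ : ∃ ε : ℝ, 0 < ε ∧ ε * ‖v‖ < R - R' ∧
        ε * ‖v‖ ^ 2 < 2 * (u - f c) := by
      have hv0 := norm_nonneg v
      have hd : 0 < min ((R - R') / (‖v‖ + 1)) ((u - f c) / (‖v‖ ^ 2 + 1)) :=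
        lt_min (div_pos (by linarith) (by linarith)) (div_pos hδ (by positivity))
      refine ⟨_, hd, ?_, ?_⟩
      · have h1 := min_le_left ((R - R') / (‖v‖ + 1)) ((u - f c) / (‖v‖ ^ 2 + 1))
        have h2 : min ((R - R') / (‖v‖ + 1)) ((u - f c) / (‖v‖ ^ 2 + 1)) * (‖v‖ + 1)
            ≤ R - R' := by
          rwa [← le_div_iff₀ (by linarith)]
        nlinarith
      · have h1 := min_le_right ((R - R') / (‖v‖ + 1)) ((u - f c) / (‖v‖ ^ 2 + 1))
        have h2 : min ((R - R') / (‖v‖ + 1)) ((u - f c) / (‖v‖ ^ 2 + 1)) * (‖v‖ ^ 2 + 1)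
            ≤ u - f c := by
          rwa [← le_div_iff₀ (by positivity)]
        nlinarith
    obtain ⟨w, hw, hweq⟩ := hat (c + (ε : ℂ) * v)
    have hlt : ‖w - (c + (ε : ℂ) * v)‖ < R := by
      rcases le_or_gt (f w) u with h | h
      · have h1 := hR' w hw h
        have h2 : ‖w - (c + (ε : ℂ) * v)‖ ≤ ‖w - c‖ + ‖(ε : ℂ) * v‖ := by
          have : w - (c + (ε : ℂ) * v) = (w - c) - (ε : ℂ) * v := by ring
          rw [this]
          exact norm_sub_le _ _
        rw [norm_mul, Complex.norm_real, Real.norm_of_nonneg hε.le] at h2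
        linarith
      · have h1 := hleR w hw
        refine lt_of_pow_lt_pow_left₀ 2 hR0 ?_
        rw [hexp w ε]
        have h2 : ‖w - c‖ ^ 2 ≤ R ^ 2 := pow_le_pow_left₀ (norm_nonneg _) h1 2
        have h3 : ε * (ε * ‖v‖ ^ 2) < ε * (2 * (u - f c)) := mul_lt_mul_of_pos_left hε2 hε
        have h4 : ε * (u - f c) ≤ ε * (f w - f c) :=
          mul_le_mul_of_nonneg_left (by linarith) hε.le
        nlinarith
    have hfin := hcmin (c + (ε : ℂ) * v)
    rw [← hR, hweq] at hfin
    exact absurd hfin (not_le.mpr hlt)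
  rw [mem_convexHull_iff_exists_fintype] at hmem
  obtain ⟨ι, hι, w, z, hw0, hw1, hz, hsum⟩ := hmem
  refine ⟨c, R, (norm_nonneg _).trans (hleR z0 hz0), hleR, Fintype.card ι,
    fun i => z ((Fintype.equivFin ι).symm i), fun i => w ((Fintype.equivFin ι).symm i),
    fun i => hw0 _, ?_, fun i => (hz _).1, fun i => (hz _).2, ?_⟩
  · rw [Equiv.sum_comp (Fintype.equivFin ι).symm w, hw1]
  · rw [Equiv.sum_comp (Fintype.equivFin ι).symm fun i => (w i : ℂ) * z i, ← hsum]
    exact Finset.sum_congr rfl fun i _ => (Complex.real_smul).symm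

end Pool.Agent.H88.LE
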