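import Pool.Agent.H88.LE.Defs

/-!
# LE-CB: determinants

`Matrix.vandermonde z i j = z i ^ j`.

PROOF of `det_poly`. `(l j).eval (z i) = ∑_m (z i)^m (l j).coeff m` with `m < N`, so the matrix `((l j).eval (z i))` is
`vandermonde z * S` with `S m j = (l j).coeff m`: `det = det (vandermonde z) det S`; the same for `w`.

PROOF of `det_bound`: Leibniz formula, `N!` terms, each `≤ ∏ b j`.
-/

set_option autoImplicit false

open Polynomial Complex MeasureTheory Set
open scoped Real ComplexConjugate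
open Pool.Agent.H88.LD

noncomputable section

namespace Pool.Agent.H88.LE

theorem cb_of {N : ℕ} (l : Fin N → ℂ[X]) (hl : ∀ j, (l j).natDegree < N) (z : Fin N → ℂ) :
    (Matrix.of fun i j => (l j).eval (z i)) =
      Matrix.vandermonde z * (Matrix.of fun (m : Fin N) (j : Fin N) => (l j).coeff m) := by
  ext i j
  rw [Matrix.mul_apply, Matrix.of_apply, Polynomial.eval_eq_sum_range' (hl j),
    ← Fin.sum_univ_eq_sum_range (fun m => (l j).coeff m * z i ^ m)]
  refine Finset.sum_congr rfl fun m _ => ?_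
  rw [Matrix.vandermonde_apply, Matrix.of_apply, mul_comm]

theorem det_poly {N : ℕ} (l : Fin N → ℂ[X]) (hl : ∀ j, (l j).natDegree < N) (z w : Fin N → ℂ) :
    (Matrix.vandermonde w).det * (Matrix.of fun i j => (l j).eval (z i)).det =
      (Matrix.vandermonde z).det * (Matrix.of fun i j => (l j).eval (w i)).det := by
  rw [cb_of l hl z, cb_of l hl w, Matrix.det_mul, Matrix.det_mul]
  ring

theorem det_bound {N : ℕ} (A : Matrix (Fin N) (Fin N) ℂ) (b : Fin N → ℝ)
    (hb : ∀ i j, ‖A i j‖ ≤ b j) : ‖A.det‖ ≤ N.factorial * ∏ j, b j := by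
  rw [Matrix.det_apply]
  refine (norm_sum_le _ _).trans ?_
  have h : ∀ σ ∈ (Finset.univ : Finset (Equiv.Perm (Fin N))),
      ‖Equiv.Perm.sign σ • ∏ i, A (σ i) i‖ ≤ ∏ j, b j := by
    intro σ _
    have h1 : ‖Equiv.Perm.sign σ • ∏ i, A (σ i) i‖ = ‖∏ i, A (σ i) i‖ := by
      rcases Int.units_eq_one_or (Equiv.Perm.sign σ) with h | h <;> rw [h] <;> simp
    rw [h1, norm_prod]
    exact Finset.prod_le_prod (fun i _ => norm_nonneg _) fun i _ => hb _ _
  refine (Finset.sum_le_sum h).trans ?_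
  rw [Finset.sum_const, Finset.card_univ, Fintype.card_perm, Fintype.card_fin, nsmul_eq_mul]

end Pool.Agent.H88.LE
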