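import Pool.Agent.H88.LE.CB

/-!
# LE-CBb: upper bound for Vandermonde determinants on a lemniscate

PROOF of `vandermonde_le`. Let `B_j = f^(j/n) X^(j % n)` (natural number division), monic of degree `j`. The matrix `(B_j (w i))` is
`vandermonde w * T` with `T` upper triangular with `1` on the diagonal (`Matrix.det_eval_matrixOfPolynomials_eq_det_vandermonde` in
Mathlib), so it has the same determinant. `‖B_j (w i)‖ ≤ r^(j/n) ρ^(j % n) ≤ r^(j/n) ρ^n` with real exponents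
`r^(⌊j/n⌋) ≤ r^(j/n)` (`r ≥ 1`), `ρ ≥ 1`. `det_bound`: `≤ N! ∏_{j<N} r^{j/n} ρ^n ≤ N! ρ^{nN} r^{N²/(2n)}` (`∑_{j<N} j = N(N-1)/2 ≤ N²/2`).
-/

set_option autoImplicit false

open Polynomial Complex MeasureTheory Set
open scoped Real ComplexConjugate
open Pool.Agent.H88.LD

noncomputable section

namespace Pool.Agent.H88.LE

theorem vandermonde_le {f : ℂ[X]} (hf : f.Monic) {n : ℕ} (hn : f.natDegree = n) (hn0 : 0 < n)
    (r : ℝ) (hr : 1 ≤ r) (ρ : ℝ) (hρ : 1 ≤ ρ) (hbd : ∀ z ∈ lem f r, ‖z‖ ≤ ρ) {N : ℕ}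
    (w : Fin N → ℂ) (hw : ∀ i, w i ∈ lem f r) :
    ‖(Matrix.vandermonde w).det‖ ≤
      N.factorial * (ρ ^ (n * N) * r ^ ((N : ℝ) ^ 2 / (2 * n))) := by
  have hr0 : 0 < r := by linarith
  have hρ0 : 0 < ρ := by linarith
  have hnR : (0 : ℝ) < n := by exact_mod_cast hn0
  have hdeg : ∀ j : Fin N, (f ^ ((j : ℕ) / n) * X ^ ((j : ℕ) % n)).natDegree = (j : ℕ) := by
    intro j
    rw [(hf.pow _).natDegree_mul (monic_X_pow _), hf.natDegree_pow, natDegree_X_pow, hn]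
    exact Nat.div_add_mod' _ _
  have hmon : ∀ j : Fin N, (f ^ ((j : ℕ) / n) * X ^ ((j : ℕ) % n)).Monic :=
    fun j => (hf.pow _).mul (monic_X_pow _)
  rw [Matrix.det_eval_matrixOfPolynomials_eq_det_vandermonde w _ hdeg hmon]
  have hb : ∀ i j : Fin N, ‖(Matrix.of fun i j : Fin N =>
      (f ^ ((j : ℕ) / n) * X ^ ((j : ℕ) % n)).eval (w i)) i j‖ ≤
        r ^ (((j : ℕ) : ℝ) / n) * ρ ^ n := by
    intro i j
    rw [Matrix.of_apply, eval_mul, eval_pow, eval_pow, eval_X, norm_mul, norm_pow, norm_pow]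
    have h1 : ‖f.eval (w i)‖ ≤ r := hw i
    have h2 : ‖w i‖ ≤ ρ := hbd _ (hw i)
    have h3 : ‖f.eval (w i)‖ ^ ((j : ℕ) / n) ≤ r ^ (((j : ℕ) : ℝ) / n) := by
      calc ‖f.eval (w i)‖ ^ ((j : ℕ) / n) ≤ r ^ ((j : ℕ) / n) :=
            pow_le_pow_left₀ (norm_nonneg _) h1 _
        _ = r ^ ((((j : ℕ) / n : ℕ)) : ℝ) := (Real.rpow_natCast _ _).symm
        _ ≤ r ^ (((j : ℕ) : ℝ) / n) := Real.rpow_le_rpow_of_exponent_le hr Nat.cast_div_le
    have h4 : ‖w i‖ ^ ((j : ℕ) % n) ≤ ρ ^ n := by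
      calc ‖w i‖ ^ ((j : ℕ) % n) ≤ ρ ^ ((j : ℕ) % n) := pow_le_pow_left₀ (norm_nonneg _) h2 _
        _ ≤ ρ ^ n := pow_le_pow_right₀ hρ (Nat.mod_lt _ hn0).le
    exact mul_le_mul h3 h4 (by positivity) (by positivity)
  refine (det_bound _ _ hb).trans ?_
  have hprod : ∏ j : Fin N, (r ^ (((j : ℕ) : ℝ) / n) * ρ ^ n) ≤
      ρ ^ (n * N) * r ^ ((N : ℝ) ^ 2 / (2 * n)) := by
    rw [Finset.prod_mul_distrib, ← Real.rpow_sum_of_pos hr0, Finset.prod_const,
      Finset.card_univ, Fintype.card_fin, ← pow_mul, mul_comm]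
    refine mul_le_mul_of_nonneg_left ?_ (by positivity)
    refine Real.rpow_le_rpow_of_exponent_le hr ?_
    rw [← Finset.sum_div, Fin.sum_univ_eq_sum_range (fun j : ℕ => (j : ℝ)) N]
    have h5 : ∀ m : ℕ, ∑ j ∈ Finset.range m, (j : ℝ) ≤ (m : ℝ) ^ 2 / 2 := by
      intro m
      induction m with
      | zero => simp
      | succ m ih =>
        rw [Finset.sum_range_succ]
        push_cast
        nlinarith
    rw [div_le_div_iff₀ hnR (by positivity)]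
    nlinarith [h5 N]
  exact mul_le_mul_of_nonneg_left hprod (by positivity)

end Pool.Agent.H88.LE
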