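import Pool.Agent.H88.LE.Defs

/-!
# LE-CCa: weighted Leja points

PROOF of `exists_leja`: strong recursion on `l`: given the points `w i`, `i < l`, the polynomial `g = h l * ∏_{i<l} (X - w i)` is monic, so not
zero; `w l` is a point of the compact nonempty set `G` where `‖g.eval ·‖` is maximal; the maximum is positive because
`G` is infinite and `g` has only finitely many roots. (Formally: a function which chooses the next point for every
list/function of the previous points, `Nat.strongRec` or `exists_seq_of_forall_finset`-like lemmas; for instance define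
by well founded recursion `w l = choose (fun i : Fin l => w i)`, or build the lists by ordinary recursion.)
-/

set_option autoImplicit false

open Polynomial Complex MeasureTheory Set
open scoped Real ComplexConjugate
open Pool.Agent.H88.LD

noncomputable section

namespace Pool.Agent.H88.LE

private theorem cca_next (G : Set ℂ) (hG : IsCompact G) (hinf : G.Infinite) (g : ℂ[X])
    (hg : g.Monic) : ∃ a ∈ G, (∀ x ∈ G, ‖g.eval x‖ ≤ ‖g.eval a‖) ∧ g.eval a ≠ 0 := by
  obtain ⟨a, ha, hmax⟩ := hG.exists_isMaxOn hinf.nonempty
    (f := fun z : ℂ => ‖g.eval z‖) (by fun_prop)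
  refine ⟨a, ha, fun x hx => hmax hx, ?_⟩
  intro h0
  have hfin : {z : ℂ | g.IsRoot z}.Finite := Polynomial.finite_setOfPred_isRoot hg.ne_zero
  apply hinf
  apply hfin.subset
  intro x hx
  have h1 : ‖g.eval x‖ ≤ ‖g.eval a‖ := hmax hx
  rw [h0, norm_zero] at h1
  exact norm_le_zero_iff.1 h1

theorem exists_leja (G : Set ℂ) (hG : IsCompact G) (hinf : G.Infinite) (h : ℕ → ℂ[X])
    (hm : ∀ l, (h l).Monic) :
    ∃ w : ℕ → ℂ, (∀ l, w l ∈ G) ∧ ∀ l, (∀ x ∈ G,
      ‖(h l * ∏ i ∈ Finset.range l, (X - C (w i))).eval x‖ ≤
        ‖(h l * ∏ i ∈ Finset.range l, (X - C (w i))).eval (w l)‖) ∧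
      (h l * ∏ i ∈ Finset.range l, (X - C (w i))).eval (w l) ≠ 0 := by
  have hmon : ∀ L : List ℂ, (h L.length * (L.map (fun a => X - C a)).prod).Monic := by
    intro L
    refine (hm _).mul ?_
    induction L with
    | nil => simp
    | cons a L ih =>
      rw [List.map_cons, List.prod_cons]
      exact (monic_X_sub_C a).mul ih
  choose nx hnx1 hnx2 hnx3 using fun L : List ℂ => cca_next G hG hinf _ (hmon L)
  let T : ℕ → List ℂ := fun l => Nat.rec [] (fun _ L => nx L :: L) l
  have hT0 : T 0 = [] := rfl
  have hTs : ∀ l, T (l + 1) = nx (T l) :: T l := fun l => rfl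
  have hlen : ∀ l, (T l).length = l := by
    intro l
    induction l with
    | zero => rfl
    | succ l ih => rw [hTs, List.length_cons, ih]
  have hprod : ∀ l, ((T l).map (fun a => X - C a)).prod =
      ∏ i ∈ Finset.range l, (X - C (nx (T i))) := by
    intro l
    induction l with
    | zero => simp [hT0]
    | succ l ih => rw [hTs, List.map_cons, List.prod_cons, ih, Finset.prod_range_succ, mul_comm]
  refine ⟨fun l => nx (T l), fun l => hnx1 _, fun l => ⟨?_, ?_⟩⟩
  · intro x hx
    have h2 := hnx2 (T l) x hx
    rw [hlen, hprod] at h2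
    exact h2
  · have h3 := hnx3 (T l)
    rw [hlen, hprod] at h3
    exact h3

end Pool.Agent.H88.LE
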