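import Pool.Agent.H88.LE.CA
import Pool.Agent.H88.LE.CBb
import Pool.Agent.H88.LE.CCa

/-!
# LE-CC: the capacity of a part of a lemniscate

`k = nz f O > 0`, `N = k M`. CLAIM: for all `z : Fin N → ℂ` with values in `K = lem f 1 ∩ O`:
`‖det vandermonde z‖ ≤ (N!)² ρ^{nN} r^{N²/(2n)} / r^{k M (M-1)/2}`.

PROOF. `f = f₁ f₂`, `f₁ = ∏ (X - a)` over the roots in `O` (degree `k`), `f₂` over the others (no zero in `O`).
For `l < N` let `e l = M - 1 - l/k` (natural number division, `l/k ≤ M-1`). Take `w` from `exists_leja` with `G = lem f r` (compact: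
`lem_compact`; infinite: it contains a neighbourhood of a zero of `f`) and `h l = f₁^{e l}`; `g_l = f₁^{e l} ∏_{i<l} (X - w i)`
is monic of degree `k (e l) + l ≤ k(M-1) + k - 1 < N`. Put `P_l = g_l/g_l(w l)`. Then `‖P_l‖ ≤ 1` on `G`, `P_l (w i) = 0` for `i < l`,
`P_l (w l) = 1`: the matrix `(P_l (w i))` is triangular with diagonal `1`, determinant `1`. By `det_poly`:
`det vandermonde z = det vandermonde w * det (P_l (z i))`. By `part_max` (`P_l` is divisible by `f₁^{e l}`, `M = 1`):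
`‖P_l (z i)‖ ≤ r^{-e l}`, so `‖det (P_l (z i))‖ ≤ N! ∏ r^{-e l} = N! r^{-kM(M-1)/2}` (`det_bound`, `∑_{l<kM} (M-1-l/k) = k M(M-1)/2`). And
`vandermonde_le` for `w`.
-/

set_option autoImplicit false

open Polynomial Complex MeasureTheory Set
open scoped Real ComplexConjugate
open Pool.Agent.H88.LD

noncomputable section

namespace Pool.Agent.H88.LE

/-- sum of the exponents -/
theorem sum_exponents (k M : ℕ) (hk : 0 < k) :
    2 * ∑ l ∈ Finset.range (k * M), (M - 1 - l / k) = k * M * (M - 1) := by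
  induction M with
  | zero => simp
  | succ M ih =>
    rw [Nat.mul_succ, Finset.sum_range_add]
    have h1 : ∑ x ∈ Finset.range k, (M + 1 - 1 - (k * M + x) / k) = 0 := by
      refine Finset.sum_eq_zero fun x hx => ?_
      rw [Nat.mul_add_div hk, Nat.div_eq_of_lt (Finset.mem_range.1 hx)]
      omega
    have h2 : ∑ l ∈ Finset.range (k * M), (M + 1 - 1 - l / k) =
        ∑ l ∈ Finset.range (k * M), (M - 1 - l / k) + k * M := by
      have h3 : ∑ l ∈ Finset.range (k * M), (M + 1 - 1 - l / k) =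
          ∑ l ∈ Finset.range (k * M), ((M - 1 - l / k) + 1) := by
        refine Finset.sum_congr rfl fun l hl => ?_
        have h4 : l / k < M := Nat.div_lt_of_lt_mul (Finset.mem_range.1 hl)
        omega
      rw [h3, Finset.sum_add_distrib]
      simp
    rw [h1, h2, add_zero, mul_add, ih]
    cases M with
    | zero => simp
    | succ m =>
      simp only [Nat.add_sub_cancel]
      ring

/-- `f = f₁ f₂` with the zeros in `O` and the others -/
theorem exists_factor {f : ℂ[X]} (hf : f.Monic) (O : Set ℂ) :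
    ∃ f₁ f₂ : ℂ[X], f = f₁ * f₂ ∧ f₁.Monic ∧ f₁.natDegree = nz f O ∧
      ∀ z ∈ O, f₂.eval z ≠ 0 := by
  classical
  refine ⟨((f.roots.filter (fun a => a ∈ O)).map (fun a => X - C a)).prod,
    ((f.roots.filter (fun a => ¬ a ∈ O)).map (fun a => X - C a)).prod, ?_, ?_, ?_, ?_⟩
  · rw [← Multiset.prod_add, ← Multiset.map_add, Multiset.filter_add_not]
    have h1 := (IsAlgClosed.splits f).eq_prod_roots
    rw [hf.leadingCoeff, C_1, one_mul] at h1
    exact h1
  · exact monic_multiset_prod_of_monic _ _ fun a _ => monic_X_sub_C a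
  · rw [natDegree_multiset_prod_X_sub_C_eq_card]
    unfold nz
    congr 1
  · intro z hz h0
    rw [eval_multiset_prod, Multiset.prod_eq_zero_iff, Multiset.map_map] at h0
    obtain ⟨a, ha, h2⟩ := Multiset.mem_map.1 h0
    have h3 := (Multiset.mem_filter.1 ha).2
    simp only [Function.comp_apply, eval_sub, eval_X, eval_C] at h2
    rw [sub_eq_zero] at h2
    exact h3 (h2 ▸ hz)

private theorem cc_infinite {f : ℂ[X]} (hn0 : f.natDegree ≠ 0) {r : ℝ}
    (hr : 0 < r) : (lem f r).Infinite := by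
  have hdeg : f.degree ≠ 0 := fun h => hn0 (natDegree_eq_of_degree_eq_some h)
  obtain ⟨a, ha⟩ := IsAlgClosed.exists_root f hdeg
  have hc : Continuous (fun z : ℂ => ‖f.eval z‖) := by fun_prop
  have ho : IsOpen {z : ℂ | ‖f.eval z‖ < r} := isOpen_lt hc continuous_const
  have hm : a ∈ {z : ℂ | ‖f.eval z‖ < r} := by
    change ‖f.eval a‖ < r
    have h1 : f.eval a = 0 := ha
    rw [h1, norm_zero]
    exact hr
  have h2 : lem f r ∈ nhds a := by
    refine Filter.mem_of_superset (ho.mem_nhds hm) fun z hz => ?_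
    have h3 : ‖f.eval z‖ < r := hz
    exact h3.le
  exact infinite_of_mem_nhds a h2

/-- a family of normalised polynomials -/
private theorem cc_family {f : ℂ[X]} (hf : f.Monic) (hn0 : f.natDegree ≠ 0)
    {r : ℝ} (hr : 1 < r) {O O' : Set ℂ} (hS : Sep f r O O') (hk : 0 < nz f O)
    (M : ℕ) :
    ∃ (w : Fin (nz f O * M) → ℂ) (P : Fin (nz f O * M) → ℂ[X]),
      (∀ i, w i ∈ lem f r) ∧ (∀ j, (P j).natDegree < nz f O * M) ∧
      (∀ i j, i < j → (P j).eval (w i) = 0) ∧ (∀ j, (P j).eval (w j) = 1) ∧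
      ∀ z ∈ lem f 1 ∩ O, ∀ j, ‖(P j).eval z‖ ≤ 1 / r ^ (M - 1 - (j : ℕ) / nz f O) := by
  obtain ⟨f₁, f₂, h12, hm1, hd1, h2⟩ := exists_factor hf O
  have hr0 : 0 < r := by linarith
  obtain ⟨w, hw1, hw2⟩ := exists_leja (lem f r) (lem_compact hf hn0 r) (cc_infinite hn0 hr0)
    (fun l => f₁ ^ (M - 1 - l / nz f O)) (fun l => hm1.pow _)
  let g : ℕ → ℂ[X] := fun l => f₁ ^ (M - 1 - l / nz f O) * ∏ i ∈ Finset.range l, (X - C (w i))
  have hg : ∀ l, g l = f₁ ^ (M - 1 - l / nz f O) * ∏ i ∈ Finset.range l, (X - C (w i)) :=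
    fun l => rfl
  have hmp : ∀ l, (∏ i ∈ Finset.range l, (X - C (w i))).Monic :=
    fun l => monic_prod_of_monic _ _ fun i _ => monic_X_sub_C (w i)
  have hdp : ∀ l, (∏ i ∈ Finset.range l, (X - C (w i))).natDegree = l := by
    intro l
    rw [natDegree_prod_of_monic _ _ fun i _ => monic_X_sub_C (w i)]
    simp
  have hdg : ∀ l, l < nz f O * M → (g l).natDegree < nz f O * M := by
    intro l hl
    rw [hg, (hm1.pow _).natDegree_mul (hmp l), hm1.natDegree_pow, hd1, hdp]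
    have h3 : l / nz f O < M := Nat.div_lt_of_lt_mul hl
    have h4 := Nat.div_add_mod l (nz f O)
    have h5 := Nat.mod_lt l hk
    obtain ⟨q, hq⟩ : ∃ q, q = l / nz f O := ⟨_, rfl⟩
    rw [← hq] at h3 h4 ⊢
    obtain ⟨t, ht⟩ : ∃ t, M = q + 1 + t := ⟨M - (q + 1), by omega⟩
    have h6 : M - 1 - q = t := by omega
    rw [h6, ht]
    nlinarith
  refine ⟨fun i => w i, fun j => C ((g j).eval (w j))⁻¹ * g j, fun i => hw1 i, ?_, ?_, ?_, ?_⟩
  · intro j
    exact lt_of_le_of_lt (natDegree_C_mul_le _ _) (hdg j j.2)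
  · intro i j hij
    have h3 : (g j).eval (w i) = 0 := by
      rw [hg, eval_mul, eval_prod]
      have h4 : ∏ a ∈ Finset.range (j : ℕ), (X - C (w a)).eval (w i) = 0 := by
        refine Finset.prod_eq_zero (i := (i : ℕ)) (Finset.mem_range.2 hij) ?_
        simp
      rw [h4, mul_zero]
    change (C ((g j).eval (w j))⁻¹ * g j).eval (w i) = 0
    rw [eval_mul, h3, mul_zero]
  · intro j
    change (C ((g j).eval (w j))⁻¹ * g j).eval (w j) = 1
    rw [eval_mul, eval_C]
    exact inv_mul_cancel₀ (hw2 j).2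
  · intro z hz j
    have hne : (g j).eval (w j) ≠ 0 := (hw2 j).2
    refine part_max hf hn0 hr hS f₁ f₂ h12 h2 (C ((g j).eval (w j))⁻¹ * g j)
      (C ((g j).eval (w j))⁻¹ * ∏ i ∈ Finset.range (j : ℕ), (X - C (w i)))
      (M - 1 - (j : ℕ) / nz f O) ?_ 1 ?_ z hz
    · rw [hg]
      ring
    · intro x hx
      rw [eval_mul, eval_C, norm_mul, norm_inv]
      rw [inv_mul_le_iff₀ (norm_pos_iff.2 hne), mul_one]
      exact (hw2 j).1 x hx

theorem part_vandermonde {f : ℂ[X]} (hf : f.Monic) {n : ℕ} (hn : f.natDegree = n) (hn0 : 0 < n)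
    {r : ℝ} (hr : 1 < r) {O O' : Set ℂ} (hS : Sep f r O O') (hk : 0 < nz f O)
    (ρ : ℝ) (hρ : 1 ≤ ρ) (hbd : ∀ z ∈ lem f r, ‖z‖ ≤ ρ) (M : ℕ) (hM : 0 < M)
    (z : Fin (nz f O * M) → ℂ) (hz : ∀ i, z i ∈ lem f 1 ∩ O) :
    ‖(Matrix.vandermonde z).det‖ * r ^ ((nz f O : ℝ) * M * (M - 1) / 2) ≤
      ((nz f O * M).factorial : ℝ) ^ 2 *
        (ρ ^ (n * (nz f O * M)) * r ^ (((nz f O * M : ℕ) : ℝ) ^ 2 / (2 * n))) := by
  have hn1 : f.natDegree ≠ 0 := by omega
  have hr0 : 0 < r := by linarith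
  obtain ⟨w, P, hw, hdeg, htri, hdiag, hbnd⟩ := cc_family hf hn1 hr hS hk M
  have hdet : (Matrix.of fun i j => (P j).eval (w i)).det = 1 := by
    rw [Matrix.det_of_isLowerTriangular]
    · refine Finset.prod_eq_one fun i _ => ?_
      rw [Matrix.of_apply]
      exact hdiag i
    · intro i j hij
      rw [Matrix.of_apply]
      exact htri i j (OrderDual.toDual_lt_toDual.1 hij)
  have hpoly := det_poly P hdeg z w
  rw [hdet, mul_one] at hpoly
  have hb := det_bound (Matrix.of fun i j => (P j).eval (z i))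
    (fun j => 1 / r ^ (M - 1 - (j : ℕ) / nz f O)) (fun i j => by
      rw [Matrix.of_apply]
      exact hbnd (z i) (hz i) j)
  have hV := vandermonde_le hf hn hn0 r hr.le ρ hρ hbd w hw
  have hprod : ∏ j : Fin (nz f O * M), 1 / r ^ (M - 1 - (j : ℕ) / nz f O) =
      1 / r ^ (∑ l ∈ Finset.range (nz f O * M), (M - 1 - l / nz f O)) := by
    rw [← Finset.prod_pow_eq_pow_sum, Finset.prod_range, Finset.prod_div_distrib]
    simp
  have hexp : r ^ ((nz f O : ℝ) * M * (M - 1) / 2) =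
      r ^ (∑ l ∈ Finset.range (nz f O * M), (M - 1 - l / nz f O)) := by
    rw [← Real.rpow_natCast]
    congr 1
    have h3 := sum_exponents (nz f O) M hk
    have h4 : (2 : ℝ) * ((∑ l ∈ Finset.range (nz f O * M), (M - 1 - l / nz f O) : ℕ) : ℝ) =
        (nz f O : ℝ) * M * (M - 1) := by
      have h5 : (((2 * ∑ l ∈ Finset.range (nz f O * M), (M - 1 - l / nz f O) : ℕ)) : ℝ) =
          ((nz f O * M * (M - 1) : ℕ) : ℝ) := by rw [h3]
      rw [Nat.cast_mul, Nat.cast_mul, Nat.cast_mul, Nat.cast_sub (show 1 ≤ M from hM)] at h5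
      simpa using h5
    linarith
  rw [hprod] at hb
  rw [hexp, ← hpoly, norm_mul]
  have hE : 0 < r ^ (∑ l ∈ Finset.range (nz f O * M), (M - 1 - l / nz f O)) := pow_pos hr0 _
  generalize r ^ (∑ l ∈ Finset.range (nz f O * M), (M - 1 - l / nz f O)) = E at hb hE ⊢
  have h6 : ‖(Matrix.of fun i j => (P j).eval (z i)).det‖ * E ≤
      ((nz f O * M).factorial : ℝ) := by
    calc ‖(Matrix.of fun i j => (P j).eval (z i)).det‖ * E
        ≤ (((nz f O * M).factorial : ℝ) * (1 / E)) * E := mul_le_mul_of_nonneg_right hb hE.le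
      _ = ((nz f O * M).factorial : ℝ) := by field_simp
  have hV0 : 0 ≤ ‖(Matrix.vandermonde w).det‖ := norm_nonneg _
  have hF0 : (0 : ℝ) ≤ ((nz f O * M).factorial : ℝ) := Nat.cast_nonneg _
  calc ‖(Matrix.vandermonde w).det‖ * ‖(Matrix.of fun i j => (P j).eval (z i)).det‖ * E
      = ‖(Matrix.vandermonde w).det‖ * (‖(Matrix.of fun i j => (P j).eval (z i)).det‖ * E) := by
        ring
    _ ≤ ((nz f O * M).factorial *
          (ρ ^ (n * (nz f O * M)) * r ^ (((nz f O * M : ℕ) : ℝ) ^ 2 / (2 * n)))) *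
          ((nz f O * M).factorial : ℝ) :=
        mul_le_mul hV h6 (by positivity) (le_trans hV0 hV)
    _ = ((nz f O * M).factorial : ℝ) ^ 2 *
        (ρ ^ (n * (nz f O * M)) * r ^ (((nz f O * M : ℕ) : ℝ) ^ 2 / (2 * n))) := by ring

end Pool.Agent.H88.LE
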