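import Pool.Agent.H88.LE.CC
import Pool.Agent.H88.LE.CDa

/-!
# LE-CD: a polynomial for the part

PROOF of `growth_compare`: take logarithms; `log N! ≤ N log N`; the quadratic term `(N²/2) log (c/c₀)` beats the others.

PROOF of `part_poly`. `k = nz f O`, `c₀ = r^{1/n - 1/k} < c`. `K = lem f 1 ∩ O` is compact (`part_compact`) and nonempty (a zero of `f` in
`O`). For `N = kM`, by `part_vandermonde` all determinants are
`≤ (N!)² ρ^{nN} r^{N²/(2n) - N²/(2k) + N/2} = (N!)² (ρ^n r^{1/2})^N c₀^{N²/2}` (`kM(M-1)/2 = N²/(2k) - N/2`), which is `< c^{N(N-1)/2}` for large `M`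
(`growth_compare`). `fekete` gives `z : Fin N → K`; `p = ∏ (X - C (z i))`.
-/

set_option autoImplicit false

open Polynomial Complex MeasureTheory Set
open scoped Real ComplexConjugate
open Pool.Agent.H88.LD

noncomputable section

namespace Pool.Agent.H88.LE

theorem growth_compare (c₀ c D : ℝ) (h0 : 0 < c₀) (hc : c₀ < c) (hD : 0 < D) :
    ∃ N₁ : ℕ, ∀ N : ℕ, N₁ ≤ N →
      (N.factorial : ℝ) ^ 2 * (D ^ N * c₀ ^ ((N : ℝ) ^ 2 / 2)) < c ^ ((N : ℝ) * (N - 1) / 2) := by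
  have hcpos : 0 < c := h0.trans hc
  have hδ : 0 < Real.log c - Real.log c₀ := by
    have := Real.log_lt_log h0 hc
    linarith
  obtain ⟨δ, hδe⟩ : ∃ δ, δ = Real.log c - Real.log c₀ := ⟨_, rfl⟩
  rw [← hδe] at hδ
  have h1 : ∀ᶠ N : ℕ in Filter.atTop, ‖Real.log (N : ℝ)‖ ≤ δ / 8 * ‖(id (N : ℝ) : ℝ)‖ :=
    tendsto_natCast_atTop_atTop.eventually
      (Real.isLittleO_log_id_atTop.bound (by positivity : 0 < δ / 8))
  have h2 : ∀ᶠ N : ℕ in Filter.atTop,
      4 * (|Real.log D| + |Real.log c|) / δ < (N : ℝ) :=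
    tendsto_natCast_atTop_atTop.eventually (Filter.eventually_gt_atTop _)
  obtain ⟨N₁, hN₁⟩ := Filter.eventually_atTop.1 (h1.and (h2.and (Filter.eventually_ge_atTop 1)))
  refine ⟨N₁, fun N hN => ?_⟩
  obtain ⟨ha, hb, hN1⟩ := hN₁ N hN
  have hNpos : (0 : ℝ) < N := by exact_mod_cast hN1
  have hN1' : (1 : ℝ) ≤ N := by exact_mod_cast hN1
  have hlog0 : 0 ≤ Real.log (N : ℝ) := Real.log_nonneg hN1'
  rw [id, Real.norm_of_nonneg hlog0, Real.norm_of_nonneg hNpos.le] at ha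
  rw [div_lt_iff₀ hδ] at hb
  have hfpos : (0 : ℝ) < (N.factorial : ℝ) := by exact_mod_cast N.factorial_pos
  have hf : Real.log (N.factorial : ℝ) ≤ N * Real.log N := by
    rw [← Real.log_pow]
    refine Real.log_le_log hfpos ?_
    exact_mod_cast Nat.factorial_le_pow N
  rw [← Real.log_lt_log_iff (by positivity) (by positivity)]
  rw [Real.log_mul (by positivity) (by positivity), Real.log_mul (by positivity) (by positivity),
    Real.log_pow, Real.log_pow, Real.log_rpow h0, Real.log_rpow hcpos]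
  have hD1 := le_abs_self (Real.log D)
  have hc1 := le_abs_self (Real.log c)
  have h3 : Real.log c₀ = Real.log c - δ := by rw [hδe]; ring
  rw [h3]
  push_cast
  have h4 : 2 * Real.log N + Real.log D + Real.log c / 2 < δ / 2 * N := by
    have h5 : Real.log c / 2 ≤ |Real.log c| := by
      have := abs_nonneg (Real.log c)
      linarith
    nlinarith
  have h6 : N * (2 * Real.log N + Real.log D + Real.log c / 2) < N * (δ / 2 * N) :=
    mul_lt_mul_of_pos_left h4 hNpos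
  nlinarith

private theorem cd_bound {f : ℂ[X]} (hf : f.Monic) (hn0 : f.natDegree ≠ 0) (r : ℝ) :
    ∃ ρ : ℝ, 1 ≤ ρ ∧ ∀ z ∈ lem f r, ‖z‖ ≤ ρ := by
  obtain ⟨C, hC⟩ := (lem_compact hf hn0 r).isBounded.exists_norm_le
  exact ⟨max 1 C, le_max_left _ _, fun z hz => (hC z hz).trans (le_max_right _ _)⟩

private theorem cd_nonempty {f : ℂ[X]} {O : Set ℂ} (hk : 0 < nz f O) :
    (lem f 1 ∩ O).Nonempty := by
  classical
  unfold nz at hk
  obtain ⟨a, ha⟩ := Multiset.card_pos_iff_exists_mem.1 hk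
  obtain ⟨h1, h2⟩ := Multiset.mem_filter.1 ha
  refine ⟨a, ?_, h2⟩
  have h3 : f.eval a = 0 := isRoot_of_mem_roots h1
  change ‖f.eval a‖ ≤ 1
  rw [h3, norm_zero]
  exact zero_le_one

private theorem cd_natDegree {N : ℕ} (z : Fin N → ℂ) :
    (∏ i, (X - C (z i))).natDegree = N := by
  rw [natDegree_prod_of_monic _ _ fun i _ => monic_X_sub_C (z i)]
  simp

theorem part_poly {f : ℂ[X]} (hf : f.Monic) {n : ℕ} (hn : f.natDegree = n) (hn0 : 0 < n)
    {r : ℝ} (hr : 1 < r) {O O' : Set ℂ} (hS : Sep f r O O') (hk : 0 < nz f O) (c : ℝ)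
    (hc : r ^ ((1 : ℝ) / n - 1 / nz f O) < c) :
    ∃ p : ℂ[X], p.Monic ∧ p.natDegree ≠ 0 ∧ (∀ a, p.eval a = 0 → a ∈ lem f 1 ∩ O) ∧
      lem f 1 ∩ O ⊆ lem p (c ^ p.natDegree) := by
  have hn1 : f.natDegree ≠ 0 := by omega
  have hr0 : 0 < r := by linarith
  obtain ⟨ρ, hρ, hbd⟩ := cd_bound hf hn1 r
  have hc0 : 0 < r ^ ((1 : ℝ) / n - 1 / nz f O) := Real.rpow_pos_of_pos hr0 _
  have hD : 0 < ρ ^ n * r ^ ((1 : ℝ) / 2) := by positivity
  obtain ⟨N₁, hN₁⟩ := growth_compare _ c _ hc0 hc hD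
  have hM : 0 < N₁ + 1 := Nat.succ_pos _
  have hkM : N₁ ≤ nz f O * (N₁ + 1) := by nlinarith
  have hkM0 : 0 < nz f O * (N₁ + 1) := Nat.mul_pos hk hM
  obtain ⟨N, hN, z, hz, hzb⟩ := fekete (lem f 1 ∩ O) (part_compact hf hn1 hr.le hS)
    (cd_nonempty hk) c (hc0.trans hc) (nz f O * (N₁ + 1)) hkM0 (by
      intro z hz
      have h1 := part_vandermonde hf hn hn0 hr hS hk ρ hρ hbd (N₁ + 1) hM z hz
      have h2 := hN₁ _ hkM
      refine lt_of_le_of_lt ?_ h2
      have hE : 0 < r ^ ((nz f O : ℝ) * ((N₁ + 1 : ℕ) : ℝ) * (((N₁ + 1 : ℕ) : ℝ) - 1) / 2) :=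
        Real.rpow_pos_of_pos hr0 _
      refine le_of_mul_le_mul_right (h1.trans (le_of_eq ?_)) hE
      rw [mul_assoc]
      congr 1
      have hk0 : (nz f O : ℝ) ≠ 0 := by
        have : nz f O ≠ 0 := by omega
        exact_mod_cast this
      have hnn : (n : ℝ) ≠ 0 := by
        have : n ≠ 0 := by omega
        exact_mod_cast this
      rw [mul_pow, ← pow_mul, mul_assoc, mul_assoc]
      congr 1
      rw [← Real.rpow_mul hr0.le, ← Real.rpow_natCast (r ^ ((1 : ℝ) / 2)),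
        ← Real.rpow_mul hr0.le,
        ← Real.rpow_add hr0, ← Real.rpow_add hr0]
      congr 1
      push_cast
      field_simp
      ring)
  refine ⟨∏ i, (X - C (z i)), monic_prod_of_monic _ _ fun i _ => monic_X_sub_C (z i), ?_, ?_, ?_⟩
  · rw [cd_natDegree]
    omega
  · intro a ha
    rw [eval_prod, Finset.prod_eq_zero_iff] at ha
    obtain ⟨i, _, hi⟩ := ha
    rw [eval_sub, eval_X, eval_C, sub_eq_zero] at hi
    rw [hi]
    exact hz i
  · intro x hx
    change ‖(∏ i, (X - C (z i))).eval x‖ ≤ c ^ (∏ i, (X - C (z i))).natDegree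
    rw [cd_natDegree, eval_prod, norm_prod]
    refine le_trans (le_of_eq ?_) (hzb x hx)
    refine Finset.prod_congr rfl fun i _ => ?_
    rw [eval_sub, eval_X, eval_C]

end Pool.Agent.H88.LE
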