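import Pool.Agent.H88.LD.Defs

/-!
# Project LE (MP_ff60c2_an, stage 2): lemniscates are covered by discs of total radius 9/4

Definitions of stage 2. Those of stage 1 are in `Pool/Agent/H88/LD/Defs.lean`.

* `lem f r = {|f| ≤ r}`; `Cov S ρ`: `S` has a finite disc cover of total radius `≤ ρ`; `Hc S` = infimum.
* `Sep f r O O'`: `O, O'` are disjoint open sets which cover `{|f| ≤ r}`.
* `nz f O`: number of zeros of `f` in `O` with multiplicity; `areaP f O u` = area of `{|f| < e^u} ∩ O`.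
* `PLifts f O k a b`: the lifts of `exp` through `f` on the strip `a < Re ω < b` with values in `O`.
* `HLifts f n a`: lifts on the half plane `a < Re ω`.
* `ConnCov N S`: `S` is a union of `N` preconnected sets.
* `B τ = 2.54 τ + τ³`: lower bound for the solutions of the lens differential inequality.
* `artx x = (1/2) log ((1+x)/(1-x))`.
-/

set_option autoImplicit false

open Polynomial Complex MeasureTheory Set
open scoped Real ComplexConjugate
open Pool.Agent.H88.LD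

noncomputable section

namespace Pool.Agent.H88.LE

/-- the closed lemniscate `{|f| ≤ r}` -/
def lem (f : ℂ[X]) (r : ℝ) : Set ℂ := {z : ℂ | ‖f.eval z‖ ≤ r}

/-- `S` has a finite cover by closed discs of total radius at most `ρ` -/
def Cov (S : Set ℂ) (ρ : ℝ) : Prop :=
  ∃ (m : ℕ) (M : Fin m → ℂ) (R : Fin m → ℝ), (∀ c, 0 ≤ R c) ∧
    (∀ z ∈ S, ∃ c, ‖z - M c‖ ≤ R c) ∧ ∑ c, R c ≤ ρ

/-- the infimum of the total radii of finite disc covers -/
def Hc (S : Set ℂ) : ℝ := sInf {ρ : ℝ | Cov S ρ}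

/-- `O` and `O'` separate the lemniscate `{|f| ≤ r}` -/
structure Sep (f : ℂ[X]) (r : ℝ) (O O' : Set ℂ) : Prop where
  isOpen : IsOpen O
  isOpen' : IsOpen O'
  disj : Disjoint O O'
  cover : lem f r ⊆ O ∪ O'

theorem Sep.symm {f : ℂ[X]} {r : ℝ} {O O' : Set ℂ} (h : Sep f r O O') : Sep f r O' O :=
  ⟨h.isOpen', h.isOpen, h.disj.symm, by rw [union_comm]; exact h.cover⟩

open Classical in
/-- the number of zeros of `f` in `O`, with multiplicity -/
def nz (f : ℂ[X]) (O : Set ℂ) : ℕ := Multiset.card (f.roots.filter (fun a => a ∈ O))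

/-- the area of `{|f| < e^u} ∩ O` -/
def areaP (f : ℂ[X]) (O : Set ℂ) (u : ℝ) : ℝ :=
  (volume ({z : ℂ | ‖f.eval z‖ < Real.exp u} ∩ O)).toReal

/-- the `k` holomorphic lifts of `exp` through `f` on the strip `a < Re ω < b` with values in `O` -/
structure PLifts (f : ℂ[X]) (O : Set ℂ) (k : ℕ) (a b : ℝ) where
  Z : Fin k → ℂ → ℂ
  σ : Equiv.Perm (Fin k)
  diff : ∀ i, DifferentiableOn ℂ (Z i) (strip a b)
  eval : ∀ i, ∀ ω ∈ strip a b, f.eval (Z i ω) = Complex.exp ω
  inj : ∀ ω ∈ strip a b, Function.Injective (fun i => Z i ω)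
  shift : ∀ i, ∀ ω ∈ strip a b, Z i (ω + 2 * π * I) = Z (σ i) ω
  mem : ∀ i, ∀ ω ∈ strip a b, Z i ω ∈ O
  surj : ∀ ω ∈ strip a b, ∀ z ∈ O, f.eval z = Complex.exp ω → ∃ i, Z i ω = z

/-- the part of the level curve `|f| = e^u` in `O` -/
def PLifts.arc {f : ℂ[X]} {O : Set ℂ} {k : ℕ} {a b : ℝ} (L : PLifts f O k a b) (u : ℝ)
    (hu : u ∈ Ioo a b) : ArcSys k where
  F i φ := L.Z i (u + φ * I)
  F' i φ := deriv (L.Z i) (u + φ * I) * I
  σ := L.σ
  hasDeriv i φ := by
    have h1 : HasDerivAt (L.Z i) (deriv (L.Z i) (u + φ * I)) (u + φ * I) :=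
      ((L.diff i).differentiableAt ((isOpen_strip a b).mem_nhds (mem_strip hu φ))).hasDerivAt
    have h2 : HasDerivAt (fun φ : ℝ => (u : ℂ) + φ * I) I φ := by
      have := (Complex.ofRealCLM.hasDerivAt (x := φ)).mul_const I
      simpa using this.const_add (u : ℂ)
    exact h1.comp φ h2
  cont i := by
    have h1 : ContinuousOn (deriv (L.Z i)) (strip a b) :=
      ((L.diff i).deriv (isOpen_strip a b)).continuousOn
    have h2 : Continuous (fun φ : ℝ => (u : ℂ) + φ * I) := by fun_prop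
    exact (h1.comp_continuous h2 (mem_strip hu)).mul continuous_const
  shift i φ := by
    have h := L.shift i _ (mem_strip hu φ)
    rw [← h]
    congr 1
    push_cast
    ring

/-- the half plane `a < Re ω` -/
def half (a : ℝ) : Set ℂ := {ω : ℂ | a < ω.re}

/-- `n` holomorphic lifts of `exp` through `f` on the half plane `a < Re ω` -/
structure HLifts (f : ℂ[X]) (n : ℕ) (a : ℝ) where
  Z : Fin n → ℂ → ℂ
  σ : Equiv.Perm (Fin n)
  diff : ∀ i, DifferentiableOn ℂ (Z i) (half a)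
  eval : ∀ i, ∀ ω ∈ half a, f.eval (Z i ω) = Complex.exp ω
  inj : ∀ ω ∈ half a, Function.Injective (fun i => Z i ω)
  shift : ∀ i, ∀ ω ∈ half a, Z i (ω + 2 * π * I) = Z (σ i) ω

/-- `S` is the union of `N` preconnected sets -/
def ConnCov (N : ℕ) (S : Set ℂ) : Prop :=
  ∃ C : Fin N → Set ℂ, (∀ i, IsPreconnected (C i)) ∧ S = ⋃ i, C i

/-- lower bound for the solutions of the lens differential inequality -/
def B (τ : ℝ) : ℝ := 127 / 50 * τ + τ ^ 3

/-- `artx x = (1/2) log ((1+x)/(1-x))` -/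
def artx (x : ℝ) : ℝ := 1 / 2 * Real.log ((1 + x) / (1 - x))

/-- growth properties on `[0, T)` of the normalised area of a part -/
structure LensGrowthOn (α : ℝ → ℝ) (T : ℝ) : Prop where
  mono : ∀ s₁ s₂, 0 ≤ s₁ → s₁ ≤ s₂ → s₂ < T → α s₁ ≤ α s₂
  nonneg : ∀ s, 0 ≤ s → s < T → 0 ≤ α s
  lens : ∀ q, 0 < q → q ≤ 1 → ∀ s₁ s₂, 0 ≤ s₁ → s₁ < s₂ → s₂ < T → α s₂ ≤ π →
    (s₂ - s₁) / (2 * π) * (q * α s₁ + 2 * W q / q) ^ 2 ≤ α s₂ - α s₁
  iso : ∀ s₁ s₂, 0 ≤ s₁ → s₁ < s₂ → s₂ < T → 2 * (s₂ - s₁) * α s₁ ≤ α s₂ - α s₁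

/-- the constant of the induction, slightly less than `9/4` -/
def kap : ℝ := 2249 / 1000

/-- lower bound for the normalised area of two parts at time `t`, if the smaller one has mass `≥ t/v` -/
def alow (v t : ℝ) : ℝ :=
  127 / 50 * t / (1 - 50 / 127 * t ^ 2 *
    (min (1 / v / (t * (1 / v ^ 2 + 50 / 127))) (1 / 2 / (1 / 4 + 50 / 127 * t ^ 2)) +
      1 / (1 + 50 / 127 * t ^ 2)))

end Pool.Agent.H88.LE
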