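import Pool.Agent.H88.LE.KA

/-!
# LE-KB: counting components

PROOF of `connCov_part`. `lem f 1 = ⋃ C i`. The `C i` that meet `O` are contained in `O` (`IsPreconnected`, `O, O'` disjoint open
covering). Their union is `lem f 1 ∩ O`. A zero of `f` in `O'` (exists since `0 < nz f O'`) lies in some `C j`, which does not meet `O`. So
there are less than `N` of them.

PROOF of `connCov_poly`. `K = ⋃_{i<N} C i ⊆ L = lem p ρ`. For `i` with `C i` nonempty choose `x i ∈ C i`, and let
`C' i = connectedComponentIn L (x i)` (`∅` for empty `C i`). Every `z ∈ L`: its component in `L` contains a zero `a` of `p`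
(`zero_in_component`), `a ∈ K`, so `a ∈ C i` for some `i`, and `C i ⊆ L` is preconnected and contains `x i` and `a`: so `z ∈ C' i`.

PROOF of `connCov_scale`: images under `z ↦ c z`.
-/

set_option autoImplicit false

open Polynomial Complex MeasureTheory Set
open scoped Real ComplexConjugate
open Pool.Agent.H88.LD

noncomputable section

namespace Pool.Agent.H88.LE

theorem connCov_part {f : ℂ[X]} {r : ℝ} (hr : 1 ≤ r) {O O' : Set ℂ} (hS : Sep f r O O')
    (h' : 0 < nz f O') {N : ℕ} (hN : ConnCov N (lem f 1)) :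
    ∃ N' : ℕ, N' < N ∧ ConnCov N' (lem f 1 ∩ O) := by
  classical
  obtain ⟨C, hC, hU⟩ := hN
  have hsub : ∀ i, C i ⊆ O ∪ O' := by
    intro i z hz
    have h1 : z ∈ lem f 1 := by
      rw [hU]
      exact mem_iUnion.2 ⟨i, hz⟩
    exact hS.cover (show ‖f.eval z‖ ≤ r from le_trans h1 hr)
  have hin : ∀ i, (C i ∩ O).Nonempty → C i ⊆ O := fun i hi =>
    (hC i).subset_left_of_subset_union hS.isOpen hS.isOpen' hS.disj (hsub i) hi
  have hin' : ∀ i, (C i ∩ O').Nonempty → C i ⊆ O' := fun i hi =>
    (hC i).subset_right_of_subset_union hS.isOpen hS.isOpen' hS.disj (hsub i) hi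
  set J : Finset (Fin N) := Finset.univ.filter (fun i => (C i ∩ O).Nonempty) with hJ
  obtain ⟨a, ha⟩ := Multiset.card_pos_iff_exists_mem.1 h'
  obtain ⟨ha1, ha2⟩ := Multiset.mem_filter.1 ha
  have ha0 : f.eval a = 0 := (mem_roots'.1 ha1).2
  have haL : a ∈ lem f 1 := by
    change ‖f.eval a‖ ≤ 1
    rw [ha0, norm_zero]
    exact zero_le_one
  rw [hU] at haL
  obtain ⟨j, hj⟩ := mem_iUnion.1 haL
  have hjJ : j ∉ J := by
    intro h
    have h1 := (Finset.mem_filter.1 h).2
    have h2 : C j ⊆ O := hin j h1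
    exact Set.disjoint_left.1 hS.disj (h2 hj) ha2
  refine ⟨J.card, ?_, fun i => C (J.equivFin.symm i), fun i => hC _, ?_⟩
  · have h1 : J ⊂ Finset.univ := by
      refine Finset.ssubset_univ_iff.2 ?_
      intro h
      exact hjJ (h ▸ Finset.mem_univ j)
    have h2 := Finset.card_lt_card h1
    rwa [Finset.card_univ, Fintype.card_fin] at h2
  · refine Subset.antisymm ?_ ?_
    · rintro z ⟨hz, hzO⟩
      rw [hU] at hz
      obtain ⟨i, hi⟩ := mem_iUnion.1 hz
      have hiJ : i ∈ J := Finset.mem_filter.2 ⟨Finset.mem_univ _, ⟨z, hi, hzO⟩⟩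
      refine mem_iUnion.2 ⟨J.equivFin ⟨i, hiJ⟩, ?_⟩
      rw [Equiv.symm_apply_apply]
      exact hi
    · refine iUnion_subset fun i => ?_
      intro z hz
      have h1 := (Finset.mem_filter.1 (J.equivFin.symm i).2).2
      refine ⟨?_, hin _ h1 hz⟩
      rw [hU]
      exact mem_iUnion.2 ⟨_, hz⟩

theorem connCov_poly {p : ℂ[X]} (hp : p.Monic) (hn0 : p.natDegree ≠ 0) (ρ : ℝ) (K : Set ℂ)
    (hz : ∀ a, p.eval a = 0 → a ∈ K) (hK : K ⊆ lem p ρ) {N : ℕ} (hN : ConnCov N K) :
    ConnCov N (lem p ρ) := by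
  classical
  obtain ⟨C, hC, hU⟩ := hN
  have hsub : ∀ i, C i ⊆ lem p ρ := by
    intro i z hzi
    apply hK
    rw [hU]
    exact mem_iUnion.2 ⟨i, hzi⟩
  refine ⟨fun i => if h : (C i).Nonempty then connectedComponentIn (lem p ρ) h.some else ∅, ?_, ?_⟩
  · intro i
    by_cases h : (C i).Nonempty
    · simp only [h, dif_pos]
      exact isPreconnected_connectedComponentIn
    · simp only [h, dif_neg, not_false_iff]
      exact isPreconnected_empty
  · refine Subset.antisymm ?_ ?_
    · intro z hzL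
      obtain ⟨a, ha, haC⟩ := zero_in_component hp hn0 ρ z hzL
      have haK := hz a ha
      rw [hU] at haK
      obtain ⟨i, hi⟩ := mem_iUnion.1 haK
      have hne : (C i).Nonempty := ⟨a, hi⟩
      refine mem_iUnion.2 ⟨i, ?_⟩
      simp only [hne, dif_pos]
      have h1 : hne.some ∈ connectedComponentIn (lem p ρ) a :=
        (hC i).subset_connectedComponentIn hi (hsub i) hne.some_mem
      rw [← connectedComponentIn_eq h1, ← connectedComponentIn_eq haC]
      exact mem_connectedComponentIn hzL
    · refine iUnion_subset fun i => ?_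
      by_cases h : (C i).Nonempty
      · simp only [h, dif_pos]
        exact connectedComponentIn_subset _ _
      · simp only [h, dif_neg, not_false_iff]
        exact empty_subset _

theorem connCov_scale {S : Set ℂ} {N : ℕ} (hN : ConnCov N S) (c : ℂ) :
    ConnCov N ((fun z => c * z) '' S) := by
  obtain ⟨C, hC, hU⟩ := hN
  refine ⟨fun i => (fun z => c * z) '' C i, fun i => (hC i).image _ (by fun_prop), ?_⟩
  rw [hU, image_iUnion]

end Pool.Agent.H88.LE
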