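import Pool.Agent.H88.LE.IA
import Pool.Agent.H88.LE.CD
import Pool.Agent.H88.LE.KB

/-!
# LE-IB: the induction hypothesis gives a bound for the parts

`Good N`: every monic polynomial whose lemniscate is a union of `N` preconnected sets has covers of total radius `ρ`
for every `ρ > kap`.

PROOF of `scaled`. `g = C (c^(-d)) * p.comp (C c * X)` (`d = natDegree p`) is monic of degree `d`, `‖g z‖ = c^{-d} ‖p (cz)‖`, so
`lem g 1 = c^{-1} lem p (c^d)`. `ConnCov N (lem g 1)` by `connCov_scale`. `Good N` gives `Cov (lem g 1) ρ'` for every `ρ' > kap`, scale back by `c`.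

PROOF of `part_Hc`. Let `K = lem f 1 ∩ O`. `connCov_part`: `ConnCov N' K` with `N' < N`. For every `c > c₀ = r^{1/n - 1/k}` take `p` from
`part_poly`; `connCov_poly`: `ConnCov N' (lem p (c^d))`; `scaled`: `Cov (lem p (c^d)) ρ` for all `ρ > kap * c`, so `Cov K ρ`. So `Hc K ≤ kap c`
for all `c > c₀`, hence `Hc K ≤ kap c₀`.
-/

set_option autoImplicit false

open Polynomial Complex MeasureTheory Set
open scoped Real ComplexConjugate
open Pool.Agent.H88.LD

noncomputable section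

namespace Pool.Agent.H88.LE

/-- the induction statement -/
def Good (N : ℕ) : Prop :=
  ∀ f : ℂ[X], f.Monic → f.natDegree ≠ 0 → ConnCov N (lem f 1) → ∀ ρ, kap < ρ → Cov (lem f 1) ρ

private theorem ib_lem_scale (p : ℂ[X]) (c : ℝ) (hc : 0 < c) :
    lem (C (((c : ℂ) ^ p.natDegree)⁻¹) * p.comp (C (c : ℂ) * X)) 1 =
      (fun z => ((c⁻¹ : ℝ) : ℂ) * z) '' lem p (c ^ p.natDegree) := by
  have hcC : (c : ℂ) ≠ 0 := by exact_mod_cast hc.ne'
  have hpow : (0 : ℝ) < c ^ p.natDegree := pow_pos hc _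
  have key : ∀ z : ℂ, ‖(C (((c : ℂ) ^ p.natDegree)⁻¹) * p.comp (C (c : ℂ) * X)).eval z‖ ≤ 1 ↔
      ‖p.eval ((c : ℂ) * z)‖ ≤ c ^ p.natDegree := by
    intro z
    rw [eval_mul, eval_C, eval_comp, eval_mul, eval_C, eval_X, norm_mul, norm_inv, norm_pow,
      Complex.norm_real, Real.norm_of_nonneg hc.le, inv_mul_le_iff₀ hpow, mul_one]
  ext z
  constructor
  · intro hz
    refine ⟨(c : ℂ) * z, (key z).1 hz, ?_⟩
    push_cast
    field_simp
  · rintro ⟨y, hy, rfl⟩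
    refine (key _).2 ?_
    have h1 : (c : ℂ) * (((c⁻¹ : ℝ) : ℂ) * y) = y := by
      push_cast
      field_simp
    rw [h1]
    exact hy

private theorem ib_natDegree (p : ℂ[X]) (c : ℝ) (hc : 0 < c) :
    (p.comp (C (c : ℂ) * X)).natDegree = p.natDegree := by
  have hcC : (c : ℂ) ≠ 0 := by exact_mod_cast hc.ne'
  rw [natDegree_comp, natDegree_C_mul_X _ hcC, mul_one]

private theorem ib_monic {p : ℂ[X]} (hp : p.Monic) (c : ℝ) (hc : 0 < c) :
    (C (((c : ℂ) ^ p.natDegree)⁻¹) * p.comp (C (c : ℂ) * X)).Monic := by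
  have hcC : (c : ℂ) ≠ 0 := by exact_mod_cast hc.ne'
  have h1 : (p.comp (C (c : ℂ) * X)).leadingCoeff = (c : ℂ) ^ p.natDegree := by
    rw [leadingCoeff_comp, hp.leadingCoeff, one_mul, leadingCoeff_C_mul_X]
    rw [natDegree_C_mul_X _ hcC]
    exact one_ne_zero
  rw [Monic, leadingCoeff_mul, leadingCoeff_C, h1, inv_mul_cancel₀]
  exact pow_ne_zero _ hcC

theorem scaled {N : ℕ} (hG : Good N) {p : ℂ[X]} (hp : p.Monic) (hn0 : p.natDegree ≠ 0) (c : ℝ)
    (hc : 0 < c) (hN : ConnCov N (lem p (c ^ p.natDegree))) (ρ : ℝ) (hρ : kap * c < ρ) :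
    Cov (lem p (c ^ p.natDegree)) ρ := by
  have hcC : (c : ℂ) ≠ 0 := by exact_mod_cast hc.ne'
  have hl := ib_lem_scale p c hc
  have hm := ib_monic hp c hc
  have hd : (C (((c : ℂ) ^ p.natDegree)⁻¹) * p.comp (C (c : ℂ) * X)).natDegree ≠ 0 := by
    rw [natDegree_C_mul (inv_ne_zero (pow_ne_zero _ hcC)), ib_natDegree p c hc]
    exact hn0
  have hcov : ConnCov N (lem (C (((c : ℂ) ^ p.natDegree)⁻¹) * p.comp (C (c : ℂ) * X)) 1) := by
    rw [hl]
    exact connCov_scale hN _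
  have hρ' : kap < ρ / c := by rwa [lt_div_iff₀ hc]
  have h1 := hG _ hm hd hcov (ρ / c) hρ'
  have h2 := h1.scale (c : ℂ)
  rw [hl, image_image, Complex.norm_real, Real.norm_of_nonneg hc.le, mul_div_cancel₀ _ hc.ne'] at h2
  refine h2.subset ?_
  intro z hz
  refine ⟨z, hz, ?_⟩
  push_cast
  field_simp

theorem part_Hc {N : ℕ} (hG : ∀ N' < N, Good N') {f : ℂ[X]} (hf : f.Monic) {n : ℕ}
    (hn : f.natDegree = n) (hn0 : 0 < n) (hN : ConnCov N (lem f 1)) {r : ℝ} (hr : 1 < r)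
    {O O' : Set ℂ} (hS : Sep f r O O') (hk : 0 < nz f O) (hk' : 0 < nz f O') :
    Hc (lem f 1 ∩ O) ≤ kap * r ^ ((1 : ℝ) / n - 1 / nz f O) := by
  obtain ⟨N', hN', hcc⟩ := connCov_part hr.le hS hk' hN
  have hkap : (0 : ℝ) < kap := by unfold kap; norm_num
  have hc0 : 0 < r ^ ((1 : ℝ) / n - 1 / nz f O) := Real.rpow_pos_of_pos (by linarith) _
  refine Hc_le_of_forall fun ρ hρ => ?_
  obtain ⟨c, hc1, hc2⟩ : ∃ c : ℝ, r ^ ((1 : ℝ) / n - 1 / nz f O) < c ∧ kap * c < ρ := by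
    have h1 : r ^ ((1 : ℝ) / n - 1 / nz f O) < ρ / kap := by
      rw [lt_div_iff₀ hkap]
      linarith
    obtain ⟨c, h2, h3⟩ := exists_between h1
    refine ⟨c, h2, ?_⟩
    rw [lt_div_iff₀ hkap] at h3
    linarith
  have hc : 0 < c := hc0.trans hc1
  obtain ⟨p, hp, hd, hz, hsub⟩ := part_poly hf hn hn0 hr hS hk c hc1
  have h3 : ConnCov N' (lem p (c ^ p.natDegree)) := connCov_poly hp hd _ _ hz hsub hcc
  exact (scaled (hG N' hN') hp hd c hc h3 ρ hc2).subset hsub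

end Pool.Agent.H88.LE
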