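import Pool.Agent.H88.LE.NA

/-!
# LE-NB: the numerical inequalities for the last step

`s = (50/127) t²`, `alow v t = c t/(1 - s (min K₁ K₂ + 1/(1+s)))`, `s K₁ = a t` with `a = 50/127/v/(1/v² + 50/127)`
(`a = 250/1377, 200/927, 350/1479` for `v = 5, 4, 7/2`), `s K₂ = 2s/(1+4s)`.

PROOF of `nb_alow`: the minimum is `K₁` or `K₂`; the denominator is positive (see `alow_pos`); multiply by `1+s` resp. `(1+s)(1+4s)`.

PROOF of `nb_core`: `e^w ≤ g = 1 + w + (51/100) w²` for `|w| ≤ 1/20`. `exp (t + 3/10000 + σ) ≤ Y S g < kap`; `exp (2 (t + 3/10000)) ≤ Y² g² E₂`,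
`E₂ = 10006002/10^7 ≥ exp (6/10000)`; `1/π ≥ 3183098/10^7`; `0 ≤ artx`. If the bracket on the left side of the claim is `≤ 0` the claim is
clear (`0 < (kap - ..)²`); otherwise it is `≤ X (Y² g² E₂ - kap² (3183098/10^7) (A₀ + A₁ w)) < (kap - Y S g)² ≤ (kap - exp (..))²`.

PROOF of `numB1`: eight intervals `t = tc + w`, `|w| ≤ δ`, with `v, σ, A₀, A₁, Y, S, X` from the table; `A₀ + A₁ w ≤ alow v t` from `nb_alow` (two polynomial
inequalities in `w`), the last inequality of `nb_core` is a polynomial inequality in `w` too (interval arithmetic/nlinarith; the margins are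
in the last column: minimum of the two differences in `nb_alow`, minimum of the difference in `nb_core`). The numbers were checked by
computer; you may change them.

interval      | tc      | δ      | v   | σ      | A₀         | A₁       | Y             | S             | X          | margins
[.2, .255]    | 91/400  | 11/400 | 5   | 23/200 | 613/1000   | 3007/1000| 62773/50000   | 56111/50000   | 10837/10000| .0002, .049
[.255, .31]   | 113/400 | 11/400 | 5   | 21/200 | 1953/2500  | 3099/1000| 26529/20000   | 22221/20000   | 1411/1250  | .0002, .0139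
[.31, .36]    | 67/200  | 1/40   | 4   | 17/200 | 1201/1250  | 673/200  | 27959/20000   | 21781/20000   | 6169/5000  | .0002, .0127
[.36, .38]    | 37/100  | 1/100  | 4   | 2/25   | 2703/2500  | 1759/500 | 72387/50000   | 54181/50000   | 158/125    | .0002, .0089
[.38, .43]    | 81/200  | 1/40   | 7/2 | 7/100  | 12193/10000| 94/25    | 149931/100000 | 107283/100000 | 2661/2000  | .0002, .026
[.43, .48]    | 91/200  | 1/40   | 7/2 | 13/200 | 884/625    | 4049/1000| 78809/50000   | 26687/25000   | 6837/5000  | .0002, .027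
[.48, .54]    | 51/100  | 3/100  | 7/2 | 9/200  | 1647/1000  | 2209/500 | 16653/10000   | 20927/20000   | 15509/10000| .00018, .0398
[.54, .6]     | 57/100  | 3/100  | 7/2 | 1/40   | 9629/5000  | 4889/1000| 176827/100000 | 102563/100000 | 9223/5000  | .00019, .0876

(`Y ≥ exp tc`, `S ≥ exp (σ + 3/10000)`, `X ≥ artx (exp (-2σ)) = (1/2) log ((e^{2σ}+1)/(e^{2σ}-1))`; bounds of exp by `Real.exp_bound'`,
`Real.exp_one_lt_d9` etc.; `X`: prove `(e^{2σ}+1)/(e^{2σ}-1) ≤ e^{2X}` from lower bounds of the two exponentials.)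

PROOF of `numB2`: seven intervals `[.6, .66], [.66, .72], [.72, .78], [.78, .84], [.84, .9], [.9, .96], [.96, 1]`, centre `tc`, `v = 7/2`:
`Y² g² E₂ < kap² (3183098/10^7) (A₀ + A₁ w)`, with `(A₀, A₁, Y)` = (11177/5000, 5447/1000, 93881/50000), (12907/5000, 6107/1000, 49843/25000),
(29707/10000, 1723/250, 211701/100000), (6823/2000, 783/100, 224791/100000), (39141/10000, 8959/1000, 59673/25000),
(8983/2000, 10331/1000, 253451/100000), (10083/2000, 1171/100, 133223/50000); margins `.00015` in `nb_alow`, `.0136, .115, .22, ..` in the last.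

PROOF of `numB0`: `σ = 13/100`: `exp (3301/10000) ≤ 1.3912`, `exp (4002/10000) ≤ 1.4922`, `B (1/5) = 0.516`, `artx (exp (-0.26)) ≤ 1.0235`:
left side `≤ 0.678`, right side `≥ 0.7358`.
-/

set_option autoImplicit false

open Polynomial Complex MeasureTheory Set
open scoped Real ComplexConjugate
open Pool.Agent.H88.LD

noncomputable section

namespace Pool.Agent.H88.LE

theorem nb_alow {v t A : ℝ} (hv : 0 < v) (ht : 0 < t) (ht1 : t ≤ 1)
    (h1 : A * (1 - 50 / 127 / v / (1 / v ^ 2 + 50 / 127) * t * (1 + 50 / 127 * t ^ 2)) ≤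
      127 / 50 * t * (1 + 50 / 127 * t ^ 2))
    (h2 : A * (1 + 2 * (50 / 127 * t ^ 2) - 2 * (50 / 127 * t ^ 2) ^ 2) ≤
      127 / 50 * t * (1 + 50 / 127 * t ^ 2) * (1 + 4 * (50 / 127 * t ^ 2))) :
    A ≤ alow v t := by
  have hden := na_den_pos hv ht ht1
  unfold alow
  rw [le_div_iff₀ hden]
  have hs : 0 < 50 / 127 * t ^ 2 := by positivity
  have hv2 : 0 < 1 / v ^ 2 + 50 / 127 := by positivity
  rcases min_choice (1 / v / (t * (1 / v ^ 2 + 50 / 127))) (1 / 2 / (1 / 4 + 50 / 127 * t ^ 2))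
    with h | h
  · rw [h]
    have e : A * (1 - 50 / 127 * t ^ 2 * (1 / v / (t * (1 / v ^ 2 + 50 / 127)) +
        1 / (1 + 50 / 127 * t ^ 2))) =
        A * (1 - 50 / 127 / v / (1 / v ^ 2 + 50 / 127) * t * (1 + 50 / 127 * t ^ 2)) /
          (1 + 50 / 127 * t ^ 2) := by
      have hne := hv2.ne'
      field_simp
      ring
    rw [e, div_le_iff₀ (by positivity)]
    exact h1
  · rw [h]
    have e : A * (1 - 50 / 127 * t ^ 2 * (1 / 2 / (1 / 4 + 50 / 127 * t ^ 2) +
        1 / (1 + 50 / 127 * t ^ 2))) =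
        A * (1 + 2 * (50 / 127 * t ^ 2) - 2 * (50 / 127 * t ^ 2) ^ 2) /
          ((1 + 50 / 127 * t ^ 2) * (1 + 4 * (50 / 127 * t ^ 2))) := by
      set s := 50 / 127 * t ^ 2 with hsd
      have h3 : 1 / 4 + s ≠ 0 := by positivity
      have h4 : 1 + s ≠ 0 := by positivity
      have h5 : 1 + 4 * s ≠ 0 := by positivity
      have h6 : 1 / 2 / (1 / 4 + s) = 2 / (1 + 4 * s) := by
        rw [div_eq_div_iff h3 h5]
        ring
      rw [h6]
      field_simp
      ring
    rw [e, div_le_iff₀ (by positivity)]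
    calc A * (1 + 2 * (50 / 127 * t ^ 2) - 2 * (50 / 127 * t ^ 2) ^ 2) ≤ _ := h2
      _ = _ := by ring

/-- `e^w ≤ 1 + w + (51/100) w²` -/
theorem nb_exp {w : ℝ} (hw : |w| ≤ 1 / 20) : Real.exp w ≤ 1 + w + 51 / 100 * w ^ 2 := by
  have h1 := Real.exp_bound (x := w) (by linarith) (n := 4) (by norm_num)
  have h2 := (abs_le.1 h1).2
  obtain ⟨hw1, hw2⟩ := abs_le.1 hw
  simp only [Finset.sum_range_succ, Finset.sum_range_zero, Nat.factorial] at h2
  norm_num at h2
  have h3 : |w| ^ 4 = w ^ 4 := by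
    rw [show (4 : ℕ) = 2 * 2 by norm_num, pow_mul, pow_mul, sq_abs]
  rw [h3] at h2
  have h4 : w ^ 2 ≤ 1 / 400 := by nlinarith
  have h5 : w ^ 3 ≤ 1 / 20 * w ^ 2 := by nlinarith [sq_nonneg w]
  have h6 : w ^ 4 ≤ 1 / 400 * w ^ 2 := by nlinarith [sq_nonneg w]
  nlinarith [sq_nonneg w]

theorem nb_artx_nonneg {σ : ℝ} (hσ : 0 < σ) : 0 ≤ artx (Real.exp (-(2 * σ))) := by
  unfold artx
  have h1 : Real.exp (-(2 * σ)) < 1 := by rw [Real.exp_lt_one_iff]; linarith
  have h2 := Real.exp_pos (-(2 * σ))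
  have h3 : 1 ≤ (1 + Real.exp (-(2 * σ))) / (1 - Real.exp (-(2 * σ))) := by
    rw [le_div_iff₀ (by linarith)]
    linarith
  have h4 := Real.log_nonneg h3
  linarith

theorem nb_artx {σ X l : ℝ} (hσ : 0 < σ) (hl1 : 1 < l) (hl : l ≤ Real.exp (2 * σ))
    (hX : (l + 1) / (l - 1) ≤ Real.exp (2 * X)) : artx (Real.exp (-(2 * σ))) ≤ X := by
  unfold artx
  have he : 1 < Real.exp (2 * σ) := by rw [Real.one_lt_exp_iff]; linarith
  have h1 : (1 + Real.exp (-(2 * σ))) / (1 - Real.exp (-(2 * σ))) =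
      (Real.exp (2 * σ) + 1) / (Real.exp (2 * σ) - 1) := by
    rw [Real.exp_neg]
    have h2 := Real.exp_pos (2 * σ)
    have h3 : Real.exp (2 * σ) - 1 ≠ 0 := by linarith
    have h4 : 1 - (Real.exp (2 * σ))⁻¹ ≠ 0 := by
      have : (Real.exp (2 * σ))⁻¹ < 1 := inv_lt_one_of_one_lt₀ he
      linarith
    rw [div_eq_div_iff h4 h3]
    field_simp
  rw [h1]
  have h2 : (Real.exp (2 * σ) + 1) / (Real.exp (2 * σ) - 1) ≤ (l + 1) / (l - 1) := by
    rw [div_le_div_iff₀ (by linarith) (by linarith)]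
    nlinarith
  have h3 : Real.log ((Real.exp (2 * σ) + 1) / (Real.exp (2 * σ) - 1)) ≤ 2 * X := by
    rw [Real.log_le_iff_le_exp (div_pos (by linarith) (by linarith))]
    exact h2.trans hX
  linarith

theorem nb_core {v t tc w σ Y S X A₀ A₁ : ℝ} (hσ : 0 < σ) (hY : Real.exp tc ≤ Y)
    (hS : Real.exp (σ + 3 / 10000) ≤ S) (hX : artx (Real.exp (-(2 * σ))) ≤ X)
    (hw : |w| ≤ 1 / 20) (ht : t = tc + w) (hA : A₀ + A₁ * w ≤ alow v t) (hA0 : 0 ≤ A₀ + A₁ * w)
    (hpos : Y * S * (1 + w + 51 / 100 * w ^ 2) < kap)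
    (hfin : X * (Y ^ 2 * (1 + w + 51 / 100 * w ^ 2) ^ 2 * (10006002 / 10000000) -
      kap ^ 2 * (3183098 / 10000000) * (A₀ + A₁ * w)) <
        (kap - Y * S * (1 + w + 51 / 100 * w ^ 2)) ^ 2) :
    Real.exp (t + 3 / 10000 + σ) < kap ∧
      (Real.exp (2 * (t + 3 / 10000)) - kap ^ 2 * alow v t / π) * artx (Real.exp (-(2 * σ))) <
        (kap - Real.exp (t + 3 / 10000 + σ)) ^ 2 := by
  set g : ℝ := 1 + w + 51 / 100 * w ^ 2 with hg
  have hgw : Real.exp w ≤ g := nb_exp hw
  have hg0 : 0 < g := (Real.exp_pos w).trans_le hgw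
  have hY0 : 0 < Y := (Real.exp_pos tc).trans_le hY
  have hS0 : 0 < S := (Real.exp_pos _).trans_le hS
  have h1 : Real.exp (t + 3 / 10000 + σ) ≤ Y * S * g := by
    have e : t + 3 / 10000 + σ = tc + (σ + 3 / 10000) + w := by rw [ht]; ring
    rw [e, Real.exp_add, Real.exp_add]
    have := mul_le_mul hY hS (Real.exp_pos _).le hY0.le
    exact mul_le_mul this hgw (Real.exp_pos _).le (by positivity)
  have h2 : Real.exp (2 * (t + 3 / 10000)) ≤ Y ^ 2 * g ^ 2 * (10006002 / 10000000) := by
    have e : 2 * (t + 3 / 10000) = tc + tc + (w + w) + 6 / 10000 := by rw [ht]; ring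
    rw [e, Real.exp_add, Real.exp_add, Real.exp_add, Real.exp_add]
    have h3 : Real.exp (6 / 10000) ≤ 10006002 / 10000000 := by
      have := nb_exp (w := 6 / 10000) (by rw [abs_of_pos] <;> norm_num)
      refine this.trans (by norm_num)
    have h4 := mul_le_mul hY hY (Real.exp_pos _).le hY0.le
    have h5 := mul_le_mul hgw hgw (Real.exp_pos _).le hg0.le
    have h6 := mul_le_mul h4 h5 (by positivity) (by positivity)
    have h7 := mul_le_mul h6 h3 (Real.exp_pos _).le (by positivity)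
    calc _ ≤ Y * Y * (g * g) * (10006002 / 10000000) := h7
      _ = _ := by ring
  have hlt : Real.exp (t + 3 / 10000 + σ) < kap := lt_of_le_of_lt h1 hpos
  refine ⟨hlt, ?_⟩
  have hZ := nb_artx_nonneg hσ
  have hk : 0 < kap - Real.exp (t + 3 / 10000 + σ) := by linarith
  have hmono : (kap - Y * S * g) ^ 2 ≤ (kap - Real.exp (t + 3 / 10000 + σ)) ^ 2 := by
    have : 0 < kap - Y * S * g := by linarith
    exact pow_le_pow_left₀ this.le (by linarith) 2
  rcases le_or_gt (Real.exp (2 * (t + 3 / 10000)) - kap ^ 2 * alow v t / π) 0 with hb | hb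
  · have h3 : (Real.exp (2 * (t + 3 / 10000)) - kap ^ 2 * alow v t / π) *
        artx (Real.exp (-(2 * σ))) ≤ 0 := mul_nonpos_of_nonpos_of_nonneg hb hZ
    have h4 : 0 < (kap - Real.exp (t + 3 / 10000 + σ)) ^ 2 := by positivity
    linarith
  · have hpi : 3183098 / 10000000 ≤ 1 / π := by
      rw [le_div_iff₀ Real.pi_pos]
      have := Real.pi_lt_d6
      nlinarith
    have h3 : kap ^ 2 * (3183098 / 10000000) * (A₀ + A₁ * w) ≤ kap ^ 2 * alow v t / π := by
      have h4 : (3183098 / 10000000) * (A₀ + A₁ * w) ≤ 1 / π * alow v t :=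
        mul_le_mul hpi hA hA0 (by positivity)
      have h5 := mul_le_mul_of_nonneg_left h4 (sq_nonneg kap)
      calc _ = kap ^ 2 * (3183098 / 10000000 * (A₀ + A₁ * w)) := by ring
        _ ≤ _ := h5
        _ = _ := by ring
    have h4 := mul_le_mul_of_nonneg_left hX hb.le
    have hX0 : 0 ≤ X := hZ.trans hX
    have h5 : (Real.exp (2 * (t + 3 / 10000)) - kap ^ 2 * alow v t / π) * X ≤
        (Y ^ 2 * g ^ 2 * (10006002 / 10000000) -
          kap ^ 2 * (3183098 / 10000000) * (A₀ + A₁ * w)) * X :=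
      mul_le_mul_of_nonneg_right (by linarith) hX0
    linarith

theorem nb_aux {p2 p3 p4 p5 r3 r4 r5 q d w : ℝ} (hd : 0 ≤ d) (hw : |w| ≤ d)
    (h3 : |p3| ≤ r3) (h4 : |p4| ≤ r4) (h5 : |p5| ≤ r5)
    (hq2 : q ≤ p2 - r3 * d - r4 * d ^ 2 - r5 * d ^ 3) :
    q * w ^ 2 ≤ p2 * w ^ 2 + p3 * w ^ 3 + p4 * w ^ 4 + p5 * w ^ 5 := by
  have hk : ∀ (p r : ℝ) (k : ℕ), |p| ≤ r → -(r * d ^ k) * w ^ 2 ≤ p * w ^ k * w ^ 2 := by
    intro p r k hp
    have h1 : |p * w ^ k| ≤ r * d ^ k := by
      rw [abs_mul, abs_pow]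
      exact mul_le_mul hp (pow_le_pow_left₀ (abs_nonneg _) hw k) (by positivity)
        ((abs_nonneg _).trans hp)
    exact mul_le_mul_of_nonneg_right (abs_le.1 h1).1 (sq_nonneg w)
  have e3 := hk p3 r3 1 h3
  have e4 := hk p4 r4 2 h4
  have e5 := hk p5 r5 3 h5
  have e2 := mul_le_mul_of_nonneg_right hq2 (sq_nonneg w)
  have _ := hd
  nlinarith only [e2, e3, e4, e5]

/-- positivity of a polynomial, convex case -/
theorem nb_q1 {p0 p1 p2 p3 p4 p5 r3 r4 r5 q d w : ℝ} (hd : 0 ≤ d) (hw : |w| ≤ d)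
    (h3 : |p3| ≤ r3) (h4 : |p4| ≤ r4) (h5 : |p5| ≤ r5) (hq : 0 < q)
    (hq2 : q ≤ p2 - r3 * d - r4 * d ^ 2 - r5 * d ^ 3) (h1 : p1 ^ 2 < 4 * p0 * q) :
    0 < p0 + p1 * w + p2 * w ^ 2 + p3 * w ^ 3 + p4 * w ^ 4 + p5 * w ^ 5 := by
  have hb : q * w ^ 2 ≤ p2 * w ^ 2 + p3 * w ^ 3 + p4 * w ^ 4 + p5 * w ^ 5 := nb_aux hd hw h3 h4 h5 hq2
  have h6 : 0 < 4 * q * (p0 + p1 * w + q * w ^ 2) := by
    nlinarith [sq_nonneg (2 * q * w + p1)]
  have h7 : 0 < p0 + p1 * w + q * w ^ 2 := by
    by_contra h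
    push Not at h
    have := mul_nonpos_of_nonneg_of_nonpos (by positivity : (0:ℝ) ≤ 4 * q) h
    linarith
  linarith

/-- positivity of a polynomial, concave case -/
theorem nb_q2 {p0 p1 p2 p3 p4 p5 r3 r4 r5 r1 q d w : ℝ} (hd : 0 ≤ d) (hw : |w| ≤ d)
    (h3 : |p3| ≤ r3) (h4 : |p4| ≤ r4) (h5 : |p5| ≤ r5) (hr : |p1| ≤ r1) (hq : q ≤ 0)
    (hq2 : q ≤ p2 - r3 * d - r4 * d ^ 2 - r5 * d ^ 3) (h1 : 0 < p0 - r1 * d + q * d ^ 2) :
    0 < p0 + p1 * w + p2 * w ^ 2 + p3 * w ^ 3 + p4 * w ^ 4 + p5 * w ^ 5 := by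
  have hb : q * w ^ 2 ≤ p2 * w ^ 2 + p3 * w ^ 3 + p4 * w ^ 4 + p5 * w ^ 5 := nb_aux hd hw h3 h4 h5 hq2
  have h6 : -(r1 * d) ≤ p1 * w := by
    have := abs_le.1 ((abs_mul p1 w).le.trans (mul_le_mul hr hw (abs_nonneg _) ((abs_nonneg _).trans hr)))
    exact this.1
  have h7 : w ^ 2 ≤ d ^ 2 := by rw [← sq_abs w]; exact pow_le_pow_left₀ (abs_nonneg _) hw 2
  have h8 : q * d ^ 2 ≤ q * w ^ 2 := mul_le_mul_of_nonpos_left h7 hq
  linarith

theorem nb_a1 {w : ℝ} (hw : |w| ≤ 11 / 400) : 613 / 1000 + 3007 / 1000 * w ≤ alow (5) (91 / 400 + w) := by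
  obtain ⟨hw1, hw2⟩ := abs_le.1 hw
  refine nb_alow (by norm_num) (by linarith) (by linarith) ?_ ?_
  · have ha : (50 / 127 / 5 / (1 / 5 ^ 2 + 50 / 127) : ℝ) = 250 / 1377 := by norm_num
    rw [ha]
    have hP := nb_q1 (p0 := 1079522443 / 438912000000) (p1 := (-59905227859 / 895380480000)) (p2 := 578286049 / 447690240) (p3 := 6662239 / 5596128) (p4 := 75175 / 349758) (p5 := 0) (r3 := 6662239 / 5596128) (r4 := 75175 / 349758) (r5 := 0) (q := 629 / 500) (d := 11 / 400) (w := w) (by norm_num) hw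
      (abs_le.2 ⟨by norm_num, by norm_num⟩) (abs_le.2 ⟨by norm_num, by norm_num⟩) (abs_le.2 ⟨by norm_num, by norm_num⟩) (by norm_num) (by norm_num) (by norm_num)
    nlinarith only [hP]
  · have hP := nb_q1 (p0 := 173341059207 / 825804800000000) (p1 := (-23055234873 / 82580480000000)) (p2 := 110495413097 / 51612800000) (p3 := 1008964301 / 258064000) (p4 := 912787 / 322580) (p5 := 40435 / 16129) (r3 := 1008964301 / 258064000) (r4 := 912787 / 322580) (r5 := 40435 / 16129) (q := 2031 / 1000) (d := 11 / 400) (w := w) (by norm_num) hw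
      (abs_le.2 ⟨by norm_num, by norm_num⟩) (abs_le.2 ⟨by norm_num, by norm_num⟩) (abs_le.2 ⟨by norm_num, by norm_num⟩) (by norm_num) (by norm_num) (by norm_num)
    nlinarith only [hP]

theorem nb_y1 : Real.exp (91 / 400) ≤ 62773 / 50000 := by
  have h := Real.exp_bound' (x := 91 / 400) (by norm_num) (by norm_num) (n := 9) (by norm_num)
  refine h.trans ?_
  simp only [Finset.sum_range_succ, Finset.sum_range_zero, Nat.factorial]
  norm_num

theorem nb_s1 : Real.exp (23 / 200 + 3 / 10000) ≤ 56111 / 50000 := by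
  rw [show (23 / 200 + 3 / 10000 : ℝ) = 1153 / 10000 by norm_num]
  have h := Real.exp_bound' (x := 1153 / 10000) (by norm_num) (by norm_num) (n := 7) (by norm_num)
  refine h.trans ?_
  simp only [Finset.sum_range_succ, Finset.sum_range_zero, Nat.factorial]
  norm_num

theorem nb_x1 : artx (Real.exp (-(2 * (23 / 200)))) ≤ 10837 / 10000 := by
  refine nb_artx (l := 62929999 / 50000000) (by norm_num) (by norm_num) ?_ ?_
  · refine le_trans ?_ (Real.sum_le_exp_of_nonneg (by norm_num) 7)
    simp only [Finset.sum_range_succ, Finset.sum_range_zero, Nat.factorial]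
    norm_num
  · refine le_trans ?_ (Real.sum_le_exp_of_nonneg (by norm_num) 10)
    simp only [Finset.sum_range_succ, Finset.sum_range_zero, Nat.factorial]
    norm_num

theorem nb_c1 {w : ℝ} (hw : |w| ≤ 11 / 400) : Real.exp (91 / 400 + w + 3 / 10000 + 23 / 200) < kap ∧
    (Real.exp (2 * (91 / 400 + w + 3 / 10000)) - kap ^ 2 * alow (5) (91 / 400 + w) / π) *
      artx (Real.exp (-(2 * (23 / 200)))) < (kap - Real.exp (91 / 400 + w + 3 / 10000 + 23 / 200)) ^ 2 := by
  obtain ⟨hw1, hw2⟩ := abs_le.1 hw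
  refine nb_core (by norm_num) nb_y1 nb_s1 nb_x1 (hw.trans (by norm_num)) rfl (nb_a1 hw) (by linarith) ?_ ?_
  · have hP := nb_q2 (p0 := 2100244197 / 2500000000) (p1 := (-3522255803 / 2500000000)) (p2 := (-179635045953 / 250000000000)) (p3 := 0) (p4 := 0) (p5 := 0) (r3 := 0) (r4 := 0) (r5 := 0) (r1 := 3522255803 / 2500000000) (q := (-719 / 1000)) (d := 11 / 400) (w := w) (by norm_num) hw
      (abs_le.2 ⟨by norm_num, by norm_num⟩) (abs_le.2 ⟨by norm_num, by norm_num⟩) (abs_le.2 ⟨by norm_num, by norm_num⟩) (abs_le.2 ⟨by norm_num, by norm_num⟩) (by norm_num) (by norm_num) (by norm_num)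
    unfold kap
    nlinarith only [hP]
  · have hP := nb_q2 (p0 := 16544095422164885159 / 250000000000000000000) (p1 := (-134743148682120811417 / 250000000000000000000)) (p2 := (-16717045562046697227893 / 6250000000000000000000)) (p3 := 1758699832908671201757 / 6250000000000000000000) (p4 := 89693691478342231289607 / 1250000000000000000000000) (p5 := 0) (r3 := 1758699832908671201757 / 6250000000000000000000) (r4 := 89693691478342231289607 / 1250000000000000000000000) (r5 := 0) (r1 := 134743148682120811417 / 250000000000000000000) (q := (-2683 / 1000)) (d := 11 / 400) (w := w) (by norm_num) hw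
      (abs_le.2 ⟨by norm_num, by norm_num⟩) (abs_le.2 ⟨by norm_num, by norm_num⟩) (abs_le.2 ⟨by norm_num, by norm_num⟩) (abs_le.2 ⟨by norm_num, by norm_num⟩) (by norm_num) (by norm_num) (by norm_num)
    unfold kap
    nlinarith only [hP]

theorem nb_a2 {w : ℝ} (hw : |w| ≤ 11 / 400) : 1953 / 2500 + 3099 / 1000 * w ≤ alow (5) (113 / 400 + w) := by
  obtain ⟨hw1, hw2⟩ := abs_le.1 hw
  refine nb_alow (by norm_num) (by linarith) (by linarith) ?_ ?_
  · have ha : (50 / 127 / 5 / (1 / 5 ^ 2 + 50 / 127) : ℝ) = 250 / 1377 := by norm_num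
    rw [ha]
    have hP := nb_q1 (p0 := 1348163 / 6096000000) (p1 := (-44137229 / 99486720000)) (p2 := 13259471 / 8778240) (p3 := 257747 / 207264) (p4 := 25825 / 116586) (p5 := 0) (r3 := 257747 / 207264) (r4 := 25825 / 116586) (r5 := 0) (q := 369 / 250) (d := 11 / 400) (w := w) (by norm_num) hw
      (abs_le.2 ⟨by norm_num, by norm_num⟩) (abs_le.2 ⟨by norm_num, by norm_num⟩) (abs_le.2 ⟨by norm_num, by norm_num⟩) (by norm_num) (by norm_num) (by norm_num)
    nlinarith only [hP]
  · have hP := nb_q1 (p0 := 3602105654643 / 825804800000000) (p1 := 14362410008979 / 82580480000000) (p2 := 144584688983 / 51612800000) (p3 := 1174269673 / 258064000) (p4 := 1145857 / 322580) (p5 := 40895 / 16129) (r3 := 1174269673 / 258064000) (r4 := 1145857 / 322580) (r5 := 40895 / 16129) (q := 2673 / 1000) (d := 11 / 400) (w := w) (by norm_num) hw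
      (abs_le.2 ⟨by norm_num, by norm_num⟩) (abs_le.2 ⟨by norm_num, by norm_num⟩) (abs_le.2 ⟨by norm_num, by norm_num⟩) (by norm_num) (by norm_num) (by norm_num)
    nlinarith only [hP]

theorem nb_y2 : Real.exp (113 / 400) ≤ 26529 / 20000 := by
  have h := Real.exp_bound' (x := 113 / 400) (by norm_num) (by norm_num) (n := 9) (by norm_num)
  refine h.trans ?_
  simp only [Finset.sum_range_succ, Finset.sum_range_zero, Nat.factorial]
  norm_num

theorem nb_s2 : Real.exp (21 / 200 + 3 / 10000) ≤ 22221 / 20000 := by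
  rw [show (21 / 200 + 3 / 10000 : ℝ) = 1053 / 10000 by norm_num]
  have h := Real.exp_bound' (x := 1053 / 10000) (by norm_num) (by norm_num) (n := 7) (by norm_num)
  refine h.trans ?_
  simp only [Finset.sum_range_succ, Finset.sum_range_zero, Nat.factorial]
  norm_num

theorem nb_x2 : artx (Real.exp (-(2 * (21 / 200)))) ≤ 1411 / 1250 := by
  refine nb_artx (l := 123367803 / 100000000) (by norm_num) (by norm_num) ?_ ?_
  · refine le_trans ?_ (Real.sum_le_exp_of_nonneg (by norm_num) 7)
    simp only [Finset.sum_range_succ, Finset.sum_range_zero, Nat.factorial]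
    norm_num
  · refine le_trans ?_ (Real.sum_le_exp_of_nonneg (by norm_num) 10)
    simp only [Finset.sum_range_succ, Finset.sum_range_zero, Nat.factorial]
    norm_num

theorem nb_c2 {w : ℝ} (hw : |w| ≤ 11 / 400) : Real.exp (113 / 400 + w + 3 / 10000 + 21 / 200) < kap ∧
    (Real.exp (2 * (113 / 400 + w + 3 / 10000)) - kap ^ 2 * alow (5) (113 / 400 + w) / π) *
      artx (Real.exp (-(2 * (21 / 200)))) < (kap - Real.exp (113 / 400 + w + 3 / 10000 + 21 / 200)) ^ 2 := by
  obtain ⟨hw1, hw2⟩ := abs_le.1 hw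
  refine nb_core (by norm_num) nb_y2 nb_s2 nb_x2 (hw.trans (by norm_num)) rfl (nb_a2 hw) (by linarith) ?_ ?_
  · have hP := nb_q2 (p0 := 310099091 / 400000000) (p1 := (-589500909 / 400000000)) (p2 := (-30064546359 / 40000000000)) (p3 := 0) (p4 := 0) (p5 := 0) (r3 := 0) (r4 := 0) (r5 := 0) (r1 := 589500909 / 400000000) (q := (-94 / 125)) (d := 11 / 400) (w := w) (by norm_num) hw
      (abs_le.2 ⟨by norm_num, by norm_num⟩) (abs_le.2 ⟨by norm_num, by norm_num⟩) (abs_le.2 ⟨by norm_num, by norm_num⟩) (abs_le.2 ⟨by norm_num, by norm_num⟩) (by norm_num) (by norm_num) (by norm_num)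
    unfold kap
    nlinarith only [hP]
  · have hP := nb_q2 (p0 := 16732767665929284869 / 500000000000000000000) (p1 := (-31377298093710894327 / 50000000000000000000)) (p2 := (-3007736104404065296383 / 1000000000000000000000)) (p3 := 188357711058809107767 / 1000000000000000000000) (p4 := 9606243263999264496117 / 200000000000000000000000) (p5 := 0) (r3 := 188357711058809107767 / 1000000000000000000000) (r4 := 9606243263999264496117 / 200000000000000000000000) (r5 := 0) (r1 := 31377298093710894327 / 50000000000000000000) (q := (-3013 / 1000)) (d := 11 / 400) (w := w) (by norm_num) hw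
      (abs_le.2 ⟨by norm_num, by norm_num⟩) (abs_le.2 ⟨by norm_num, by norm_num⟩) (abs_le.2 ⟨by norm_num, by norm_num⟩) (abs_le.2 ⟨by norm_num, by norm_num⟩) (by norm_num) (by norm_num) (by norm_num)
    unfold kap
    nlinarith only [hP]

theorem nb_a3 {w : ℝ} (hw : |w| ≤ 1 / 40) : 1201 / 1250 + 673 / 200 * w ≤ alow (4) (67 / 200 + w) := by
  obtain ⟨hw1, hw2⟩ := abs_le.1 hw
  refine nb_alow (by norm_num) (by linarith) (by linarith) ?_ ?_
  · have ha : (50 / 127 / 4 / (1 / 4 ^ 2 + 50 / 127) : ℝ) = 200 / 927 := by norm_num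
    rw [ha]
    have hP := nb_q1 (p0 := 64832977 / 313944000000) (p1 := 1502363 / 3767328000) (p2 := 179819039 / 94183200) (p3 := 644621 / 470916) (p4 := 33650 / 117729) (p5 := 0) (r3 := 644621 / 470916) (r4 := 33650 / 117729) (r5 := 0) (q := 937 / 500) (d := 1 / 40) (w := w) (by norm_num) hw
      (abs_le.2 ⟨by norm_num, by norm_num⟩) (abs_le.2 ⟨by norm_num, by norm_num⟩) (abs_le.2 ⟨by norm_num, by norm_num⟩) (by norm_num) (by norm_num) (by norm_num)
    nlinarith only [hP]
  · have hP := nb_q1 (p0 := 92135091273 / 25806400000000) (p1 := 218055761577 / 1032256000000) (p2 := 4442195791 / 1290320000) (p3 := 67344899 / 12903200) (p4 := 139789 / 32258) (p5 := 42225 / 16129) (r3 := 67344899 / 12903200) (r4 := 139789 / 32258) (r5 := 42225 / 16129) (q := 3309 / 1000) (d := 1 / 40) (w := w) (by norm_num) hw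
      (abs_le.2 ⟨by norm_num, by norm_num⟩) (abs_le.2 ⟨by norm_num, by norm_num⟩) (abs_le.2 ⟨by norm_num, by norm_num⟩) (by norm_num) (by norm_num) (by norm_num)
    nlinarith only [hP]

theorem nb_y3 : Real.exp (67 / 200) ≤ 27959 / 20000 := by
  have h := Real.exp_bound' (x := 67 / 200) (by norm_num) (by norm_num) (n := 9) (by norm_num)
  refine h.trans ?_
  simp only [Finset.sum_range_succ, Finset.sum_range_zero, Nat.factorial]
  norm_num

theorem nb_s3 : Real.exp (17 / 200 + 3 / 10000) ≤ 21781 / 20000 := by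
  rw [show (17 / 200 + 3 / 10000 : ℝ) = 853 / 10000 by norm_num]
  have h := Real.exp_bound' (x := 853 / 10000) (by norm_num) (by norm_num) (n := 7) (by norm_num)
  refine h.trans ?_
  simp only [Finset.sum_range_succ, Finset.sum_range_zero, Nat.factorial]
  norm_num

theorem nb_x3 : artx (Real.exp (-(2 * (17 / 200)))) ≤ 6169 / 5000 := by
  refine nb_artx (l := 118530483 / 100000000) (by norm_num) (by norm_num) ?_ ?_
  · refine le_trans ?_ (Real.sum_le_exp_of_nonneg (by norm_num) 7)
    simp only [Finset.sum_range_succ, Finset.sum_range_zero, Nat.factorial]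
    norm_num
  · refine le_trans ?_ (Real.sum_le_exp_of_nonneg (by norm_num) 11)
    simp only [Finset.sum_range_succ, Finset.sum_range_zero, Nat.factorial]
    norm_num

theorem nb_c3 {w : ℝ} (hw : |w| ≤ 1 / 40) : Real.exp (67 / 200 + w + 3 / 10000 + 17 / 200) < kap ∧
    (Real.exp (2 * (67 / 200 + w + 3 / 10000)) - kap ^ 2 * alow (4) (67 / 200 + w) / π) *
      artx (Real.exp (-(2 * (17 / 200)))) < (kap - Real.exp (67 / 200 + w + 3 / 10000 + 17 / 200)) ^ 2 := by
  obtain ⟨hw1, hw2⟩ := abs_le.1 hw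
  refine nb_core (by norm_num) nb_y3 nb_s3 nb_x3 (hw.trans (by norm_num)) rfl (nb_a3 hw) (by linarith) ?_ ?_
  · have hP := nb_q2 (p0 := 290625021 / 400000000) (p1 := (-608974979 / 400000000)) (p2 := (-31057723929 / 40000000000)) (p3 := 0) (p4 := 0) (p5 := 0) (r3 := 0) (r4 := 0) (r5 := 0) (r1 := 608974979 / 400000000) (q := (-777 / 1000)) (d := 1 / 40) (w := w) (by norm_num) hw
      (abs_le.2 ⟨by norm_num, by norm_num⟩) (abs_le.2 ⟨by norm_num, by norm_num⟩) (abs_le.2 ⟨by norm_num, by norm_num⟩) (abs_le.2 ⟨by norm_num, by norm_num⟩) (by norm_num) (by norm_num) (by norm_num)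
    unfold kap
    nlinarith only [hP]
  · have hP := nb_q2 (p0 := 11919289387018589371 / 500000000000000000000) (p1 := (-3531853622688071827 / 10000000000000000000)) (p2 := (-3683942260209187026353 / 1000000000000000000000)) (p3 := (-96698627960890973703 / 1000000000000000000000)) (p4 := (-4931630026005439658853 / 200000000000000000000000)) (p5 := 0) (r3 := 96698627960890973703 / 1000000000000000000000) (r4 := 4931630026005439658853 / 200000000000000000000000) (r5 := 0) (r1 := 3531853622688071827 / 10000000000000000000) (q := (-3687 / 1000)) (d := 1 / 40) (w := w) (by norm_num) hw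
      (abs_le.2 ⟨by norm_num, by norm_num⟩) (abs_le.2 ⟨by norm_num, by norm_num⟩) (abs_le.2 ⟨by norm_num, by norm_num⟩) (abs_le.2 ⟨by norm_num, by norm_num⟩) (by norm_num) (by norm_num) (by norm_num)
    unfold kap
    nlinarith only [hP]

theorem nb_a4 {w : ℝ} (hw : |w| ≤ 1 / 100) : 2703 / 2500 + 1759 / 500 * w ≤ alow (4) (37 / 100 + w) := by
  obtain ⟨hw1, hw2⟩ := abs_le.1 hw
  refine nb_alow (by norm_num) (by linarith) (by linarith) ?_ ?_
  · have ha : (50 / 127 / 4 / (1 / 4 ^ 2 + 50 / 127) : ℝ) = 200 / 927 := by norm_num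
    rw [ha]
    have hP := nb_q1 (p0 := 2802697 / 13081000000) (p1 := (-337973 / 981075000)) (p2 := 30810767 / 14716125) (p3 := 93106 / 65405) (p4 := 35180 / 117729) (p5 := 0) (r3 := 93106 / 65405) (r4 := 35180 / 117729) (r5 := 0) (q := 2079 / 1000) (d := 1 / 100) (w := w) (by norm_num) hw
      (abs_le.2 ⟨by norm_num, by norm_num⟩) (abs_le.2 ⟨by norm_num, by norm_num⟩) (abs_le.2 ⟨by norm_num, by norm_num⟩) (by norm_num) (by norm_num) (by norm_num)
    nlinarith only [hP]
  · have hP := nb_q1 (p0 := 2523932793 / 201612500000) (p1 := 48742914219 / 161290000000) (p2 := 1589821037 / 403225000) (p3 := 46594153 / 8064500) (p4 := 392146 / 80645) (p5 := 42990 / 16129) (r3 := 46594153 / 8064500) (r4 := 392146 / 80645) (r5 := 42990 / 16129) (q := 971 / 250) (d := 1 / 100) (w := w) (by norm_num) hw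
      (abs_le.2 ⟨by norm_num, by norm_num⟩) (abs_le.2 ⟨by norm_num, by norm_num⟩) (abs_le.2 ⟨by norm_num, by norm_num⟩) (by norm_num) (by norm_num) (by norm_num)
    nlinarith only [hP]

theorem nb_y4 : Real.exp (37 / 100) ≤ 72387 / 50000 := by
  have h := Real.exp_bound' (x := 37 / 100) (by norm_num) (by norm_num) (n := 9) (by norm_num)
  refine h.trans ?_
  simp only [Finset.sum_range_succ, Finset.sum_range_zero, Nat.factorial]
  norm_num

theorem nb_s4 : Real.exp (2 / 25 + 3 / 10000) ≤ 54181 / 50000 := by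
  rw [show (2 / 25 + 3 / 10000 : ℝ) = 803 / 10000 by norm_num]
  have h := Real.exp_bound' (x := 803 / 10000) (by norm_num) (by norm_num) (n := 7) (by norm_num)
  refine h.trans ?_
  simp only [Finset.sum_range_succ, Finset.sum_range_zero, Nat.factorial]
  norm_num

theorem nb_x4 : artx (Real.exp (-(2 * (2 / 25)))) ≤ 158 / 125 := by
  refine nb_artx (l := 23470217 / 20000000) (by norm_num) (by norm_num) ?_ ?_
  · refine le_trans ?_ (Real.sum_le_exp_of_nonneg (by norm_num) 7)
    simp only [Finset.sum_range_succ, Finset.sum_range_zero, Nat.factorial]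
    norm_num
  · refine le_trans ?_ (Real.sum_le_exp_of_nonneg (by norm_num) 11)
    simp only [Finset.sum_range_succ, Finset.sum_range_zero, Nat.factorial]
    norm_num

theorem nb_c4 {w : ℝ} (hw : |w| ≤ 1 / 100) : Real.exp (37 / 100 + w + 3 / 10000 + 2 / 25) < kap ∧
    (Real.exp (2 * (37 / 100 + w + 3 / 10000)) - kap ^ 2 * alow (4) (37 / 100 + w) / π) *
      artx (Real.exp (-(2 * (2 / 25)))) < (kap - Real.exp (37 / 100 + w + 3 / 10000 + 2 / 25)) ^ 2 := by
  obtain ⟨hw1, hw2⟩ := abs_le.1 hw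
  refine nb_core (by norm_num) nb_y4 nb_s4 nb_x4 (hw.trans (by norm_num)) rfl (nb_a4 hw) (by linarith) ?_ ?_
  · have hP := nb_q2 (p0 := 1700499953 / 2500000000) (p1 := (-3922000047 / 2500000000)) (p2 := (-200022002397 / 250000000000)) (p3 := 0) (p4 := 0) (p5 := 0) (r3 := 0) (r4 := 0) (r5 := 0) (r1 := 3922000047 / 2500000000) (q := (-801 / 1000)) (d := 1 / 100) (w := w) (by norm_num) hw
      (abs_le.2 ⟨by norm_num, by norm_num⟩) (abs_le.2 ⟨by norm_num, by norm_num⟩) (abs_le.2 ⟨by norm_num, by norm_num⟩) (abs_le.2 ⟨by norm_num, by norm_num⟩) (by norm_num) (by norm_num) (by norm_num)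
    unfold kap
    nlinarith only [hP]
  · have hP := nb_q2 (p0 := 15125485093250141 / 1250000000000000000) (p1 := (-864434924234220019 / 3125000000000000000)) (p2 := (-1244396326100834451699 / 312500000000000000000)) (p3 := (-60479242562463361749 / 312500000000000000000)) (p4 := (-3084441370685631449199 / 62500000000000000000000)) (p5 := 0) (r3 := 60479242562463361749 / 312500000000000000000) (r4 := 3084441370685631449199 / 62500000000000000000000) (r5 := 0) (r1 := 864434924234220019 / 3125000000000000000) (q := (-797 / 200)) (d := 1 / 100) (w := w) (by norm_num) hw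
      (abs_le.2 ⟨by norm_num, by norm_num⟩) (abs_le.2 ⟨by norm_num, by norm_num⟩) (abs_le.2 ⟨by norm_num, by norm_num⟩) (abs_le.2 ⟨by norm_num, by norm_num⟩) (by norm_num) (by norm_num) (by norm_num)
    unfold kap
    nlinarith only [hP]

theorem nb_a5 {w : ℝ} (hw : |w| ≤ 1 / 40) : 12193 / 10000 + 94 / 25 * w ≤ alow (7 / 2) (81 / 200 + w) := by
  obtain ⟨hw1, hw2⟩ := abs_le.1 hw
  refine nb_alow (by norm_num) (by linarith) (by linarith) ?_ ?_
  · have ha : (50 / 127 / (7 / 2) / (1 / (7 / 2) ^ 2 + 50 / 127) : ℝ) = 350 / 1479 := by norm_num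
    rw [ha]
    have hP := nb_q1 (p0 := 473735401 / 2003552000000) (p1 := 924289 / 6010656000) (p2 := 362922397 / 150266400) (p3 := 1156471 / 751332) (p4 := 65800 / 187833) (p5 := 0) (r3 := 1156471 / 751332) (r4 := 65800 / 187833) (r5 := 0) (q := 297 / 125) (d := 1 / 40) (w := w) (by norm_num) hw
      (abs_le.2 ⟨by norm_num, by norm_num⟩) (abs_le.2 ⟨by norm_num, by norm_num⟩) (abs_le.2 ⟨by norm_num, by norm_num⟩) (by norm_num) (by norm_num) (by norm_num)
    nlinarith only [hP]
  · have hP := nb_q1 (p0 := 588511468207 / 51612800000000) (p1 := 8277031927 / 25806400000) (p2 := 573504901 / 129032000) (p3 := 1029337 / 161290) (p4 := 175975 / 32258) (p5 := 44200 / 16129) (r3 := 1029337 / 161290) (r4 := 175975 / 32258) (r5 := 44200 / 16129) (q := 4281 / 1000) (d := 1 / 40) (w := w) (by norm_num) hw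
      (abs_le.2 ⟨by norm_num, by norm_num⟩) (abs_le.2 ⟨by norm_num, by norm_num⟩) (abs_le.2 ⟨by norm_num, by norm_num⟩) (by norm_num) (by norm_num) (by norm_num)
    nlinarith only [hP]

theorem nb_y5 : Real.exp (81 / 200) ≤ 149931 / 100000 := by
  have h := Real.exp_bound' (x := 81 / 200) (by norm_num) (by norm_num) (n := 9) (by norm_num)
  refine h.trans ?_
  simp only [Finset.sum_range_succ, Finset.sum_range_zero, Nat.factorial]
  norm_num

theorem nb_s5 : Real.exp (7 / 100 + 3 / 10000) ≤ 107283 / 100000 := by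
  rw [show (7 / 100 + 3 / 10000 : ℝ) = 703 / 10000 by norm_num]
  have h := Real.exp_bound' (x := 703 / 10000) (by norm_num) (by norm_num) (n := 7) (by norm_num)
  refine h.trans ?_
  simp only [Finset.sum_range_succ, Finset.sum_range_zero, Nat.factorial]
  norm_num

theorem nb_x5 : artx (Real.exp (-(2 * (7 / 100)))) ≤ 2661 / 2000 := by
  refine nb_artx (l := 115027377 / 100000000) (by norm_num) (by norm_num) ?_ ?_
  · refine le_trans ?_ (Real.sum_le_exp_of_nonneg (by norm_num) 7)
    simp only [Finset.sum_range_succ, Finset.sum_range_zero, Nat.factorial]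
    norm_num
  · refine le_trans ?_ (Real.sum_le_exp_of_nonneg (by norm_num) 11)
    simp only [Finset.sum_range_succ, Finset.sum_range_zero, Nat.factorial]
    norm_num

theorem nb_c5 {w : ℝ} (hw : |w| ≤ 1 / 40) : Real.exp (81 / 200 + w + 3 / 10000 + 7 / 100) < kap ∧
    (Real.exp (2 * (81 / 200 + w + 3 / 10000)) - kap ^ 2 * alow (7 / 2) (81 / 200 + w) / π) *
      artx (Real.exp (-(2 * (7 / 100)))) < (kap - Real.exp (81 / 200 + w + 3 / 10000 + 7 / 100)) ^ 2 := by
  obtain ⟨hw1, hw2⟩ := abs_le.1 hw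
  refine nb_core (by norm_num) nb_y5 nb_s5 nb_x5 (hw.trans (by norm_num)) rfl (nb_a5 hw) (by linarith) ?_ ?_
  · have hP := nb_q2 (p0 := 6404952527 / 10000000000) (p1 := (-16085047473 / 10000000000)) (p2 := (-820337421123 / 1000000000000)) (p3 := 0) (p4 := 0) (p5 := 0) (r3 := 0) (r4 := 0) (r5 := 0) (r1 := 16085047473 / 10000000000) (q := (-821 / 1000)) (d := 1 / 40) (w := w) (by norm_num) hw
      (abs_le.2 ⟨by norm_num, by norm_num⟩) (abs_le.2 ⟨by norm_num, by norm_num⟩) (abs_le.2 ⟨by norm_num, by norm_num⟩) (abs_le.2 ⟨by norm_num, by norm_num⟩) (by norm_num) (by norm_num) (by norm_num)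
    unfold kap
    nlinarith only [hP]
  · have hP := nb_q2 (p0 := 589089717903076457 / 20000000000000000000) (p1 := 106983944580191727 / 12500000000000000000) (p2 := (-5635929371294470743873 / 1250000000000000000000)) (p3 := (-516858349233173915223 / 1250000000000000000000)) (p4 := (-26359775810891869676373 / 250000000000000000000000)) (p5 := 0) (r3 := 516858349233173915223 / 1250000000000000000000) (r4 := 26359775810891869676373 / 250000000000000000000000) (r5 := 0) (r1 := 106983944580191727 / 12500000000000000000) (q := (-113 / 25)) (d := 1 / 40) (w := w) (by norm_num) hw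
      (abs_le.2 ⟨by norm_num, by norm_num⟩) (abs_le.2 ⟨by norm_num, by norm_num⟩) (abs_le.2 ⟨by norm_num, by norm_num⟩) (abs_le.2 ⟨by norm_num, by norm_num⟩) (by norm_num) (by norm_num) (by norm_num)
    unfold kap
    nlinarith only [hP]

theorem nb_a6 {w : ℝ} (hw : |w| ≤ 1 / 40) : 884 / 625 + 4049 / 1000 * w ≤ alow (7 / 2) (91 / 200 + w) := by
  obtain ⟨hw1, hw2⟩ := abs_le.1 hw
  refine nb_alow (by norm_num) (by linarith) (by linarith) ?_ ?_
  · have ha : (50 / 127 / (7 / 2) / (1 / (7 / 2) ^ 2 + 50 / 127) : ℝ) = 350 / 1479 := by norm_num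
    rw [ha]
    have hP := nb_q1 (p0 := 41353 / 203200000) (p1 := 82701653 / 601065600000) (p2 := 8226630349 / 3005328000) (p3 := 24744439 / 15026640) (p4 := 141715 / 375666) (p5 := 0) (r3 := 24744439 / 15026640) (r4 := 141715 / 375666) (r5 := 0) (q := 539 / 200) (d := 1 / 40) (w := w) (by norm_num) hw
      (abs_le.2 ⟨by norm_num, by norm_num⟩) (abs_le.2 ⟨by norm_num, by norm_num⟩) (abs_le.2 ⟨by norm_num, by norm_num⟩) (by norm_num) (by norm_num) (by norm_num)
    nlinarith only [hP]
  · have hP := nb_q1 (p0 := 805689556269 / 25806400000000) (p1 := 2474067858009 / 5161280000000) (p2 := 34264655399 / 6451600000) (p3 := 479301667 / 64516000) (p4 := 1017029 / 161290) (p5 := 45645 / 16129) (r3 := 479301667 / 64516000) (r4 := 1017029 / 161290) (r5 := 45645 / 16129) (q := 5121 / 1000) (d := 1 / 40) (w := w) (by norm_num) hw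
      (abs_le.2 ⟨by norm_num, by norm_num⟩) (abs_le.2 ⟨by norm_num, by norm_num⟩) (abs_le.2 ⟨by norm_num, by norm_num⟩) (by norm_num) (by norm_num) (by norm_num)
    nlinarith only [hP]

theorem nb_y6 : Real.exp (91 / 200) ≤ 78809 / 50000 := by
  have h := Real.exp_bound' (x := 91 / 200) (by norm_num) (by norm_num) (n := 9) (by norm_num)
  refine h.trans ?_
  simp only [Finset.sum_range_succ, Finset.sum_range_zero, Nat.factorial]
  norm_num

theorem nb_s6 : Real.exp (13 / 200 + 3 / 10000) ≤ 26687 / 25000 := by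
  rw [show (13 / 200 + 3 / 10000 : ℝ) = 653 / 10000 by norm_num]
  have h := Real.exp_bound' (x := 653 / 10000) (by norm_num) (by norm_num) (n := 7) (by norm_num)
  refine h.trans ?_
  simp only [Finset.sum_range_succ, Finset.sum_range_zero, Nat.factorial]
  norm_num

theorem nb_x6 : artx (Real.exp (-(2 * (13 / 200)))) ≤ 6837 / 5000 := by
  refine nb_artx (l := 28470709 / 25000000) (by norm_num) (by norm_num) ?_ ?_
  · refine le_trans ?_ (Real.sum_le_exp_of_nonneg (by norm_num) 7)
    simp only [Finset.sum_range_succ, Finset.sum_range_zero, Nat.factorial]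
    norm_num
  · refine le_trans ?_ (Real.sum_le_exp_of_nonneg (by norm_num) 13)
    simp only [Finset.sum_range_succ, Finset.sum_range_zero, Nat.factorial]
    norm_num

theorem nb_c6 {w : ℝ} (hw : |w| ≤ 1 / 40) : Real.exp (91 / 200 + w + 3 / 10000 + 13 / 200) < kap ∧
    (Real.exp (2 * (91 / 200 + w + 3 / 10000)) - kap ^ 2 * alow (7 / 2) (91 / 200 + w) / π) *
      artx (Real.exp (-(2 * (13 / 200)))) < (kap - Real.exp (91 / 200 + w + 3 / 10000 + 13 / 200)) ^ 2 := by
  obtain ⟨hw1, hw2⟩ := abs_le.1 hw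
  refine nb_core (by norm_num) nb_y6 nb_s6 nb_x6 (hw.trans (by norm_num)) rfl (nb_a6 hw) (by linarith) ?_ ?_
  · have hP := nb_q2 (p0 := 708074217 / 1250000000) (p1 := (-2103175783 / 1250000000)) (p2 := (-107261964933 / 125000000000)) (p3 := 0) (p4 := 0) (p5 := 0) (r3 := 0) (r4 := 0) (r5 := 0) (r1 := 2103175783 / 1250000000) (q := (-859 / 1000)) (d := 1 / 40) (w := w) (by norm_num) hw
      (abs_le.2 ⟨by norm_num, by norm_num⟩) (abs_le.2 ⟨by norm_num, by norm_num⟩) (abs_le.2 ⟨by norm_num, by norm_num⟩) (abs_le.2 ⟨by norm_num, by norm_num⟩) (by norm_num) (by norm_num) (by norm_num)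
    unfold kap
    nlinarith only [hP]
  · have hP := nb_q2 (p0 := 2224335232991375931 / 62500000000000000000) (p1 := 26193834961866207537 / 125000000000000000000) (p2 := (-15648289211005041905737 / 3125000000000000000000)) (p3 := (-1811096474938106803887 / 3125000000000000000000)) (p4 := (-92365920221843446998237 / 625000000000000000000000)) (p5 := 0) (r3 := 1811096474938106803887 / 3125000000000000000000) (r4 := 92365920221843446998237 / 625000000000000000000000) (r5 := 0) (r1 := 26193834961866207537 / 125000000000000000000) (q := (-5023 / 1000)) (d := 1 / 40) (w := w) (by norm_num) hw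
      (abs_le.2 ⟨by norm_num, by norm_num⟩) (abs_le.2 ⟨by norm_num, by norm_num⟩) (abs_le.2 ⟨by norm_num, by norm_num⟩) (abs_le.2 ⟨by norm_num, by norm_num⟩) (by norm_num) (by norm_num) (by norm_num)
    unfold kap
    nlinarith only [hP]

theorem nb_a7 {w : ℝ} (hw : |w| ≤ 3 / 100) : 1647 / 1000 + 2209 / 500 * w ≤ alow (7 / 2) (51 / 100 + w) := by
  obtain ⟨hw1, hw2⟩ := abs_le.1 hw
  refine nb_alow (by norm_num) (by linarith) (by linarith) ?_ ?_
  · have ha : (50 / 127 / (7 / 2) / (1 / (7 / 2) ^ 2 + 50 / 127) : ℝ) = 350 / 1479 := by norm_num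
    rw [ha]
    have hP := nb_q1 (p0 := 1339311 / 7366000000) (p1 := (-5011619 / 12522200000)) (p2 := 1176383819 / 375666000) (p3 := 2232983 / 1252220) (p4 := 77315 / 187833) (p5 := 0) (r3 := 2232983 / 1252220) (r4 := 77315 / 187833) (r5 := 0) (q := 3077 / 1000) (d := 3 / 100) (w := w) (by norm_num) hw
      (abs_le.2 ⟨by norm_num, by norm_num⟩) (abs_le.2 ⟨by norm_num, by norm_num⟩) (abs_le.2 ⟨by norm_num, by norm_num⟩) (by norm_num) (by norm_num) (by norm_num)
    nlinarith only [hP]
  · have hP := nb_q1 (p0 := 101967624489 / 1612900000000) (p1 := 111637087509 / 161290000000) (p2 := 646906971 / 100806250) (p3 := 70937427 / 8064500) (p4 := 590343 / 80645) (p5 := 47490 / 16129) (r3 := 70937427 / 8064500) (r4 := 590343 / 80645) (r5 := 47490 / 16129) (q := 3073 / 500) (d := 3 / 100) (w := w) (by norm_num) hw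
      (abs_le.2 ⟨by norm_num, by norm_num⟩) (abs_le.2 ⟨by norm_num, by norm_num⟩) (abs_le.2 ⟨by norm_num, by norm_num⟩) (by norm_num) (by norm_num) (by norm_num)
    nlinarith only [hP]

theorem nb_y7 : Real.exp (51 / 100) ≤ 16653 / 10000 := by
  have h := Real.exp_bound' (x := 51 / 100) (by norm_num) (by norm_num) (n := 9) (by norm_num)
  refine h.trans ?_
  simp only [Finset.sum_range_succ, Finset.sum_range_zero, Nat.factorial]
  norm_num

theorem nb_s7 : Real.exp (9 / 200 + 3 / 10000) ≤ 20927 / 20000 := by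
  rw [show (9 / 200 + 3 / 10000 : ℝ) = 453 / 10000 by norm_num]
  have h := Real.exp_bound' (x := 453 / 10000) (by norm_num) (by norm_num) (n := 7) (by norm_num)
  refine h.trans ?_
  simp only [Finset.sum_range_succ, Finset.sum_range_zero, Nat.factorial]
  norm_num

theorem nb_x7 : artx (Real.exp (-(2 * (9 / 200)))) ≤ 15509 / 10000 := by
  refine nb_artx (l := 54708713 / 50000000) (by norm_num) (by norm_num) ?_ ?_
  · refine le_trans ?_ (Real.sum_le_exp_of_nonneg (by norm_num) 7)
    simp only [Finset.sum_range_succ, Finset.sum_range_zero, Nat.factorial]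
    norm_num
  · refine le_trans ?_ (Real.sum_le_exp_of_nonneg (by norm_num) 13)
    simp only [Finset.sum_range_succ, Finset.sum_range_zero, Nat.factorial]
    norm_num

theorem nb_c7 {w : ℝ} (hw : |w| ≤ 3 / 100) : Real.exp (51 / 100 + w + 3 / 10000 + 9 / 200) < kap ∧
    (Real.exp (2 * (51 / 100 + w + 3 / 10000)) - kap ^ 2 * alow (7 / 2) (51 / 100 + w) / π) *
      artx (Real.exp (-(2 * (9 / 200)))) < (kap - Real.exp (51 / 100 + w + 3 / 10000 + 9 / 200)) ^ 2 := by
  obtain ⟨hw1, hw2⟩ := abs_le.1 hw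
  refine nb_core (by norm_num) nb_y7 nb_s7 nb_x7 (hw.trans (by norm_num)) rfl (nb_a7 hw) (by linarith) ?_ ?_
  · have hP := nb_q2 (p0 := 101302669 / 200000000) (p1 := (-348497331 / 200000000)) (p2 := (-17773363881 / 20000000000)) (p3 := 0) (p4 := 0) (p5 := 0) (r3 := 0) (r4 := 0) (r5 := 0) (r1 := 348497331 / 200000000) (q := (-889 / 1000)) (d := 3 / 100) (w := w) (by norm_num) hw
      (abs_le.2 ⟨by norm_num, by norm_num⟩) (abs_le.2 ⟨by norm_num, by norm_num⟩) (abs_le.2 ⟨by norm_num, by norm_num⟩) (abs_le.2 ⟨by norm_num, by norm_num⟩) (by norm_num) (by norm_num) (by norm_num)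
    unfold kap
    nlinarith only [hP]
  · have hP := nb_q2 (p0 := 3274245217306752767 / 50000000000000000000) (p1 := 16481578350142982609 / 25000000000000000000) (p2 := (-102456339763575952791 / 15625000000000000000)) (p3 := (-20197832086885830741 / 15625000000000000000)) (p4 := (-1030089436431177367791 / 3125000000000000000000)) (p5 := 0) (r3 := 20197832086885830741 / 15625000000000000000) (r4 := 1030089436431177367791 / 3125000000000000000000) (r5 := 0) (r1 := 16481578350142982609 / 25000000000000000000) (q := (-6597 / 1000)) (d := 3 / 100) (w := w) (by norm_num) hw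
      (abs_le.2 ⟨by norm_num, by norm_num⟩) (abs_le.2 ⟨by norm_num, by norm_num⟩) (abs_le.2 ⟨by norm_num, by norm_num⟩) (abs_le.2 ⟨by norm_num, by norm_num⟩) (by norm_num) (by norm_num) (by norm_num)
    unfold kap
    nlinarith only [hP]

theorem nb_a8 {w : ℝ} (hw : |w| ≤ 3 / 100) : 9629 / 5000 + 4889 / 1000 * w ≤ alow (7 / 2) (57 / 100 + w) := by
  obtain ⟨hw1, hw2⟩ := abs_le.1 hw
  refine nb_alow (by norm_num) (by linarith) (by linarith) ?_ ?_
  · have ha : (50 / 127 / (7 / 2) / (1 / (7 / 2) ^ 2 + 50 / 127) : ℝ) = 350 / 1479 := by norm_num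
    rw [ha]
    have hP := nb_q1 (p0 := 23664239 / 125222000000) (p1 := 625147 / 4419600000) (p2 := 2718131761 / 751332000) (p3 := 14713513 / 7513320) (p4 := 171115 / 375666) (p5 := 0) (r3 := 14713513 / 7513320) (r4 := 171115 / 375666) (r5 := 0) (q := 1779 / 500) (d := 3 / 100) (w := w) (by norm_num) hw
      (abs_le.2 ⟨by norm_num, by norm_num⟩) (abs_le.2 ⟨by norm_num, by norm_num⟩) (abs_le.2 ⟨by norm_num, by norm_num⟩) (by norm_num) (by norm_num) (by norm_num)
    nlinarith only [hP]
  · have hP := nb_q1 (p0 := 182366891207 / 1612900000000) (p1 := 315644378649 / 322580000000) (p2 := 6329015707 / 806450000) (p3 := 170686503 / 16129000) (p4 := 688768 / 80645) (p5 := 49845 / 16129) (r3 := 170686503 / 16129000) (r4 := 688768 / 80645) (r5 := 49845 / 16129) (q := 3761 / 500) (d := 3 / 100) (w := w) (by norm_num) hw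
      (abs_le.2 ⟨by norm_num, by norm_num⟩) (abs_le.2 ⟨by norm_num, by norm_num⟩) (abs_le.2 ⟨by norm_num, by norm_num⟩) (by norm_num) (by norm_num) (by norm_num)
    nlinarith only [hP]

theorem nb_y8 : Real.exp (57 / 100) ≤ 176827 / 100000 := by
  have h := Real.exp_bound' (x := 57 / 100) (by norm_num) (by norm_num) (n := 9) (by norm_num)
  refine h.trans ?_
  simp only [Finset.sum_range_succ, Finset.sum_range_zero, Nat.factorial]
  norm_num

theorem nb_s8 : Real.exp (1 / 40 + 3 / 10000) ≤ 102563 / 100000 := by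
  rw [show (1 / 40 + 3 / 10000 : ℝ) = 253 / 10000 by norm_num]
  have h := Real.exp_bound' (x := 253 / 10000) (by norm_num) (by norm_num) (n := 7) (by norm_num)
  refine h.trans ?_
  simp only [Finset.sum_range_succ, Finset.sum_range_zero, Nat.factorial]
  norm_num

theorem nb_x8 : artx (Real.exp (-(2 * (1 / 40)))) ≤ 9223 / 5000 := by
  refine nb_artx (l := 105127107 / 100000000) (by norm_num) (by norm_num) ?_ ?_
  · refine le_trans ?_ (Real.sum_le_exp_of_nonneg (by norm_num) 7)
    simp only [Finset.sum_range_succ, Finset.sum_range_zero, Nat.factorial]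
    norm_num
  · refine le_trans ?_ (Real.sum_le_exp_of_nonneg (by norm_num) 14)
    simp only [Finset.sum_range_succ, Finset.sum_range_zero, Nat.factorial]
    norm_num

theorem nb_c8 {w : ℝ} (hw : |w| ≤ 3 / 100) : Real.exp (57 / 100 + w + 3 / 10000 + 1 / 40) < kap ∧
    (Real.exp (2 * (57 / 100 + w + 3 / 10000)) - kap ^ 2 * alow (7 / 2) (57 / 100 + w) / π) *
      artx (Real.exp (-(2 * (1 / 40)))) < (kap - Real.exp (57 / 100 + w + 3 / 10000 + 1 / 40)) ^ 2 := by
  obtain ⟨hw1, hw2⟩ := abs_le.1 hw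
  refine nb_core (by norm_num) nb_y8 nb_s8 nb_x8 (hw.trans (by norm_num)) rfl (nb_a8 hw) (by linarith) ?_ ?_
  · have hP := nb_q2 (p0 := 4354092399 / 10000000000) (p1 := (-18135907601 / 10000000000)) (p2 := (-924931287651 / 1000000000000)) (p3 := 0) (p4 := 0) (p5 := 0) (r3 := 0) (r4 := 0) (r5 := 0) (r1 := 18135907601 / 10000000000) (q := (-37 / 40)) (d := 3 / 100) (w := w) (by norm_num) hw
      (abs_le.2 ⟨by norm_num, by norm_num⟩) (abs_le.2 ⟨by norm_num, by norm_num⟩) (abs_le.2 ⟨by norm_num, by norm_num⟩) (abs_le.2 ⟨by norm_num, by norm_num⟩) (by norm_num) (by norm_num) (by norm_num)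
    unfold kap
    nlinarith only [hP]
  · have hP := nb_q2 (p0 := 68877893252196134003 / 500000000000000000000) (p1 := 349484788612867191701 / 250000000000000000000) (p2 := (-229349849702665929697229 / 25000000000000000000000)) (p3 := (-63291164819028316480779 / 25000000000000000000000)) (p4 := (-3227849405770444140519729 / 5000000000000000000000000)) (p5 := 0) (r3 := 63291164819028316480779 / 25000000000000000000000) (r4 := 3227849405770444140519729 / 5000000000000000000000000) (r5 := 0) (r1 := 349484788612867191701 / 250000000000000000000) (q := (-9251 / 1000)) (d := 3 / 100) (w := w) (by norm_num) hw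
      (abs_le.2 ⟨by norm_num, by norm_num⟩) (abs_le.2 ⟨by norm_num, by norm_num⟩) (abs_le.2 ⟨by norm_num, by norm_num⟩) (abs_le.2 ⟨by norm_num, by norm_num⟩) (by norm_num) (by norm_num) (by norm_num)
    unfold kap
    nlinarith only [hP]

theorem numB1 {v t : ℝ} (h : (v = 5 ∧ 1 / 5 ≤ t ∧ t ≤ 31 / 100) ∨
    (v = 4 ∧ 31 / 100 ≤ t ∧ t ≤ 38 / 100) ∨ (v = 7 / 2 ∧ 38 / 100 ≤ t ∧ t ≤ 6 / 10)) :
    ∃ σ : ℝ, 0 < σ ∧ Real.exp (t + 3 / 10000 + σ) < kap ∧
      (Real.exp (2 * (t + 3 / 10000)) - kap ^ 2 * alow v t / π) * artx (Real.exp (-(2 * σ))) <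
        (kap - Real.exp (t + 3 / 10000 + σ)) ^ 2 := by
  rcases h with ⟨rfl, h1, h2⟩ | ⟨rfl, h1, h2⟩ | ⟨rfl, h1, h2⟩
  · rcases le_total t (255 / 1000) with h3 | h3
    · have hw : |t - 91 / 400| ≤ 11 / 400 := abs_le.2 ⟨by linarith, by linarith⟩
      have hc := nb_c1 hw
      rw [add_sub_cancel] at hc
      exact ⟨23 / 200, by norm_num, hc⟩
    · have hw : |t - 113 / 400| ≤ 11 / 400 := abs_le.2 ⟨by linarith, by linarith⟩
      have hc := nb_c2 hw
      rw [add_sub_cancel] at hc
      exact ⟨21 / 200, by norm_num, hc⟩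
  · rcases le_total t (36 / 100) with h3 | h3
    · have hw : |t - 67 / 200| ≤ 1 / 40 := abs_le.2 ⟨by linarith, by linarith⟩
      have hc := nb_c3 hw
      rw [add_sub_cancel] at hc
      exact ⟨17 / 200, by norm_num, hc⟩
    · have hw : |t - 37 / 100| ≤ 1 / 100 := abs_le.2 ⟨by linarith, by linarith⟩
      have hc := nb_c4 hw
      rw [add_sub_cancel] at hc
      exact ⟨2 / 25, by norm_num, hc⟩
  · rcases le_total t (48 / 100) with h3 | h3
    · rcases le_total t (43 / 100) with h4 | h4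
      · have hw : |t - 81 / 200| ≤ 1 / 40 := abs_le.2 ⟨by linarith, by linarith⟩
        have hc := nb_c5 hw
        rw [add_sub_cancel] at hc
        exact ⟨7 / 100, by norm_num, hc⟩
      · have hw : |t - 91 / 200| ≤ 1 / 40 := abs_le.2 ⟨by linarith, by linarith⟩
        have hc := nb_c6 hw
        rw [add_sub_cancel] at hc
        exact ⟨13 / 200, by norm_num, hc⟩
    · rcases le_total t (54 / 100) with h4 | h4
      · have hw : |t - 51 / 100| ≤ 3 / 100 := abs_le.2 ⟨by linarith, by linarith⟩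
        have hc := nb_c7 hw
        rw [add_sub_cancel] at hc
        exact ⟨9 / 200, by norm_num, hc⟩
      · have hw : |t - 57 / 100| ≤ 3 / 100 := abs_le.2 ⟨by linarith, by linarith⟩
        have hc := nb_c8 hw
        rw [add_sub_cancel] at hc
        exact ⟨1 / 40, by norm_num, hc⟩

theorem nb_core2 {v t tc w Y A₀ A₁ : ℝ} (hY : Real.exp tc ≤ Y)
    (hw : |w| ≤ 1 / 20) (ht : t = tc + w) (hA : A₀ + A₁ * w ≤ alow v t) (hA0 : 0 ≤ A₀ + A₁ * w)
    (hfin : Y ^ 2 * (1 + w + 51 / 100 * w ^ 2) ^ 2 * (10006002 / 10000000) <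
      kap ^ 2 * (3183098 / 10000000) * (A₀ + A₁ * w)) :
    Real.exp (2 * (t + 3 / 10000)) < kap ^ 2 * alow v t / π := by
  set g : ℝ := 1 + w + 51 / 100 * w ^ 2 with hg
  have hgw : Real.exp w ≤ g := nb_exp hw
  have hg0 : 0 < g := (Real.exp_pos w).trans_le hgw
  have hY0 : 0 < Y := (Real.exp_pos tc).trans_le hY
  have h2 : Real.exp (2 * (t + 3 / 10000)) ≤ Y ^ 2 * g ^ 2 * (10006002 / 10000000) := by
    have e : 2 * (t + 3 / 10000) = tc + tc + (w + w) + 6 / 10000 := by rw [ht]; ring
    rw [e, Real.exp_add, Real.exp_add, Real.exp_add, Real.exp_add]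
    have h3 : Real.exp (6 / 10000) ≤ 10006002 / 10000000 := by
      have := nb_exp (w := 6 / 10000) (by rw [abs_of_pos] <;> norm_num)
      refine this.trans (by norm_num)
    have h4 := mul_le_mul hY hY (Real.exp_pos _).le hY0.le
    have h5 := mul_le_mul hgw hgw (Real.exp_pos _).le hg0.le
    have h6 := mul_le_mul h4 h5 (by positivity) (by positivity)
    have h7 := mul_le_mul h6 h3 (Real.exp_pos _).le (by positivity)
    calc _ ≤ Y * Y * (g * g) * (10006002 / 10000000) := h7
      _ = _ := by ring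
  have hpi : 3183098 / 10000000 ≤ 1 / π := by
    rw [le_div_iff₀ Real.pi_pos]
    have := Real.pi_lt_d6
    nlinarith
  have h3 : kap ^ 2 * (3183098 / 10000000) * (A₀ + A₁ * w) ≤ kap ^ 2 * alow v t / π := by
    have h4 : (3183098 / 10000000) * (A₀ + A₁ * w) ≤ 1 / π * alow v t :=
      mul_le_mul hpi hA hA0 (by positivity)
    have h5 := mul_le_mul_of_nonneg_left h4 (sq_nonneg kap)
    calc _ = kap ^ 2 * (3183098 / 10000000 * (A₀ + A₁ * w)) := by ring
      _ ≤ _ := h5
      _ = _ := by ring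
  linarith

theorem nb_d1 {w : ℝ} (hw : |w| ≤ 3 / 100) : 11177 / 5000 + 5447 / 1000 * w ≤ alow (7 / 2) (63 / 100 + w) := by
  obtain ⟨hw1, hw2⟩ := abs_le.1 hw
  refine nb_alow (by norm_num) (by linarith) (by linarith) ?_ ?_
  · have ha : (50 / 127 / (7 / 2) / (1 / (7 / 2) ^ 2 + 50 / 127) : ℝ) = 350 / 1479 := by norm_num
    rw [ha]
    have hP := nb_q1 (p0 := 4839209 / 25044400000) (p1 := (-25795837 / 75133200000)) (p2 := 3138239503 / 751332000) (p3 := 16284481 / 7513320) (p4 := 190645 / 375666) (p5 := 0) (r3 := 16284481 / 7513320) (r4 := 190645 / 375666) (r5 := 0) (q := 4111 / 1000) (d := 3 / 100) (w := w) (by norm_num) hw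
      (abs_le.2 ⟨by norm_num, by norm_num⟩) (abs_le.2 ⟨by norm_num, by norm_num⟩) (abs_le.2 ⟨by norm_num, by norm_num⟩) (by norm_num) (by norm_num) (by norm_num)
    nlinarith only [hP]
  · have hP := nb_q1 (p0 := 293357248319 / 1612900000000) (p1 := 427709935287 / 322580000000) (p2 := 7711777099 / 806450000) (p3 := 205304169 / 16129000) (p4 := 799096 / 80645) (p5 := 52635 / 16129) (r3 := 205304169 / 16129000) (r4 := 799096 / 80645) (r5 := 52635 / 16129) (q := 9171 / 1000) (d := 3 / 100) (w := w) (by norm_num) hw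
      (abs_le.2 ⟨by norm_num, by norm_num⟩) (abs_le.2 ⟨by norm_num, by norm_num⟩) (abs_le.2 ⟨by norm_num, by norm_num⟩) (by norm_num) (by norm_num) (by norm_num)
    nlinarith only [hP]

theorem nb_z1 : Real.exp (63 / 100) ≤ 93881 / 50000 := by
  have h := Real.exp_bound' (x := 63 / 100) (by norm_num) (by norm_num) (n := 11) (by norm_num)
  refine h.trans ?_
  simp only [Finset.sum_range_succ, Finset.sum_range_zero, Nat.factorial]
  norm_num

theorem nb_e1 {w : ℝ} (hw : |w| ≤ 3 / 100) : Real.exp (2 * (63 / 100 + w + 3 / 10000)) <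
    kap ^ 2 * alow (7 / 2) (63 / 100 + w) / π := by
  obtain ⟨hw1, hw2⟩ := abs_le.1 hw
  refine nb_core2 nb_z1 (hw.trans (by norm_num)) rfl (nb_d1 hw) (by linarith) ?_
  have hP := nb_q2 (p0 := 1786159667526851 / 25000000000000000) (p1 := 42864644787206371 / 25000000000000000) (p2 := (-4453560715057641261 / 625000000000000000)) (p3 := (-2248827687801383211 / 625000000000000000)) (p4 := (-114690212077870543761 / 125000000000000000000)) (p5 := 0) (r3 := 2248827687801383211 / 625000000000000000) (r4 := 114690212077870543761 / 125000000000000000000) (r5 := 0) (r1 := 42864644787206371 / 25000000000000000) (q := (-1447 / 200)) (d := 3 / 100) (w := w) (by norm_num) hw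
    (abs_le.2 ⟨by norm_num, by norm_num⟩) (abs_le.2 ⟨by norm_num, by norm_num⟩) (abs_le.2 ⟨by norm_num, by norm_num⟩) (abs_le.2 ⟨by norm_num, by norm_num⟩) (by norm_num) (by norm_num) (by norm_num)
  unfold kap
  nlinarith only [hP]

theorem nb_d2 {w : ℝ} (hw : |w| ≤ 3 / 100) : 12907 / 5000 + 6107 / 1000 * w ≤ alow (7 / 2) (69 / 100 + w) := by
  obtain ⟨hw1, hw2⟩ := abs_le.1 hw
  refine nb_alow (by norm_num) (by linarith) (by linarith) ?_ ?_
  · have ha : (50 / 127 / (7 / 2) / (1 / (7 / 2) ^ 2 + 50 / 127) : ℝ) = 350 / 1479 := by norm_num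
    rw [ha]
    have hP := nb_q1 (p0 := 5586549 / 25044400000) (p1 := (-15658859 / 75133200000)) (p2 := 3625710667 / 751332000) (p3 := 18169343 / 7513320) (p4 := 213745 / 375666) (p5 := 0) (r3 := 18169343 / 7513320) (r4 := 213745 / 375666) (r5 := 0) (q := 594 / 125) (d := 3 / 100) (w := w) (by norm_num) hw
      (abs_le.2 ⟨by norm_num, by norm_num⟩) (abs_le.2 ⟨by norm_num, by norm_num⟩) (abs_le.2 ⟨by norm_num, by norm_num⟩) (by norm_num) (by norm_num) (by norm_num)
    nlinarith only [hP]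
  · have hP := nb_q1 (p0 := 441482038093 / 1612900000000) (p1 := 563092270587 / 322580000000) (p2 := 9377779973 / 806450000) (p3 := 246865101 / 16129000) (p4 := 924068 / 80645) (p5 := 55935 / 16129) (r3 := 246865101 / 16129000) (r4 := 924068 / 80645) (r5 := 55935 / 16129) (q := 5579 / 500) (d := 3 / 100) (w := w) (by norm_num) hw
      (abs_le.2 ⟨by norm_num, by norm_num⟩) (abs_le.2 ⟨by norm_num, by norm_num⟩) (abs_le.2 ⟨by norm_num, by norm_num⟩) (by norm_num) (by norm_num) (by norm_num)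
    nlinarith only [hP]

theorem nb_z2 : Real.exp (69 / 100) ≤ 49843 / 25000 := by
  have h := Real.exp_bound' (x := 69 / 100) (by norm_num) (by norm_num) (n := 11) (by norm_num)
  refine h.trans ?_
  simp only [Finset.sum_range_succ, Finset.sum_range_zero, Nat.factorial]
  norm_num

theorem nb_e2 {w : ℝ} (hw : |w| ≤ 3 / 100) : Real.exp (2 * (69 / 100 + w + 3 / 10000)) <
    kap ^ 2 * alow (7 / 2) (69 / 100 + w) / π := by
  obtain ⟨hw1, hw2⟩ := abs_le.1 hw
  refine nb_core2 nb_z2 (hw.trans (by norm_num)) rfl (nb_d2 hw) (by linarith) ?_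
  have hP := nb_q2 (p0 := 4469448761643751 / 25000000000000000) (p1 := 46943213946072331 / 25000000000000000) (p2 := (-1255336949030436549 / 156250000000000000)) (p3 := (-633883013866854099 / 156250000000000000)) (p4 := (-32328033707209559049 / 31250000000000000000)) (p5 := 0) (r3 := 633883013866854099 / 156250000000000000) (r4 := 32328033707209559049 / 31250000000000000000) (r5 := 0) (r1 := 46943213946072331 / 25000000000000000) (q := (-8157 / 1000)) (d := 3 / 100) (w := w) (by norm_num) hw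
    (abs_le.2 ⟨by norm_num, by norm_num⟩) (abs_le.2 ⟨by norm_num, by norm_num⟩) (abs_le.2 ⟨by norm_num, by norm_num⟩) (abs_le.2 ⟨by norm_num, by norm_num⟩) (by norm_num) (by norm_num) (by norm_num)
  unfold kap
  nlinarith only [hP]

theorem nb_d3 {w : ℝ} (hw : |w| ≤ 3 / 100) : 29707 / 10000 + 1723 / 250 * w ≤ alow (7 / 2) (3 / 4 + w) := by
  obtain ⟨hw1, hw2⟩ := abs_le.1 hw
  refine nb_alow (by norm_num) (by linarith) (by linarith) ?_ ?_
  · have ha : (50 / 127 / (7 / 2) / (1 / (7 / 2) ^ 2 + 50 / 127) : ℝ) = 350 / 1479 := by norm_num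
    rw [ha]
    have hP := nb_q1 (p0 := 113729 / 589280000) (p1 := (-484283 / 1502664000)) (p2 := 83957947 / 15026640) (p3 := 2044771 / 751332) (p4 := 120610 / 187833) (p5 := 0) (r3 := 2044771 / 751332) (r4 := 120610 / 187833) (r5 := 0) (q := 1101 / 200) (d := 3 / 100) (w := w) (by norm_num) hw
      (abs_le.2 ⟨by norm_num, by norm_num⟩) (abs_le.2 ⟨by norm_num, by norm_num⟩) (abs_le.2 ⟨by norm_num, by norm_num⟩) (by norm_num) (by norm_num) (by norm_num)
    nlinarith only [hP]
  · have hP := nb_q1 (p0 := 2028408079 / 5161280000) (p1 := 289765631 / 129032000) (p2 := 91147529 / 6451600) (p3 := 1484273 / 80645) (p4 := 426967 / 32258) (p5 := 59860 / 16129) (r3 := 1484273 / 80645) (r4 := 426967 / 32258) (r5 := 59860 / 16129) (q := 13563 / 1000) (d := 3 / 100) (w := w) (by norm_num) hw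
      (abs_le.2 ⟨by norm_num, by norm_num⟩) (abs_le.2 ⟨by norm_num, by norm_num⟩) (abs_le.2 ⟨by norm_num, by norm_num⟩) (by norm_num) (by norm_num) (by norm_num)
    nlinarith only [hP]

theorem nb_z3 : Real.exp (3 / 4) ≤ 211701 / 100000 := by
  have h := Real.exp_bound' (x := 3 / 4) (by norm_num) (by norm_num) (n := 11) (by norm_num)
  refine h.trans ?_
  simp only [Finset.sum_range_succ, Finset.sum_range_zero, Nat.factorial]
  norm_num

theorem nb_e3 {w : ℝ} (hw : |w| ≤ 3 / 100) : Real.exp (2 * (3 / 4 + w + 3 / 10000)) <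
    kap ^ 2 * alow (7 / 2) (3 / 4 + w) / π := by
  obtain ⟨hw1, hw2⟩ := abs_le.1 hw
  refine nb_core2 nb_z3 (hw.trans (by norm_num)) rfl (nb_d3 hw) (by linarith) ?_
  have hP := nb_q2 (p0 := 7460981354461871 / 25000000000000000) (p1 := 53183880937582139 / 25000000000000000) (p2 := (-22646327440014156501 / 2500000000000000000)) (p3 := (-11435274251888336451 / 2500000000000000000)) (p4 := (-583198986846305159001 / 500000000000000000000)) (p5 := 0) (r3 := 11435274251888336451 / 2500000000000000000) (r4 := 583198986846305159001 / 500000000000000000000) (r5 := 0) (r1 := 53183880937582139 / 25000000000000000) (q := (-9197 / 1000)) (d := 3 / 100) (w := w) (by norm_num) hw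
    (abs_le.2 ⟨by norm_num, by norm_num⟩) (abs_le.2 ⟨by norm_num, by norm_num⟩) (abs_le.2 ⟨by norm_num, by norm_num⟩) (abs_le.2 ⟨by norm_num, by norm_num⟩) (by norm_num) (by norm_num) (by norm_num)
  unfold kap
  nlinarith only [hP]

theorem nb_d4 {w : ℝ} (hw : |w| ≤ 3 / 100) : 6823 / 2000 + 783 / 100 * w ≤ alow (7 / 2) (81 / 100 + w) := by
  obtain ⟨hw1, hw2⟩ := abs_le.1 hw
  refine nb_alow (by norm_num) (by linarith) (by linarith) ?_ ?_
  · have ha : (50 / 127 / (7 / 2) / (1 / (7 / 2) ^ 2 + 50 / 127) : ℝ) = 350 / 1479 := by norm_num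
    rw [ha]
    have hP := nb_q1 (p0 := 46047739 / 250444000000) (p1 := (-22231 / 110490000)) (p2 := 81283869 / 12522200) (p3 := 580505 / 187833) (p4 := 1575 / 2159) (p5 := 0) (r3 := 580505 / 187833) (r4 := 1575 / 2159) (r5 := 0) (q := 6397 / 1000) (d := 3 / 100) (w := w) (by norm_num) hw
      (abs_le.2 ⟨by norm_num, by norm_num⟩) (abs_le.2 ⟨by norm_num, by norm_num⟩) (abs_le.2 ⟨by norm_num, by norm_num⟩) (by norm_num) (by norm_num) (by norm_num)
    nlinarith only [hP]
  · have hP := nb_q1 (p0 := 1758137190623 / 3225800000000) (p1 := 91524097543 / 32258000000) (p2 := 2769051091 / 161290000) (p3 := 35723759 / 1612900) (p4 := 493547 / 32258) (p5 := 64550 / 16129) (r3 := 35723759 / 1612900) (r4 := 493547 / 32258) (r5 := 64550 / 16129) (q := 16489 / 1000) (d := 3 / 100) (w := w) (by norm_num) hw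
      (abs_le.2 ⟨by norm_num, by norm_num⟩) (abs_le.2 ⟨by norm_num, by norm_num⟩) (abs_le.2 ⟨by norm_num, by norm_num⟩) (by norm_num) (by norm_num) (by norm_num)
    nlinarith only [hP]

theorem nb_z4 : Real.exp (81 / 100) ≤ 224791 / 100000 := by
  have h := Real.exp_bound' (x := 81 / 100) (by norm_num) (by norm_num) (n := 11) (by norm_num)
  refine h.trans ?_
  simp only [Finset.sum_range_succ, Finset.sum_range_zero, Nat.factorial]
  norm_num

theorem nb_e4 {w : ℝ} (hw : |w| ≤ 3 / 100) : Real.exp (2 * (81 / 100 + w + 3 / 10000)) <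
    kap ^ 2 * alow (7 / 2) (81 / 100 + w) / π := by
  obtain ⟨hw1, hw2⟩ := abs_le.1 hw
  refine nb_core2 nb_z4 (hw.trans (by norm_num)) rfl (nb_d4 hw) (by linarith) ?_
  have hP := nb_q2 (p0 := 10910531656743727 / 25000000000000000) (p1 := 62353097456406669 / 25000000000000000) (p2 := (-25533467803620704781 / 2500000000000000000)) (p3 := (-12893137207768870731 / 2500000000000000000)) (p4 := (-657549997596212407281 / 500000000000000000000)) (p5 := 0) (r3 := 12893137207768870731 / 2500000000000000000) (r4 := 657549997596212407281 / 500000000000000000000) (r5 := 0) (r1 := 62353097456406669 / 25000000000000000) (q := (-1037 / 100)) (d := 3 / 100) (w := w) (by norm_num) hw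
    (abs_le.2 ⟨by norm_num, by norm_num⟩) (abs_le.2 ⟨by norm_num, by norm_num⟩) (abs_le.2 ⟨by norm_num, by norm_num⟩) (abs_le.2 ⟨by norm_num, by norm_num⟩) (by norm_num) (by norm_num) (by norm_num)
  unfold kap
  nlinarith only [hP]

theorem nb_d5 {w : ℝ} (hw : |w| ≤ 3 / 100) : 39141 / 10000 + 8959 / 1000 * w ≤ alow (7 / 2) (87 / 100 + w) := by
  obtain ⟨hw1, hw2⟩ := abs_le.1 hw
  refine nb_alow (by norm_num) (by linarith) (by linarith) ?_ ?_
  · have ha : (50 / 127 / (7 / 2) / (1 / (7 / 2) ^ 2 + 50 / 127) : ℝ) = 350 / 1479 := by norm_num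
    rw [ha]
    have hP := nb_q1 (p0 := 1574511 / 8636000000) (p1 := 3919523 / 25044400000) (p2 := 5693016881 / 751332000) (p3 := 8873761 / 2504440) (p4 := 18445 / 22098) (p5 := 0) (r3 := 8873761 / 2504440) (r4 := 18445 / 22098) (r5 := 0) (q := 747 / 100) (d := 3 / 100) (w := w) (by norm_num) hw
      (abs_le.2 ⟨by norm_num, by norm_num⟩) (abs_le.2 ⟨by norm_num, by norm_num⟩) (abs_le.2 ⟨by norm_num, by norm_num⟩) (by norm_num) (by norm_num) (by norm_num)
    nlinarith only [hP]
  · have hP := nb_q1 (p0 := 2372661742857 / 3225800000000) (p1 := 1138901865719 / 322580000000) (p2 := 4211577453 / 201612500) (p3 := 430655653 / 16129000) (p4 := 2859471 / 161290) (p5 := 70195 / 16129) (r3 := 430655653 / 16129000) (r4 := 2859471 / 161290) (r5 := 70195 / 16129) (q := 2509 / 125) (d := 3 / 100) (w := w) (by norm_num) hw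
      (abs_le.2 ⟨by norm_num, by norm_num⟩) (abs_le.2 ⟨by norm_num, by norm_num⟩) (abs_le.2 ⟨by norm_num, by norm_num⟩) (by norm_num) (by norm_num) (by norm_num)
    nlinarith only [hP]

theorem nb_z5 : Real.exp (87 / 100) ≤ 59673 / 25000 := by
  have h := Real.exp_bound' (x := 87 / 100) (by norm_num) (by norm_num) (n := 11) (by norm_num)
  refine h.trans ?_
  simp only [Finset.sum_range_succ, Finset.sum_range_zero, Nat.factorial]
  norm_num

theorem nb_e5 {w : ℝ} (hw : |w| ≤ 3 / 100) : Real.exp (2 * (87 / 100 + w + 3 / 10000)) <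
    kap ^ 2 * alow (7 / 2) (87 / 100 + w) / π := by
  obtain ⟨hw1, hw2⟩ := abs_le.1 hw
  refine nb_core2 nb_z5 (hw.trans (by norm_num)) rfl (nb_d5 hw) (by linarith) ?_
  have hP := nb_q2 (p0 := 6009385191815709 / 10000000000000000) (p1 := 75561945034364591 / 25000000000000000) (p2 := (-1799317101472046829 / 156250000000000000)) (p3 := (-908566061139350379 / 156250000000000000)) (p4 := (-46336869118106869329 / 31250000000000000000)) (p5 := 0) (r3 := 908566061139350379 / 156250000000000000) (r4 := 46336869118106869329 / 31250000000000000000) (r5 := 0) (r1 := 75561945034364591 / 25000000000000000) (q := (-2923 / 250)) (d := 3 / 100) (w := w) (by norm_num) hw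
    (abs_le.2 ⟨by norm_num, by norm_num⟩) (abs_le.2 ⟨by norm_num, by norm_num⟩) (abs_le.2 ⟨by norm_num, by norm_num⟩) (abs_le.2 ⟨by norm_num, by norm_num⟩) (by norm_num) (by norm_num) (by norm_num)
  unfold kap
  nlinarith only [hP]

theorem nb_d6 {w : ℝ} (hw : |w| ≤ 3 / 100) : 8983 / 2000 + 10331 / 1000 * w ≤ alow (7 / 2) (93 / 100 + w) := by
  obtain ⟨hw1, hw2⟩ := abs_le.1 hw
  refine nb_alow (by norm_num) (by linarith) (by linarith) ?_ ?_
  · have ha : (50 / 127 / (7 / 2) / (1 / (7 / 2) ^ 2 + 50 / 127) : ℝ) = 350 / 1479 := by norm_num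
    rw [ha]
    have hP := nb_q1 (p0 := 36426503 / 250444000000) (p1 := 18790759 / 75133200000) (p2 := 6686667229 / 751332000) (p3 := 30833813 / 7513320) (p4 := 361585 / 375666) (p5 := 0) (r3 := 30833813 / 7513320) (r4 := 361585 / 375666) (r5 := 0) (q := 351 / 40) (d := 3 / 100) (w := w) (by norm_num) hw
      (abs_le.2 ⟨by norm_num, by norm_num⟩) (abs_le.2 ⟨by norm_num, by norm_num⟩) (abs_le.2 ⟨by norm_num, by norm_num⟩) (by norm_num) (by norm_num) (by norm_num)
    nlinarith only [hP]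
  · have hP := nb_q1 (p0 := 3131616822959 / 3225800000000) (p1 := 1398217410531 / 322580000000) (p2 := 5137031123 / 201612500) (p3 := 520726257 / 16129000) (p4 := 3327241 / 161290) (p5 := 77055 / 16129) (r3 := 520726257 / 16129000) (r4 := 3327241 / 161290) (r5 := 77055 / 16129) (q := 6123 / 250) (d := 3 / 100) (w := w) (by norm_num) hw
      (abs_le.2 ⟨by norm_num, by norm_num⟩) (abs_le.2 ⟨by norm_num, by norm_num⟩) (abs_le.2 ⟨by norm_num, by norm_num⟩) (by norm_num) (by norm_num) (by norm_num)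
    nlinarith only [hP]

theorem nb_z6 : Real.exp (93 / 100) ≤ 253451 / 100000 := by
  have h := Real.exp_bound' (x := 93 / 100) (by norm_num) (by norm_num) (n := 11) (by norm_num)
  refine h.trans ?_
  simp only [Finset.sum_range_succ, Finset.sum_range_zero, Nat.factorial]
  norm_num

theorem nb_e6 {w : ℝ} (hw : |w| ≤ 3 / 100) : Real.exp (2 * (93 / 100 + w + 3 / 10000)) <
    kap ^ 2 * alow (7 / 2) (93 / 100 + w) / π := by
  obtain ⟨hw1, hw2⟩ := abs_le.1 hw
  refine nb_core2 nb_z6 (hw.trans (by norm_num)) rfl (nb_d6 hw) (by linarith) ?_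
  have hP := nb_q2 (p0 := 20094230621120467 / 25000000000000000) (p1 := 47222920802180597 / 12500000000000000) (p2 := (-32459362170531852501 / 2500000000000000000)) (p3 := (-16390370997001232451 / 2500000000000000000)) (p4 := (-835908920847062855001 / 500000000000000000000)) (p5 := 0) (r3 := 16390370997001232451 / 2500000000000000000) (r4 := 835908920847062855001 / 500000000000000000000) (r5 := 0) (r1 := 47222920802180597 / 12500000000000000) (q := (-6591 / 500)) (d := 3 / 100) (w := w) (by norm_num) hw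
    (abs_le.2 ⟨by norm_num, by norm_num⟩) (abs_le.2 ⟨by norm_num, by norm_num⟩) (abs_le.2 ⟨by norm_num, by norm_num⟩) (abs_le.2 ⟨by norm_num, by norm_num⟩) (by norm_num) (by norm_num) (by norm_num)
  unfold kap
  nlinarith only [hP]

theorem nb_d7 {w : ℝ} (hw : |w| ≤ 1 / 50) : 10083 / 2000 + 1171 / 100 * w ≤ alow (7 / 2) (49 / 50 + w) := by
  obtain ⟨hw1, hw2⟩ := abs_le.1 hw
  refine nb_alow (by norm_num) (by linarith) (by linarith) ?_ ?_
  · have ha : (50 / 127 / (7 / 2) / (1 / (7 / 2) ^ 2 + 50 / 127) : ℝ) = 350 / 1479 := by norm_num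
    rw [ha]
    have hP := nb_q1 (p0 := 5228871 / 31305500000) (p1 := 70189 / 626110000) (p2 := 384510721 / 37566600) (p3 := 68905 / 14732) (p4 := 204925 / 187833) (p5 := 0) (r3 := 68905 / 14732) (r4 := 204925 / 187833) (r5 := 0) (q := 10141 / 1000) (d := 1 / 50) (w := w) (by norm_num) hw
      (abs_le.2 ⟨by norm_num, by norm_num⟩) (abs_le.2 ⟨by norm_num, by norm_num⟩) (abs_le.2 ⟨by norm_num, by norm_num⟩) (by norm_num) (by norm_num) (by norm_num)
    nlinarith only [hP]
  · have hP := nb_q1 (p0 := 243187336899 / 201612500000) (p1 := 10272052581 / 2016125000) (p2 := 607911953 / 20161250) (p3 := 15301788 / 403225) (p4 := 758367 / 32258) (p5 := 83950 / 16129) (r3 := 15301788 / 403225) (r4 := 758367 / 32258) (r5 := 83950 / 16129) (q := 3673 / 125) (d := 1 / 50) (w := w) (by norm_num) hw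
      (abs_le.2 ⟨by norm_num, by norm_num⟩) (abs_le.2 ⟨by norm_num, by norm_num⟩) (abs_le.2 ⟨by norm_num, by norm_num⟩) (by norm_num) (by norm_num) (by norm_num)
    nlinarith only [hP]

theorem nb_z7 : Real.exp (49 / 50) ≤ 133223 / 50000 := by
  have h := Real.exp_bound' (x := 49 / 50) (by norm_num) (by norm_num) (n := 11) (by norm_num)
  refine h.trans ?_
  simp only [Finset.sum_range_succ, Finset.sum_range_zero, Nat.factorial]
  norm_num

theorem nb_e7 {w : ℝ} (hw : |w| ≤ 1 / 50) : Real.exp (2 * (49 / 50 + w + 3 / 10000)) <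
    kap ^ 2 * alow (7 / 2) (49 / 50 + w) / π := by
  obtain ⟨hw1, hw2⟩ := abs_le.1 hw
  refine nb_core2 nb_z7 (hw.trans (by norm_num)) rfl (nb_d7 hw) (by linarith) ?_
  have hP := nb_q2 (p0 := 50663189111153919 / 50000000000000000) (p1 := 58075199099037517 / 12500000000000000) (p2 := (-8968305251152027629 / 625000000000000000)) (p3 := (-4528550176324291179 / 625000000000000000)) (p4 := (-230956058992538850129 / 125000000000000000000)) (p5 := 0) (r3 := 4528550176324291179 / 625000000000000000) (r4 := 230956058992538850129 / 125000000000000000000) (r5 := 0) (r1 := 58075199099037517 / 12500000000000000) (q := (-2899 / 200)) (d := 1 / 50) (w := w) (by norm_num) hw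
    (abs_le.2 ⟨by norm_num, by norm_num⟩) (abs_le.2 ⟨by norm_num, by norm_num⟩) (abs_le.2 ⟨by norm_num, by norm_num⟩) (abs_le.2 ⟨by norm_num, by norm_num⟩) (by norm_num) (by norm_num) (by norm_num)
  unfold kap
  nlinarith only [hP]

theorem numB2 {t : ℝ} (h0 : 6 / 10 ≤ t) (h1 : t ≤ 1) :
    Real.exp (2 * (t + 3 / 10000)) < kap ^ 2 * alow (7 / 2) t / π := by
  rcases le_total t (21 / 25) with h2 | h2
  · rcases le_total t (18 / 25) with h4 | h4
    · rcases le_total t (33 / 50) with h6 | h6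
      · have hw : |t - 63 / 100| ≤ 3 / 100 := abs_le.2 ⟨by linarith, by linarith⟩
        have hc := nb_e1 hw
        rw [add_sub_cancel] at hc
        exact hc
      · have hw : |t - 69 / 100| ≤ 3 / 100 := abs_le.2 ⟨by linarith, by linarith⟩
        have hc := nb_e2 hw
        rw [add_sub_cancel] at hc
        exact hc
    · rcases le_total t (39 / 50) with h6 | h6
      · have hw : |t - 3 / 4| ≤ 3 / 100 := abs_le.2 ⟨by linarith, by linarith⟩
        have hc := nb_e3 hw
        rw [add_sub_cancel] at hc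
        exact hc
      · have hw : |t - 81 / 100| ≤ 3 / 100 := abs_le.2 ⟨by linarith, by linarith⟩
        have hc := nb_e4 hw
        rw [add_sub_cancel] at hc
        exact hc
  · rcases le_total t (24 / 25) with h4 | h4
    · rcases le_total t (9 / 10) with h6 | h6
      · have hw : |t - 87 / 100| ≤ 3 / 100 := abs_le.2 ⟨by linarith, by linarith⟩
        have hc := nb_e5 hw
        rw [add_sub_cancel] at hc
        exact hc
      · have hw : |t - 93 / 100| ≤ 3 / 100 := abs_le.2 ⟨by linarith, by linarith⟩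
        have hc := nb_e6 hw
        rw [add_sub_cancel] at hc
        exact hc
    · have hw : |t - 49 / 50| ≤ 1 / 50 := abs_le.2 ⟨by linarith, by linarith⟩
      have hc := nb_e7 hw
      rw [add_sub_cancel] at hc
      exact hc

theorem nb_f1 : Real.exp (3301 / 10000) ≤ 1739 / 1250 := by
  have h := Real.exp_bound' (x := 3301 / 10000) (by norm_num) (by norm_num) (n := 7) (by norm_num)
  refine h.trans ?_
  simp only [Finset.sum_range_succ, Finset.sum_range_zero, Nat.factorial]
  norm_num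

theorem nb_f2 : Real.exp (2001 / 5000) ≤ 7461 / 5000 := by
  have h := Real.exp_bound' (x := 2001 / 5000) (by norm_num) (by norm_num) (n := 7) (by norm_num)
  refine h.trans ?_
  simp only [Finset.sum_range_succ, Finset.sum_range_zero, Nat.factorial]
  norm_num

theorem nb_f3 : artx (Real.exp (-(2 * (13 / 100)))) ≤ 2047 / 2000 := by
  refine nb_artx (l := 64846503 / 50000000) (by norm_num) (by norm_num) ?_ ?_
  · refine le_trans ?_ (Real.sum_le_exp_of_nonneg (by norm_num) 7)
    simp only [Finset.sum_range_succ, Finset.sum_range_zero, Nat.factorial]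
    norm_num
  · refine le_trans ?_ (Real.sum_le_exp_of_nonneg (by norm_num) 9)
    simp only [Finset.sum_range_succ, Finset.sum_range_zero, Nat.factorial]
    norm_num

theorem numB0 : ∃ σ : ℝ, 0 < σ ∧ Real.exp (2001 / 10000 + σ) < kap ∧
    (Real.exp (2 * (2001 / 10000)) - kap ^ 2 * B (1 / 5) / π) * artx (Real.exp (-(2 * σ))) <
      (kap - Real.exp (2001 / 10000 + σ)) ^ 2 := by
  have e1 := nb_f1
  have e2 := nb_f2
  have e3 := nb_f3
  have e4 : (2001 / 10000 + 13 / 100 : ℝ) = 3301 / 10000 := by norm_num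
  have e5 : (2 * (2001 / 10000) : ℝ) = 4002 / 10000 := by norm_num
  refine ⟨13 / 100, by norm_num, ?_, ?_⟩
  · rw [e4]
    unfold kap
    linarith
  · rw [e4, e5]
    have hB : B (1 / 5) = 516 / 1000 := by
      unfold B
      norm_num
    have hpi : 3183098 / 10000000 ≤ 1 / π := by
      rw [le_div_iff₀ Real.pi_pos]
      have := Real.pi_lt_d6
      nlinarith
    have hZ := nb_artx_nonneg (σ := 13 / 100) (by norm_num)
    rw [hB]
    have hb : Real.exp (4002 / 10000) - kap ^ 2 * (516 / 1000) / π ≤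
        14922 / 10000 - kap ^ 2 * (516 / 1000) * (3183098 / 10000000) := by
      have h5 := mul_le_mul_of_nonneg_left hpi
        (by positivity : (0:ℝ) ≤ kap ^ 2 * (516 / 1000))
      have h6 : kap ^ 2 * (516 / 1000) / π = kap ^ 2 * (516 / 1000) * (1 / π) := by ring
      rw [h6]
      linarith
    have h7 : (Real.exp (4002 / 10000) - kap ^ 2 * (516 / 1000) / π) *
        artx (Real.exp (-(2 * (13 / 100)))) ≤
        (14922 / 10000 - kap ^ 2 * (516 / 1000) * (3183098 / 10000000)) * (2047 / 2000) := by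
      refine (mul_le_mul_of_nonneg_right hb hZ).trans (mul_le_mul_of_nonneg_left e3 ?_)
      unfold kap
      norm_num
    refine lt_of_le_of_lt h7 ?_
    have h8 : (kap - 13912 / 10000) ^ 2 ≤ (kap - Real.exp (3301 / 10000)) ^ 2 := by
      refine pow_le_pow_left₀ ?_ (by linarith) 2
      unfold kap
      norm_num
    refine lt_of_lt_of_le ?_ h8
    unfold kap
    norm_num

end Pool.Agent.H88.LE
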