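import Pool.Agent.H88.LE.Defs

/-!
# LE-NC: the parts cannot be too small

With `x = m/(1-m) ∈ (0, 1]`, `z = t/x ≥ t`: `t - t/m = -t/x = -z`, `t - t/(1-m) = -t x = -t²/z`. As `e^{-y} ≤ 1 - y + y²/2` for `y ≥ 0`, it is enough that
`e^{-z} < t²/z - t⁴/(2z²)`, i.e. `z e^{-z} < t² (1 - t²/(2z))`.

PROOF of `numC1` (`t = 1`, `z ≥ 1`): `z e^{-z} ≤ e^{-1} < 1/2 ≤ 1 - 1/(2z)` (`z ≤ e^{z-1}`).

PROOF of `numC2`. `m < t/v` gives `x < t/(v-t)`, `z > v - t ≥ 1`. `z e^{-z}` is decreasing for `z ≥ 1` and `1 - t²/(2z)` is increasing, so it is enough to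
have the inequality at `z = v - t`: `(v-t) e^{-(v-t)} < t² (1 - t²/(2(v-t)))`. The difference right - left is increasing in `t` on the three intervals;
values: `v = 5`, `t = 1/5`: `0.03983 - 0.03951` (tight, but fine); `v = 4`, `t = 0.31`: `0.0948 - 0.0922`; `v = 7/2`, `t = 0.38`: `0.1410 - 0.1378`.
(Proof of the monotonicity: `e^{-(v-t)} = e^{-(v-t₀)} e^{t-t₀}`, with `e^{t-t₀} ≤ 1 + 2 (t-t₀)` for `t - t₀ ≤ 1`; then polynomial inequalities.)
-/

set_option autoImplicit false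

open Polynomial Complex MeasureTheory Set
open scoped Real ComplexConjugate
open Pool.Agent.H88.LD

noncomputable section

namespace Pool.Agent.H88.LE

/-- `e^{-y} ≤ 1 - y + y²/2` for `y ≥ 0` -/
private theorem nc_expneg {y : ℝ} (hy : 0 ≤ y) : Real.exp (-y) ≤ 1 - y + y ^ 2 / 2 := by
  have h1 : 1 + y + y ^ 2 / 2 ≤ Real.exp y := Real.quadratic_le_exp_of_nonneg hy
  have h2 : 0 < Real.exp (-y) := Real.exp_pos _
  have h3 : Real.exp (-y) * Real.exp y = 1 := by rw [← Real.exp_add]; simp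
  have h4 : Real.exp (-y) * (1 + y + y ^ 2 / 2) ≤ 1 := by
    calc Real.exp (-y) * (1 + y + y ^ 2 / 2) ≤ Real.exp (-y) * Real.exp y :=
          mul_le_mul_of_nonneg_left h1 h2.le
      _ = 1 := h3
  have h5 : 0 < 1 + y + y ^ 2 / 2 := by positivity
  have h6 : 1 ≤ (1 - y + y ^ 2 / 2) * (1 + y + y ^ 2 / 2) := by
    nlinarith [mul_nonneg (sq_nonneg y) (sq_nonneg y)]
  by_contra hc
  push Not at hc
  have h7 := mul_lt_mul_of_pos_right hc h5
  linarith

/-- `e^t ≤ 1 + t + t²/2 + 2t³/9` on `[0, 1]` -/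
private theorem nc_exp3 {t : ℝ} (h0 : 0 ≤ t) (h1 : t ≤ 1) :
    Real.exp t ≤ 1 + t + t ^ 2 / 2 + 2 / 9 * t ^ 3 := by
  have h := Real.exp_bound' h0 h1 (n := 3) (by norm_num)
  have e : (∑ m ∈ Finset.range 3, t ^ m / (m.factorial : ℝ)) + t ^ 3 * ((3 : ℕ) + 1) / ((3 : ℕ).factorial * (3 : ℕ)) =
      1 + t + t ^ 2 / 2 + 2 / 9 * t ^ 3 := by
    simp [Finset.sum_range_succ, Nat.factorial]
    ring
  linarith

/-- the reduction to one inequality in `z` -/
private theorem nc_red {t m z : ℝ} (ht : 0 < t) (h0 : 0 < m) (h1 : m < 1)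
    (hz : z = t * (1 - m) / m) (h : z * Real.exp (-z) < t ^ 2 * (1 - t ^ 2 / (2 * z))) :
    Real.exp (t - t / m) + Real.exp (t - t / (1 - m)) < 1 := by
  have h1m : 0 < 1 - m := by linarith
  have hzp : 0 < z := by rw [hz]; positivity
  have e1 : t - t / m = -z := by
    rw [hz]; field_simp; ring
  have e2 : t - t / (1 - m) = -(t ^ 2 / z) := by
    rw [hz]; field_simp; ring
  rw [e1, e2]
  have h2 := nc_expneg (y := t ^ 2 / z) (by positivity)
  have h3 : Real.exp (-z) < t ^ 2 / z - (t ^ 2 / z) ^ 2 / 2 := by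
    have h4 : Real.exp (-z) < t ^ 2 * (1 - t ^ 2 / (2 * z)) / z := by
      rw [lt_div_iff₀ hzp]; linarith
    have h5 : t ^ 2 * (1 - t ^ 2 / (2 * z)) / z = t ^ 2 / z - (t ^ 2 / z) ^ 2 / 2 := by
      field_simp
    linarith
  linarith

/-- `z e^{-z}` is decreasing for `z ≥ 1` -/
private theorem nc_dec {w z : ℝ} (hw : 1 ≤ w) (hz : w ≤ z) :
    z * Real.exp (-z) ≤ w * Real.exp (-w) := by
  have h1 : z ≤ w * Real.exp (z - w) := by
    have h2 := Real.add_one_le_exp (z - w)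
    have h3 : w * (z - w + 1) ≤ w * Real.exp (z - w) :=
      mul_le_mul_of_nonneg_left h2 (by linarith)
    have h4 : 0 ≤ (w - 1) * (z - w) := mul_nonneg (by linarith) (by linarith)
    nlinarith
  have h5 : Real.exp (-w) = Real.exp (z - w) * Real.exp (-z) := by
    rw [← Real.exp_add]; congr 1; ring
  rw [h5, ← mul_assoc]
  exact mul_le_mul_of_nonneg_right h1 (Real.exp_pos _).le

theorem numC1 {m : ℝ} (h0 : 0 < m) (h1 : m ≤ 1 / 2) :
    Real.exp (1 - 1 / m) + Real.exp (1 - 1 / (1 - m)) < 1 := by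
  have hz : 1 ≤ 1 * (1 - m) / m := by
    rw [le_div_iff₀ h0]; linarith
  refine nc_red one_pos h0 (by linarith) rfl ?_
  set z := 1 * (1 - m) / m with hzdef
  have h2 := nc_dec le_rfl hz
  have h3 := Real.exp_neg_one_lt_d9
  have h4 : (1 : ℝ) ^ 2 / (2 * z) ≤ 1 / 2 := by
    rw [div_le_iff₀ (by linarith)]; linarith
  nlinarith

/-- the reduction to `z = v - t` -/
private theorem nc_red2 {v t m : ℝ} (h0 : 0 < m) (h1 : m ≤ 1 / 2) (hm : m < t / v) (ht : 0 < t)
    (hv : 1 ≤ v - t)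
    (h : 2 * (v - t) ^ 2 * Real.exp (-(v - t)) < t ^ 2 * (2 * (v - t) - t ^ 2)) :
    Real.exp (t - t / m) + Real.exp (t - t / (1 - m)) < 1 := by
  have hvp : 0 < v := by linarith
  have hm' : m * v < t := by rwa [lt_div_iff₀ hvp] at hm
  have hz : v - t ≤ t * (1 - m) / m := by
    rw [le_div_iff₀ h0]; nlinarith
  refine nc_red ht h0 (by linarith) rfl ?_
  set z := t * (1 - m) / m with hzdef
  have h2 := nc_dec hv hz
  have hw : 0 < v - t := by linarith
  have h3 : (v - t) * Real.exp (-(v - t)) < t ^ 2 * (1 - t ^ 2 / (2 * (v - t))) := by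
    have e : t ^ 2 * (1 - t ^ 2 / (2 * (v - t))) = t ^ 2 * (2 * (v - t) - t ^ 2) / (2 * (v - t)) := by
      field_simp
    rw [e, lt_div_iff₀ (by positivity)]
    nlinarith
  have h4 : t ^ 2 / (2 * z) ≤ t ^ 2 / (2 * (v - t)) := by
    apply div_le_div_of_nonneg_left (by positivity) (by positivity)
    linarith
  have h5 : t ^ 2 * (1 - t ^ 2 / (2 * (v - t))) ≤ t ^ 2 * (1 - t ^ 2 / (2 * z)) := by
    apply mul_le_mul_of_nonneg_left _ (by positivity)
    linarith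
  linarith

theorem numC2 {v t m : ℝ} (h0 : 0 < m) (h1 : m ≤ 1 / 2) (hm : m < t / v)
    (h : (v = 5 ∧ 1 / 5 ≤ t ∧ t ≤ 31 / 100) ∨ (v = 4 ∧ 31 / 100 ≤ t ∧ t ≤ 38 / 100) ∨
      (v = 7 / 2 ∧ 38 / 100 ≤ t ∧ t ≤ 1)) :
    Real.exp (t - t / m) + Real.exp (t - t / (1 - m)) < 1 := by
  have hE : Real.exp (-1) < 0.3678794412 := Real.exp_neg_one_lt_d9
  have hEp : 0 < Real.exp (-1) := Real.exp_pos _
  rcases h with ⟨hv, ht0, ht1⟩ | ⟨hv, ht0, ht1⟩ | ⟨hv, ht0, ht1⟩
  · subst hv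
    refine nc_red2 h0 h1 hm (by linarith) (by linarith) ?_
    have e5 : Real.exp (-5) < 0.006738 := by
      have : Real.exp (-5) = Real.exp (-1) ^ 5 := by
        rw [← Real.exp_nat_mul]; norm_num
      rw [this]
      calc Real.exp (-1) ^ 5 < 0.3678794412 ^ 5 := by gcongr
        _ < 0.006738 := by norm_num
    have e1 : Real.exp (-(5 - t)) = Real.exp (-5) * Real.exp t := by
      rw [← Real.exp_add]; congr 1; ring
    have e2 := nc_exp3 (t := t) (by linarith) (by linarith)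
    have e3 : Real.exp (-5) * Real.exp t ≤ 0.006738 * (1 + t + t ^ 2 / 2 + 2 / 9 * t ^ 3) :=
      mul_le_mul e5.le e2 (Real.exp_pos _).le (by norm_num)
    rw [e1]
    have e4 : 2 * (5 - t) ^ 2 * (Real.exp (-5) * Real.exp t) ≤
        2 * (5 - t) ^ 2 * (0.006738 * (1 + t + t ^ 2 / 2 + 2 / 9 * t ^ 3)) :=
      mul_le_mul_of_nonneg_left e3 (by positivity)
    refine lt_of_le_of_lt e4 ?_
    obtain ⟨s, rfl⟩ : ∃ s, t = 1 / 5 + s := ⟨t - 1 / 5, by ring⟩
    have hs0 : 0 ≤ s := by linarith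
    have hs1 : s ≤ 11 / 100 := by linarith
    nlinarith [mul_nonneg hs0 (sub_nonneg.2 hs1), pow_nonneg hs0 2, pow_nonneg hs0 3,
      mul_nonneg (pow_nonneg hs0 2) (sub_nonneg.2 hs1), mul_nonneg (pow_nonneg hs0 3) (sub_nonneg.2 hs1),
      mul_nonneg (pow_nonneg hs0 4) (sub_nonneg.2 hs1)]
  · subst hv
    refine nc_red2 h0 h1 hm (by linarith) (by linarith) ?_
    have e5 : Real.exp (-4) < 0.018316 := by
      have : Real.exp (-4) = Real.exp (-1) ^ 4 := by
        rw [← Real.exp_nat_mul]; norm_num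
      rw [this]
      calc Real.exp (-1) ^ 4 < 0.3678794412 ^ 4 := by gcongr
        _ < 0.018316 := by norm_num
    have e1 : Real.exp (-(4 - t)) = Real.exp (-4) * Real.exp t := by
      rw [← Real.exp_add]; congr 1; ring
    have e2 := nc_exp3 (t := t) (by linarith) (by linarith)
    have e3 : Real.exp (-4) * Real.exp t ≤ 0.018316 * (1 + t + t ^ 2 / 2 + 2 / 9 * t ^ 3) :=
      mul_le_mul e5.le e2 (Real.exp_pos _).le (by norm_num)
    rw [e1]
    have e4 : 2 * (4 - t) ^ 2 * (Real.exp (-4) * Real.exp t) ≤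
        2 * (4 - t) ^ 2 * (0.018316 * (1 + t + t ^ 2 / 2 + 2 / 9 * t ^ 3)) :=
      mul_le_mul_of_nonneg_left e3 (by positivity)
    refine lt_of_le_of_lt e4 ?_
    obtain ⟨s, rfl⟩ : ∃ s, t = 31 / 100 + s := ⟨t - 31 / 100, by ring⟩
    have hs0 : 0 ≤ s := by linarith
    have hs1 : s ≤ 7 / 100 := by linarith
    nlinarith [mul_nonneg hs0 (sub_nonneg.2 hs1), pow_nonneg hs0 2, pow_nonneg hs0 3,
      mul_nonneg (pow_nonneg hs0 2) (sub_nonneg.2 hs1), mul_nonneg (pow_nonneg hs0 3) (sub_nonneg.2 hs1),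
      mul_nonneg (pow_nonneg hs0 4) (sub_nonneg.2 hs1)]
  · subst hv
    refine nc_red2 h0 h1 hm (by linarith) (by linarith) ?_
    have e5 : Real.exp (-(7 / 2)) < 0.030273 := by
      have h4 : Real.exp (-4) < 0.018316 := by
        have : Real.exp (-4) = Real.exp (-1) ^ 4 := by
          rw [← Real.exp_nat_mul]; norm_num
        rw [this]
        calc Real.exp (-1) ^ 4 < 0.3678794412 ^ 4 := by gcongr
          _ < 0.018316 := by norm_num
      have h5 := nc_exp3 (t := 1 / 2) (by norm_num) (by norm_num)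
      have h6 : Real.exp (-(7 / 2)) = Real.exp (-4) * Real.exp (1 / 2) := by
        rw [← Real.exp_add]; norm_num
      rw [h6]
      have h7 : Real.exp (-4) * Real.exp (1 / 2) ≤
          0.018316 * (1 + 1 / 2 + (1 / 2) ^ 2 / 2 + 2 / 9 * (1 / 2) ^ 3) :=
        mul_le_mul h4.le h5 (Real.exp_pos _).le (by norm_num)
      refine lt_of_le_of_lt h7 (by norm_num)
    have e1 : Real.exp (-(7 / 2 - t)) = Real.exp (-(7 / 2)) * Real.exp t := by
      rw [← Real.exp_add]; congr 1; ring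
    have e2 := nc_exp3 (t := t) (by linarith) (by linarith)
    have e3 : Real.exp (-(7 / 2)) * Real.exp t ≤ 0.030273 * (1 + t + t ^ 2 / 2 + 2 / 9 * t ^ 3) :=
      mul_le_mul e5.le e2 (Real.exp_pos _).le (by norm_num)
    rw [e1]
    have e4 : 2 * (7 / 2 - t) ^ 2 * (Real.exp (-(7 / 2)) * Real.exp t) ≤
        2 * (7 / 2 - t) ^ 2 * (0.030273 * (1 + t + t ^ 2 / 2 + 2 / 9 * t ^ 3)) :=
      mul_le_mul_of_nonneg_left e3 (by positivity)
    refine lt_of_le_of_lt e4 ?_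
    obtain ⟨s, rfl⟩ : ∃ s, t = 38 / 100 + s := ⟨t - 38 / 100, by ring⟩
    have hs0 : 0 ≤ s := by linarith
    have hs1 : s ≤ 62 / 100 := by linarith
    nlinarith [mul_nonneg hs0 (sub_nonneg.2 hs1), pow_nonneg hs0 2, pow_nonneg hs0 3,
      mul_nonneg (pow_nonneg hs0 2) (sub_nonneg.2 hs1), mul_nonneg (pow_nonneg hs0 3) (sub_nonneg.2 hs1),
      mul_nonneg (pow_nonneg hs0 4) (sub_nonneg.2 hs1)]

end Pool.Agent.H88.LE
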