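import Pool.Agent.H88.LE.PI

/-!
# LE-PIb: a lower bound for the solutions of the lens differential inequality

`B τ = 2.54 τ + τ³`.

PROOF of `lower_B`. Suppose `α τ₁ < B τ₁`. Let `τ*` be the supremum of the `τ ∈ [0, τ₁]` with `B τ ≤ α τ` (contains `0`:
`B 0 = 0 ≤ α 0`). As `α` is monotone and `B` continuous, `B τ* ≤ α τ*` (take `τ_j ↑ τ*`: `α τ* ≥ α τ_j ≥ B τ_j → B τ*`), so `τ* < τ₁`, and
`α (τ*+δ) < B (τ*+δ)` for `0 < δ ≤ τ₁ - τ*`; by monotonicity and continuity `α τ* ≤ B τ*`, so `α τ* = B τ* =: x`.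
If `x < π`: for small `δ`: `α (τ*+δ) < B (τ*+δ) ≤ π`, so `hα.lens` with the `q` of `B_ode` for `τ*` gives
`B (τ*+δ) - B τ* > α (τ*+δ) - α τ* ≥ δ (q x + 2 W q/q)²/(2π)`; `δ → 0`: `B' τ* = 2.54 + 3 τ*² ≥ (q x + 2 W q/q)²/(2π)`, contradiction.
If `x ≥ π`: the same with `hα.iso` and `B_iso`. (Similar arguments: LD/OD.lean.)
-/

set_option autoImplicit false

open Polynomial Complex MeasureTheory Set
open scoped Real ComplexConjugate
open Pool.Agent.H88.LD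

noncomputable section

namespace Pool.Agent.H88.LE

theorem pib_cont : Continuous B := by
  unfold B
  fun_prop

theorem lower_B (α : ℝ → ℝ) (T : ℝ) (hα : LensGrowthOn α T) :
    ∀ τ, 0 ≤ τ → τ < T → B τ ≤ α τ := by
  intro τ₁ hτ0 hτT
  by_contra hcon
  push Not at hcon
  set A : Set ℝ := {τ | 0 ≤ τ ∧ τ ≤ τ₁ ∧ B τ ≤ α τ} with hA
  have h0A : (0 : ℝ) ∈ A := ⟨le_rfl, hτ0, by
    have : B 0 = 0 := by simp [B]
    rw [this]; exact hα.nonneg 0 le_rfl (hτ0.trans_lt hτT)⟩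
  have hbdd : BddAbove A := ⟨τ₁, fun τ hτ => hτ.2.1⟩
  set s : ℝ := sSup A with hs
  have hs0 : 0 ≤ s := le_csSup hbdd h0A
  have hs1 : s ≤ τ₁ := csSup_le ⟨0, h0A⟩ fun τ hτ => hτ.2.1
  have hsT : s < T := hs1.trans_lt hτT
  have hsB : B s ≤ α s := by
    have h1 : s ∈ closure A := csSup_mem_closure ⟨0, h0A⟩ hbdd
    have h2 : IsClosed {τ : ℝ | B τ ≤ α s} := isClosed_le pib_cont continuous_const
    have h3 : A ⊆ {τ : ℝ | B τ ≤ α s} := fun τ hτ =>
      hτ.2.2.trans (hα.mono τ s hτ.1 (le_csSup hbdd hτ) hsT)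
    exact (closure_minimal h3 h2) h1
  have hslt : s < τ₁ := by
    rcases eq_or_lt_of_le hs1 with h | h
    · rw [h] at hsB; exact absurd hcon (not_lt.2 hsB)
    · exact h
  have hgt : ∀ δ : ℝ, 0 < δ → δ ≤ τ₁ - s → α (s + δ) < B (s + δ) := by
    intro δ hδ hδ1
    by_contra h
    push Not at h
    have : s + δ ≤ s := le_csSup hbdd ⟨by linarith, by linarith, h⟩
    linarith
  have hcB : Filter.Tendsto (fun δ : ℝ => B (s + δ)) (nhdsWithin 0 (Ioi 0)) (nhds (B s)) := by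
    have h1 : Continuous fun δ : ℝ => B (s + δ) := pib_cont.comp (continuous_const.add continuous_id)
    have h2 := h1.tendsto 0
    rw [add_zero] at h2
    exact h2.mono_left nhdsWithin_le_nhds
  have hsmall : ∀ᶠ δ : ℝ in nhdsWithin 0 (Ioi 0), 0 < δ ∧ δ ≤ τ₁ - s := by
    have h1 : ∀ᶠ δ : ℝ in nhdsWithin 0 (Ioi 0), δ < τ₁ - s :=
      nhdsWithin_le_nhds (Iio_mem_nhds (by linarith))
    filter_upwards [h1, self_mem_nhdsWithin] with δ h2 h3
    exact ⟨h3, h2.le⟩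
  have hxe : α s = B s := by
    refine le_antisymm ?_ hsB
    refine ge_of_tendsto hcB ?_
    filter_upwards [hsmall] with δ hδ
    exact (hα.mono s (s + δ) hs0 (by linarith [hδ.1]) (by linarith [hδ.2])).trans
      (hgt δ hδ.1 hδ.2).le
  have hdiff : ∀ δ : ℝ, B (s + δ) - B s = δ * (127 / 50 + 3 * s ^ 2 + (3 * s * δ + δ ^ 2)) := by
    intro δ
    unfold B
    ring
  have hquad : ∀ g : ℝ, 0 < g → ∀ᶠ δ : ℝ in nhdsWithin 0 (Ioi 0), 3 * s * δ + δ ^ 2 < g := by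
    intro g hg
    have h1 : Continuous fun δ : ℝ => 3 * s * δ + δ ^ 2 := by fun_prop
    have h2 := h1.tendsto 0
    have h3 : (3 * s * (0 : ℝ) + 0 ^ 2) < g := by simpa using hg
    exact nhdsWithin_le_nhds (h2 (Iio_mem_nhds h3))
  have hpi := Real.pi_pos
  rcases lt_or_ge (B s) π with hx | hx
  · obtain ⟨q, hq0, hq1, hq⟩ := B_ode hs0 hx.le
    set Y : ℝ := (q * B s + 2 * W q / q) ^ 2 with hY
    have hg : 0 < Y / (2 * π) - (127 / 50 + 3 * s ^ 2) := by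
      rw [sub_pos, lt_div_iff₀ (by positivity)]
      exact hq
    have hBpi : ∀ᶠ δ : ℝ in nhdsWithin 0 (Ioi 0), B (s + δ) < π := hcB (Iio_mem_nhds hx)
    obtain ⟨δ, ⟨h1, h2⟩, h3, h4⟩ := (hsmall.and ((hquad _ hg).and hBpi)).exists
    have h5 := hgt δ h1 h2
    have h6 := hα.lens q hq0 hq1 s (s + δ) hs0 (by linarith) (by linarith) (by linarith)
    rw [hxe, ← hY, add_sub_cancel_left] at h6
    have h7 := hdiff δ
    have h8 : δ / (2 * π) * Y = δ * (Y / (2 * π)) := by ring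
    rw [h8] at h6
    have h9 : δ * (Y / (2 * π)) < δ * (127 / 50 + 3 * s ^ 2 + (3 * s * δ + δ ^ 2)) := by
      linarith
    have h10 := lt_of_mul_lt_mul_left h9 h1.le
    linarith
  · have hiso := B_iso hs0 hx
    obtain ⟨δ, ⟨h1, h2⟩, h3⟩ := (hsmall.and (hquad _ (sub_pos.2 hiso))).exists
    have h5 := hgt δ h1 h2
    have h6 := hα.iso s (s + δ) hs0 (by linarith) (by linarith)
    rw [hxe, add_sub_cancel_left] at h6
    have h7 := hdiff δ
    have h9 : δ * (2 * B s) < δ * (127 / 50 + 3 * s ^ 2 + (3 * s * δ + δ ^ 2)) := by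
      linarith
    have h10 := lt_of_mul_lt_mul_left h9 h1.le
    linarith

end Pool.Agent.H88.LE
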