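import Pool.Agent.H88.LE.PH
import Pool.Agent.H88.LE.PIb

/-!
# LE-PJ: lower bound for the area of a part

PROOF of `part_area`. If `h ≤ 0`... only `h ≥ 0` is allowed; `h = 0` is trivial (`areaP_nonneg`). Let `h > 0`, `k = nz f O > 0`. By
`plensGrowth` and `lower_B`: `B s ≤ areaP f O (k s)/h²` for `0 ≤ s < log r/k`. For `0 ≤ u < log r` take `s = u/k`. For `u = log r` let
`u' ↑ u`: `areaP f O u ≥ areaP f O u' ≥ h² B (u'/k) → h² B (u/k)` (`areaP_mono`, continuity of `B`).

PROOF of `whole_area`: `O = univ`, `O' = ∅`, `Sep f r univ ∅`, `nz f univ = card f.roots = natDegree = n` (ℂ algebraically closed),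
`areaP_univ`, with `r = e^u`.
-/

set_option autoImplicit false

open Polynomial Complex MeasureTheory Set
open scoped Real ComplexConjugate
open Pool.Agent.H88.LD

noncomputable section

namespace Pool.Agent.H88.LE

theorem part_area {f : ℂ[X]} {n : ℕ} (hf : f.Monic) (hn : f.natDegree = n) (hn0 : 0 < n)
    {r : ℝ} {O O' : Set ℂ} (hr : 0 < r) (hS : Sep f r O O') (hk : 0 < nz f O) (h : ℝ) (hh : 0 ≤ h)
    (hnc : ∀ ρ, Cov (lem f 1 ∩ O) ρ → h ≤ ρ) (u : ℝ) (hu0 : 0 ≤ u) (hu : u ≤ Real.log r) :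
    h ^ 2 * B (u / nz f O) ≤ areaP f O u := by
  rcases eq_or_lt_of_le hh with h0 | hpos
  · rw [← h0]
    simpa using areaP_nonneg f O u
  have hk' : (0 : ℝ) < (nz f O : ℝ) := by exact_mod_cast hk
  have LG := plensGrowth hf hn hn0 hr hS hk h hpos hnc
  have LB := lower_B _ _ LG
  have hnd : f.natDegree ≠ 0 := by omega
  have key : ∀ v : ℝ, 0 ≤ v → v < Real.log r → h ^ 2 * B (v / nz f O) ≤ areaP f O v := by
    intro v hv0 hv
    have h1 := LB (v / nz f O) (div_nonneg hv0 hk'.le) (div_lt_div_of_pos_right hv hk')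
    have h2 : (nz f O : ℝ) * (v / nz f O) = v := by field_simp
    simp only [h2] at h1
    rw [le_div_iff₀ (by positivity)] at h1
    linarith [mul_comm (B (v / nz f O)) (h ^ 2)]
  rcases lt_or_eq_of_le hu with hlt | heq
  · exact key u hu0 hlt
  rcases eq_or_lt_of_le hu0 with h0 | h0
  · rw [← h0]
    have : B (0 / (nz f O : ℝ)) = 0 := by simp [B]
    rw [this, mul_zero]
    exact areaP_nonneg f O 0
  have hcont : Continuous fun v : ℝ => h ^ 2 * B (v / nz f O) :=
    continuous_const.mul (pib_cont.comp (continuous_id.div_const _))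
  have hcl : IsClosed {v : ℝ | h ^ 2 * B (v / nz f O) ≤ areaP f O u} :=
    isClosed_le hcont continuous_const
  have hsub : Ioo 0 u ⊆ {v : ℝ | h ^ 2 * B (v / nz f O) ≤ areaP f O u} := by
    intro v hv
    exact (key v hv.1.le (lt_of_lt_of_le hv.2 hu)).trans (areaP_mono hf hnd O hv.2.le)
  have hmem : u ∈ closure (Ioo 0 u) := by
    rw [closure_Ioo h0.ne]
    exact ⟨h0.le, le_rfl⟩
  exact closure_minimal hsub hcl hmem

theorem pj_nz_univ (f : ℂ[X]) : nz f univ = f.natDegree := by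
  have h1 : nz f univ = Multiset.card f.roots := by
    unfold nz
    refine congrArg Multiset.card ?_
    refine (@Multiset.filter_eq_self ℂ (fun a => a ∈ (univ : Set ℂ))
      (fun a => Classical.propDecidable (a ∈ (univ : Set ℂ))) f.roots).2 ?_
    intro a _
    exact mem_univ a
  rw [h1]
  exact (IsAlgClosed.splits f).natDegree_eq_card_roots.symm

theorem whole_area {f : ℂ[X]} {n : ℕ} (hf : f.Monic) (hn : f.natDegree = n) (hn0 : 0 < n)
    (h : ℝ) (hh : 0 ≤ h) (hnc : ∀ ρ, Cov (lem f 1) ρ → h ≤ ρ) (s : ℝ) (hs : 0 ≤ s) :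
    h ^ 2 * B s ≤ area f (n * s) := by
  have hn' : (0 : ℝ) < (n : ℝ) := by exact_mod_cast hn0
  have hS : Sep f (Real.exp (n * s)) univ ∅ :=
    ⟨isOpen_univ, isOpen_empty, by simp, by simp⟩
  have hnz : nz f univ = n := by rw [pj_nz_univ, hn]
  have h1 := part_area hf hn hn0 (Real.exp_pos _) hS (by rw [hnz]; exact hn0) h hh
    (by simpa using hnc) (n * s) (by positivity) (by rw [Real.log_exp])
  rw [areaP_univ, hnz] at h1
  have h2 : (n : ℝ) * s / n = s := by field_simp
  rwa [h2] at h1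

end Pool.Agent.H88.LE
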