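import Pool.Agent.H88.LE.PB

/-!
# LE-SBa: a closed path outside of the lemniscate separates zeros

`γ` is a `C¹` path, `z_a = γ α`, `z_b = γ β`, `α ≤ β`; the closed curve consists of `γ` on `[α, β]` and of the segment from `z_b` to `z_a`
(`η t = z_b + t (z_a - z_b)`, `t ∈ [0,1]`, derivative `z_a - z_b`). `|f| > r ≥ 0` on it.

PROOF. For `z` off the curve let `J z = ∫_α^β γ'/(γ - z) + ∫_0^1 (z_a - z_b)/(η t - z) dt`. By `exp_integral` (twice) `exp (J z) = 1`, so
`J z ∈ 2πi ℤ` (`Complex.exp_eq_one_iff`); `J` is continuous off the (compact) curve (`path_continuousOn`, twice). Put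
`O = {z off the curve | Im J z > π}`, `O' = {z off the curve | Im J z < π}`: open (the complement `V` of the curve is open and `J` is continuous on `V`),
disjoint, their union is `V`, which contains `lem f r`. This is `Sep f r O O'`.
Zeros: they are in `V`. For `x` on the curve `∑_{w ∈ f.roots} 1/(x - w) = f'(x)/f(x)` (with multiplicity; `f` is monic and splits), so
`∑_{w ∈ f.roots} J w = ∫_α^β γ' f'(γ)/f(γ) + ∫_0^1 (z_a - z_b) f'(η)/f(η) = 2πi l + (second)`, and the second has modulus `≤ 1` (`hseg`). As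
`∑ J w ∈ 2πi ℤ` (a finite sum) the second is in `2πi ℤ`, so it is `0` (`1 < 2π`). Hence `∑_{w ∈ f.roots} J w = 2πi l`, `0 < l < n = #f.roots`. If no
zero were in `O`, all the integers `J w/(2πi)` would be `≤ 0`, their sum `≤ 0 < l`; if no zero were in `O'`, all of them would be
`≥ 1`, sum `≥ n > l`. So both contain a zero and `nz > 0`.
-/

set_option autoImplicit false

open Polynomial Complex MeasureTheory Set
open scoped Real ComplexConjugate
open Pool.Agent.H88.LD

noncomputable section

namespace Pool.Agent.H88.LE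

theorem sba_int (F F' : ℝ → ℂ) (hF : ∀ t, HasDerivAt F (F' t) t) (hc : Continuous F')
    (a b : ℝ) (hab : a ≤ b) (w : ℂ) (hw : ∀ t ∈ Icc a b, F t ≠ w) :
    IntervalIntegrable (fun t => F' t / (F t - w)) volume a b := by
  have hFc : Continuous F := continuous_iff_continuousAt.2 fun t => (hF t).continuousAt
  apply ContinuousOn.intervalIntegrable
  rw [uIcc_of_le hab]
  exact (hc.continuousOn).div ((hFc.sub continuous_const).continuousOn)
    (fun t ht => sub_ne_zero.2 (hw t ht))

theorem sba_sum (F F' : ℝ → ℂ) (hF : ∀ t, HasDerivAt F (F' t) t) (hc : Continuous F')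
    (a b : ℝ) (hab : a ≤ b) (s : Multiset ℂ) (hs : ∀ w ∈ s, ∀ t ∈ Icc a b, F t ≠ w) :
    IntervalIntegrable (fun t => F' t * (s.map fun w => 1 / (F t - w)).sum) volume a b ∧
    (s.map fun w => ∫ t in a..b, F' t / (F t - w)).sum =
      ∫ t in a..b, F' t * (s.map fun w => 1 / (F t - w)).sum := by
  induction s using Multiset.induction with
  | empty => simp
  | cons w s ih =>
    have h1 := sba_int F F' hF hc a b hab w (hs w (Multiset.mem_cons_self w s))
    obtain ⟨h2, h3⟩ := ih (fun v hv => hs v (Multiset.mem_cons_of_mem hv))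
    have he : (fun t => F' t * ((w ::ₘ s).map fun v => 1 / (F t - v)).sum) =
        fun t => F' t / (F t - w) + F' t * (s.map fun v => 1 / (F t - v)).sum := by
      funext t
      rw [Multiset.map_cons, Multiset.sum_cons, mul_add, mul_one_div]
    refine ⟨?_, ?_⟩
    · rw [he]; exact h1.add h2
    · rw [he, intervalIntegral.integral_add h1 h2, Multiset.map_cons, Multiset.sum_cons, h3]

theorem sep_of_path (f : ℂ[X]) (hf : f.Monic) (n : ℕ) (hn : f.natDegree = n) (hn0 : 0 < n)
    (r : ℝ) (hr : 0 ≤ r) (γ γ' : ℝ → ℂ) (hγ : ∀ t, HasDerivAt γ (γ' t) t) (hc : Continuous γ')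
    (α β : ℝ) (hαβ : α ≤ β) (hlev : ∀ t ∈ Icc α β, r < ‖f.eval (γ t)‖)
    (hseg0 : ∀ t ∈ Icc (0 : ℝ) 1, r < ‖f.eval (γ β + t * (γ α - γ β))‖)
    (hseg : ∀ t ∈ Icc (0 : ℝ) 1,
      ‖γ α - γ β‖ * ‖f.derivative.eval (γ β + t * (γ α - γ β))‖ ≤
        ‖f.eval (γ β + t * (γ α - γ β))‖)
    (l : ℕ) (hl : 0 < l) (hln : l < n)
    (hint : ∫ t in α..β, γ' t * f.derivative.eval (γ t) / f.eval (γ t) = 2 * π * I * l) :
    ∃ O O' : Set ℂ, Sep f r O O' ∧ 0 < nz f O ∧ 0 < nz f O' := by
  set d : ℂ := γ α - γ β with hd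
  set η : ℝ → ℂ := fun t => γ β + t * d with hη
  have hη1 : ∀ t, HasDerivAt η d t := by
    intro t
    have h1 : HasDerivAt (fun t : ℝ => (t : ℂ)) 1 t := Complex.ofRealCLM.hasDerivAt
    have h2 := (h1.mul_const d).const_add (γ β)
    simpa [hη] using h2
  have hdc : Continuous (fun _ : ℝ => d) := continuous_const
  have hγc : Continuous γ := continuous_iff_continuousAt.2 fun t => (hγ t).continuousAt
  have hηc : Continuous η := continuous_iff_continuousAt.2 fun t => (hη1 t).continuousAt
  set J : ℂ → ℂ := fun z => (∫ t in α..β, γ' t / (γ t - z)) +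
    ∫ t in (0 : ℝ)..1, d / (η t - z) with hJ
  set V : Set ℂ := (γ '' Icc α β)ᶜ ∩ (η '' Icc 0 1)ᶜ with hV
  have hVo : IsOpen V :=
    ((isCompact_Icc.image hγc).isClosed.isOpen_compl).inter
      ((isCompact_Icc.image hηc).isClosed.isOpen_compl)
  have hJc : ContinuousOn J V := by
    refine ContinuousOn.add ?_ ?_
    · exact (path_continuousOn γ γ' hγ hc α β hαβ).mono inter_subset_left
    · exact (path_continuousOn η (fun _ => d) hη1 hdc 0 1 zero_le_one).mono inter_subset_right
  have hV1 : ∀ z ∈ V, ∀ t ∈ Icc α β, γ t ≠ z := fun z hz t ht h => hz.1 ⟨t, ht, h⟩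
  have hV2 : ∀ z ∈ V, ∀ t ∈ Icc (0 : ℝ) 1, η t ≠ z := fun z hz t ht h => hz.2 ⟨t, ht, h⟩
  have hη0 : η 0 = γ β := by simp [hη]
  have hη1' : η 1 = γ α := by simp [hη, hd]
  have hJm : ∀ z ∈ V, ∃ m : ℤ, J z = m * (2 * π * I) := by
    intro z hz
    rw [← Complex.exp_eq_one_iff]
    simp only [hJ]
    rw [Complex.exp_add, exp_integral γ γ' hγ hc α β hαβ z (hV1 z hz),
      exp_integral η (fun _ => d) hη1 hdc 0 1 zero_le_one z (hV2 z hz), hη0, hη1']
    have h1 : γ α - z ≠ 0 := sub_ne_zero.2 (hV1 z hz α ⟨le_refl _, hαβ⟩)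
    have h2 : γ β - z ≠ 0 := sub_ne_zero.2 (hV1 z hz β ⟨hαβ, le_refl _⟩)
    field_simp
  choose! m hm using hJm
  have hIm : ∀ z ∈ V, (J z).im = m z * (2 * π) := by
    intro z hz
    rw [hm z hz]
    simp
  have hπ := Real.pi_pos
  have hlem : lem f r ⊆ V := by
    intro z hz
    refine ⟨?_, ?_⟩
    · rintro ⟨t, ht, rfl⟩
      exact absurd hz (not_le.2 (hlev t ht))
    · rintro ⟨t, ht, rfl⟩
      exact absurd hz (not_le.2 (hseg0 t ht))
  have hroot : ∀ w ∈ f.roots, w ∈ V := by
    intro w hw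
    apply hlem
    have h0 : f.eval w = 0 := (Polynomial.mem_roots'.1 hw).2
    change ‖f.eval w‖ ≤ r
    rw [h0, norm_zero]; exact hr
  -- the sum of the indices
  have hs1 := (sba_sum γ γ' hγ hc α β hαβ f.roots (fun w hw => hV1 w (hroot w hw))).2
  have hs2 := (sba_sum η (fun _ => d) hη1 hdc 0 1 zero_le_one f.roots
    (fun w hw => hV2 w (hroot w hw))).2
  have hsp := IsAlgClosed.splits f
  have hi1 : (∫ t in α..β, γ' t * (f.roots.map fun w => 1 / (γ t - w)).sum) =
      2 * π * I * l := by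
    rw [← hint]
    apply intervalIntegral.integral_congr
    intro t ht
    rw [uIcc_of_le hαβ] at ht
    have hne : f.eval (γ t) ≠ 0 := norm_pos_iff.1 (hr.trans_lt (hlev t ht))
    simp only
    rw [← hsp.eval_derivative_div_eval_of_ne_zero hne, mul_div_assoc]
  set S : ℂ := ∫ t in (0 : ℝ)..1, d * (f.roots.map fun w => 1 / (η t - w)).sum with hS
  have hS1 : ‖S‖ ≤ 1 := by
    have h1 := intervalIntegral.norm_integral_le_of_norm_le_const (a := 0) (b := 1) (C := 1)
      (f := fun t : ℝ => d * (f.roots.map fun w => 1 / (η t - w)).sum) (by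
        intro t ht
        rw [uIoc_of_le zero_le_one] at ht
        have ht' : t ∈ Icc (0 : ℝ) 1 := ⟨ht.1.le, ht.2⟩
        have hpos : 0 < ‖f.eval (η t)‖ := hr.trans_lt (hseg0 t ht')
        have hne : f.eval (η t) ≠ 0 := norm_pos_iff.1 hpos
        rw [← hsp.eval_derivative_div_eval_of_ne_zero hne, norm_mul, norm_div, ← mul_div_assoc,
          div_le_one hpos]
        exact hseg t ht')
    rw [sub_zero, abs_one, mul_one] at h1
    exact h1
  have hsum : (f.roots.map J).sum = 2 * π * I * l + S := by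
    rw [← hi1, ← hs1, ← hs2, ← Multiset.sum_map_add]
  set M : ℤ := (f.roots.map m).sum with hM
  have hsumM : (f.roots.map J).sum = M * (2 * π * I) := by
    have h1 : f.roots.map J = f.roots.map (fun w => (m w : ℂ) * (2 * π * I)) :=
      Multiset.map_congr rfl (fun w hw => hm w (hroot w hw))
    rw [h1, Multiset.sum_map_mul_right, hM]
    congr 1
    have h2 := map_multiset_sum (Int.castRingHom ℂ) (f.roots.map m)
    rw [Multiset.map_map] at h2
    exact h2.symm
  have hMl : M = l := by
    have h1 : S = ((M : ℂ) - l) * (2 * π * I) := by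
      have := hsumM.symm.trans hsum
      linear_combination -this
    have h2 : ‖S‖ = |((M : ℝ) - l)| * (2 * π) := by
      rw [h1, norm_mul]
      have h3 : ((M : ℂ) - l) = (((M : ℝ) - l : ℝ) : ℂ) := by push_cast; rfl
      rw [h3, Complex.norm_real, Real.norm_eq_abs]
      congr 1
      rw [norm_mul, Complex.norm_I, mul_one]
      have h4 : (2 * (π : ℂ)) = ((2 * π : ℝ) : ℂ) := by push_cast; rfl
      rw [h4, Complex.norm_real, Real.norm_eq_abs, abs_of_pos (by positivity)]
    by_contra hne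
    have h5 : 1 ≤ |M - (l : ℤ)| := Int.one_le_abs (sub_ne_zero.2 hne)
    have h6 : (1 : ℝ) ≤ |((M : ℝ) - l)| := by
      have h7 : ((|M - (l : ℤ)| : ℤ) : ℝ) = |((M : ℝ) - l)| := by push_cast; rfl
      rw [← h7]; exact_mod_cast h5
    have h8 := Real.pi_gt_three
    nlinarith
  have hcard : f.roots.card = n := by
    rw [← hn, hsp.natDegree_eq_card_roots]
  have hmem : ∀ (O : Set ℂ) (w : ℂ), w ∈ f.roots → w ∈ O → 0 < nz f O := by
    intro O w hw hO
    classical
    unfold nz
    rw [Multiset.card_pos_iff_exists_mem]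
    refine ⟨w, ?_⟩
    rw [Multiset.mem_filter]
    exact ⟨hw, hO⟩
  refine ⟨V ∩ {z | π < (J z).im}, V ∩ {z | (J z).im < π}, ⟨?_, ?_, ?_, ?_⟩, ?_, ?_⟩
  · exact hJc.isOpen_inter_preimage hVo
      (isOpen_lt continuous_const Complex.continuous_im : IsOpen {z : ℂ | π < z.im})
  · exact hJc.isOpen_inter_preimage hVo
      (isOpen_lt Complex.continuous_im continuous_const : IsOpen {z : ℂ | z.im < π})
  · rw [Set.disjoint_left]
    rintro z ⟨-, h1⟩ ⟨-, h2⟩
    exact lt_asymm (show π < (J z).im from h1) (show (J z).im < π from h2)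
  · intro z hz
    have hzV := hlem hz
    have h1 := hIm z hzV
    rcases le_or_gt 1 (m z) with h | h
    · left
      refine ⟨hzV, ?_⟩
      have h2 : (1 : ℝ) ≤ m z := by exact_mod_cast h
      change π < (J z).im
      rw [h1]; nlinarith
    · right
      refine ⟨hzV, ?_⟩
      have h2 : (m z : ℝ) ≤ 0 := by exact_mod_cast Int.lt_add_one_iff.1 h
      change (J z).im < π
      rw [h1]; nlinarith
  · by_contra hcon
    have hno : ∀ w ∈ f.roots, m w ≤ 0 := by
      intro w hw
      by_contra h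
      push Not at h
      apply hcon
      refine hmem _ w hw ⟨hroot w hw, ?_⟩
      have h2 : (1 : ℝ) ≤ m w := by exact_mod_cast h
      change π < (J w).im
      rw [hIm w (hroot w hw)]; nlinarith
    have h3 : M ≤ Multiset.card (f.roots.map m) • (0 : ℤ) := by
      rw [hM]
      apply Multiset.sum_le_card_nsmul
      intro x hx
      obtain ⟨w, hw, rfl⟩ := Multiset.mem_map.1 hx
      exact hno w hw
    rw [smul_zero, hMl] at h3
    omega
  · by_contra hcon
    have hno : ∀ w ∈ f.roots, 1 ≤ m w := by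
      intro w hw
      by_contra h
      push Not at h
      apply hcon
      refine hmem _ w hw ⟨hroot w hw, ?_⟩
      have h2 : (m w : ℝ) ≤ 0 := by exact_mod_cast Int.lt_add_one_iff.1 h
      change (J w).im < π
      rw [hIm w (hroot w hw)]; nlinarith
    have h3 : Multiset.card (f.roots.map m) • (1 : ℤ) ≤ M := by
      rw [hM]
      apply Multiset.card_nsmul_le_sum
      intro x hx
      obtain ⟨w, hw, rfl⟩ := Multiset.mem_map.1 hx
      exact hno w hw
    rw [Multiset.card_map, hcard, hMl] at h3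
    simp at h3
    omega

end Pool.Agent.H88.LE
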