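import Pool.Agent.H88.LE.XCa
import Pool.Agent.H88.LD.AR
import Pool.Agent.H88.LD.CD

/-!
# LE-XC: above all critical levels there is only one cycle

`f` monic of degree `n`, no critical points on the levels `u > a`. CLAIM: there is a holomorphic `2πi`-periodic `G` on
`Re ω > a/n` with `f (G ω) = exp (n ω)` and `G ω, G (ω + 2πi/n), …` (`n` values) different.

PROOF. `L` from `exists_hlifts`. `S`, `k` from `cycle_decomp L.σ` (LD/CD). Suppose `k c < n` for all `c ∈ S`. Fix `u > a`. The signed area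
`½ ∑_i ∫_0^{2π} Im (conj F_i F_i')` of the level curve `u` is (`cycle_decomp`, `cycle_integral` of LD/CD) the sum over `c ∈ S` of
`½ ∫_0^{2πk} Im (conj F_c F_c')`, `k = k c`, which is `≤ 0` (`cycle_area_nonpos`). But it is `area f u` (`sarea_eq` for `L.toLifts`), which is
positive: the set `{‖f‖ < e^u}` is open and contains the zeros of `f`. Contradiction. So some `c ∈ S` has `k c ≥ n`; by the
sum formula of `cycle_decomp` (with `h = 1`) `∑_{c ∈ S} k c = n`, so `S = {c}` (all `k c' > 0`), `k c = n`, and the `(σ^j) c`, `j < n`, are all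
different (the map `j ↦ (σ^j) c`, `Fin n → Fin n`, is onto by `cycle_decomp`). Put `G ω = L.Z c (n ω)` on `half (a/n)`:
`G (ω + 2πij/n) = Z c (nω + 2πij) = Z ((σ^j) c) (nω)` (`hlifts_shift_iter`), different by `L.inj`; for `j = n` it is `G ω`. Last property:
there is only one cycle, so `½ ∫_0^{2π} Im (conj G (deriv G I)) dθ = ½ ∫_0^{2πn} Im (conj F_c F_c') dφ` (substitution `φ = nθ`) is the
total signed area of the level curve `u = ns`, which is `area f (ns)` (`sarea_eq`).
-/

set_option autoImplicit false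

open Polynomial Complex MeasureTheory Set
open scoped Real ComplexConjugate
open Pool.Agent.H88.LD

noncomputable section

namespace Pool.Agent.H88.LE

/-- the derivatives of the curves of an `ArcSys` are permuted in the same way -/
private theorem xc_shift' {n : ℕ} (S : ArcSys n) (i : Fin n) (φ : ℝ) :
    S.F' i (φ + 2 * π) = S.F' (S.σ i) φ := by
  have h1 : HasDerivAt (fun x : ℝ => S.F i (x + 2 * π)) (S.F' i (φ + 2 * π)) φ :=
    (S.hasDeriv i (φ + 2 * π)).comp_add_const φ (2 * π)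
  have h2 : (fun x : ℝ => S.F i (x + 2 * π)) = S.F (S.σ i) := by
    funext x
    exact S.shift i x
  rw [h2] at h1
  exact h1.unique (S.hasDeriv (S.σ i) φ)

/-- the area of a sublevel set as the sum of the signed areas of the cycles -/
private theorem xc_area (f : ℂ[X]) (hf : f.Monic) (n : ℕ) (hn : f.natDegree = n) (hn0 : 0 < n)
    (a : ℝ) (L : HLifts f n a) (S : Finset (Fin n)) (k : Fin n → ℕ)
    (hS : ∀ (E : Type) [AddCommMonoid E] (h : Fin n → E),
        ∑ i, h i = ∑ c ∈ S, ∑ j ∈ Finset.range (k c), h ((L.σ ^ j) c)) (u : ℝ) (hu : a < u) :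
    1 / 2 * ∑ c ∈ S, ∫ φ in (0 : ℝ)..(2 * π * k c),
      (conj (L.Z c (u + φ * I)) * (deriv (L.Z c) (u + φ * I) * I)).im = area f u := by
  have hu' : u ∈ Ioo a (u + 1) := ⟨hu, by linarith⟩
  set M : Lifts f n a (u + 1) := L.toLifts a (u + 1) le_rfl with hM
  have h1 := sarea_eq hf hn hn0 M u hu'
  set A : ArcSys n := M.arc u hu' with hA
  have hFc : ∀ i, Continuous (A.F i) := fun i =>
    continuous_iff_continuousAt.mpr (fun φ => (A.hasDeriv i φ).continuousAt)
  have h2 : ∀ c, ∫ φ in (0 : ℝ)..(2 * π * k c), (conj (A.F c φ) * A.F' c φ).im =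
      ∑ j ∈ Finset.range (k c), ∫ φ in (0 : ℝ)..(2 * π),
        (conj (A.F ((L.σ ^ j) c) φ) * A.F' ((L.σ ^ j) c) φ).im := by
    intro c
    apply cycle_integral L.σ (fun i φ => (conj (A.F i φ) * A.F' i φ).im)
    · intro i
      have h3 := hFc i
      have h4 := A.cont i
      fun_prop
    · intro i φ
      have h3 : A.F i (φ + 2 * π) = A.F (L.σ i) φ := A.shift i φ
      have h4 : A.F' i (φ + 2 * π) = A.F' (L.σ i) φ := xc_shift' A i φ
      show (conj (A.F i (φ + 2 * π)) * A.F' i (φ + 2 * π)).im = _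
      rw [h3, h4]
  have h5 : A.sarea = 1 / 2 * ∑ c ∈ S, ∫ φ in (0 : ℝ)..(2 * π * k c),
      (conj (A.F c φ) * A.F' c φ).im := by
    unfold ArcSys.sarea
    congr 1
    rw [hS ℝ]
    exact Finset.sum_congr rfl (fun c _ => (h2 c).symm)
  rw [h5] at h1
  exact h1

private theorem xc_area_pos (f : ℂ[X]) (hf : f.Monic) (n : ℕ) (hn : f.natDegree = n) (hn0 : 0 < n)
    (u : ℝ) : 0 < area f u := by
  have hn' : f.natDegree ≠ 0 := by omega
  have hcont : Continuous (fun z : ℂ => ‖f.eval z‖) := by fun_prop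
  have hopen : IsOpen {z : ℂ | ‖f.eval z‖ < Real.exp u} := isOpen_lt hcont continuous_const
  obtain ⟨z, hz⟩ := IsAlgClosed.exists_root f (by
    intro h
    rw [Polynomial.degree_eq_natDegree hf.ne_zero] at h
    exact hn' (by exact_mod_cast h))
  have hne : {z : ℂ | ‖f.eval z‖ < Real.exp u}.Nonempty := by
    refine ⟨z, ?_⟩
    have h1 : f.eval z = 0 := hz
    show ‖f.eval z‖ < Real.exp u
    rw [h1, norm_zero]
    exact Real.exp_pos u
  exact ENNReal.toReal_pos (hopen.measure_pos volume hne).ne' (ln_finite f hf hn' u)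

/-- there is only one cycle -/
private theorem xc_one (f : ℂ[X]) (hf : f.Monic) (n : ℕ) (hn : f.natDegree = n) (hn0 : 0 < n)
    (a : ℝ) (L : HLifts f n a) : ∃ c : Fin n,
      Function.Injective (fun j : Fin n => (L.σ ^ (j : ℕ)) c) ∧ (L.σ ^ n) c = c ∧
      ∀ u, a < u → 1 / 2 * ∫ φ in (0 : ℝ)..(2 * π * n),
        (conj (L.Z c (u + φ * I)) * (deriv (L.Z c) (u + φ * I) * I)).im = area f u := by
  classical
  obtain ⟨S, k, hk, hcov, hS⟩ := cycle_decomp L.σ
  have hex : ∃ c ∈ S, n ≤ k c := by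
    by_contra hcon
    push Not at hcon
    have h1 := xc_area f hf n hn hn0 a L S k hS (a + 1) (by linarith)
    have h2 := xc_area_pos f hf n hn hn0 (a + 1)
    rw [← h1] at h2
    have h3 : ∑ c ∈ S, ∫ φ in (0 : ℝ)..(2 * π * k c),
        (conj (L.Z c (((a + 1 : ℝ) : ℂ) + φ * I)) *
          (deriv (L.Z c) (((a + 1 : ℝ) : ℂ) + φ * I) * I)).im ≤ 0 := by
      apply Finset.sum_nonpos
      intro c hc
      exact cycle_area_nonpos f hf n hn hn0 a L c (k c) (hk c).1 (hcon c hc) (hk c).2 (a + 1)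
        (by linarith)
    linarith
  obtain ⟨c, hcS, hc⟩ := hex
  have hsum : n = ∑ c ∈ S, k c := by
    have h1 := hS ℕ (fun _ => 1)
    simpa using h1
  have hsplit : k c + ∑ d ∈ S.erase c, k d = n := by
    rw [Finset.add_sum_erase S k hcS, ← hsum]
  have hkc : k c = n := by omega
  have hS1 : S = {c} := by
    apply Finset.eq_singleton_iff_unique_mem.mpr
    refine ⟨hcS, ?_⟩
    intro d hd
    by_contra hdc
    have h1 : k d ≤ ∑ d ∈ S.erase c, k d :=
      Finset.single_le_sum (f := k) (fun _ _ => Nat.zero_le _) (Finset.mem_erase.mpr ⟨hdc, hd⟩)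
    have h2 := (hk d).1
    omega
  refine ⟨c, ?_, ?_, ?_⟩
  · apply Finite.injective_iff_surjective.mpr
    intro i
    obtain ⟨c', hc', j, hj, hji⟩ := hcov i
    rw [hS1, Finset.mem_singleton] at hc'
    subst hc'
    exact ⟨⟨j, by omega⟩, hji⟩
  · have h1 := (hk c).2
    rw [hkc] at h1
    exact h1
  · intro u hu
    have h1 := xc_area f hf n hn hn0 a L S k hS u hu
    rw [hS1, Finset.sum_singleton, hkc] at h1
    exact h1

theorem exterior_map (f : ℂ[X]) (hf : f.Monic) (n : ℕ) (hn : f.natDegree = n) (hn0 : 0 < n)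
    (a : ℝ) (hreg : ∀ u, a < u → Reg f u) :
    ∃ G : ℂ → ℂ, DifferentiableOn ℂ G (half (a / n)) ∧
      (∀ ω ∈ half (a / n), G (ω + 2 * π * I) = G ω) ∧
      (∀ ω ∈ half (a / n), f.eval (G ω) = Complex.exp (n * ω)) ∧
      (∀ ω ∈ half (a / n), Function.Injective (fun j : Fin n => G (ω + 2 * π * I * j / n))) ∧
      (∀ s, a / n < s → 1 / 2 * ∫ θ in (0 : ℝ)..(2 * π),
        (conj (G (s + θ * I)) * (deriv G (s + θ * I) * I)).im = area f (n * s)) := by
  obtain ⟨L⟩ := exists_hlifts f hf n hn hn0 a hreg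
  obtain ⟨c, hinj, hper, harea⟩ := xc_one f hf n hn hn0 a L
  have hkR : (0 : ℝ) < n := by exact_mod_cast hn0
  have hkC : (n : ℂ) ≠ 0 := by exact_mod_cast hn0.ne'
  set b : ℝ := a / n with hb
  set G : ℂ → ℂ := fun ω => L.Z c (n * ω) with hGdef
  have hmem : ∀ ω ∈ half b, (n : ℂ) * ω ∈ half a := by
    intro ω hω
    have h1 : b < ω.re := hω
    have h2 : ((n : ℂ) * ω).re = n * ω.re := by simp
    have h3 : a < ((n : ℂ) * ω).re := by
      rw [h2]
      rw [hb, div_lt_iff₀ hkR] at h1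
      linarith
    exact h3
  refine ⟨G, ?_, ?_, ?_, ?_, ?_⟩
  · have h1 : DifferentiableOn ℂ (fun ω : ℂ => (n : ℂ) * ω) (half b) := by fun_prop
    exact (L.diff c).comp h1 hmem
  · intro ω hω
    have e1 : (n : ℂ) * (ω + 2 * π * I) = n * ω + 2 * π * I * n := by ring
    show L.Z c (n * (ω + 2 * π * I)) = L.Z c (n * ω)
    rw [e1, hlifts_shift_iter L c n _ (hmem ω hω), hper]
  · intro ω hω
    exact L.eval c _ (hmem ω hω)
  · intro ω hω i j hij
    have e1 : ∀ m : ℕ, G (ω + 2 * π * I * m / n) = L.Z ((L.σ ^ m) c) (n * ω) := by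
      intro m
      have e2 : (n : ℂ) * (ω + 2 * π * I * m / n) = n * ω + 2 * π * I * m := by
        field_simp
      show L.Z c (n * (ω + 2 * π * I * m / n)) = _
      rw [e2, hlifts_shift_iter L c m _ (hmem ω hω)]
    have h1 : G (ω + 2 * π * I * (i : ℕ) / n) = G (ω + 2 * π * I * (j : ℕ) / n) := hij
    rw [e1, e1] at h1
    exact hinj (L.inj _ (hmem ω hω) h1)
  · intro s hs
    have hu : a < n * s := by
      rw [div_lt_iff₀ hkR] at hs
      linarith
    have hderiv : ∀ ω : ℂ, deriv G ω = n * deriv (L.Z c) (n * ω) := by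
      intro ω
      have := deriv_comp_mul_left (n : ℂ) (L.Z c) ω
      rw [hGdef, this, smul_eq_mul]
    have hsub : ∀ θ : ℝ, (conj (G (s + θ * I)) * (deriv G (s + θ * I) * I)).im =
        n * (conj (L.Z c (((n * s : ℝ) : ℂ) + ((n * θ : ℝ) : ℂ) * I)) *
          (deriv (L.Z c) (((n * s : ℝ) : ℂ) + ((n * θ : ℝ) : ℂ) * I) * I)).im := by
      intro θ
      have e1 : (n : ℂ) * (s + θ * I) = ((n * s : ℝ) : ℂ) + ((n * θ : ℝ) : ℂ) * I := by
        push_cast
        ring
      rw [hderiv, ← e1]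
      have e2 : conj (G (s + θ * I)) * (n * deriv (L.Z c) (n * (s + θ * I)) * I) =
          ((n : ℝ) : ℂ) * (conj (L.Z c (n * (s + θ * I))) *
            (deriv (L.Z c) (n * (s + θ * I)) * I)) := by
        push_cast
        rw [hGdef]
        ring
      rw [e2, Complex.im_ofReal_mul]
    simp only [hsub]
    rw [intervalIntegral.integral_const_mul,
      intervalIntegral.integral_comp_mul_left
        (fun φ : ℝ => (conj (L.Z c (((n * s : ℝ) : ℂ) + (φ : ℂ) * I)) *
        (deriv (L.Z c) (((n * s : ℝ) : ℂ) + (φ : ℂ) * I) * I)).im) hkR.ne']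
    rw [mul_zero, smul_eq_mul, ← mul_assoc (n : ℝ), mul_inv_cancel₀ hkR.ne', one_mul,
      mul_comm (n : ℝ) (2 * π)]
    exact harea (n * s) hu

end Pool.Agent.H88.LE
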