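import Pool.Agent.H88.LE.SA
import Pool.Agent.H88.LE.SBa
import Pool.Agent.H88.LE.XC

/-!
# LE-SB: a lemniscate below its highest critical level can be split

`zc` critical, `‖f zc‖ = e^{uc}`, no critical points on the levels `u > uc`, `r < e^{uc}`. CLAIM: there are disjoint open sets
`O, O'` covering `{|f| ≤ r}`, both containing zeros of `f`.

PROOF. One can assume `r ≥ 0` (replace `r` by `max r 0`, `Sep f r' O O'` for `r ≤ r'` implies `Sep f r O O'`). `G` from `exterior_map` with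
`a = uc`. Choose `ε > 0` with `‖f z‖ > r` and `2ε ‖f'(z)‖ ≤ ‖f z‖` for `‖z - zc‖ ≤ ε` (continuity; `f'(zc) = 0`, `‖f zc‖ > r ≥ 0`). `η`
from `two_roots`. Choose `w = f zc · (1 + t)`, `t > 0` small, so that `‖w - f zc‖ < η`; `‖w‖ > e^{uc}`. Write `w = exp (n ω)`,
`ω = s + iθ₀`, `s > uc/n`. The `n` numbers `G (ω + 2πij/n)`, `j < n`, are different roots of `f = w`. `two_roots` gives `i < j` in `Fin n` (exchange
them if necessary) such that `z_a = G (ω + 2πi i/n)` and `z_b = G (ω + 2πi j/n)` are within `ε` of `zc`. Let `l = j - i`, `0 < l < n`.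
Apply `sep_of_path` (SBa) with `γ t = G (s + it)`, `γ' t = deriv G (s + it) I`, `α = θ₀ + 2πi/n`, `β = θ₀ + 2πj/n`: `‖f (γ t)‖ = e^{ns} > e^{uc} > r`; the
segment lies in the disc of radius `ε` around `zc`; and `∫ γ' f'(γ)/f(γ) = ∫ n i dt = 2πi l` (differentiate
`f (G (s+it)) = exp (n (s+it))`: `f'(γ) γ' = n i exp (n (s+it))`).
-/

set_option autoImplicit false

open Polynomial Complex MeasureTheory Set
open scoped Real ComplexConjugate
open Pool.Agent.H88.LD

noncomputable section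

namespace Pool.Agent.H88.LE

private theorem sb_eps (f : ℂ[X]) (uc : ℝ) (zc : ℂ) (hcrit : f.derivative.eval zc = 0)
    (hval : ‖f.eval zc‖ = Real.exp uc) (r : ℝ) (hr : r < Real.exp uc) :
    ∃ ε : ℝ, 0 < ε ∧ ε ≤ 1 / 2 ∧ ∀ z : ℂ, ‖z - zc‖ < ε →
      r < ‖f.eval z‖ ∧ ‖f.derivative.eval z‖ ≤ ‖f.eval z‖ := by
  have h1 : ∀ᶠ z in nhds zc, r < ‖f.eval z‖ := by
    have hc : ContinuousAt (fun z => ‖f.eval z‖) zc := f.continuous.norm.continuousAt
    exact hc.eventually (lt_mem_nhds (by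
      change r < ‖f.eval zc‖
      rw [hval]
      exact hr))
  have h2 : ∀ᶠ z in nhds zc, ‖f.derivative.eval z‖ < ‖f.eval z‖ :=
    (f.derivative.continuous.norm.tendsto zc).eventually_lt (f.continuous.norm.tendsto zc)
      (by rw [hcrit, norm_zero, hval]; exact Real.exp_pos _)
  obtain ⟨ε, hε, hb⟩ := Metric.eventually_nhds_iff_ball.1 (h1.and h2)
  refine ⟨min ε (1 / 2), lt_min hε (by norm_num), min_le_right _ _, ?_⟩
  intro z hz
  have h3 := hb z (by
    rw [Metric.mem_ball, dist_eq_norm]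
    exact hz.trans_le (min_le_left _ _))
  exact ⟨h3.1, h3.2.le⟩

private theorem sb_omega (c : ℂ) (uc : ℝ) (hc : ‖c‖ = Real.exp uc) (η : ℝ) (hη : 0 < η) :
    ∃ ω : ℂ, uc < ω.re ∧ ‖Complex.exp ω - c‖ < η := by
  have hc0 : c ≠ 0 := by
    intro h
    rw [h, norm_zero] at hc
    exact (Real.exp_pos uc).ne hc
  have h1 : ContinuousAt (fun t : ℝ => ‖Complex.exp (Complex.log c + t) - c‖) 0 := by
    have h0 : Continuous (fun t : ℝ => ‖Complex.exp (Complex.log c + t) - c‖) := by fun_prop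
    exact h0.continuousAt
  have h2 : ‖Complex.exp (Complex.log c + ((0 : ℝ) : ℂ)) - c‖ < η := by
    rw [Complex.ofReal_zero, add_zero, Complex.exp_log hc0, sub_self, norm_zero]
    exact hη
  have h3 : ∀ᶠ t : ℝ in nhds (0 : ℝ), ‖Complex.exp (Complex.log c + t) - c‖ < η :=
    h1.eventually (gt_mem_nhds h2)
  obtain ⟨δ, hδ, hb⟩ := Metric.eventually_nhds_iff_ball.1 h3
  refine ⟨Complex.log c + ((δ / 2 : ℝ) : ℂ), ?_, hb (δ / 2) ?_⟩
  · rw [Complex.add_re, Complex.log_re, hc, Real.log_exp, Complex.ofReal_re]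
    linarith
  · rw [Metric.mem_ball, Real.dist_eq, sub_zero, abs_of_pos (by linarith)]
    linarith

theorem splitting (f : ℂ[X]) (hf : f.Monic) (n : ℕ) (hn : f.natDegree = n) (hn0 : 0 < n)
    (uc : ℝ) (zc : ℂ) (hcrit : f.derivative.eval zc = 0) (hval : ‖f.eval zc‖ = Real.exp uc)
    (hreg : ∀ u, uc < u → Reg f u) (r : ℝ) (hr : r < Real.exp uc) :
    ∃ O O' : Set ℂ, Sep f r O O' ∧ 0 < nz f O ∧ 0 < nz f O' := by
  obtain ⟨r', hr'⟩ : ∃ r' : ℝ, r' = max r 0 := ⟨_, rfl⟩
  have hr'0 : 0 ≤ r' := by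
    rw [hr']
    exact le_max_right _ _
  have hrr' : r ≤ r' := by
    rw [hr']
    exact le_max_left _ _
  have hr'1 : r' < Real.exp uc := by
    rw [hr']
    exact max_lt hr (Real.exp_pos uc)
  suffices h : ∃ O O' : Set ℂ, Sep f r' O O' ∧ 0 < nz f O ∧ 0 < nz f O' by
    obtain ⟨O, O', h1, h2, h3⟩ := h
    refine ⟨O, O', ⟨h1.isOpen, h1.isOpen', h1.disj, fun z hz => h1.cover ?_⟩, h2, h3⟩
    exact le_trans (show ‖f.eval z‖ ≤ r from hz) hrr'
  obtain ⟨G, hGd, -, hGe, hGi, -⟩ := exterior_map f hf n hn hn0 uc hreg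
  obtain ⟨ε, hε, hε2, hεb⟩ := sb_eps f uc zc hcrit hval r' hr'1
  obtain ⟨η, hη, hroots⟩ := two_roots f hf n hn hn0 zc hcrit ε hε
  obtain ⟨ω0, hω0, hω1⟩ := sb_omega (f.eval zc) uc hval η hη
  have hn' : (0 : ℝ) < n := by exact_mod_cast hn0
  have hnC : (n : ℂ) ≠ 0 := by exact_mod_cast hn0.ne'
  obtain ⟨s, hs⟩ : ∃ s : ℝ, s = ω0.re / n := ⟨_, rfl⟩
  obtain ⟨θ, hθ⟩ : ∃ θ : ℝ, θ = ω0.im / n := ⟨_, rfl⟩
  have hs1 : uc / n < s := by
    rw [hs]
    exact div_lt_div_of_pos_right hω0 hn'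
  have hω : (n : ℂ) * (s + θ * I) = ω0 := by
    have h1 : (n : ℂ) * (s + θ * I) = ((n * s : ℝ) : ℂ) + ((n * θ : ℝ) : ℂ) * I := by
      push_cast
      ring
    have h2 : (n : ℝ) * s = ω0.re := by
      rw [hs]
      field_simp
    have h3 : (n : ℝ) * θ = ω0.im := by
      rw [hθ]
      field_simp
    rw [h1, h2, h3]
    exact Complex.re_add_im ω0
  have hmem : ∀ t : ℝ, ((s : ℂ) + t * I) ∈ half (uc / n) := by
    intro t
    change uc / n < ((s : ℂ) + t * I).re
    simpa using hs1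
  have heval : ∀ t : ℝ, f.eval (G (s + t * I)) = Complex.exp (n * (s + t * I)) :=
    fun t => hGe _ (hmem t)
  have hopen : IsOpen (half (uc / n)) := isOpen_Ioi.preimage Complex.continuous_re
  have hlin : ∀ t : ℝ, HasDerivAt (fun t : ℝ => (s : ℂ) + t * I) I t := by
    intro t
    have h1 := (Complex.ofRealCLM.hasDerivAt (x := t)).mul_const I
    simpa using h1.const_add (s : ℂ)
  have hγ : ∀ t : ℝ, HasDerivAt (fun t : ℝ => G (s + t * I)) (deriv G (s + t * I) * I) t := by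
    intro t
    have h1 : HasDerivAt G (deriv G (s + t * I)) (s + t * I) :=
      (hGd.differentiableAt (hopen.mem_nhds (hmem t))).hasDerivAt
    exact h1.comp t (hlin t)
  have hcont : Continuous (fun t : ℝ => deriv G (s + t * I) * I) := by
    have h1 : ContinuousOn (deriv G) (half (uc / n)) := (hGd.deriv hopen).continuousOn
    have h2 : Continuous (fun t : ℝ => (s : ℂ) + t * I) := by fun_prop
    exact (h1.comp_continuous h2 hmem).mul continuous_const
  have hder : ∀ t : ℝ, deriv G (s + t * I) * I * f.derivative.eval (G (s + t * I)) /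
      f.eval (G (s + t * I)) = n * I := by
    intro t
    have h1 : HasDerivAt (fun t : ℝ => f.eval (G (s + t * I)))
        (f.derivative.eval (G (s + t * I)) * (deriv G (s + t * I) * I)) t := by
      have h0 : HasDerivAt (fun z : ℂ => f.eval z) (f.derivative.eval (G (s + t * I)))
          (G (s + t * I)) := f.hasDerivAt _
      exact h0.comp t (hγ t)
    have h2 : HasDerivAt (fun t : ℝ => Complex.exp (n * (s + t * I)))
        (Complex.exp (n * (s + t * I)) * (n * I)) t := ((hlin t).const_mul (n : ℂ)).cexp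
    have h3 : (fun t : ℝ => f.eval (G (s + t * I))) =
        fun t : ℝ => Complex.exp (n * (s + t * I)) := funext heval
    rw [h3] at h1
    have h4 := h1.unique h2
    rw [heval t, div_eq_iff (Complex.exp_ne_zero _)]
    linear_combination h4
  have hnorm : ∀ t : ℝ, r' < ‖f.eval (G (s + t * I))‖ := by
    intro t
    rw [heval, Complex.norm_exp]
    have h1 : ((n : ℂ) * (s + t * I)).re = n * s := by simp
    rw [h1]
    refine hr'1.trans (Real.exp_lt_exp.2 ?_)
    rw [div_lt_iff₀ hn'] at hs1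
    linarith
  have harg : ∀ k : ℕ, (s : ℂ) + ((θ + 2 * π * k / n : ℝ) : ℂ) * I =
      s + θ * I + 2 * π * I * k / n := by
    intro k
    push_cast
    ring
  have hzinj : Function.Injective
      (fun k : Fin n => G (s + ((θ + 2 * π * (k : ℕ) / n : ℝ) : ℂ) * I)) := by
    have h1 := hGi _ (hmem θ)
    intro i j hij
    apply h1
    change G (s + θ * I + 2 * π * I * (i : ℕ) / n) = G (s + θ * I + 2 * π * I * (j : ℕ) / n)
    rw [← harg, ← harg]
    exact hij
  have hzeval : ∀ k : Fin n, f.eval (G (s + ((θ + 2 * π * (k : ℕ) / n : ℝ) : ℂ) * I)) =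
      Complex.exp ω0 := by
    intro k
    rw [heval, harg]
    have h1 : (n : ℂ) * (s + θ * I + 2 * π * I * (k : ℕ) / n) =
        ω0 + (k : ℕ) * (2 * π * I) := by
      rw [← hω]
      field_simp
      try ring
    rw [h1]
    exact (Complex.exp_periodic.nat_mul (k : ℕ)) ω0
  have hne : Complex.exp ω0 ≠ f.eval zc := by
    intro h1
    have h2 := congrArg norm h1
    rw [Complex.norm_exp, hval, Real.exp_eq_exp] at h2
    linarith
  have key : ∀ i j : Fin n, i < j →
      ‖G (s + ((θ + 2 * π * (i : ℕ) / n : ℝ) : ℂ) * I) - zc‖ < ε →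
      ‖G (s + ((θ + 2 * π * (j : ℕ) / n : ℝ) : ℂ) * I) - zc‖ < ε →
      ∃ O O' : Set ℂ, Sep f r' O O' ∧ 0 < nz f O ∧ 0 < nz f O' := by
    intro i j hij hi hj
    have hij' : (i : ℕ) < j := hij
    have hjn := j.2
    have hseg : ∀ t ∈ Icc (0 : ℝ) 1,
        ‖G (s + ((θ + 2 * π * (j : ℕ) / n : ℝ) : ℂ) * I) +
          t * (G (s + ((θ + 2 * π * (i : ℕ) / n : ℝ) : ℂ) * I) -
            G (s + ((θ + 2 * π * (j : ℕ) / n : ℝ) : ℂ) * I)) - zc‖ < ε := by
      intro t ht
      have h1 := (convex_ball zc ε).add_smul_sub_mem (x := G (s + ((θ + 2 * π * (j : ℕ) / n : ℝ) : ℂ) * I))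
        (y := G (s + ((θ + 2 * π * (i : ℕ) / n : ℝ) : ℂ) * I))
        (by rw [Metric.mem_ball, dist_eq_norm]; exact hj)
        (by rw [Metric.mem_ball, dist_eq_norm]; exact hi) ht
      rw [Metric.mem_ball, dist_eq_norm, Complex.real_smul] at h1
      exact h1
    refine sep_of_path f hf n hn hn0 r' hr'0 (fun t : ℝ => G (s + t * I))
      (fun t : ℝ => deriv G (s + t * I) * I) hγ hcont (θ + 2 * π * (i : ℕ) / n)
      (θ + 2 * π * (j : ℕ) / n) ?_ (fun t _ => hnorm t) (fun t ht => (hεb _ (hseg t ht)).1) ?_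
      ((j : ℕ) - i) (by omega) (by omega) ?_
    · have h1 : ((i : ℕ) : ℝ) ≤ ((j : ℕ) : ℝ) := by exact_mod_cast hij'.le
      have h2 := Real.pi_pos
      gcongr
    · intro t ht
      have h1 : ‖G (s + ((θ + 2 * π * (i : ℕ) / n : ℝ) : ℂ) * I) -
          G (s + ((θ + 2 * π * (j : ℕ) / n : ℝ) : ℂ) * I)‖ ≤ 1 := by
        have h2 : G (s + ((θ + 2 * π * (i : ℕ) / n : ℝ) : ℂ) * I) -
            G (s + ((θ + 2 * π * (j : ℕ) / n : ℝ) : ℂ) * I) =
            (G (s + ((θ + 2 * π * (i : ℕ) / n : ℝ) : ℂ) * I) - zc) -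
              (G (s + ((θ + 2 * π * (j : ℕ) / n : ℝ) : ℂ) * I) - zc) := by ring
        rw [h2]
        refine (norm_sub_le _ _).trans ?_
        linarith
      exact (mul_le_of_le_one_left (norm_nonneg _) h1).trans (hεb _ (hseg t ht)).2
    · rw [intervalIntegral.integral_congr (g := fun _ => (n : ℂ) * I) (fun t _ => hder t),
        intervalIntegral.integral_const, Complex.real_smul]
      have h1 : (((j : ℕ) - (i : ℕ) : ℕ) : ℂ) = ((j : ℕ) : ℂ) - ((i : ℕ) : ℂ) := by
        rw [Nat.cast_sub hij'.le]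
      rw [h1]
      push_cast
      field_simp
      try ring
  obtain ⟨i, j, hij, hi, hj⟩ := hroots _ hne hω1 _ hzinj hzeval
  rcases lt_or_gt_of_ne hij with h | h
  · exact key i j h hi hj
  · exact key j i h hj hi

end Pool.Agent.H88.LE
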