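import Pool.Agent.H88.LE.Defs

/-!
# LE-XE: the sharp energy inequality

For finitely many points `u_i = e^{-iθ_i}` of the unit circle and complex weights `ν_i` with `∑ ν_i = 0`, `0 ≤ x < 1`:
`∑_{j ≥ 1} x^j/j |∑ ν_i u_i^j|² ≤ (∑ |ν_i|)² artx x`, `artx x = ½ log ((1+x)/(1-x))`.

PROOF. (a) For `0 ≤ y < 1`: `∑_{j ≥ 0} y^j |∑ ν_i u_i^j|² = ∑_{i,k} ν_i conj(ν_k)/(1 - y u_i conj(u_k))`. Since `∑ ν_i = 0`, one can subtract the
constant `1/(1-y²)` from every kernel value: with `u = u_i conj(u_k)`, `|u| = 1`,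
`1/(1-yu) - 1/(1-y²) = y (u - y)/((1-yu)(1-y²))`, and `|u - y| = |1 - yu|` (as `|u| = 1`, `y` real), so its modulus is `y/(1-y²)`.
The term `j = 0` vanishes. So `∑_{j ≥ 1} y^j |∑ ν_i u_i^j|² ≤ y/(1-y²) (∑ |ν_i|)²`.
(b) Divide by `y` and integrate over `[0,x]`: `∫_0^x ∑_{j≥1} y^{j-1} |..|² dy = ∑ x^j/j |..|²` (power series, nonnegative terms) and
`∫_0^x dy/(1-y²) = artx x`. (Alternative without integrals of series: for a finite partial sum `∑_{1 ≤ j ≤ J}`, the function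
`x ↦ artx x (∑|ν|)² - ∑_{j ≤ J} x^j/j |..|²` vanishes at `0` and has derivative `(∑|ν|)²/(1-x²) - ∑_{j≤J} x^{j-1}|..|² ≥ 0` by (a).)
-/

set_option autoImplicit false

open Polynomial Complex MeasureTheory Set
open scoped Real ComplexConjugate
open Pool.Agent.H88.LD

noncomputable section

namespace Pool.Agent.H88.LE

private theorem xe_exp_pow (t : ℝ) (j : ℕ) :
    Complex.exp (-((j + 1) * (t * I))) = Complex.exp (-(t * I)) ^ (j + 1) := by
  rw [← Complex.exp_nat_mul]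
  congr 1
  push_cast
  ring

private theorem xe_norm_e (t : ℝ) : ‖Complex.exp (-(t * I))‖ = 1 := by
  have h : -((t : ℂ) * I) = ((-t : ℝ) : ℂ) * I := by push_cast; ring
  rw [h, Complex.norm_exp_ofReal_mul_I]

private theorem xe_norm_kernel (y : ℝ) (hy0 : 0 ≤ y) (hy1 : y < 1) (u : ℂ) (hu : ‖u‖ = 1) :
    ‖u / (1 - y * u) - y / (1 - y ^ 2)‖ = 1 / (1 - y ^ 2) := by
  have hy2 : 0 < 1 - y ^ 2 := by nlinarith
  have h1 : (1 : ℂ) - y * u ≠ 0 := by
    intro h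
    have h2 : (y : ℂ) * u = 1 := by linear_combination -h
    have h3 : ‖(y : ℂ) * u‖ = 1 := by rw [h2]; simp
    rw [norm_mul, hu, mul_one, Complex.norm_real, Real.norm_eq_abs, abs_of_nonneg hy0] at h3
    linarith
  have h2 : (1 : ℂ) - (y : ℂ) ^ 2 ≠ 0 := by
    have : ((1 - y ^ 2 : ℝ) : ℂ) ≠ 0 := by exact_mod_cast hy2.ne'
    push_cast at this
    exact this
  have h3 : u / (1 - y * u) - y / (1 - y ^ 2) = (u - y) / ((1 - y * u) * (1 - (y : ℂ) ^ 2)) := by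
    rw [div_sub_div _ _ h1 h2]
    congr 1
    ring
  have h4 : ‖u - y‖ = ‖1 - y * u‖ := by
    have h5 : Complex.normSq (u - y) = Complex.normSq (1 - y * u) := by
      have h6 : Complex.normSq u = 1 := by
        rw [Complex.normSq_eq_norm_sq, hu]; norm_num
      rw [Complex.normSq_apply] at h6 ⊢
      rw [Complex.normSq_apply]
      simp only [Complex.sub_re, Complex.sub_im, Complex.ofReal_re, Complex.ofReal_im,
        Complex.one_re, Complex.one_im, Complex.mul_re, Complex.mul_im]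
      nlinarith
    rw [Complex.normSq_eq_norm_sq, Complex.normSq_eq_norm_sq] at h5
    exact (sq_eq_sq₀ (norm_nonneg _) (norm_nonneg _)).1 h5
  have h7 : ‖(1 : ℂ) - (y : ℂ) ^ 2‖ = 1 - y ^ 2 := by
    have : (1 : ℂ) - (y : ℂ) ^ 2 = ((1 - y ^ 2 : ℝ) : ℂ) := by push_cast; ring
    rw [this, Complex.norm_real, Real.norm_eq_abs, abs_of_pos hy2]
  have h8 : ‖(1 : ℂ) - y * u‖ ≠ 0 := by simpa using h1
  rw [h3, norm_div, norm_mul, h4, h7]
  field_simp

private theorem xe_term {m : ℕ} (ν : Fin m → ℂ) (θ : Fin m → ℝ) (y : ℝ) (j : ℕ) :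
    ((y ^ j * ‖∑ i, ν i * Complex.exp (-((j + 1) * (θ i * I)))‖ ^ 2 : ℝ) : ℂ) =
      ∑ i, ∑ k, ν i * conj (ν k) *
        ((Complex.exp (-(θ i * I)) * conj (Complex.exp (-(θ k * I)))) *
          (y * (Complex.exp (-(θ i * I)) * conj (Complex.exp (-(θ k * I))))) ^ j) := by
  push_cast
  rw [← Complex.mul_conj']
  simp_rw [xe_exp_pow]
  rw [map_sum, Finset.sum_mul_sum, Finset.mul_sum]
  refine Finset.sum_congr rfl fun i _ => ?_
  rw [Finset.mul_sum]
  refine Finset.sum_congr rfl fun k _ => ?_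
  rw [map_mul, map_pow]
  ring

theorem energy_step {m : ℕ} (ν : Fin m → ℂ) (θ : Fin m → ℝ) (hν : ∑ i, ν i = 0) (y : ℝ)
    (hy0 : 0 ≤ y) (hy1 : y < 1) (J : ℕ) :
    ∑ j ∈ Finset.range J, y ^ j * ‖∑ i, ν i * Complex.exp (-((j + 1) * (θ i * I)))‖ ^ 2 ≤
      1 / (1 - y ^ 2) * (∑ i, ‖ν i‖) ^ 2 := by
  have hy2 : 0 < 1 - y ^ 2 := by nlinarith
  set g : ℕ → ℝ := fun j => y ^ j * ‖∑ i, ν i * Complex.exp (-((j + 1) * (θ i * I)))‖ ^ 2 with hg
  set u : Fin m → Fin m → ℂ := fun i k =>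
    Complex.exp (-(θ i * I)) * conj (Complex.exp (-(θ k * I))) with hu
  have hun : ∀ i k, ‖u i k‖ = 1 := by
    intro i k
    rw [hu]
    simp only
    rw [norm_mul, Complex.norm_conj, xe_norm_e, xe_norm_e, mul_one]
  have hC : HasSum (fun j => ((g j : ℝ) : ℂ))
      (∑ i, ∑ k, ν i * conj (ν k) * (u i k / (1 - y * u i k))) := by
    have h1 : (fun j => ((g j : ℝ) : ℂ)) = fun j => ∑ i, ∑ k, ν i * conj (ν k) *
        (u i k * (y * u i k) ^ j) := by
      funext j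
      exact xe_term ν θ y j
    rw [h1]
    refine hasSum_sum fun i _ => hasSum_sum fun k _ => ?_
    refine HasSum.mul_left _ ?_
    have h2 : ‖(y : ℂ) * u i k‖ < 1 := by
      rw [norm_mul, hun, mul_one, Complex.norm_real, Real.norm_eq_abs, abs_of_nonneg hy0]
      exact hy1
    have h3 := (hasSum_geometric_of_norm_lt_one h2).mul_left (u i k)
    rw [← div_eq_mul_inv] at h3
    exact h3
  have hS : Summable g := by
    have := hC.summable
    exact_mod_cast this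
  have hT : ((∑' j, g j : ℝ) : ℂ) = ∑ i, ∑ k, ν i * conj (ν k) * (u i k / (1 - y * u i k)) := by
    rw [← hC.tsum_eq]
    exact Complex.ofReal_tsum _
  have h0 : ∑ i, ∑ k, ν i * conj (ν k) * ((y : ℂ) / (1 - y ^ 2)) = 0 := by
    have : ∀ i, ∑ k, ν i * conj (ν k) * ((y : ℂ) / (1 - y ^ 2)) =
        ν i * ((∑ k, conj (ν k)) * ((y : ℂ) / (1 - y ^ 2))) := by
      intro i
      rw [Finset.sum_mul, Finset.mul_sum]
      refine Finset.sum_congr rfl fun k _ => ?_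
      ring
    simp_rw [this]
    rw [← Finset.sum_mul, hν, zero_mul]
  have hT2 : ((∑' j, g j : ℝ) : ℂ) =
      ∑ i, ∑ k, ν i * conj (ν k) * (u i k / (1 - y * u i k) - y / (1 - y ^ 2)) := by
    rw [hT]
    simp_rw [mul_sub, Finset.sum_sub_distrib]
    rw [h0, sub_zero]
  have hnorm : ‖((∑' j, g j : ℝ) : ℂ)‖ ≤ 1 / (1 - y ^ 2) * (∑ i, ‖ν i‖) ^ 2 := by
    rw [hT2]
    calc ‖∑ i, ∑ k, ν i * conj (ν k) * (u i k / (1 - y * u i k) - y / (1 - y ^ 2))‖
        ≤ ∑ i, ∑ k, ‖ν i‖ * ‖ν k‖ * (1 / (1 - y ^ 2)) := by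
          refine (norm_sum_le _ _).trans (Finset.sum_le_sum fun i _ => ?_)
          refine (norm_sum_le _ _).trans (Finset.sum_le_sum fun k _ => ?_)
          rw [norm_mul, norm_mul, Complex.norm_conj, xe_norm_kernel y hy0 hy1 _ (hun i k)]
      _ = 1 / (1 - y ^ 2) * (∑ i, ‖ν i‖) ^ 2 := by
          rw [sq (∑ i, ‖ν i‖), Finset.sum_mul_sum, Finset.mul_sum]
          refine Finset.sum_congr rfl fun i _ => ?_
          rw [Finset.mul_sum]
          refine Finset.sum_congr rfl fun k _ => ?_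
          ring
  have hpos : ∀ j, 0 ≤ g j := fun j => by
    rw [hg]; positivity
  calc ∑ j ∈ Finset.range J, g j ≤ ∑' j, g j := hS.sum_le_tsum _ (fun j _ => hpos j)
    _ ≤ ‖((∑' j, g j : ℝ) : ℂ)‖ := by
        rw [Complex.norm_real, Real.norm_eq_abs]
        exact le_abs_self _
    _ ≤ _ := hnorm

private theorem xe_artx_deriv (t : ℝ) (h0 : 0 ≤ t) (h1 : t < 1) :
    HasDerivAt artx (1 / (1 - t ^ 2)) t := by
  have h2 : (1 - t : ℝ) ≠ 0 := by linarith
  have h3 : (1 + t) / (1 - t) ≠ 0 := by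
    have : 0 < (1 + t) / (1 - t) := div_pos (by linarith) (by linarith)
    exact this.ne'
  have h4 : (1 - t ^ 2 : ℝ) ≠ 0 := by
    have : 0 < 1 - t ^ 2 := by nlinarith
    exact this.ne'
  have h6 : (1 + t : ℝ) ≠ 0 := by linarith
  have hd1 : HasDerivAt (fun s : ℝ => 1 + s) 1 t := (hasDerivAt_id t).const_add 1
  have hd2 : HasDerivAt (fun s : ℝ => 1 - s) (-1) t := (hasDerivAt_id t).const_sub 1
  have hd := ((hd1.div hd2 h2).log h3).const_mul (1 / 2 : ℝ)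
  have h5 : (1 / 2 : ℝ) * ((1 * (1 - t) - (1 + t) * -1) / (1 - t) ^ 2 / ((1 + t) / (1 - t))) =
      1 / (1 - t ^ 2) := by
    field_simp
    ring
  rw [← h5]
  exact hd

private theorem xe_partial {m : ℕ} (ν : Fin m → ℂ) (θ : Fin m → ℝ) (hν : ∑ i, ν i = 0) (x : ℝ)
    (hx0 : 0 ≤ x) (hx1 : x < 1) (J : ℕ) :
    ∑ j ∈ Finset.range J, x ^ (j + 1) / ((j : ℝ) + 1) *
      ‖∑ i, ν i * Complex.exp (-((j + 1) * (θ i * I)))‖ ^ 2 ≤ artx x * (∑ i, ‖ν i‖) ^ 2 := by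
  set c : ℕ → ℝ := fun j => ‖∑ i, ν i * Complex.exp (-((j + 1) * (θ i * I)))‖ ^ 2 with hc
  set N : ℝ := (∑ i, ‖ν i‖) ^ 2 with hN
  set F : ℝ → ℝ := fun t => artx t * N - ∑ j ∈ Finset.range J, t ^ (j + 1) / ((j : ℝ) + 1) * c j
    with hF
  have hder : ∀ t, 0 ≤ t → t < 1 →
      HasDerivAt F (1 / (1 - t ^ 2) * N - ∑ j ∈ Finset.range J, t ^ j * c j) t := by
    intro t h0 h1
    refine ((xe_artx_deriv t h0 h1).mul_const N).sub ?_
    refine HasDerivAt.fun_sum fun j _ => ?_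
    have h2 : HasDerivAt (fun s : ℝ => s ^ (j + 1) / ((j : ℝ) + 1)) (t ^ j) t := by
      have h3 := (hasDerivAt_pow (j + 1) t).div_const ((j : ℝ) + 1)
      have h4 : (((j + 1 : ℕ) : ℝ) * t ^ (j + 1 - 1)) / ((j : ℝ) + 1) = t ^ j := by
        have : ((j : ℝ) + 1) ≠ 0 := by positivity
        rw [Nat.add_sub_cancel]
        push_cast
        field_simp
      rw [h4] at h3
      exact h3
    exact h2.mul_const (c j)
  have hmono : MonotoneOn F (Set.Icc 0 x) := by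
    refine monotoneOn_of_deriv_nonneg (convex_Icc 0 x) ?_ ?_ ?_
    · intro t ht
      exact (hder t ht.1 (lt_of_le_of_lt ht.2 hx1)).continuousAt.continuousWithinAt
    · intro t ht
      rw [interior_Icc] at ht
      exact (hder t ht.1.le (ht.2.trans hx1)).differentiableAt.differentiableWithinAt
    · intro t ht
      rw [interior_Icc] at ht
      rw [(hder t ht.1.le (ht.2.trans hx1)).deriv]
      have := energy_step ν θ hν t ht.1.le (ht.2.trans hx1) J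
      simp only [hc, hN]
      linarith
  have h0 : F 0 = 0 := by
    simp [hF, artx]
  have h1 := hmono (Set.left_mem_Icc.2 hx0) (Set.right_mem_Icc.2 hx0) hx0
  rw [h0] at h1
  simp only [hF] at h1
  linarith

theorem energy_ineq {m : ℕ} (ν : Fin m → ℂ) (θ : Fin m → ℝ) (hν : ∑ i, ν i = 0) (x : ℝ)
    (hx0 : 0 ≤ x) (hx1 : x < 1) :
    Summable (fun j : ℕ => x ^ (j + 1) / ((j : ℝ) + 1) *
      ‖∑ i, ν i * Complex.exp (-((j + 1) * (θ i * I)))‖ ^ 2) ∧
    ∑' j : ℕ, x ^ (j + 1) / ((j : ℝ) + 1) *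
      ‖∑ i, ν i * Complex.exp (-((j + 1) * (θ i * I)))‖ ^ 2 ≤ artx x * (∑ i, ‖ν i‖) ^ 2 := by
  have hpos : ∀ j : ℕ, 0 ≤ x ^ (j + 1) / ((j : ℝ) + 1) *
      ‖∑ i, ν i * Complex.exp (-((j + 1) * (θ i * I)))‖ ^ 2 := fun j => by positivity
  refine ⟨summable_of_sum_range_le hpos (xe_partial ν θ hν x hx0 hx1), ?_⟩
  exact Real.tsum_le_of_sum_range_le hpos (xe_partial ν θ hν x hx0 hx1)

end Pool.Agent.H88.LE
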