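import Pool.Agent.H88.LE.XD
import Pool.Agent.H88.LE.XE
import Pool.Agent.H88.LE.XF

/-!
# LE-XG: the radius bound

Let `a/n < s₁ < s`, `D = e^{2s₁} - area f (n s₁)/π`, `x = e^{-2(s-s₁)}`. CLAIM: `{|f| ≤ e^{ns}}` lies in a disc of radius
`e^s + √D √(artx x)`.

PROOF. `G, c₁, b₀, β` from `exterior_expansion`. `K = lem f (e^{ns})` is compact (closed, bounded: `exists_bound`) and nonempty.
`c, R, m, z, l` from `enclosing K`. If `R = 0` we are done. Each `z i` has `‖f.eval (z i)‖ = e^{ns}`: if it were smaller, a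
neighbourhood of `z i` would belong to `K`, but `K ⊆ closedBall c R` and `‖z i - c‖ = R > 0`. So `z i = G (s + iθ_i)`.
Put `ν i = l i * conj (z i - c)`: `∑ ν i = conj (∑ l_i z_i - c) = 0`, `∑ ‖ν i‖ = R`, and
`R² = ∑ l_i ‖z i - c‖² = ∑ ν_i (z_i - c) = ∑ ν_i z_i = ∑ ν_i (c₁ e^{s+iθ_i} + b₀ + ∑_j β_j e^{-(j+1)(s+iθ_i)})`. The first term has modulus
`≤ e^s R`, the second is `0`, the third is `∑_j β_j e^{-(j+1)s} (∑_i ν_i e^{-(j+1)iθ_i})`, by Cauchy-Schwarz
`≤ (∑ (j+1) ‖β_j‖² e^{-2(j+1)s₁})^{1/2} (∑ x^{j+1}/(j+1) ‖∑ ν_i e^{-(j+1)iθ_i}‖²)^{1/2} ≤ √D (artx x)^{1/2} R`, because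
`e^{-(j+1)s} = e^{-(j+1)s₁} x^{(j+1)/2}`, `∑ (j+1)‖β_j‖² e^{-2(j+1)s₁} = ‖c₁‖² e^{2s₁} - area/π ≤ D`, and `energy_ineq`. Divide by `R`. One disc:
`Cov` with `m = 1`. (Cauchy-Schwarz for series: `Real.inner_le_nnorm_mul_nnorm`/`tsum_mul_le_..` (Hölder `p = q = 2`), or for
finite partial sums and a limit.)
-/

set_option autoImplicit false

open Polynomial Complex MeasureTheory Set
open scoped Real ComplexConjugate
open Pool.Agent.H88.LD

noncomputable section

namespace Pool.Agent.H88.LE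

/-- a monic polynomial of positive degree has a compact nonempty lemniscate -/
theorem xg_lem_compact (f : ℂ[X]) (hf : f.Monic) (n : ℕ) (hn : f.natDegree = n) (hn0 : 0 < n)
    (s : ℝ) : IsCompact (lem f (Real.exp (n * s))) ∧ (lem f (Real.exp (n * s))).Nonempty := by
  have hcont : Continuous (fun z : ℂ => ‖f.eval z‖) := by fun_prop
  constructor
  · obtain ⟨C, hC, hb⟩ := exists_bound f hf (by omega)
    refine Metric.isCompact_of_isClosed_isBounded (isClosed_le hcont continuous_const) ?_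
    refine (Metric.isBounded_ball (x := (0 : ℂ)) (r := Real.exp (s + 1) + C)).subset ?_
    intro z hz
    apply hb (s + 1)
    have hz' : ‖f.eval z‖ ≤ Real.exp (n * s) := hz
    refine lt_of_le_of_lt hz' ?_
    rw [hn]
    apply Real.exp_lt_exp.mpr
    have : (0 : ℝ) < n := by exact_mod_cast hn0
    nlinarith
  · have hdeg : f.degree ≠ 0 := by
      rw [degree_eq_natDegree hf.ne_zero, hn]
      exact_mod_cast hn0.ne'
    obtain ⟨z, hz⟩ := IsAlgClosed.exists_root f hdeg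
    refine ⟨z, ?_⟩
    show ‖f.eval z‖ ≤ Real.exp (n * s)
    rw [IsRoot.def] at hz
    rw [hz, norm_zero]
    exact (Real.exp_pos _).le

/-- a point of a sublevel set at maximal distance from `c` lies on the level curve -/
theorem xg_boundary (f : ℂ[X]) (r : ℝ) (c : ℂ) (R : ℝ) (hR : 0 < R)
    (hK : ∀ z ∈ lem f r, ‖z - c‖ ≤ R) (z : ℂ) (hz : z ∈ lem f r) (hzR : ‖z - c‖ = R) :
    ‖f.eval z‖ = r := by
  have hz' : ‖f.eval z‖ ≤ r := hz
  by_contra hne
  have hlt : ‖f.eval z‖ < r := lt_of_le_of_ne hz' hne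
  have hcont : Continuous (fun z : ℂ => ‖f.eval z‖) := by fun_prop
  have hopen : IsOpen {w : ℂ | ‖f.eval w‖ < r} := isOpen_lt hcont continuous_const
  obtain ⟨ε, hε, hball⟩ := Metric.isOpen_iff.mp hopen z hlt
  have hw : z + (ε / 2 / R : ℝ) * (z - c) ∈ Metric.ball z ε := by
    rw [Metric.mem_ball, dist_eq_norm]
    have : z + (ε / 2 / R : ℝ) * (z - c) - z = (ε / 2 / R : ℝ) * (z - c) := by ring
    rw [this, norm_mul, hzR, Complex.norm_real, Real.norm_eq_abs,
      abs_of_pos (by positivity), div_mul_cancel₀ _ hR.ne']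
    linarith
  have hw2 : ‖f.eval (z + (ε / 2 / R : ℝ) * (z - c))‖ < r := hball hw
  have hw3 := hK _ (show (z + (ε / 2 / R : ℝ) * (z - c)) ∈ lem f r from hw2.le)
  have heq : z + (ε / 2 / R : ℝ) * (z - c) - c = ((1 + ε / 2 / R : ℝ) : ℂ) * (z - c) := by
    push_cast
    ring
  rw [heq, norm_mul, hzR, Complex.norm_real, Real.norm_eq_abs,
    abs_of_pos (by positivity), add_mul, div_mul_cancel₀ _ hR.ne'] at hw3
  linarith

/-- the tail of the expansion, tested against the weights -/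
theorem xg_tail {m : ℕ} (ν : Fin m → ℂ) (θ : Fin m → ℝ) (hν : ∑ i, ν i = 0) (β : ℕ → ℂ)
    (s₁ s D : ℝ) (h2 : s₁ < s)
    (hsum : Summable (fun j : ℕ => ((j : ℝ) + 1) * ‖β j‖ ^ 2 * Real.exp (-(2 * (j + 1) * s₁))))
    (hD : ∑' j : ℕ, ((j : ℝ) + 1) * ‖β j‖ ^ 2 * Real.exp (-(2 * (j + 1) * s₁)) ≤ D) (T : ℂ)
    (hT : HasSum (fun j : ℕ => ∑ i, ν i *
      (β j * Complex.exp (-((j + 1) * (s + θ i * I))))) T) :
    ‖T‖ ≤ √D * √(artx (Real.exp (-(2 * (s - s₁))))) * ∑ i, ‖ν i‖ := by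
  set x := Real.exp (-(2 * (s - s₁))) with hx
  have hx0 : 0 ≤ x := (Real.exp_pos _).le
  have hx1 : x < 1 := by
    rw [hx, ← Real.exp_zero]
    apply Real.exp_lt_exp.mpr
    linarith
  obtain ⟨hsum2, hle2⟩ := energy_ineq ν θ hν x hx0 hx1
  have hR0 : 0 ≤ ∑ i, ‖ν i‖ := Finset.sum_nonneg (fun i _ => norm_nonneg _)
  -- the summands
  have hterm : ∀ j : ℕ, ‖∑ i, ν i * (β j * Complex.exp (-((j + 1) * (s + θ i * I))))‖ =
      (√((j : ℝ) + 1) * ‖β j‖ * Real.exp (-((j + 1) * s₁))) *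
      (Real.exp (-((j + 1) * (s - s₁))) / √((j : ℝ) + 1) *
        ‖∑ i, ν i * Complex.exp (-((j + 1) * (θ i * I)))‖) := by
    intro j
    have e1 : ∑ i, ν i * (β j * Complex.exp (-((j + 1) * (s + θ i * I)))) =
        (β j * (Real.exp (-((j + 1) * s)) : ℝ)) *
          ∑ i, ν i * Complex.exp (-((j + 1) * (θ i * I))) := by
      rw [Finset.mul_sum]
      refine Finset.sum_congr rfl fun i _ => ?_
      have e2 : Complex.exp (-((j + 1) * (s + θ i * I))) =
          (Real.exp (-((j + 1) * s)) : ℝ) * Complex.exp (-((j + 1) * (θ i * I))) := by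
        push_cast
        rw [← Complex.exp_add]
        congr 1
        ring
      rw [e2]
      ring
    rw [e1, norm_mul, norm_mul, Complex.norm_real, Real.norm_eq_abs, abs_of_pos (Real.exp_pos _)]
    have hj : (0 : ℝ) < (j : ℝ) + 1 := by positivity
    have e3 : Real.exp (-((j + 1) * s)) =
        Real.exp (-((j + 1) * s₁)) * Real.exp (-((j + 1) * (s - s₁))) := by
      rw [← Real.exp_add]
      congr 1
      ring
    rw [e3]
    have hsq : √((j : ℝ) + 1) ≠ 0 := (Real.sqrt_pos.mpr hj).ne'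
    generalize ‖∑ i, ν i * Complex.exp (-((j + 1) * (θ i * I)))‖ = Y
    field_simp
  have hp2 : ∀ j : ℕ, (√((j : ℝ) + 1) * ‖β j‖ * Real.exp (-((j + 1) * s₁))) ^ 2 =
      ((j : ℝ) + 1) * ‖β j‖ ^ 2 * Real.exp (-(2 * (j + 1) * s₁)) := by
    intro j
    have hj : (0 : ℝ) ≤ (j : ℝ) + 1 := by positivity
    rw [mul_pow, mul_pow, Real.sq_sqrt hj, ← Real.exp_nat_mul]
    congr 2
    push_cast
    ring
  have hq2 : ∀ j : ℕ, (Real.exp (-((j + 1) * (s - s₁))) / √((j : ℝ) + 1) *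
        ‖∑ i, ν i * Complex.exp (-((j + 1) * (θ i * I)))‖) ^ 2 =
      x ^ (j + 1) / ((j : ℝ) + 1) * ‖∑ i, ν i * Complex.exp (-((j + 1) * (θ i * I)))‖ ^ 2 := by
    intro j
    have hj : (0 : ℝ) ≤ (j : ℝ) + 1 := by positivity
    rw [mul_pow, div_pow, Real.sq_sqrt hj, ← Real.exp_nat_mul, hx, ← Real.exp_nat_mul]
    congr 3
    push_cast
    ring
  have hDnn : 0 ≤ D := le_trans (tsum_nonneg (fun j => by positivity)) hD
  have hart : 0 ≤ artx x * (∑ i, ‖ν i‖) ^ 2 := le_trans (tsum_nonneg (fun j => by positivity)) hle2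
  have hpart : ∀ J : ℕ, ‖∑ j ∈ Finset.range J, ∑ i, ν i *
      (β j * Complex.exp (-((j + 1) * (s + θ i * I))))‖ ≤
      √D * √(artx x * (∑ i, ‖ν i‖) ^ 2) := by
    intro J
    refine (norm_sum_le _ _).trans ?_
    rw [Finset.sum_congr rfl (fun j _ => hterm j)]
    refine (Real.sum_mul_le_sqrt_mul_sqrt (Finset.range J) _ _).trans ?_
    refine mul_le_mul (Real.sqrt_le_sqrt ?_) (Real.sqrt_le_sqrt ?_) (Real.sqrt_nonneg _)
      (Real.sqrt_nonneg _)
    · rw [Finset.sum_congr rfl (fun j _ => hp2 j)]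
      exact (hsum.sum_le_tsum (Finset.range J) (fun j _ => by positivity)).trans hD
    · rw [Finset.sum_congr rfl (fun j _ => hq2 j)]
      exact (hsum2.sum_le_tsum (Finset.range J) (fun j _ => by positivity)).trans hle2
  have hlim := hT.tendsto_sum_nat.norm
  have hfin : ‖T‖ ≤ √D * √(artx x * (∑ i, ‖ν i‖) ^ 2) :=
    le_of_tendsto hlim (Filter.Eventually.of_forall hpart)
  have hsq : √(artx x * (∑ i, ‖ν i‖) ^ 2) = √(artx x) * ∑ i, ‖ν i‖ := by
    rw [Real.sqrt_mul' _ (sq_nonneg _), Real.sqrt_sq hR0]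
  rw [hsq] at hfin
  linarith [hfin]

theorem radius_bound (f : ℂ[X]) (hf : f.Monic) (n : ℕ) (hn : f.natDegree = n) (hn0 : 0 < n)
    (a : ℝ) (hreg : ∀ u, a < u → Reg f u) (s₁ s : ℝ) (h1 : a / n < s₁) (h2 : s₁ < s) :
    0 ≤ Real.exp (2 * s₁) - area f (n * s₁) / π ∧
    Cov (lem f (Real.exp (n * s)))
      (Real.exp s + √(Real.exp (2 * s₁) - area f (n * s₁) / π) *
        √(artx (Real.exp (-(2 * (s - s₁)))))) := by
  obtain ⟨G, c₁, b₀, β, hc1, hsurj, hexp⟩ := exterior_expansion f hf n hn hn0 a hreg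
  obtain ⟨hsum1, harea1, _⟩ := hexp s₁ h1
  obtain ⟨_, _, hG⟩ := hexp s (h1.trans h2)
  set S := ∑' j : ℕ, ((j : ℝ) + 1) * ‖β j‖ ^ 2 * Real.exp (-(2 * (j + 1) * s₁)) with hS
  have hS0 : 0 ≤ S := tsum_nonneg (fun j => by positivity)
  set D := Real.exp (2 * s₁) - area f (n * s₁) / π with hDdef
  have hSD : S ≤ D := by
    rw [hDdef, harea1, mul_div_cancel_left₀ _ Real.pi_ne_zero]
    have h3 : ‖c₁‖ ^ 2 ≤ 1 := by nlinarith [norm_nonneg c₁]
    have h4 : ‖c₁‖ ^ 2 * Real.exp (2 * s₁) ≤ 1 * Real.exp (2 * s₁) :=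
      mul_le_mul_of_nonneg_right h3 (Real.exp_pos _).le
    linarith
  have hD0 : 0 ≤ D := hS0.trans hSD
  refine ⟨hD0, ?_⟩
  obtain ⟨hKc, hKn⟩ := xg_lem_compact f hf n hn hn0 s
  obtain ⟨c, R, hR, hKR, m, z, l, hl, hl1, hzK, hzR, hlz⟩ := enclosing _ hKc hKn
  have hbnn : 0 ≤ √D * √(artx (Real.exp (-(2 * (s - s₁))))) := by positivity
  have key : R ≤ Real.exp s + √D * √(artx (Real.exp (-(2 * (s - s₁))))) := by
    rcases hR.eq_or_lt with hR0 | hRpos
    · rw [← hR0]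
      have := Real.exp_pos s
      linarith
    have hbd : ∀ i, ‖f.eval (z i)‖ = Real.exp (n * s) := fun i =>
      xg_boundary f _ c R hRpos hKR (z i) (hzK i) (hzR i)
    have hθ : ∀ i, ∃ θ : ℝ, z i = G (s + θ * I) := fun i => hsurj s (h1.trans h2) _ (hbd i)
    choose θ hθ using hθ
    set ν : Fin m → ℂ := fun i => (l i : ℂ) * conj (z i - c) with hνdef
    have hl1' : ∑ i, (l i : ℂ) = 1 := by
      rw [← Complex.ofReal_sum, hl1, Complex.ofReal_one]
    have hν : ∑ i, ν i = 0 := by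
      have e1 : ∑ i, ν i = conj (∑ i, (l i : ℂ) * (z i - c)) := by
        rw [map_sum]
        refine Finset.sum_congr rfl fun i _ => ?_
        rw [hνdef]
        simp only [map_mul, Complex.conj_ofReal]
      have e2 : ∑ i, (l i : ℂ) * (z i - c) = 0 := by
        simp only [mul_sub]
        rw [Finset.sum_sub_distrib, hlz, ← Finset.sum_mul, hl1']
        ring
      rw [e1, e2, map_zero]
    have hνn : ∑ i, ‖ν i‖ = R := by
      have e1 : ∀ i, ‖ν i‖ = l i * R := by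
        intro i
        rw [hνdef]
        simp only [norm_mul, RCLike.norm_conj, hzR i, Complex.norm_real, Real.norm_eq_abs,
          abs_of_nonneg (hl i)]
      rw [Finset.sum_congr rfl (fun i _ => e1 i), ← Finset.sum_mul, hl1, one_mul]
    have hR2 : ((R ^ 2 : ℝ) : ℂ) = ∑ i, ν i * z i := by
      have e1 : ∀ i, ν i * z i = (l i : ℂ) * ((R ^ 2 : ℝ) : ℂ) + ν i * c := by
        intro i
        have e2 : (z i - c) * conj (z i - c) = ((R ^ 2 : ℝ) : ℂ) := by
          rw [Complex.mul_conj, Complex.normSq_eq_norm_sq, hzR i]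
        have e3 : ν i * z i = (l i : ℂ) * ((z i - c) * conj (z i - c)) + ν i * c := by
          rw [hνdef]
          ring
        rw [e3, e2]
      rw [Finset.sum_congr rfl (fun i _ => e1 i), Finset.sum_add_distrib, ← Finset.sum_mul,
        ← Finset.sum_mul, hl1', hν]
      ring
    -- the expansion
    have hT : HasSum (fun j : ℕ => ∑ i, ν i *
        (β j * Complex.exp (-((j + 1) * (s + θ i * I)))))
        (∑ i, ν i * (z i - c₁ * Complex.exp (s + θ i * I) - b₀)) := by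
      apply hasSum_sum
      intro i _
      have := (hG (θ i)).mul_left (ν i)
      rw [← hθ i] at this
      exact this
    have htail := xg_tail ν θ hν β s₁ s D h2 hsum1 hSD _ hT
    rw [hνn] at htail
    have hsplit : ∑ i, ν i * z i = c₁ * ∑ i, ν i * Complex.exp (s + θ i * I) +
        ∑ i, ν i * (z i - c₁ * Complex.exp (s + θ i * I) - b₀) := by
      have e1 : ∑ i, ν i * (z i - c₁ * Complex.exp (s + θ i * I) - b₀) =
          ∑ i, ν i * z i - c₁ * ∑ i, ν i * Complex.exp (s + θ i * I) - (∑ i, ν i) * b₀ := by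
        rw [Finset.mul_sum, Finset.sum_mul, ← Finset.sum_sub_distrib, ← Finset.sum_sub_distrib]
        refine Finset.sum_congr rfl fun i _ => ?_
        ring
      rw [e1, hν]
      ring
    have hfirst : ‖c₁ * ∑ i, ν i * Complex.exp (s + θ i * I)‖ ≤ Real.exp s * R := by
      rw [norm_mul]
      have e1 : ‖∑ i, ν i * Complex.exp (s + θ i * I)‖ ≤ Real.exp s * R := by
        refine (norm_sum_le _ _).trans ?_
        have e2 : ∀ i, ‖ν i * Complex.exp (s + θ i * I)‖ = ‖ν i‖ * Real.exp s := by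
          intro i
          rw [norm_mul, Complex.norm_exp]
          congr 2
          simp
        rw [Finset.sum_congr rfl (fun i _ => e2 i), ← Finset.sum_mul, hνn, mul_comm]
      calc ‖c₁‖ * ‖∑ i, ν i * Complex.exp (s + θ i * I)‖ ≤ 1 * (Real.exp s * R) :=
            mul_le_mul hc1 e1 (norm_nonneg _) zero_le_one
        _ = Real.exp s * R := one_mul _
    have hfin : R ^ 2 ≤ Real.exp s * R + √D * √(artx (Real.exp (-(2 * (s - s₁))))) * R := by
      have e1 : ‖((R ^ 2 : ℝ) : ℂ)‖ = R ^ 2 := by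
        rw [Complex.norm_real, Real.norm_eq_abs, abs_of_nonneg (sq_nonneg R)]
      rw [← e1, hR2, hsplit]
      exact (norm_add_le _ _).trans (add_le_add hfirst htail)
    have h5 : R * R ≤ (Real.exp s + √D * √(artx (Real.exp (-(2 * (s - s₁)))))) * R := by
      nlinarith [hfin]
    exact le_of_mul_le_mul_right h5 hRpos
  refine ⟨1, fun _ => c, fun _ => R, fun _ => hR, fun w hw => ⟨0, hKR w hw⟩, ?_⟩
  simpa using key

end Pool.Agent.H88.LE
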