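import Pool.Agent.H88.LE.IB
import Pool.Agent.H88.LE.PJ
import Pool.Agent.H88.LE.XG
import Pool.Agent.H88.LE.SB
import Pool.Agent.H88.LE.NB
import Pool.Agent.H88.LE.NC

/-!
# LE-IC: the induction step

PROOF of `nz_add`: all roots `a` of `f` are in `lem f r ⊆ O ∪ O'` (`‖f.eval a‖ = 0 ≤ r`), `O, O'` disjoint; `card f.roots = natDegree`.

PROOF of `last_step`. `D = e^{2s₁} - area f (n s₁)/π ≤ e^{2s₁} - kap² x/π =: D'`, `0 ≤ D` and
`Cov (lem f (e^{ns})) (e^s + √D √(artx (e^{-2σ})))`, `s = s₁ + σ`, by `radius_bound` (`a/n < s₁ < s`). If `D' < 0` this is a contradiction. Otherwise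
`D artx ≤ D' artx < (kap - e^s)²` (`artx ≥ 0`), so `√D √artx = √(D artx) < kap - e^s` (as `e^s < kap`), so the value is `< kap`; `lem f 1 ⊆ lem f (e^{ns})`.
So `Cov (lem f 1) kap`, and `kap < h`.

PROOF of `case_low` (`natDegree f = n`, no critical points on the levels `u > n/5`). If `¬ Cov (lem f 1) h` then `h ≤ ρ` for all `ρ` with
`Cov (lem f 1) ρ` (`Cov.mono`). `whole_area` with `s = 2001/10000`: `kap² B (1/5) ≤ h² B s ≤ area f (n s)`. `last_step` with `s₁ = 2001/10000`, `x = B (1/5)`, `σ`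
from `numB0`: contradiction.

PROOF of `case_high`. Suppose `¬ Cov (lem f 1) h`. Let `t₀ = uc/n > 1/5`. Put `t = 1` if `t₀ > 1`, else `t = max (1/5) (t₀ - 1/10000)`: `1/5 ≤ t < t₀`, `t ≤ 1`, and
`t₀ ≤ t + 1/10000` or `t = 1`. `r = e^{n t} > 1`, `r < e^{uc}`. `splitting` gives `O, O'`, `k = nz f O > 0`, `k' = nz f O' > 0`, `k + k' = n` (`nz_add`). WLOG `k ≤ k'`
(`Sep.symm`). `m = k/n ∈ (0, 1/2]`, `1 - m = k'/n`. `H₁ = Hc (lem f 1 ∩ O)`, `H₂ = Hc (lem f 1 ∩ O')`. `Hc_add`: `h ≤ H₁ + H₂` (`lem f 1 ⊆ lem f r ⊆ O ∪ O'`,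
bounded by `lem_compact`). `part_Hc` (twice, with `hS` and `hS.symm`): `H₁ ≤ kap r^{1/n-1/k} = kap e^{t - t/m}`, `H₂ ≤ kap e^{t - t/(1-m)}`.
If `t = 1`: `numC1` gives `H₁ + H₂ < kap < h`, contradiction. So `t₀ ≤ 1`, `t₀ ≤ t + 1/10000`. Choose `v` with
`(v = 5 ∧ 1/5 ≤ t ≤ 31/100) ∨ (v = 4 ∧ ..) ∨ (v = 7/2 ∧ 38/100 ≤ t ≤ 1)`. If `m < t/v`: `numC2`, contradiction as before. So `t/v ≤ m`.
`part_area` for `O` and `O'` with `h = H_i` (`Hc_le`), `u = n t = log r`: `H₁² B (n t/k) ≤ areaP f O (n t)`, `n t/k = t/m`. `numA`, `areaP_add_le`, `area_mono`: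
`kap² alow v t ≤ h² alow v t ≤ (H₁+H₂)² alow v t ≤ area f (n t) ≤ area f (n s₁)`, `s₁ = t + 3/10000`, `uc/n = t₀ < s₁`. `last_step` with `x = alow v t`, and `σ` from
`numB1` if `t ≤ 6/10`; if `t ≥ 6/10` (`v = 7/2`) `numB2` gives `D' < 0`, so `last_step` applies too with `σ` such that `e^{s₁+σ} < kap`... but
`e^{s₁}` can be `> kap`: use `last_neg` instead.

PROOF of `last_neg`: `radius_bound` (any `s > s₁`) gives `0 ≤ D ≤ D' < 0`.
-/

set_option autoImplicit false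

open Polynomial Complex MeasureTheory Set
open scoped Real ComplexConjugate
open Pool.Agent.H88.LD

noncomputable section

namespace Pool.Agent.H88.LE

theorem nz_add {f : ℂ[X]} {r : ℝ} {O O' : Set ℂ} (hr : 0 ≤ r) (hS : Sep f r O O') :
    nz f O + nz f O' = f.natDegree := by
  classical
  have h1 : ∀ a ∈ f.roots, (a ∈ O' ↔ ¬ a ∈ O) := by
    intro a ha
    have h2 : f.eval a = 0 := (isRoot_of_mem_roots ha : f.IsRoot a)
    have h3 : a ∈ lem f r := by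
      change ‖f.eval a‖ ≤ r
      rw [h2, norm_zero]
      exact hr
    constructor
    · intro h h'
      exact (Set.disjoint_left.1 hS.disj) h' h
    · intro h
      rcases hS.cover h3 with h' | h'
      · exact absurd h' h
      · exact h'
  have h2 : nz f O + nz f O' = Multiset.card f.roots := by
    have e1 : nz f O = Multiset.card (f.roots.filter (fun a => a ∈ O)) := by
      unfold nz
      congr
    have e2 : nz f O' = Multiset.card (f.roots.filter (fun a => ¬ a ∈ O)) := by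
      have : nz f O' = Multiset.card (f.roots.filter (fun a => a ∈ O')) := by
        unfold nz
        congr
      rw [this, Multiset.filter_congr h1]
    rw [e1, e2, ← Multiset.card_add, Multiset.filter_add_not]
  rw [h2]
  exact (IsAlgClosed.splits f).natDegree_eq_card_roots.symm

theorem ic_kap_pos : 0 < kap := by
  unfold kap
  norm_num

theorem ic_artx_nonneg {y : ℝ} (h0 : 0 ≤ y) (h1 : y < 1) : 0 ≤ artx y := by
  unfold artx
  refine mul_nonneg (by norm_num) (Real.log_nonneg ?_)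
  rw [le_div_iff₀ (by linarith)]
  linarith

theorem last_step (f : ℂ[X]) (hf : f.Monic) (n : ℕ) (hn : f.natDegree = n) (hn0 : 0 < n)
    (a : ℝ) (hreg : ∀ u, a < u → Reg f u) (s₁ σ x : ℝ) (h0 : 0 ≤ s₁) (h1 : a / n < s₁)
    (hσ : 0 < σ) (hx : kap ^ 2 * x ≤ area f (n * s₁)) (he : Real.exp (s₁ + σ) < kap)
    (hfin : (Real.exp (2 * s₁) - kap ^ 2 * x / π) * artx (Real.exp (-(2 * σ))) <
      (kap - Real.exp (s₁ + σ)) ^ 2) : Cov (lem f 1) kap := by
  obtain ⟨hD, hC⟩ := radius_bound f hf n hn hn0 a hreg s₁ (s₁ + σ) h1 (by linarith)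
  have hDD : Real.exp (2 * s₁) - area f (n * s₁) / π ≤ Real.exp (2 * s₁) - kap ^ 2 * x / π := by
    have := div_le_div_of_nonneg_right hx Real.pi_pos.le
    linarith
  have e1 : 2 * (s₁ + σ - s₁) = 2 * σ := by ring
  rw [e1] at hC
  have hart : 0 ≤ artx (Real.exp (-(2 * σ))) :=
    ic_artx_nonneg (Real.exp_pos _).le (by rw [Real.exp_lt_one_iff]; linarith)
  have hlt : √(Real.exp (2 * s₁) - area f (n * s₁) / π) * √(artx (Real.exp (-(2 * σ)))) <
      kap - Real.exp (s₁ + σ) := by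
    rw [← Real.sqrt_mul hD]
    rw [Real.sqrt_lt' (by linarith)]
    exact lt_of_le_of_lt (mul_le_mul_of_nonneg_right hDD hart) hfin
  have hsub : lem f 1 ⊆ lem f (Real.exp (n * (s₁ + σ))) := by
    intro z hz
    have h2 : ‖f.eval z‖ ≤ 1 := hz
    have h3 : (1 : ℝ) ≤ Real.exp (n * (s₁ + σ)) := by
      rw [← Real.exp_zero]
      exact Real.exp_le_exp.2 (by positivity)
    exact h2.trans h3
  exact (hC.subset hsub).mono (by linarith)

theorem last_neg (f : ℂ[X]) (hf : f.Monic) (n : ℕ) (hn : f.natDegree = n) (hn0 : 0 < n)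
    (a : ℝ) (hreg : ∀ u, a < u → Reg f u) (s₁ x : ℝ) (h1 : a / n < s₁)
    (hx : kap ^ 2 * x ≤ area f (n * s₁)) (hfin : Real.exp (2 * s₁) < kap ^ 2 * x / π) :
    False := by
  obtain ⟨hD, -⟩ := radius_bound f hf n hn hn0 a hreg s₁ (s₁ + 1) h1 (by linarith)
  have := div_le_div_of_nonneg_right hx Real.pi_pos.le
  linarith

theorem ic_B_mono {x y : ℝ} (h0 : 0 ≤ x) (h : x ≤ y) : B x ≤ B y := by
  unfold B
  have := pow_le_pow_left₀ h0 h 3
  linarith

theorem case_low (f : ℂ[X]) (hf : f.Monic) (n : ℕ) (hn : f.natDegree = n) (hn0 : 0 < n)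
    (hreg : ∀ u, (n : ℝ) / 5 < u → Reg f u) (h : ℝ) (hh : kap < h) : Cov (lem f 1) h := by
  by_contra hnc
  have hnc' : ∀ ρ, Cov (lem f 1) ρ → h ≤ ρ := by
    intro ρ hρ
    by_contra hlt
    rw [not_le] at hlt
    exact hnc (hρ.mono hlt.le)
  have hk := ic_kap_pos
  have hn' : (0 : ℝ) < n := by exact_mod_cast hn0
  have h1 := whole_area hf hn hn0 h (by linarith) hnc' (2001 / 10000) (by norm_num)
  have h2 : kap ^ 2 * B (1 / 5) ≤ h ^ 2 * B (2001 / 10000) := by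
    have h3 : B (1 / 5) ≤ B (2001 / 10000) := ic_B_mono (by norm_num) (by norm_num)
    have h4 : 0 ≤ B (1 / 5) := by
      unfold B
      norm_num
    have h5 : kap ^ 2 ≤ h ^ 2 := pow_le_pow_left₀ hk.le hh.le 2
    exact mul_le_mul h5 h3 h4 (by positivity)
  obtain ⟨σ, hσ, he, hfin⟩ := numB0
  have h6 : (n : ℝ) / 5 / n < 2001 / 10000 := by
    have : (n : ℝ) / 5 / n = 1 / 5 := by field_simp
    rw [this]
    norm_num
  exact hnc ((last_step f hf n hn hn0 (n / 5) hreg (2001 / 10000) σ (B (1 / 5)) (by norm_num) h6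
    hσ (h2.trans h1) he hfin).mono hh.le)

theorem ic_Hc {N : ℕ} (hG : ∀ N' < N, Good N') {f : ℂ[X]} (hf : f.Monic) {n : ℕ}
    (hn : f.natDegree = n) (hn0 : 0 < n) (hN : ConnCov N (lem f 1)) {t : ℝ} (ht : 0 < t)
    {O O' : Set ℂ} (hS : Sep f (Real.exp (n * t)) O O') (hk : 0 < nz f O) (hk' : 0 < nz f O') :
    Hc (lem f 1 ∩ O) ≤ kap * Real.exp (t - t / ((nz f O : ℝ) / n)) := by
  have hn' : (0 : ℝ) < n := by exact_mod_cast hn0
  have hk1 : (0 : ℝ) < (nz f O : ℝ) := by exact_mod_cast hk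
  have hr : 1 < Real.exp (n * t) := by
    rw [← Real.exp_zero]
    exact Real.exp_lt_exp.2 (by positivity)
  have h1 := part_Hc hG hf hn hn0 hN hr hS hk hk'
  rw [← Real.exp_mul] at h1
  have e1 : (n : ℝ) * t * (1 / n - 1 / nz f O) = t - t / ((nz f O : ℝ) / n) := by
    field_simp
  rwa [e1] at h1

theorem ic_final (f : ℂ[X]) (hf : f.Monic) (n : ℕ) (hn : f.natDegree = n) (hn0 : 0 < n)
    (t : ℝ) (ht : 0 < t) (ht1 : t ≤ 1)
    {O O' : Set ℂ} (hS : Sep f (Real.exp (n * t)) O O')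
    (hk : 0 < nz f O) (hk' : 0 < nz f O') (hle : (nz f O : ℝ) / n ≤ 1 / 2)
    (hsum : (nz f O' : ℝ) / n = 1 - (nz f O : ℝ) / n) (h : ℝ) (hh : kap < h)
    (hH : h ≤ Hc (lem f 1 ∩ O) + Hc (lem f 1 ∩ O')) (v : ℝ) (hv : 0 < v)
    (hm : t / v ≤ (nz f O : ℝ) / n) :
    kap ^ 2 * alow v t ≤ area f (n * (t + 3 / 10000)) := by
  have hn' : (0 : ℝ) < n := by exact_mod_cast hn0
  have hk1 : (0 : ℝ) < (nz f O : ℝ) := by exact_mod_cast hk
  have hk2 : (0 : ℝ) < (nz f O' : ℝ) := by exact_mod_cast hk'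
  have hnd : f.natDegree ≠ 0 := by omega
  have hu0 : 0 ≤ (n : ℝ) * t := by positivity
  have hul : (n : ℝ) * t ≤ Real.log (Real.exp (n * t)) := by rw [Real.log_exp]
  have a1 := part_area hf hn hn0 (Real.exp_pos _) hS hk (Hc (lem f 1 ∩ O)) (Hc_nonneg _)
    (fun ρ hρ => Hc_le hρ) (n * t) hu0 hul
  have a2 := part_area hf hn hn0 (Real.exp_pos _) hS.symm hk' (Hc (lem f 1 ∩ O')) (Hc_nonneg _)
    (fun ρ hρ => Hc_le hρ) (n * t) hu0 hul
  have e1 : (n : ℝ) * t / nz f O = t / ((nz f O : ℝ) / n) := by field_simp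
  have e2 : (n : ℝ) * t / nz f O' = t / (1 - (nz f O : ℝ) / n) := by
    rw [← hsum]
    field_simp
  rw [e1] at a1
  rw [e2] at a2
  have a3 := numA hv ht ht1 hm hle (Hc_nonneg (lem f 1 ∩ O)) (Hc_nonneg (lem f 1 ∩ O'))
  have a4 := areaP_add_le hf hnd hS (n * t)
  have a5 : area f (n * t) ≤ area f (n * (t + 3 / 10000)) := by
    refine area_mono f hf hnd ?_
    have : (0 : ℝ) < n * (3 / 10000) := by positivity
    nlinarith
  have a6 : kap ^ 2 * alow v t ≤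
      (Hc (lem f 1 ∩ O) + Hc (lem f 1 ∩ O')) ^ 2 * alow v t := by
    refine mul_le_mul_of_nonneg_right ?_ (alow_pos hv ht ht1).le
    exact pow_le_pow_left₀ ic_kap_pos.le (by linarith) 2
  linarith

theorem ic_high (N : ℕ) (hG : ∀ N' < N, Good N') (f : ℂ[X]) (hf : f.Monic) (n : ℕ)
    (hn : f.natDegree = n) (hn0 : 0 < n) (hN : ConnCov N (lem f 1)) (uc : ℝ)
    (hreg : ∀ u, uc < u → Reg f u) (t : ℝ) (ht5 : 1 / 5 ≤ t) (ht1 : t ≤ 1)
    (hut : uc / n ≤ t + 1 / 10000 ∨ t = 1) {O O' : Set ℂ}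
    (hS : Sep f (Real.exp (n * t)) O O') (hk : 0 < nz f O) (hk' : 0 < nz f O')
    (hle : nz f O ≤ nz f O') (h : ℝ) (hh : kap < h) :
    Cov (lem f 1) h := by
  by_contra hnc
  have hn' : (0 : ℝ) < n := by exact_mod_cast hn0
  have hk1 : (0 : ℝ) < (nz f O : ℝ) := by exact_mod_cast hk
  have hk2 : (0 : ℝ) < (nz f O' : ℝ) := by exact_mod_cast hk'
  have hnd : f.natDegree ≠ 0 := by omega
  have ht : 0 < t := by linarith
  have hadd := nz_add (Real.exp_pos (n * t)).le hS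
  rw [hn] at hadd
  have hadd' : (nz f O : ℝ) + nz f O' = n := by exact_mod_cast hadd
  have hle' : (nz f O : ℝ) ≤ nz f O' := by exact_mod_cast hle
  have hm0 : 0 < (nz f O : ℝ) / n := by positivity
  have hm2 : (nz f O : ℝ) / n ≤ 1 / 2 := by
    rw [div_le_iff₀ hn']
    linarith
  have hsum : (nz f O' : ℝ) / n = 1 - (nz f O : ℝ) / n := by
    field_simp
    linarith
  have hb : Bornology.IsBounded (lem f 1) := (lem_compact hf hnd 1).isBounded
  have hsub : lem f 1 ⊆ (lem f 1 ∩ O) ∪ (lem f 1 ∩ O') := by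
    intro z hz
    have h2 : ‖f.eval z‖ ≤ 1 := hz
    have h3 : (1 : ℝ) ≤ Real.exp (n * t) := by
      rw [← Real.exp_zero]
      exact Real.exp_le_exp.2 (by positivity)
    rcases hS.cover (show z ∈ lem f (Real.exp (n * t)) from h2.trans h3) with h4 | h4
    · exact Or.inl ⟨hz, h4⟩
    · exact Or.inr ⟨hz, h4⟩
  have hH := Hc_add hsub (hb.subset inter_subset_left) (hb.subset inter_subset_left) hnc
  have b1 := ic_Hc hG hf hn hn0 hN ht hS hk hk'
  have b2 := ic_Hc hG hf hn hn0 hN ht hS.symm hk' hk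
  rw [hsum] at b2
  have hkp := ic_kap_pos
  -- the sum of the two exponentials is at least one
  have hbig : ¬ (Real.exp (t - t / ((nz f O : ℝ) / n)) +
      Real.exp (t - t / (1 - (nz f O : ℝ) / n)) < 1) := by
    intro hlt
    have : kap * (Real.exp (t - t / ((nz f O : ℝ) / n)) +
      Real.exp (t - t / (1 - (nz f O : ℝ) / n))) < kap * 1 := mul_lt_mul_of_pos_left hlt hkp
    linarith
  rcases hut with hut | hut
  swap
  · rw [hut] at hbig
    exact hbig (numC1 hm0 hm2)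
  have hs1 : uc / n < t + 3 / 10000 := by linarith
  have fin1 : ∀ v : ℝ, 0 < v → ¬ ((nz f O : ℝ) / n < t / v) →
      kap ^ 2 * alow v t ≤ area f (n * (t + 3 / 10000)) := fun v hv hm =>
    ic_final f hf n hn hn0 t ht ht1 hS hk hk' hm2 hsum h hh hH v hv (not_lt.1 hm)
  have fin2 : ∀ v : ℝ, 0 < v → ((v = 5 ∧ 1 / 5 ≤ t ∧ t ≤ 31 / 100) ∨
      (v = 4 ∧ 31 / 100 ≤ t ∧ t ≤ 38 / 100) ∨ (v = 7 / 2 ∧ 38 / 100 ≤ t ∧ t ≤ 1)) →
      kap ^ 2 * alow v t ≤ area f (n * (t + 3 / 10000)) := fun v hv hc =>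
    fin1 v hv fun hm => hbig (numC2 hm0 hm2 hm hc)
  have fin3 : ∀ v : ℝ, 0 < v → ((v = 5 ∧ 1 / 5 ≤ t ∧ t ≤ 31 / 100) ∨
      (v = 4 ∧ 31 / 100 ≤ t ∧ t ≤ 38 / 100) ∨ (v = 7 / 2 ∧ 38 / 100 ≤ t ∧ t ≤ 6 / 10)) →
      kap ^ 2 * alow v t ≤ area f (n * (t + 3 / 10000)) → False := by
    intro v hv hc hx
    obtain ⟨σ, hσ, he, hfin⟩ := numB1 hc
    exact hnc ((last_step f hf n hn hn0 uc hreg (t + 3 / 10000) σ (alow v t) (by linarith) hs1
      hσ hx he hfin).mono hh.le)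
  rcases le_total t (31 / 100) with c1 | c1
  · exact fin3 5 (by norm_num) (Or.inl ⟨rfl, ht5, c1⟩)
      (fin2 5 (by norm_num) (Or.inl ⟨rfl, ht5, c1⟩))
  rcases le_total t (38 / 100) with c2 | c2
  · exact fin3 4 (by norm_num) (Or.inr (Or.inl ⟨rfl, c1, c2⟩))
      (fin2 4 (by norm_num) (Or.inr (Or.inl ⟨rfl, c1, c2⟩)))
  have hx := fin2 (7 / 2) (by norm_num) (Or.inr (Or.inr ⟨rfl, c2, ht1⟩))
  rcases le_total t (6 / 10) with c3 | c3
  · exact fin3 (7 / 2) (by norm_num) (Or.inr (Or.inr ⟨rfl, c2, c3⟩)) hx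
  · exact last_neg f hf n hn hn0 uc hreg (t + 3 / 10000) (alow (7 / 2) t) hs1 hx (numB2 c3 ht1)

theorem case_high (N : ℕ) (hG : ∀ N' < N, Good N') (f : ℂ[X]) (hf : f.Monic) (n : ℕ)
    (hn : f.natDegree = n) (hn0 : 0 < n) (hN : ConnCov N (lem f 1)) (uc : ℝ) (zc : ℂ)
    (hcrit : f.derivative.eval zc = 0) (hval : ‖f.eval zc‖ = Real.exp uc)
    (hreg : ∀ u, uc < u → Reg f u) (huc : (n : ℝ) / 5 < uc) (h : ℝ) (hh : kap < h) :
    Cov (lem f 1) h := by
  have hn' : (0 : ℝ) < n := by exact_mod_cast hn0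
  have ht0 : 1 / 5 < uc / n := by
    rw [lt_div_iff₀ hn']
    linarith
  obtain ⟨t, ht5, htlt, ht1, hut⟩ : ∃ t : ℝ, 1 / 5 ≤ t ∧ t < uc / n ∧ t ≤ 1 ∧
      (uc / n ≤ t + 1 / 10000 ∨ t = 1) := by
    rcases lt_or_ge 1 (uc / n) with h1 | h1
    · exact ⟨1, by norm_num, h1, le_rfl, Or.inr rfl⟩
    · refine ⟨max (1 / 5) (uc / n - 1 / 10000), le_max_left _ _, max_lt ht0 (by linarith),
        max_le (by norm_num) (by linarith), Or.inl ?_⟩
      have := le_max_right (1 / 5 : ℝ) (uc / n - 1 / 10000)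
      linarith
  have hr : Real.exp (n * t) < Real.exp uc := by
    refine Real.exp_lt_exp.2 ?_
    rw [lt_div_iff₀ hn'] at htlt
    linarith
  obtain ⟨O, O', hS, hk, hk'⟩ := splitting f hf n hn hn0 uc zc hcrit hval hreg _ hr
  rcases le_total (nz f O) (nz f O') with hle | hle
  · exact ic_high N hG f hf n hn hn0 hN uc hreg t ht5 ht1 hut hS hk hk' hle h hh
  · exact ic_high N hG f hf n hn hn0 hN uc hreg t ht5 ht1 hut hS.symm hk' hk hle h hh

end Pool.Agent.H88.LE
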