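import Pool.Agent.H88.LE.IC
import Pool.Prelude.Def_F_472fcd70

/-!
# LE-ID: every lemniscate has a disc cover of total radius 9/4

PROOF of `good_all`: strong induction on `N`. Let `f` be monic of degree `n > 0` with `ConnCov N (lem f 1)`, `kap < h`. The critical points are the
roots of `f.derivative ≠ 0` (characteristic 0, degree `> 0`): a finite set. If some critical point has `‖f zc‖ > e^{n/5}`, let `zc` be one with
maximal `‖f zc‖`, `uc = log ‖f zc‖ > n/5`; for `u > uc` all critical points have `‖f z‖ ≤ e^{uc} < e^u`: `Reg f u`. `case_high`. Otherwise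
all critical points have `‖f z‖ ≤ e^{n/5}`, `case_low`.

PROOF of `cov_all`: `connCov_lem` (`r = 1`) and `good_all`.

PROOF of `cover94`. `Cov (lem f 1) ρ` with `ρ = 9/4 - 1/2000 > kap`; `m, M, R`. Let `ε = 1/(2000 (m+1))`, index type `Fin m`, radii `R c + ε`. (See `cover` in
LD/FN.lean.)
-/

set_option autoImplicit false

open Polynomial Complex MeasureTheory Set
open scoped Real ComplexConjugate
open Pool.Agent.H88.LD

noncomputable section

namespace Pool.Agent.H88.LE

theorem good_all : ∀ N, Good N := by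
  intro N
  induction N using Nat.strong_induction_on with
  | _ N ih =>
    intro f hf hn0 hN h hh
    have hpos : 0 < f.natDegree := Nat.pos_of_ne_zero hn0
    have hd0 : f.derivative ≠ 0 := fun h0 => hn0 (derivative_eq_zero.1 h0)
    by_cases hc : ∃ z, f.derivative.eval z = 0 ∧ Real.exp ((f.natDegree : ℝ) / 5) < ‖f.eval z‖
    · obtain ⟨z0, hz0, hz0'⟩ := hc
      have hmem : z0 ∈ f.derivative.roots.toFinset := by
        rw [Multiset.mem_toFinset, mem_roots hd0]
        exact hz0
      obtain ⟨zc, hzc, hmax⟩ := Finset.exists_max_image f.derivative.roots.toFinset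
        (fun z => ‖f.eval z‖) ⟨z0, hmem⟩
      have hcrit : f.derivative.eval zc = 0 := by
        rw [Multiset.mem_toFinset, mem_roots hd0] at hzc
        exact hzc
      have hbig : Real.exp ((f.natDegree : ℝ) / 5) < ‖f.eval zc‖ :=
        lt_of_lt_of_le hz0' (hmax z0 hmem)
      have hzpos : 0 < ‖f.eval zc‖ := lt_trans (Real.exp_pos _) hbig
      have hval : ‖f.eval zc‖ = Real.exp (Real.log ‖f.eval zc‖) := (Real.exp_log hzpos).symm
      have huc : (f.natDegree : ℝ) / 5 < Real.log ‖f.eval zc‖ := by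
        rw [Real.lt_log_iff_exp_lt hzpos]
        exact hbig
      refine case_high N ih f hf f.natDegree rfl hpos hN (Real.log ‖f.eval zc‖) zc hcrit hval
        ?_ huc h hh
      intro u hu z hz he
      have hz1 : z ∈ f.derivative.roots.toFinset := by
        rw [Multiset.mem_toFinset, mem_roots hd0]
        exact hz
      have h1 : ‖f.eval z‖ ≤ ‖f.eval zc‖ := hmax z hz1
      rw [he, hval, Real.exp_le_exp] at h1
      exact absurd hu (not_lt.2 h1)
    · push Not at hc
      refine case_low f hf f.natDegree rfl hpos ?_ h hh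
      intro u hu z hz he
      have h1 := hc z hz
      rw [he, Real.exp_le_exp] at h1
      exact absurd hu (not_lt.2 h1)

theorem cov_all (f : ℂ[X]) (hf : f.Monic) (hn0 : f.natDegree ≠ 0) (h : ℝ) (hh : kap < h) :
    Cov (lem f 1) h :=
  good_all _ f hf hn0 (connCov_lem hf hn0 1 zero_le_one) h hh

open N460a421b in
theorem cover94 (f : ℂ[X]) (hf : f.Monic) (hn0 : f.natDegree ≠ 0) :
    ∃ (ι : Type) (_ : Fintype ι),
      Nonempty (BoundedDiscCover {z : ℂ | ‖f.eval z‖ ≤ 1} (9 / 4) ι) := by
  obtain ⟨m, M, R, hR, hcov, hsum⟩ := cov_all f hf hn0 (9 / 4 - 1 / 2000) (by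
    unfold kap
    norm_num)
  obtain ⟨ε, hε⟩ : ∃ ε : ℝ, ε = 1 / (2000 * ((m : ℝ) + 1)) := ⟨_, rfl⟩
  have hε0 : 0 < ε := by
    rw [hε]
    positivity
  refine ⟨Fin m, inferInstance, ⟨⟨M, fun c => R c + ε, ?_, ?_, ?_, ?_⟩⟩⟩
  · intro z hz
    obtain ⟨c, hcz⟩ := hcov z hz
    refine mem_iUnion.2 ⟨c, ?_⟩
    rw [Metric.mem_closedBall, dist_eq_norm]
    change ‖z - M c‖ ≤ R c + ε
    linarith
  · exact (hasSum_fintype _).summable
  · rw [tsum_fintype, Finset.sum_add_distrib, Finset.sum_const, nsmul_eq_mul]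
    have h2 : ((m : ℝ) + 1) * ε = 1 / 2000 := by
      rw [hε]
      field_simp
    have h3 : ((Finset.univ : Finset (Fin m)).card : ℝ) = m := by simp
    rw [h3]
    have h4 : (m : ℝ) * ε ≤ ((m : ℝ) + 1) * ε := by nlinarith
    linarith
  · intro c
    have := hR c
    change 0 < R c + ε
    linarith

end Pool.Agent.H88.LE
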