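import Pool.Agent.H88.LE.CA

/-!
# LE-KA: every component of a lemniscate contains a zero

PROOF of `zero_in_component`. `K = lem p ρ` is compact. Suppose the component `A` of `z₀` in `K` contains no zero of `p`. In the compact
Hausdorff space `K` the component of `z₀` is the intersection of the clopen sets containing `z₀`
(`connectedComponent_eq_iInter_isClopen`); each of the finitely many zeros in `K` is excluded by some clopen set, so there
is a clopen subset `U` of `K` containing `z₀` and no zero of `p`. `U` and `K \ U` are compact in `ℂ`, so there is a bounded open set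
`D ⊇ U` with `closure D` disjoint from `K \ U` (e.g. a thickening). Points of `frontier D` are not in `K`, so `‖p‖ > ρ` there; `p` has no zeros
in `closure D` (zeros lie in `K`, `ρ ≥ 0`). The function `1/p` is holomorphic near `closure D`; on the compact frontier
`‖1/p‖ ≤ 1/m` with `m = min ‖p‖ > ρ`; the maximum principle gives `‖p z₀‖ ≥ m > ρ`, contradiction.

PROOF of `connCov_lem`: the components of the zeros: `C i = connectedComponentIn (lem f r) (a i)`, where `a i`, `i < n`, runs
through `f.roots` (a list of length `n`).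
-/

set_option autoImplicit false

open Polynomial Complex MeasureTheory Set
open scoped Real ComplexConjugate
open Pool.Agent.H88.LD

noncomputable section

namespace Pool.Agent.H88.LE

/-- a clopen subset of `K` which contains `z` and avoids finitely many points outside the component -/
theorem ka_clopen {K : Set ℂ} (hK : IsCompact K) (z : K) (F : Finset ℂ)
    (hF : ∀ a ∈ F, a ∉ connectedComponentIn K z) :
    ∃ U : Set K, IsClopen U ∧ z ∈ U ∧ ∀ a ∈ F, ∀ h : a ∈ K, (⟨a, h⟩ : K) ∉ U := by
  classical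
  have : CompactSpace K := isCompact_iff_compactSpace.1 hK
  induction F using Finset.induction_on with
  | empty => exact ⟨univ, isClopen_univ, mem_univ _, by simp⟩
  | insert b F hb ih =>
    obtain ⟨U, hU, hzU, hUF⟩ := ih fun a ha => hF a (Finset.mem_insert_of_mem ha)
    by_cases hbK : b ∈ K
    · have h1 : (⟨b, hbK⟩ : K) ∉ connectedComponent z := by
        intro h
        apply hF b (Finset.mem_insert_self _ _)
        rw [connectedComponentIn_eq_image z.2]
        exact ⟨⟨b, hbK⟩, h, rfl⟩
      rw [connectedComponent_eq_iInter_isClopen] at h1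
      simp only [mem_iInter, not_forall] at h1
      obtain ⟨s, hs⟩ := h1
      refine ⟨U ∩ s.1, hU.inter s.2.1, ⟨hzU, s.2.2⟩, ?_⟩
      intro a ha haK hmem
      rcases Finset.mem_insert.1 ha with h | h
      · subst h
        exact hs hmem.2
      · exact hUF a h haK hmem.1
    · refine ⟨U, hU, hzU, ?_⟩
      intro a ha haK hmem
      rcases Finset.mem_insert.1 ha with h | h
      · subst h
        exact hbK haK
      · exact hUF a h haK hmem

theorem zero_in_component {p : ℂ[X]} (hp : p.Monic) (hn0 : p.natDegree ≠ 0) (ρ : ℝ) (z : ℂ)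
    (hz : z ∈ lem p ρ) : ∃ a, p.eval a = 0 ∧ a ∈ connectedComponentIn (lem p ρ) z := by
  by_contra hno
  push Not at hno
  have hp0 : p ≠ 0 := hp.ne_zero
  have hK : IsCompact (lem p ρ) := lem_compact hp hn0 ρ
  have : CompactSpace (lem p ρ) := isCompact_iff_compactSpace.1 hK
  obtain ⟨U, hU, hzU, hUF⟩ := ka_clopen hK ⟨z, hz⟩ p.roots.toFinset (by
    intro a ha
    have h1 : p.eval a = 0 := by
      have h2 := Multiset.mem_toFinset.1 ha
      exact (mem_roots hp0).1 h2
    exact hno a h1)
  have hc : Continuous (fun z : ℂ => ‖p.eval z‖) := by fun_prop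
  have hρ : 0 ≤ ρ := le_trans (norm_nonneg _) (show ‖p.eval z‖ ≤ ρ from hz)
  set V₁ : Set ℂ := Subtype.val '' U with hV₁
  set V₂ : Set ℂ := Subtype.val '' Uᶜ with hV₂
  have hV₁c : IsCompact V₁ := hU.1.isCompact.image continuous_subtype_val
  have hV₂c : IsCompact V₂ := hU.compl.1.isCompact.image continuous_subtype_val
  have hsub : V₁ ⊆ V₂ᶜ := by
    rintro w ⟨u, hu, rfl⟩ ⟨v, hv, hvu⟩
    have h1 : v = u := Subtype.ext hvu
    exact hv (h1 ▸ hu)
  obtain ⟨δ, hδ, hδ2⟩ := hV₁c.exists_cthickening_subset_open hV₂c.isClosed.isOpen_compl hsub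
  set D : Set ℂ := Metric.thickening δ V₁ with hD
  have hDo : IsOpen D := Metric.isOpen_thickening
  have hDb : Bornology.IsBounded D := hV₁c.isBounded.thickening
  have hDcl : closure D ⊆ V₂ᶜ := (Metric.closure_thickening_subset_cthickening δ V₁).trans hδ2
  have hVD : V₁ ⊆ D := Metric.self_subset_thickening hδ V₁
  have hzD : z ∈ D := hVD ⟨⟨z, hz⟩, hzU, rfl⟩
  have hin : ∀ w ∈ lem p ρ, w ∈ closure D → w ∈ V₁ := by
    intro w hw hwD
    by_contra hn
    have h1 : (⟨w, hw⟩ : lem p ρ) ∉ U := fun h => hn ⟨_, h, rfl⟩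
    exact hDcl hwD ⟨⟨w, hw⟩, h1, rfl⟩
  have hnz : ∀ w ∈ closure D, p.eval w ≠ 0 := by
    intro w hw h0
    have hwK : w ∈ lem p ρ := by
      change ‖p.eval w‖ ≤ ρ
      rw [h0, norm_zero]
      exact hρ
    obtain ⟨u, hu, huw⟩ := hin w hwK hw
    have h1 : w ∈ p.roots.toFinset := Multiset.mem_toFinset.2 ((mem_roots hp0).2 h0)
    refine hUF w h1 hwK ?_
    have h2 : (⟨w, hwK⟩ : lem p ρ) = u := Subtype.ext huw.symm
    rw [h2]
    exact hu
  have hd : DiffContOnCl ℂ (fun w => (p.eval w)⁻¹) D := by
    have hdo : DifferentiableOn ℂ (fun w => (p.eval w)⁻¹) (closure D) := by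
      intro w hw
      exact ((p.differentiableAt).inv (hnz w hw)).differentiableWithinAt
    exact hdo.diffContOnCl
  obtain ⟨w, hw, hmax⟩ := Complex.exists_mem_frontier_isMaxOn_norm hDb ⟨z, hzD⟩ hd
  have h1 : ‖(p.eval z)⁻¹‖ ≤ ‖(p.eval w)⁻¹‖ := hmax (subset_closure hzD)
  have hwcl : w ∈ closure D := hw.1
  have h2 : 0 < ‖p.eval w‖ := norm_pos_iff.2 (hnz w hwcl)
  have h3 : 0 < ‖p.eval z‖ := norm_pos_iff.2 (hnz z (subset_closure hzD))
  rw [norm_inv, norm_inv, inv_le_inv₀ h3 h2] at h1
  have h4 : w ∈ lem p ρ := le_trans h1 hz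
  have h5 : w ∈ D := hVD (hin w h4 hwcl)
  have h6 : w ∈ interior D := by rwa [hDo.interior_eq]
  exact hw.2 h6

theorem connCov_lem {f : ℂ[X]} (hf : f.Monic) (hn0 : f.natDegree ≠ 0) (r : ℝ) (hr : 0 ≤ r) :
    ConnCov f.natDegree (lem f r) := by
  have hf0 : f ≠ 0 := hf.ne_zero
  have hcard : f.roots.toList.length = f.natDegree := by
    rw [Multiset.length_toList]
    exact IsAlgClosed.card_roots_eq_natDegree
  refine ⟨fun i => connectedComponentIn (lem f r) (f.roots.toList.get (Fin.cast hcard.symm i)),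
    fun i => isPreconnected_connectedComponentIn, ?_⟩
  refine Subset.antisymm ?_ (iUnion_subset fun i => connectedComponentIn_subset _ _)
  intro z hz
  obtain ⟨a, ha, haC⟩ := zero_in_component hf hn0 r z hz
  have h1 : a ∈ f.roots.toList := Multiset.mem_toList.2 ((mem_roots hf0).2 ha)
  obtain ⟨j, hj⟩ := List.get_of_mem h1
  refine mem_iUnion.2 ⟨Fin.cast hcard j, ?_⟩
  have h2 : f.roots.toList.get (Fin.cast hcard.symm (Fin.cast hcard j)) = a := hj
  change z ∈ connectedComponentIn (lem f r)
    (f.roots.toList.get (Fin.cast hcard.symm (Fin.cast hcard j)))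
  rw [h2, ← connectedComponentIn_eq haC]
  exact mem_connectedComponentIn hz

end Pool.Agent.H88.LE
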