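import Pool.Agent.H88.LE.Defs

/-!
# LE-NA: the areas of two parts

`c = 127/50`, `ε = 50/127 = 1/c`, `B τ = c τ + τ³`, `s = ε t²`; `0 < t ≤ 1`, so `s < 2/5`.

PROOF of `alow_pos`. `alow v t = c t/(1 - s (min K₁ K₂ + 1/(1+s)))`, `s K₁ = t (ε/v)/(1/v² + ε) ≤ t √ε/2 < 0.32` (`x/(x²+ε) ≤ 1/(2√ε)`, or: `0.3138 (x² + ε) ≥ ε x`),
`s min K₁ K₂ ≤ s K₁`, `s/(1+s) ≤ 0.4/1.4 < 0.29`: the denominator is positive.

PROOF of `numA`. `m₁ = m`, `m₂ = 1 - m`, `b_i = m_i B(t/m_i) = c t + t³/m_i² = c t (m_i² + s)/m_i² > 0`. Cauchy-Schwarz: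
`∑ h_i² B(t/m_i) = ∑ h_i² b_i/m_i ≥ (h₁+h₂)²/∑ (m_i/b_i)` (`(h₁+h₂)² = (∑ h_i √(b_i/m_i) √(m_i/b_i))²`, or `div_add_div_same`, `inner_mul_le_norm_mul_norm`,
or directly: `(∑ h_i² x_i)(∑ 1/x_i) ≥ (∑ h_i)²` for `x_i > 0`). And `∑ m_i/b_i = (1/(c t)) (1 - s ∑ m_i/(m_i² + s))` since `m_i²/(m_i²+s) = 1 - s/(m_i²+s)` and
`∑ m_i = 1`. `m₁/(m₁²+s) ≥ min K₁ K₂ =: K` for `t/v ≤ m₁ ≤ 1/2`: `K m² - m + K s ≤ 0` is a convex quadratic inequality in `m`, true for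
`m = t/v` (as `K ≤ K₁ = (t/v)/((t/v)²+s)`) and for `m = 1/2` (as `K ≤ K₂ = (1/2)/(1/4+s)`), so true between. `m₂/(m₂²+s) ≥ 1/(1+s)` for
`1/2 ≤ m₂ ≤ 1`: `m₂² - (1+s) m₂ + s = (m₂ - 1)(m₂ - s) ≤ 0` (`s < 1/2 ≤ m₂`). Hence `∑ m_i/b_i ≤ (1/(c t)) (1 - s (K + 1/(1+s))) = 1/alow v t`.
-/

set_option autoImplicit false

open Polynomial Complex MeasureTheory Set
open scoped Real ComplexConjugate
open Pool.Agent.H88.LD

noncomputable section

namespace Pool.Agent.H88.LE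

theorem na_den_pos {v t : ℝ} (hv : 0 < v) (ht : 0 < t) (ht1 : t ≤ 1) :
    0 < 1 - 50 / 127 * t ^ 2 *
      (min (1 / v / (t * (1 / v ^ 2 + 50 / 127))) (1 / 2 / (1 / 4 + 50 / 127 * t ^ 2)) +
        1 / (1 + 50 / 127 * t ^ 2)) := by
  have ht2 : t ^ 2 ≤ t := by nlinarith
  have hs0 : 0 < 50 / 127 * t ^ 2 := by positivity
  have hs1 : 50 / 127 * t ^ 2 ≤ 50 / 127 := by nlinarith
  have h1 : 50 / 127 * t ^ 2 * (1 / v / (t * (1 / v ^ 2 + 50 / 127))) ≤ 8 / 25 := by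
    have h2 : (1 : ℝ) / v ^ 2 = (1 / v) ^ 2 := by rw [one_div_pow]
    rw [h2]
    have hx : 0 < 1 / v := by positivity
    set x := 1 / v with hxd
    have hpos : 0 < t * (x ^ 2 + 50 / 127) := by positivity
    rw [mul_div_assoc', div_le_iff₀ hpos]
    have h3 : 50 / 127 * x ≤ 8 / 25 * (x ^ 2 + 50 / 127) := by
      nlinarith [sq_nonneg (x - 50 / 127 * 25 / 16)]
    have h4 : t ^ 2 * x ≤ t * x := mul_le_mul_of_nonneg_right ht2 hx.le
    have h5 := mul_le_mul_of_nonneg_left h3 ht.le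
    nlinarith
  have h2 : 50 / 127 * t ^ 2 * (1 / (1 + 50 / 127 * t ^ 2)) ≤ 29 / 100 := by
    rw [mul_one_div, div_le_iff₀ (by positivity)]
    nlinarith
  have h3 : 50 / 127 * t ^ 2 * min (1 / v / (t * (1 / v ^ 2 + 50 / 127)))
      (1 / 2 / (1 / 4 + 50 / 127 * t ^ 2)) ≤ 8 / 25 :=
    (mul_le_mul_of_nonneg_left (min_le_left _ _) hs0.le).trans h1
  rw [mul_add]
  linarith

theorem alow_pos {v t : ℝ} (hv : 0 < v) (ht : 0 < t) (ht1 : t ≤ 1) : 0 < alow v t := by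
  unfold alow
  exact div_pos (by positivity) (na_den_pos hv ht ht1)

theorem na_K {v t m K : ℝ} (hv : 0 < v) (ht : 0 < t) (hm : t / v ≤ m) (hm2 : m ≤ 1 / 2)
    (hK0 : 0 ≤ K) (hK1 : K ≤ 1 / v / (t * (1 / v ^ 2 + 50 / 127)))
    (hK2 : K ≤ 1 / 2 / (1 / 4 + 50 / 127 * t ^ 2)) :
    K ≤ m / (m ^ 2 + 50 / 127 * t ^ 2) := by
  have hp0 : 0 < t / v := by positivity
  have hm0 : 0 < m := lt_of_lt_of_le hp0 hm
  have hpos1 : 0 < t * (1 / v ^ 2 + 50 / 127) := by positivity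
  have hpos2 : 0 < 1 / 4 + 50 / 127 * t ^ 2 := by positivity
  have hpos3 : 0 < m ^ 2 + 50 / 127 * t ^ 2 := by positivity
  rw [le_div_iff₀ hpos1] at hK1
  rw [le_div_iff₀ hpos2] at hK2
  rw [le_div_iff₀ hpos3]
  have h1 : K * ((t / v) ^ 2 + 50 / 127 * t ^ 2) ≤ t / v := by
    have h2 := mul_le_mul_of_nonneg_left hK1 ht.le
    have h3 : t * (K * (t * (1 / v ^ 2 + 50 / 127))) = K * ((t / v) ^ 2 + 50 / 127 * t ^ 2) := by
      field_simp
    have h4 : t * (1 / v) = t / v := by rw [mul_one_div]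
    rw [h3, h4] at h2
    exact h2
  set p := t / v with hp
  set s := 50 / 127 * t ^ 2 with hs
  rcases eq_or_lt_of_le (hm.trans hm2) with h | h
  · have h5 : m = 1 / 2 := le_antisymm hm2 (by rw [← h]; exact hm)
    rw [h5]
    calc K * ((1 / 2) ^ 2 + s) = K * (1 / 4 + s) := by ring
      _ ≤ 1 / 2 := hK2
  · have hc : m ^ 2 ≤ (p + 1 / 2) * m - p / 2 := by nlinarith
    have h6 : K * (m ^ 2 + s) ≤ K * ((p + 1 / 2) * m - p / 2 + s) :=
      mul_le_mul_of_nonneg_left (by linarith) hK0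
    have h7 : (K * ((p + 1 / 2) * m - p / 2 + s) - m) * (1 / 2 - p) =
        (K * (p ^ 2 + s) - p) * (1 / 2 - m) + (K * (1 / 4 + s) - 1 / 2) * (m - p) := by
      ring
    have h8 : (K * ((p + 1 / 2) * m - p / 2 + s) - m) * (1 / 2 - p) ≤ 0 := by
      rw [h7]
      have h9 : (K * (p ^ 2 + s) - p) * (1 / 2 - m) ≤ 0 :=
        mul_nonpos_of_nonpos_of_nonneg (by linarith) (by linarith)
      have h10 : (K * (1 / 4 + s) - 1 / 2) * (m - p) ≤ 0 :=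
        mul_nonpos_of_nonpos_of_nonneg (by linarith) (by linarith)
      linarith
    have h11 : K * ((p + 1 / 2) * m - p / 2 + s) - m ≤ 0 := by
      by_contra hcon
      push Not at hcon
      have h12 := mul_pos hcon (sub_pos.2 h)
      linarith
    linarith

theorem na_inv {t m : ℝ} (ht : 0 < t) (hm : 0 < m) :
    1 / B (t / m) = (m - 50 / 127 * t ^ 2 * (m / (m ^ 2 + 50 / 127 * t ^ 2))) / (127 / 50 * t) := by
  unfold B
  have h1 : 0 < m ^ 2 + 50 / 127 * t ^ 2 := by positivity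
  have h2 : 0 < 127 / 50 * (t / m) + (t / m) ^ 3 := by positivity
  rw [div_eq_div_iff h2.ne' (by positivity)]
  field_simp
  ring

theorem na_cs {x y h k : ℝ} (hx : 0 < x) (hy : 0 < y) :
    (h + k) ^ 2 ≤ (h ^ 2 * x + k ^ 2 * y) * (1 / x + 1 / y) := by
  have h1 : (h ^ 2 * x + k ^ 2 * y) * (1 / x + 1 / y) - (h + k) ^ 2 =
      (h * x - k * y) ^ 2 / (x * y) := by
    field_simp
    ring
  have h2 : 0 ≤ (h * x - k * y) ^ 2 / (x * y) := by positivity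
  linarith

theorem numA {v t m h₁ h₂ : ℝ} (hv : 0 < v) (ht : 0 < t) (ht1 : t ≤ 1) (hm : t / v ≤ m)
    (hm2 : m ≤ 1 / 2) (hh₁ : 0 ≤ h₁) (hh₂ : 0 ≤ h₂) :
    (h₁ + h₂) ^ 2 * alow v t ≤ h₁ ^ 2 * B (t / m) + h₂ ^ 2 * B (t / (1 - m)) := by
  have _ := hh₁
  have _ := hh₂
  have hm0 : 0 < m := lt_of_lt_of_le (by positivity) hm
  have hn0 : 0 < 1 - m := by linarith
  have hal := alow_pos hv ht ht1
  have hB1 : 0 < B (t / m) := by unfold B; positivity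
  have hB2 : 0 < B (t / (1 - m)) := by unfold B; positivity
  have hs0 : 0 < 50 / 127 * t ^ 2 := by positivity
  have hs1 : 50 / 127 * t ^ 2 ≤ 50 / 127 := by nlinarith
  have hmin0 : 0 ≤ min (1 / v / (t * (1 / v ^ 2 + 50 / 127)))
      (1 / 2 / (1 / 4 + 50 / 127 * t ^ 2)) := le_min (by positivity) (by positivity)
  have hK := na_K hv ht hm hm2 hmin0 (min_le_left _ _) (min_le_right _ _)
  have hK' : 1 / (1 + 50 / 127 * t ^ 2) ≤ (1 - m) / ((1 - m) ^ 2 + 50 / 127 * t ^ 2) := by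
    rw [div_le_div_iff₀ (by positivity) (by positivity)]
    nlinarith [mul_nonneg hm0.le (show (0 : ℝ) ≤ 1 - m - 50 / 127 * t ^ 2 by linarith)]
  have hsum : 1 / B (t / m) + 1 / B (t / (1 - m)) ≤ 1 / alow v t := by
    rw [na_inv ht hm0, na_inv ht hn0]
    unfold alow
    rw [one_div_div, ← add_div]
    apply div_le_div_of_nonneg_right _ (by positivity)
    have h1 := mul_le_mul_of_nonneg_left (add_le_add hK hK') hs0.le
    rw [mul_add (50 / 127 * t ^ 2) (m / (m ^ 2 + 50 / 127 * t ^ 2))] at h1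
    linarith
  have hcs := na_cs (h := h₁) (k := h₂) hB1 hB2
  have hnn : 0 ≤ h₁ ^ 2 * B (t / m) + h₂ ^ 2 * B (t / (1 - m)) := by positivity
  calc (h₁ + h₂) ^ 2 * alow v t
      ≤ ((h₁ ^ 2 * B (t / m) + h₂ ^ 2 * B (t / (1 - m))) *
        (1 / B (t / m) + 1 / B (t / (1 - m)))) * alow v t :=
        mul_le_mul_of_nonneg_right hcs hal.le
    _ ≤ ((h₁ ^ 2 * B (t / m) + h₂ ^ 2 * B (t / (1 - m))) * (1 / alow v t)) * alow v t :=
        mul_le_mul_of_nonneg_right (mul_le_mul_of_nonneg_left hsum hnn) hal.le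
    _ = h₁ ^ 2 * B (t / m) + h₂ ^ 2 * B (t / (1 - m)) := by
        rw [mul_assoc, one_div_mul_cancel hal.ne', mul_one]

end Pool.Agent.H88.LE
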