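import Pool.Agent.H88.LE.Defs
import Pool.Agent.H88.LD.LI
import Pool.Agent.H88.LD.PF

/-!
# LE-PA: splitting the lifts over a regular strip into the two parts

PROOF of `exists_split`. For `ω` in the strip `‖f (Z i ω)‖ = e^(re ω) < e^b ≤ r`, so `Z i ω ∈ O ∪ O'`. The strip is
convex, hence preconnected, `Z i` is continuous on it, so `Z i` maps the strip into `O` or into `O'`
(`IsPreconnected.subset_or_subset`/`IsPreconnected.image`). Let `I` be the set of the `i` of the first kind, `k = #I`,
`k' = n - k`. `σ` preserves `I` (by `L.shift`; the strip is invariant under `ω ↦ ω + 2πi`). Enumerate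
`e : Fin k ≃ I` and put `P.Z j = Z (e j)`, `P.σ` = the permutation induced by `σ`; the same for the complement.
`surj`: the `n` numbers `Z i ω` are distinct roots of the polynomial `f - C (exp ω)` of degree `n`, so they are all its
roots (`Polynomial.card_roots'`, `Finset.eq_of_subset_of_card_le`); a root in `O` is a `Z i ω` with `i ∈ I`
(otherwise it would be in `O'`, and `O, O'` are disjoint). The sum identity is a sum over `I` and its complement.
-/

set_option autoImplicit false

open Polynomial Complex MeasureTheory Set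
open scoped Real ComplexConjugate
open Pool.Agent.H88.LD

noncomputable section

namespace Pool.Agent.H88.LE

/-- the strip is preconnected -/
theorem strip_preconnected (a b : ℝ) : IsPreconnected (strip a b) :=
  (li_convex a b).isPreconnected

/-- every root of `f - w` is one of the `n` given ones -/
theorem pa_all_roots {f : ℂ[X]} (hf : f.Monic) {n : ℕ} (hn : f.natDegree = n) (hn0 : 0 < n)
    (w : ℂ) (z : Fin n → ℂ) (hz : Function.Injective z) (hw : ∀ i, f.eval (z i) = w)
    (x : ℂ) (hx : f.eval x = w) : ∃ i, z i = x := by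
  have hdeg : f.degree = (n : WithBot ℕ) := by rw [degree_eq_natDegree hf.ne_zero, hn]
  have hlt : (C w : ℂ[X]).degree < f.degree := by
    rw [hdeg]
    exact lt_of_le_of_lt degree_C_le (by exact_mod_cast hn0)
  have hg : (f - C w).Monic := hf.sub_of_left hlt
  have hgd : (f - C w).natDegree = n := by rw [natDegree_sub_C, hn]
  by_contra hcon
  push Not at hcon
  have hsub : insert x (Finset.univ.image z) ⊆ (f - C w).roots.toFinset := by
    intro y hy
    rw [Multiset.mem_toFinset, mem_roots hg.ne_zero, IsRoot.def, eval_sub, eval_C, sub_eq_zero]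
    rw [Finset.mem_insert, Finset.mem_image] at hy
    rcases hy with rfl | ⟨i, _, rfl⟩
    · exact hx
    · exact hw i
  have h1 : (insert x (Finset.univ.image z)).card ≤ n := by
    calc _ ≤ (f - C w).roots.toFinset.card := Finset.card_le_card hsub
      _ ≤ Multiset.card (f - C w).roots := Multiset.toFinset_card_le _
      _ ≤ (f - C w).natDegree := card_roots' _
      _ = n := hgd
  rw [Finset.card_insert_of_notMem, Finset.card_image_of_injective _ hz, Finset.card_univ,
    Fintype.card_fin] at h1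
  · omega
  · rw [Finset.mem_image]
    rintro ⟨i, _, hi⟩
    exact hcon i hi

/-- a part of the lifts, given by a set of indices which is invariant under `σ` -/
theorem pa_part {f : ℂ[X]} {n : ℕ} {a b : ℝ} (L : Lifts f n a b) (O : Set ℂ) (J : Finset (Fin n))
    (hmem : ∀ i ∈ J, ∀ ω ∈ strip a b, L.Z i ω ∈ O) (hσ : ∀ i, L.σ i ∈ J ↔ i ∈ J)
    (hsurj : ∀ ω ∈ strip a b, ∀ z ∈ O, f.eval z = Complex.exp ω → ∃ i ∈ J, L.Z i ω = z) :
    ∃ P : PLifts f O J.card a b, ∀ (ω : ℂ) (g : ℂ → ℂ),
      ∑ i, g (P.Z i ω) = ∑ i ∈ J, g (L.Z i ω) := by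
  have e := J.equivFin
  refine ⟨⟨fun j => L.Z (e.symm j), e.permCongr (L.σ.subtypePerm hσ), ?_, ?_, ?_, ?_, ?_, ?_⟩, ?_⟩
  · intro i
    exact L.diff _
  · intro i ω hω
    exact L.eval _ ω hω
  · intro ω hω i j hij
    have h1 := L.inj ω hω hij
    exact e.symm.injective (Subtype.ext h1)
  · intro i ω hω
    have h1 := L.shift (e.symm i) ω hω
    rw [h1]
    simp [Equiv.permCongr_apply]
  · intro i ω hω
    exact hmem _ (e.symm i).2 ω hω
  · intro ω hω z hz hzw
    obtain ⟨i, hi, hiz⟩ := hsurj ω hω z hz hzw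
    refine ⟨e ⟨i, hi⟩, ?_⟩
    simpa using hiz
  · intro ω g
    have h1 := Equiv.sum_comp e.symm (fun x : J => g (L.Z x ω))
    have h2 := Finset.sum_coe_sort J (fun i => g (L.Z i ω))
    exact h1.trans h2

theorem exists_split {f : ℂ[X]} (hf : f.Monic) {n : ℕ} (hn : f.natDegree = n) (hn0 : 0 < n)
    {r : ℝ} {O O' : Set ℂ} (hS : Sep f r O O') {a b : ℝ} (hab : a < b) (hb : Real.exp b ≤ r)
    (L : Lifts f n a b) :
    ∃ (k k' : ℕ) (P : PLifts f O k a b) (P' : PLifts f O' k' a b), k + k' = n ∧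
      ∀ ω ∈ strip a b, ∀ g : ℂ → ℂ,
        ∑ i, g (L.Z i ω) = ∑ i, g (P.Z i ω) + ∑ i, g (P'.Z i ω) := by
  classical
  have hd : ∀ i, (∀ ω ∈ strip a b, L.Z i ω ∈ O) ∨ (∀ ω ∈ strip a b, L.Z i ω ∈ O') := by
    intro i
    have hc : IsPreconnected (L.Z i '' strip a b) :=
      (strip_preconnected a b).image _ (L.diff i).continuousOn
    have hsub : L.Z i '' strip a b ⊆ O ∪ O' := by
      rintro _ ⟨ω, hω, rfl⟩
      apply hS.cover
      show ‖f.eval (L.Z i ω)‖ ≤ r
      rw [L.eval i ω hω, Complex.norm_exp]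
      have h1 : ω.re ∈ Ioo a b := hω
      exact (Real.exp_le_exp.2 h1.2.le).trans hb
    rcases IsPreconnected.subset_or_subset hS.isOpen hS.isOpen' hS.disj hsub hc with h | h
    · left
      intro ω hω
      exact h (mem_image_of_mem _ hω)
    · right
      intro ω hω
      exact h (mem_image_of_mem _ hω)
  have hdisj : ∀ z, z ∈ O → z ∈ O' → False := fun z h1 h2 => disjoint_left.1 hS.disj h1 h2
  have hmid := li_mem_mid hab
  have hshm : ∀ ω ∈ strip a b, ω - 2 * π * Complex.I ∈ strip a b := by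
    intro ω hω
    have h1 : ω.re ∈ Ioo a b := hω
    have h2 : (ω - 2 * π * Complex.I).re = ω.re := by simp
    have h3 : (ω - 2 * π * Complex.I).re ∈ Ioo a b := by rw [h2]; exact h1
    exact h3
  have hroots : ∀ ω ∈ strip a b, ∀ z, f.eval z = Complex.exp ω → ∃ i, L.Z i ω = z := by
    intro ω hω z hz
    exact pa_all_roots hf hn hn0 (Complex.exp ω) (fun i => L.Z i ω) (L.inj ω hω)
      (fun i => L.eval i ω hω) z hz
  have hσ1 : ∀ i (U : Set ℂ), (∀ ω ∈ strip a b, L.Z (L.σ i) ω ∈ U) ↔
      (∀ ω ∈ strip a b, L.Z i ω ∈ U) := by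
    intro i U
    constructor
    · intro h ω hω
      have h1 := L.shift i _ (hshm ω hω)
      rw [sub_add_cancel] at h1
      rw [h1]
      exact h _ (hshm ω hω)
    · intro h ω hω
      rw [← L.shift i ω hω]
      exact h _ (li_shift_mem hω)
  set J : Finset (Fin n) := Finset.univ.filter (fun i => ∀ ω ∈ strip a b, L.Z i ω ∈ O) with hJ
  have hJm : ∀ i, i ∈ J ↔ ∀ ω ∈ strip a b, L.Z i ω ∈ O := by
    intro i
    rw [hJ, Finset.mem_filter]
    simp
  have hJc : ∀ i, i ∈ Jᶜ ↔ ∀ ω ∈ strip a b, L.Z i ω ∈ O' := by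
    intro i
    rw [Finset.mem_compl, hJm]
    constructor
    · intro h
      rcases hd i with h1 | h1
      · exact absurd h1 h
      · exact h1
    · intro h h1
      exact hdisj _ (h1 _ hmid) (h _ hmid)
  obtain ⟨P, hP⟩ := pa_part L O J (fun i hi => (hJm i).1 hi)
    (fun i => by rw [hJm, hJm]; exact hσ1 i O) (by
      intro ω hω z hz hzw
      obtain ⟨i, hi⟩ := hroots ω hω z hzw
      refine ⟨i, ?_, hi⟩
      by_contra hcon
      have h1 := (hJc i).1 (Finset.mem_compl.2 hcon) ω hω
      rw [hi] at h1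
      exact hdisj z hz h1)
  obtain ⟨P', hP'⟩ := pa_part L O' Jᶜ (fun i hi => (hJc i).1 hi)
    (fun i => by rw [hJc, hJc]; exact hσ1 i O') (by
      intro ω hω z hz hzw
      obtain ⟨i, hi⟩ := hroots ω hω z hzw
      refine ⟨i, ?_, hi⟩
      rw [Finset.mem_compl]
      intro hcon
      have h1 := (hJm i).1 hcon ω hω
      rw [hi] at h1
      exact hdisj z h1 hz)
  refine ⟨J.card, Jᶜ.card, P, P', ?_, ?_⟩
  · rw [Finset.card_add_card_compl, Fintype.card_fin]
  · intro ω _ g
    rw [hP ω g, hP' ω g, Finset.sum_add_sum_compl]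

end Pool.Agent.H88.LE
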