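import Pool.Agent.H88.LE.Defs

/-!
# LE-PAb: two systems of lifts with values in `O` have the same values

PROOF of `plifts_sum_eq`: at `ω`, both families enumerate without repetition the set of the `z ∈ O` with
`f z = exp ω` (`inj`, `mem`, `eval`, `surj`).

PROOF of `plifts_card_eq`: `g = 1` in `plifts_sum_eq` (the strip is nonempty: `a < b`).

PROOF of `pderiv`: differentiate `f (Z i ω) = exp ω` on the open strip; `exp ω ≠ 0`.
-/

set_option autoImplicit false

open Polynomial Complex MeasureTheory Set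
open scoped Real ComplexConjugate
open Pool.Agent.H88.LD

noncomputable section

namespace Pool.Agent.H88.LE

theorem pab_image {f : ℂ[X]} {O : Set ℂ} {k l : ℕ} {a b : ℝ} (P : PLifts f O k a b)
    (Q : PLifts f O l a b) (ω : ℂ) (hω : ω ∈ strip a b) :
    Finset.univ.image (fun i => P.Z i ω) ⊆ Finset.univ.image (fun i => Q.Z i ω) := by
  intro z hz
  obtain ⟨i, -, hi⟩ := Finset.mem_image.1 hz
  have h1 : z ∈ O := by rw [← hi]; exact P.mem i ω hω
  have h2 : f.eval z = Complex.exp ω := by rw [← hi]; exact P.eval i ω hω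
  obtain ⟨j, hj⟩ := Q.surj ω hω z h1 h2
  exact Finset.mem_image.2 ⟨j, Finset.mem_univ _, hj⟩

theorem plifts_sum_eq {f : ℂ[X]} {O : Set ℂ} {k l : ℕ} {a b : ℝ} (P : PLifts f O k a b)
    (Q : PLifts f O l a b) (ω : ℂ) (hω : ω ∈ strip a b) (g : ℂ → ℂ) :
    ∑ i, g (P.Z i ω) = ∑ i, g (Q.Z i ω) := by
  have h1 : ∑ z ∈ Finset.univ.image (fun i => P.Z i ω), g z = ∑ i, g (P.Z i ω) :=
    Finset.sum_image fun i _ j _ h => P.inj ω hω h
  have h2 : ∑ z ∈ Finset.univ.image (fun i => Q.Z i ω), g z = ∑ i, g (Q.Z i ω) :=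
    Finset.sum_image fun i _ j _ h => Q.inj ω hω h
  rw [← h1, ← h2, Finset.Subset.antisymm (pab_image P Q ω hω) (pab_image Q P ω hω)]

theorem plifts_card_eq {f : ℂ[X]} {O : Set ℂ} {k l : ℕ} {a b : ℝ} (hab : a < b)
    (P : PLifts f O k a b) (Q : PLifts f O l a b) : k = l := by
  have hu : (a + b) / 2 ∈ Ioo a b := ⟨by linarith, by linarith⟩
  have h := plifts_sum_eq P Q _ (mem_strip hu 0) fun _ => 1
  simp only [Finset.sum_const, Finset.card_univ, Fintype.card_fin, nsmul_eq_mul, mul_one] at h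
  exact_mod_cast h

theorem pderiv {f : ℂ[X]} {O : Set ℂ} {k : ℕ} {a b : ℝ} (P : PLifts f O k a b) (i : Fin k)
    (ω : ℂ) (hω : ω ∈ strip a b) :
    f.derivative.eval (P.Z i ω) ≠ 0 ∧
      deriv (P.Z i) ω = Complex.exp ω / f.derivative.eval (P.Z i ω) := by
  have hn : strip a b ∈ nhds ω := (isOpen_strip a b).mem_nhds hω
  have h1 : HasDerivAt (P.Z i) (deriv (P.Z i) ω) ω :=
    ((P.diff i).differentiableAt hn).hasDerivAt
  have h2 : HasDerivAt (fun ω => f.eval (P.Z i ω))
      (f.derivative.eval (P.Z i ω) * deriv (P.Z i) ω) ω :=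
    (f.hasDerivAt (P.Z i ω)).comp ω h1
  have h3 : (fun ω => f.eval (P.Z i ω)) =ᶠ[nhds ω] Complex.exp := by
    filter_upwards [hn] with z hz
    exact P.eval i z hz
  have h4 : f.derivative.eval (P.Z i ω) * deriv (P.Z i) ω = Complex.exp ω :=
    h2.unique ((Complex.hasDerivAt_exp ω).congr_of_eventuallyEq h3)
  have h5 : f.derivative.eval (P.Z i ω) ≠ 0 := by
    intro h
    rw [h, zero_mul] at h4
    exact Complex.exp_ne_zero ω h4.symm
  exact ⟨h5, by rw [← h4, mul_div_cancel_left₀ _ h5]⟩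

end Pool.Agent.H88.LE
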