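import Pool.Agent.H88.LE.Defs

/-!
# LE-PB: the index integral of a path

PROOF of `exp_integral`. Put `Φ t = ∫_a^t F'/(F - z)` (fundamental theorem of calculus, continuous integrand on
`[a,b]`). The function `t ↦ (F t - z) exp (-Φ t)` has derivative `0` on `[a,b]`, so it is constant.
(Avoid problems outside `[a,b]`: work with `HasDerivWithinAt`/`constant_of_has_deriv_right_zero`, or with interior
derivatives and continuity.)
PROOF of `index_int`: `exp_integral` gives `exp (..) = 1`, then `Complex.exp_eq_one_iff`.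
PROOF of `path_continuousOn`: the image `F '' [a,b]` is compact; near a point `z₀` outside of it `|F t - z|` is bounded
below, dominated convergence / `intervalIntegral.continuousAt_of_dominated_interval` or
`continuousOn_integral`-type lemmas.
-/

set_option autoImplicit false

open Polynomial Complex MeasureTheory Set
open scoped Real ComplexConjugate
open Pool.Agent.H88.LD

noncomputable section

namespace Pool.Agent.H88.LE

theorem exp_integral (F F' : ℝ → ℂ) (hF : ∀ t, HasDerivAt F (F' t) t) (hc : Continuous F')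
    (a b : ℝ) (hab : a ≤ b) (z : ℂ) (hz : ∀ t ∈ Icc a b, F t ≠ z) :
    Complex.exp (∫ t in a..b, F' t / (F t - z)) = (F b - z) / (F a - z) := by
  have hFc : Continuous F := continuous_iff_continuousAt.2 fun t => (hF t).continuousAt
  set f : ℝ → ℂ := fun t => F' t / (F t - z) with hf
  have hfc : ContinuousOn f (Icc a b) :=
    hc.continuousOn.div (hFc.continuousOn.sub continuousOn_const)
      fun t ht => sub_ne_zero.2 (hz t ht)
  set g : ℝ → ℂ := Set.IccExtend hab (Set.restrict (Icc a b) f) with hg
  have hgc : Continuous g := (continuousOn_iff_continuous_restrict.1 hfc).Icc_extend'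
  have hgf : ∀ t ∈ Icc a b, g t = f t := by
    intro t ht
    rw [hg, Set.IccExtend_of_mem hab _ ht]
    rfl
  have hint : ∫ t in a..b, f t = ∫ t in a..b, g t := by
    apply intervalIntegral.integral_congr
    intro t ht
    rw [Set.uIcc_of_le hab] at ht
    exact (hgf t ht).symm
  have hΦ : ∀ t, HasDerivAt (fun u => ∫ x in a..u, g x) (g t) t := by
    intro t
    exact intervalIntegral.integral_hasDerivAt_right (hgc.intervalIntegrable _ _)
      (hgc.stronglyMeasurableAtFilter _ _) hgc.continuousAt
  set h : ℝ → ℂ := fun t => (F t - z) * Complex.exp (-(∫ x in a..t, g x)) with hh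
  have hder : ∀ t, HasDerivAt h (F' t * Complex.exp (-(∫ x in a..t, g x))
      + (F t - z) * (Complex.exp (-(∫ x in a..t, g x)) * (-(g t)))) t := by
    intro t
    have h1 : HasDerivAt (fun t => F t - z) (F' t) t := (hF t).sub_const z
    have h2 : HasDerivAt (fun t => Complex.exp (-(∫ x in a..t, g x)))
        (Complex.exp (-(∫ x in a..t, g x)) * (-(g t))) t := by
      have h3 : HasDerivAt (fun t => -(∫ x in a..t, g x)) (-(g t)) t := (hΦ t).neg
      exact h3.cexp
    exact h1.mul h2
  have hconst : ∀ t ∈ Icc a b, h t = h a := by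
    apply constant_of_has_deriv_right_zero
    · exact fun t _ => (hder t).continuousAt.continuousWithinAt
    · intro t ht
      have ht' : t ∈ Icc a b := ⟨ht.1, ht.2.le⟩
      have h0 : F' t * Complex.exp (-(∫ x in a..t, g x))
          + (F t - z) * (Complex.exp (-(∫ x in a..t, g x)) * (-(g t))) = 0 := by
        rw [hgf t ht', hf]
        have hne : F t - z ≠ 0 := sub_ne_zero.2 (hz t ht')
        field_simp
        ring
      have := (hder t).hasDerivWithinAt (s := Ici t)
      rwa [h0] at this
  have hb := hconst b ⟨hab, le_refl b⟩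
  have hane : F a - z ≠ 0 := sub_ne_zero.2 (hz a ⟨le_refl a, hab⟩)
  have hha : h a = F a - z := by
    simp [hh]
  have hhb : h b = (F b - z) * Complex.exp (-(∫ x in a..b, g x)) := rfl
  rw [hha, hhb] at hb
  change Complex.exp (∫ t in a..b, f t) = (F b - z) / (F a - z)
  rw [hint, eq_div_iff hane, ← hb, Complex.exp_neg]
  have hne := Complex.exp_ne_zero (∫ x in a..b, g x)
  field_simp

theorem index_int (F F' : ℝ → ℂ) (hF : ∀ t, HasDerivAt F (F' t) t) (hc : Continuous F')
    (T : ℝ) (hT : 0 ≤ T) (hper : F T = F 0) (z : ℂ) (hz : ∀ t ∈ Icc (0 : ℝ) T, F t ≠ z) :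
    ∃ m : ℤ, ∫ t in (0 : ℝ)..T, F' t / (F t - z) = 2 * π * I * m := by
  have h := exp_integral F F' hF hc 0 T hT z hz
  have hne : F 0 - z ≠ 0 := sub_ne_zero.2 (hz 0 ⟨le_refl 0, hT⟩)
  rw [hper, div_self hne, Complex.exp_eq_one_iff] at h
  obtain ⟨n, hn⟩ := h
  exact ⟨n, by rw [hn]; ring⟩

theorem path_continuousOn (F F' : ℝ → ℂ) (hF : ∀ t, HasDerivAt F (F' t) t)
    (hc : Continuous F') (a b : ℝ) (hab : a ≤ b) :
    ContinuousOn (fun z : ℂ => ∫ t in a..b, F' t / (F t - z)) (F '' Icc a b)ᶜ := by
  have hFc : Continuous F := continuous_iff_continuousAt.2 fun t => (hF t).continuousAt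
  have hK : IsCompact (F '' Icc a b) := isCompact_Icc.image hFc
  intro z₀ hz₀
  have hopen : IsOpen (F '' Icc a b)ᶜ := hK.isClosed.isOpen_compl
  obtain ⟨ε, hε, hball⟩ := Metric.isOpen_iff.1 hopen z₀ hz₀
  obtain ⟨C, hC⟩ := isCompact_Icc.exists_bound_of_continuousOn (s := Icc a b) hc.continuousOn
  have hlow : ∀ z ∈ Metric.ball z₀ (ε / 2), ∀ t ∈ Icc a b, ε / 2 ≤ ‖F t - z‖ := by
    intro z hz t ht
    by_contra hcon
    push Not at hcon
    have h1 : F t ∈ Metric.ball z₀ ε := by
      rw [Metric.mem_ball, dist_eq_norm] at hz ⊢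
      calc ‖F t - z₀‖ = ‖(F t - z) + (z - z₀)‖ := by ring_nf
        _ ≤ ‖F t - z‖ + ‖z - z₀‖ := norm_add_le _ _
        _ < ε / 2 + ε / 2 := add_lt_add hcon hz
        _ = ε := by ring
    exact hball h1 ⟨t, ht, rfl⟩
  apply ContinuousAt.continuousWithinAt
  apply intervalIntegral.continuousAt_of_dominated_interval (bound := fun _ => C / (ε / 2))
  · filter_upwards [Metric.ball_mem_nhds z₀ (half_pos hε)] with z hz
    have hcont : ContinuousOn (fun t => F' t / (F t - z)) (Icc a b) := by
      refine hc.continuousOn.div (hFc.continuousOn.sub continuousOn_const) fun t ht => ?_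
      have := hlow z hz t ht
      intro h0
      rw [h0, norm_zero] at this
      linarith
    rw [Set.uIoc_of_le hab]
    exact (hcont.mono Ioc_subset_Icc_self).aestronglyMeasurable measurableSet_Ioc
  · filter_upwards [Metric.ball_mem_nhds z₀ (half_pos hε)] with z hz
    refine Filter.Eventually.of_forall fun t ht => ?_
    rw [Set.uIoc_of_le hab] at ht
    have ht' := Ioc_subset_Icc_self ht
    rw [norm_div]
    have h1 := hlow z hz t ht'
    have h2 := hC t ht'
    have h3 : 0 ≤ C := le_trans (norm_nonneg _) h2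
    have h4 : 0 < ε / 2 := half_pos hε
    gcongr
  · exact intervalIntegrable_const
  · refine Filter.Eventually.of_forall fun t ht => ?_
    rw [Set.uIoc_of_le hab] at ht
    have ht' := Ioc_subset_Icc_self ht
    have hne : F t - z₀ ≠ 0 := by
      intro h0
      exact hz₀ ⟨t, ht', (sub_eq_zero.1 h0)⟩
    exact (continuousAt_const).div (continuousAt_const.sub continuousAt_id) hne

end Pool.Agent.H88.LE
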