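import Pool.Agent.H88.LE.PB
import Pool.Agent.H88.LD.CC
import Pool.Agent.H88.LD.LN

/-!
# LE-PZ: a closed curve on a level curve in `O` has index zero around all other points

PROOF. Let `K = F '' [0,T]` (compact) and `ind z = ∫_0^T F'/(F - z)` for `z ∉ K`. `ind` is continuous on `Kᶜ`
(`path_continuousOn`) with values in `2πi ℤ` (`index_int`), and `ind z = 0` for `z` outside a large disc
(`wind_outside` of LD/CC with `M = 0`, `R = max |F|`). Let `U = {z ∉ K | ind z ≠ 0}`: open, bounded.
(a) `frontier U ⊆ K`: if `z ∈ frontier U`, `z ∉ K`, then near `z` the function `ind` is within `1` of `ind z`, so constant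
(values in `2πi ℤ`), and `z` is interior to `U` or to its complement.
(b) Maximum principle (`Complex.norm_le_of_forall_mem_frontier_norm_le`, `U` bounded, `f` entire, `|f| = e^u` on `K`):
`‖f.eval z‖ ≤ e^u` for `z ∈ closure U`.
So if `‖f.eval z‖ > e^u` then `z ∉ U`, done. Let `z ∉ O`, `‖f.eval z‖ ≤ e^u ≤ r`; then `z ∈ O'`. Put `U' = U ∩ O'`: open. It is
closed: let `w ∈ closure U'`; `‖f.eval w‖ ≤ e^u ≤ r` by (b), so `w ∈ O ∪ O'`; `w ∉ O` since `O` is open and disjoint from
`U' ⊆ O'`; so `w ∈ O'`; if `w ∉ U` then `w ∈ frontier U ⊆ K ⊆ O`, contradiction. So `U'` is open, closed and bounded in the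
connected noncompact space `ℂ`, hence empty (`isClopen_iff`; it is not everything because it is bounded). So
`z ∉ U`.
-/

set_option autoImplicit false

open Polynomial Complex MeasureTheory Set
open scoped Real ComplexConjugate
open Pool.Agent.H88.LD

noncomputable section

namespace Pool.Agent.H88.LE

theorem index_zero {f : ℂ[X]} {r : ℝ} {O O' : Set ℂ} (hS : Sep f r O O') (u : ℝ)
    (hu : Real.exp u ≤ r) (F F' : ℝ → ℂ) (hF : ∀ t, HasDerivAt F (F' t) t)
    (hc : Continuous F') (T : ℝ) (hT : 0 ≤ T) (hper : F T = F 0)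
    (hO : ∀ t ∈ Icc (0 : ℝ) T, F t ∈ O) (hlev : ∀ t ∈ Icc (0 : ℝ) T, ‖f.eval (F t)‖ = Real.exp u)
    (z : ℂ) (hz : ∀ t ∈ Icc (0 : ℝ) T, F t ≠ z) (h : z ∉ O ∨ Real.exp u < ‖f.eval z‖) :
    ∫ t in (0 : ℝ)..T, F' t / (F t - z) = 0 := by
  classical
  have hFc : Continuous F := continuous_iff_continuousAt.2 fun t => (hF t).continuousAt
  set K : Set ℂ := F '' Icc (0 : ℝ) T with hK
  set ind : ℂ → ℂ := fun z => ∫ t in (0 : ℝ)..T, F' t / (F t - z) with hind
  have hKc : IsCompact K := isCompact_Icc.image hFc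
  have hKo : IsOpen Kᶜ := hKc.isClosed.isOpen_compl
  have hne : ∀ w : ℂ, w ∉ K → ∀ t ∈ Icc (0 : ℝ) T, F t ≠ w := by
    intro w hw t ht h
    exact hw ⟨t, ht, h⟩
  have hcont : ContinuousOn ind Kᶜ := path_continuousOn F F' hF hc 0 T hT
  have hint : ∀ w : ℂ, w ∉ K → ∃ m : ℤ, ind w = 2 * π * I * m :=
    fun w hw => index_int F F' hF hc T hT hper w (hne w hw)
  obtain ⟨R, hR⟩ : ∃ R : ℝ, ∀ w ∈ K, ‖w‖ ≤ R := hKc.isBounded.exists_norm_le
  have hfar : ∀ w : ℂ, R < ‖w‖ → ind w = 0 := by
    intro w hw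
    refine wind_outside F F' hF hc T hT hper 0 w R ?_ (by simpa using hw)
    intro t ht
    have := hR (F t) ⟨t, ht, rfl⟩
    simpa using this
  set U : Set ℂ := Kᶜ ∩ ind ⁻¹' {0}ᶜ with hU
  have hUo : IsOpen U := hcont.isOpen_inter_preimage hKo isOpen_compl_singleton
  have hUb : U ⊆ Metric.closedBall 0 R := by
    intro w hw
    rw [mem_closedBall_zero_iff]
    by_contra hcon
    exact hw.2 (hfar w (not_le.1 hcon))
  have hUbd : Bornology.IsBounded U := Metric.isBounded_closedBall.subset hUb
  have hfr : frontier U ⊆ K := by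
    intro w hw
    by_contra hwK
    have h1 : w ∉ U := by
      intro hwU
      rw [frontier, hUo.interior_eq] at hw
      exact hw.2 hwU
    have h0 : ind w = 0 := by
      by_contra h0
      exact h1 ⟨hwK, h0⟩
    have hca : ContinuousAt ind w := hcont.continuousAt (hKo.mem_nhds hwK)
    have hev : ∀ᶠ v in nhds w, dist (ind v) (ind w) < 1 :=
      hca (Metric.ball_mem_nhds _ one_pos)
    have hev2 : ∀ᶠ v in nhds w, v ∈ Kᶜ := hKo.mem_nhds hwK
    have hev3 : ∀ᶠ v in nhds w, v ∉ U := by
      filter_upwards [hev, hev2] with v hv1 hv2 hvU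
      obtain ⟨m, hm⟩ := hint v hv2
      rw [h0, dist_zero_right, hm] at hv1
      have hm0 : m ≠ 0 := by
        intro hm0
        apply hvU.2
        rw [mem_singleton_iff, hm, hm0]
        simp
      have h2 : (1 : ℝ) ≤ |(m : ℝ)| := by
        exact_mod_cast Int.one_le_abs hm0
      have h3 : ‖(2 * π * I * m : ℂ)‖ = 2 * π * |(m : ℝ)| := by
        rw [norm_mul, norm_mul, norm_mul, Complex.norm_I, Complex.norm_intCast]
        rw [Complex.norm_real, Real.norm_of_nonneg Real.pi_pos.le]
        simp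
      rw [h3] at hv1
      nlinarith [Real.pi_gt_three]
    have hcl : w ∈ closure U := frontier_subset_closure hw
    rw [mem_closure_iff_frequently] at hcl
    exact hcl hev3
  have hmax : ∀ w ∈ closure U, ‖f.eval w‖ ≤ Real.exp u := by
    intro w hw
    refine Complex.norm_le_of_forall_mem_frontier_norm_le hUbd
      (f := fun w => f.eval w) (f.differentiable.diffContOnCl) ?_ hw
    intro v hv
    obtain ⟨t, ht, rfl⟩ := hfr hv
    exact (hlev t ht).le
  have hzK : z ∉ K := by
    rintro ⟨t, ht, h⟩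
    exact hz t ht h
  suffices hzU : z ∉ U by
    by_contra hcon
    exact hzU ⟨hzK, hcon⟩
  intro hzU
  have hz1 : ‖f.eval z‖ ≤ Real.exp u := hmax z (subset_closure hzU)
  rcases h with h | h
  · have hzO' : z ∈ O' := by
      have : z ∈ lem f r := hz1.trans hu
      rcases hS.cover this with h' | h'
      · exact absurd h' h
      · exact h'
    have hclopen : IsClopen (U ∩ O') := by
      refine ⟨?_, hUo.inter hS.isOpen'⟩
      rw [← closure_subset_iff_isClosed]
      intro w hw
      have hwU : w ∈ closure U := closure_mono inter_subset_left hw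
      have hw1 : w ∈ lem f r := (hmax w hwU).trans hu
      have hwO : w ∉ O := by
        intro hwO
        have := mem_closure_iff.1 hw O hS.isOpen hwO
        obtain ⟨v, hv1, hv2⟩ := this
        exact Set.disjoint_left.1 hS.disj hv1 hv2.2
      have hwO' : w ∈ O' := (hS.cover hw1).resolve_left hwO
      refine ⟨?_, hwO'⟩
      by_contra hwn
      have hwf : w ∈ frontier U := by
        rw [frontier, hUo.interior_eq]
        exact ⟨hwU, hwn⟩
      obtain ⟨t, ht, rfl⟩ := hfr hwf
      exact hwO (hO t ht)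
    rcases isClopen_iff.1 hclopen with h1 | h1
    · have : z ∈ U ∩ O' := ⟨hzU, hzO'⟩
      rw [h1] at this
      exact this
    · have h2 : ((|R| + 1 : ℝ) : ℂ) ∈ U ∩ O' := by
        rw [h1]
        trivial
      have h3 := hUb h2.1
      rw [mem_closedBall_zero_iff, Complex.norm_real,
        Real.norm_of_nonneg (by positivity)] at h3
      linarith [le_abs_self R]
  · exact absurd hz1 (not_le.2 h)

end Pool.Agent.H88.LE
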