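import Pool.Agent.H88.LE.PA
import Pool.Agent.H88.LE.PAb
import Pool.Agent.H88.LE.PZ
import Pool.Agent.H88.LD.WN
import Pool.Agent.H88.LD.CD

/-!
# LE-PC: winding of the part of the level curve in `O`

PROOF of `pwind_out`. Let `S = P.arc u hu`. `F i φ ∈ O` and `‖f.eval (F i φ)‖ = e^u ≠ ‖f.eval z‖`, so `F i φ ≠ z` and
`H i φ = F' i φ/(F i φ - z)` is continuous with `H i (φ + 2π) = H (σ i) φ` (differentiate `S.shift`, or `F'_shift` of LD/LV).
By `cycle_decomp` and `cycle_integral` (LD/CD) `S.wind z` is the sum over the cycle representatives `c` of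
`∫_0^{2π k c} F' c/(F c - z)`, and each of these is `0` by `index_zero` (closed: `F c (2π k c) = F c 0` by `shift_iter`).

PROOF of `pwind_in`. Take `L` from `exists_lifts` and `P₁, P₁'` from `exists_split`. By `plifts_sum_eq` and `pderiv` the integrand
`∑ i, F' i φ/(F i φ - z) = ∑ i, g (P.Z i ω)` with `ω = u + iφ`, `g x = (exp ω / f'(x)) * I/(x - z)`, is the same for `P` and `P₁`; hence
`(L.arc u hu).wind z = (P.arc u hu).wind z + (P₁'.arc u hu).wind z` (sum and integral commute, continuous integrands;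
`deriv_lift`, `pderiv`). The left side is `2πI` (`wind_lifts`), and the last term is `0` by `pwind_out` for `O'` (`z ∉ O'`;
`hS.symm`).
-/

set_option autoImplicit false

open Polynomial Complex MeasureTheory Set
open scoped Real ComplexConjugate
open Pool.Agent.H88.LD

noncomputable section

namespace Pool.Agent.H88.LE

variable {f : ℂ[X]} {n : ℕ} {r : ℝ} {O O' : Set ℂ} {k : ℕ} {a b : ℝ}

private theorem pc_F'_shift {m : ℕ} (S : ArcSys m) (i : Fin m) (φ : ℝ) :
    S.F' i (φ + 2 * π) = S.F' (S.σ i) φ := by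
  have h1 : HasDerivAt (fun x : ℝ => S.F i (x + 2 * π)) (S.F' i (φ + 2 * π)) φ :=
    (S.hasDeriv i (φ + 2 * π)).comp_add_const φ (2 * π)
  have h2 : (fun x : ℝ => S.F i (x + 2 * π)) = S.F (S.σ i) := by
    funext x
    exact S.shift i x
  rw [h2] at h1
  exact h1.unique (S.hasDeriv (S.σ i) φ)

private theorem pc_contF {m : ℕ} (S : ArcSys m) (i : Fin m) : Continuous (S.F i) :=
  continuous_iff_continuousAt.2 fun φ => (S.hasDeriv i φ).continuousAt

private theorem pc_cont {m : ℕ} (S : ArcSys m) (z : ℂ) (hz : ∀ i φ, S.F i φ ≠ z) (i : Fin m) :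
    Continuous (fun φ => S.F' i φ / (S.F i φ - z)) :=
  (S.cont i).div ((pc_contF S i).sub continuous_const) fun φ => sub_ne_zero.2 (hz i φ)

/-- the winding integral is a sum over cycles -/
private theorem pc_wind_zero {m : ℕ} (S : ArcSys m) (z : ℂ) (hz : ∀ i φ, S.F i φ ≠ z)
    (h0 : ∀ (c : Fin m) (T : ℝ), 0 ≤ T → S.F c T = S.F c 0 →
      ∫ t in (0 : ℝ)..T, S.F' c t / (S.F c t - z) = 0) : S.wind z = 0 := by
  obtain ⟨R, k, hk, -, hR⟩ := cycle_decomp S.σ
  have hs : ∀ i φ, (fun i φ => S.F' i φ / (S.F i φ - z)) i (φ + 2 * π) =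
      (fun i φ => S.F' i φ / (S.F i φ - z)) (S.σ i) φ := by
    intro i φ
    change S.F' i (φ + 2 * π) / (S.F i (φ + 2 * π) - z) = S.F' (S.σ i) φ / (S.F (S.σ i) φ - z)
    rw [pc_F'_shift, S.shift]
  unfold ArcSys.wind
  rw [hR ℂ (fun i => ∫ φ in (0 : ℝ)..(2 * π), S.F' i φ / (S.F i φ - z))]
  refine Finset.sum_eq_zero fun c _ => ?_
  have h1 := cycle_integral S.σ (fun i φ => S.F' i φ / (S.F i φ - z)) (pc_cont S z hz) hs c (k c)
  rw [← h1]
  apply h0 c _ (by positivity)
  have h2 := shift_iter S.σ S.F S.shift c (k c) 0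
  rw [zero_add, (hk c).2] at h2
  exact h2

private theorem pc_norm {f : ℂ[X]} {O : Set ℂ} {k : ℕ} {a b : ℝ} (P : PLifts f O k a b)
    (u : ℝ) (hu : u ∈ Ioo a b) (i : Fin k) (φ : ℝ) :
    ‖f.eval ((P.arc u hu).F i φ)‖ = Real.exp u := by
  change ‖f.eval (P.Z i (u + φ * I))‖ = Real.exp u
  rw [P.eval i _ (mem_strip hu φ), Complex.norm_exp]
  simp

theorem pwind_out (hS : Sep f r O O') (hb : Real.exp b ≤ r)
    (P : PLifts f O k a b) (u : ℝ) (hu : u ∈ Ioo a b) (z : ℂ) (hz : ‖f.eval z‖ ≠ Real.exp u)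
    (h : z ∉ O ∨ Real.exp u < ‖f.eval z‖) : (P.arc u hu).wind z = 0 := by
  have hne : ∀ i φ, (P.arc u hu).F i φ ≠ z := by
    intro i φ he
    apply hz
    rw [← he, pc_norm]
  have hur : Real.exp u ≤ r := (Real.exp_le_exp.2 hu.2.le).trans hb
  apply pc_wind_zero _ z hne
  intro c T hT hper
  exact index_zero hS u hur ((P.arc u hu).F c) ((P.arc u hu).F' c) ((P.arc u hu).hasDeriv c)
    ((P.arc u hu).cont c) T hT hper (fun t _ => P.mem c _ (mem_strip hu t))
    (fun t _ => pc_norm P u hu c t) z (fun t _ => hne c t) h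

private theorem pc_wind_int {m : ℕ} (S : ArcSys m) (z : ℂ) (hz : ∀ i φ, S.F i φ ≠ z) :
    S.wind z = ∫ φ in (0 : ℝ)..(2 * π), ∑ i, S.F' i φ / (S.F i φ - z) := by
  rw [intervalIntegral.integral_finsetSum]
  · rfl
  · intro i _
    exact (pc_cont S z hz i).intervalIntegrable _ _

theorem pwind_in (hf : f.Monic) (hn : f.natDegree = n) (hn0 : 0 < n) (hS : Sep f r O O')
    (hb : Real.exp b ≤ r) (hreg : ∀ u ∈ Ioo a b, Reg f u)
    (P : PLifts f O k a b) (u : ℝ) (hu : u ∈ Ioo a b) (z : ℂ) (hz : z ∈ O)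
    (h : ‖f.eval z‖ < Real.exp u) : (P.arc u hu).wind z = 2 * π * I := by
  have hab : a < b := hu.1.trans hu.2
  obtain ⟨L⟩ := exists_lifts f hf n hn hn0 a b hab hreg
  obtain ⟨k₁, k', P₁, P', -, hsum⟩ := exists_split hf hn hn0 hS hab hb L
  have hL : (L.arc u hu).wind z = 2 * π * I := by
    rw [wind_lifts hf hn hn0 L u hu z h.ne, if_pos h]
  have hzO' : z ∉ O' := fun hz' => Set.disjoint_left.1 hS.disj hz hz'
  have hP' : (P'.arc u hu).wind z = 0 := pwind_out hS.symm hb P' u hu z h.ne (Or.inl hzO')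
  have hneP : ∀ i φ, (P.arc u hu).F i φ ≠ z := by
    intro i φ he
    apply h.ne
    rw [← he, pc_norm]
  have hneP' : ∀ i φ, (P'.arc u hu).F i φ ≠ z := by
    intro i φ he
    apply h.ne
    rw [← he, pc_norm]
  have hneL : ∀ i φ, (L.arc u hu).F i φ ≠ z := by
    intro i φ he
    apply h.ne
    rw [← he]
    change ‖f.eval (L.Z i (u + φ * I))‖ = Real.exp u
    rw [L.eval i _ (mem_strip hu φ), Complex.norm_exp]
    simp
  have hkey : (L.arc u hu).wind z = (P.arc u hu).wind z + (P'.arc u hu).wind z := by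
    rw [pc_wind_int _ z hneL, pc_wind_int _ z hneP, pc_wind_int _ z hneP',
      ← intervalIntegral.integral_add]
    · apply intervalIntegral.integral_congr
      intro φ _
      set ω : ℂ := u + φ * I with hω
      have hωs : ω ∈ strip a b := mem_strip hu φ
      set g : ℂ → ℂ := fun x => Complex.exp ω / f.derivative.eval x * I / (x - z) with hg
      have e1 : ∑ i, (L.arc u hu).F' i φ / ((L.arc u hu).F i φ - z) = ∑ i, g (L.Z i ω) := by
        refine Finset.sum_congr rfl fun i _ => ?_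
        change deriv (L.Z i) ω * I / (L.Z i ω - z) = g (L.Z i ω)
        rw [(deriv_lift hf hn L i ω hωs).2]
      have e2 : ∑ i, (P.arc u hu).F' i φ / ((P.arc u hu).F i φ - z) = ∑ i, g (P.Z i ω) := by
        refine Finset.sum_congr rfl fun i _ => ?_
        change deriv (P.Z i) ω * I / (P.Z i ω - z) = g (P.Z i ω)
        rw [(pderiv P i ω hωs).2]
      have e3 : ∑ i, (P'.arc u hu).F' i φ / ((P'.arc u hu).F i φ - z) = ∑ i, g (P'.Z i ω) := by
        refine Finset.sum_congr rfl fun i _ => ?_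
        change deriv (P'.Z i) ω * I / (P'.Z i ω - z) = g (P'.Z i ω)
        rw [(pderiv P' i ω hωs).2]
      change ∑ i, (L.arc u hu).F' i φ / ((L.arc u hu).F i φ - z) =
        ∑ i, (P.arc u hu).F' i φ / ((P.arc u hu).F i φ - z) +
          ∑ i, (P'.arc u hu).F' i φ / ((P'.arc u hu).F i φ - z)
      rw [e1, e2, e3, hsum ω hωs g, plifts_sum_eq P₁ P ω hωs g]
    · exact (continuous_finsetSum _ fun i _ => pc_cont _ z hneP i).intervalIntegrable _ _
    · exact (continuous_finsetSum _ fun i _ => pc_cont _ z hneP' i).intervalIntegrable _ _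
  rw [hP', add_zero] at hkey
  rw [← hkey, hL]

end Pool.Agent.H88.LE
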