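import Pool.Agent.H88.LE.PC

/-!
# LE-PD: the number of lifts in `O` is the number of zeros in `O`

PROOF of `plifts_card`. For `x` with `f x ≠ 0`: `f'(x)/f(x) = ∑_{w ∈ f.roots} 1/(x - w)` (with multiplicity; `f` is monic and
splits; Mathlib: `Polynomial.eval_derivative_div_eval_of_ne_zero_of_splits` or the product rule). With `S = P.arc u hu`
for some `u ∈ (a,b)`: `∑_{w ∈ f.roots} S.wind w = ∑ i, ∫ F' i f'(F i)/f(F i) dφ = ∑ i, ∫_0^{2π} I dφ = 2πI k` because
`F' i φ = I exp ω/f'(F i φ)` (`pderiv`) and `f (F i φ) = exp ω`, `ω = u + iφ`. On the other hand (`‖f.eval w‖ = 0 < e^u`)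
`S.wind w = 2πI` if `w ∈ O` and `0` otherwise (`pwind_in`, `pwind_out`). So `k = nz f O`.

PROOF of `exists_plifts`: `exists_lifts`, `exists_split`, `plifts_card`.
-/

set_option autoImplicit false

open Polynomial Complex MeasureTheory Set
open scoped Real ComplexConjugate
open Pool.Agent.H88.LD

noncomputable section

namespace Pool.Agent.H88.LE

variable {f : ℂ[X]} {n : ℕ} {r : ℝ} {O O' : Set ℂ} {k : ℕ} {a b : ℝ}

private theorem pd_contF {m : ℕ} (S : ArcSys m) (i : Fin m) : Continuous (S.F i) :=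
  continuous_iff_continuousAt.2 fun φ => (S.hasDeriv i φ).continuousAt

private theorem pd_cont {m : ℕ} (S : ArcSys m) (z : ℂ) (hz : ∀ i φ, S.F i φ ≠ z) (i : Fin m) :
    Continuous (fun φ => S.F' i φ * (1 / (S.F i φ - z))) :=
  (S.cont i).mul (continuous_const.div ((pd_contF S i).sub continuous_const)
    fun φ => sub_ne_zero.2 (hz i φ))

private theorem pd_cont_sum {m : ℕ} (S : ArcSys m) (i : Fin m) (s : Multiset ℂ)
    (hs : ∀ z ∈ s, ∀ i φ, S.F i φ ≠ z) :
    Continuous (fun φ => S.F' i φ * (s.map (fun z => 1 / (S.F i φ - z))).sum) := by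
  induction s using Multiset.induction_on with
  | empty => simpa using continuous_const
  | cons z s ih =>
    have h1 := pd_cont S z (hs z (Multiset.mem_cons_self z s)) i
    have h2 := ih fun w hw => hs w (Multiset.mem_cons_of_mem hw)
    simp only [Multiset.map_cons, Multiset.sum_cons, mul_add]
    exact h1.add h2

/-- the sum over `z ∈ s` of the winding numbers is a sum of integrals -/
private theorem pd_wind_sum {m : ℕ} (S : ArcSys m) (s : Multiset ℂ)
    (hs : ∀ z ∈ s, ∀ i φ, S.F i φ ≠ z) :
    (s.map (fun z => S.wind z)).sum =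
      ∑ i, ∫ φ in (0 : ℝ)..(2 * π), S.F' i φ * (s.map (fun z => 1 / (S.F i φ - z))).sum := by
  induction s using Multiset.induction_on with
  | empty => simp
  | cons z s ih =>
    have h0 := hs z (Multiset.mem_cons_self z s)
    have h1 : ∀ w ∈ s, ∀ i φ, S.F i φ ≠ w := fun w hw => hs w (Multiset.mem_cons_of_mem hw)
    rw [Multiset.map_cons, Multiset.sum_cons, ih h1]
    unfold ArcSys.wind
    rw [← Finset.sum_add_distrib]
    refine Finset.sum_congr rfl fun i _ => ?_
    have h2 : ∫ φ in (0 : ℝ)..(2 * π), S.F' i φ / (S.F i φ - z) =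
        ∫ φ in (0 : ℝ)..(2 * π), S.F' i φ * (1 / (S.F i φ - z)) := by
      simp only [mul_one_div]
    rw [h2, ← intervalIntegral.integral_add ((pd_cont S z h0 i).intervalIntegrable _ _)
      ((pd_cont_sum S i s h1).intervalIntegrable _ _)]
    simp only [Multiset.map_cons, Multiset.sum_cons, mul_add]

/-- a sum of `c` or `0` over a multiset -/
private theorem pd_sum_ite (s : Multiset ℂ) (p : ℂ → Prop) [DecidablePred p] (c : ℂ)
    (g : ℂ → ℂ) (h1 : ∀ z ∈ s, p z → g z = c) (h0 : ∀ z ∈ s, ¬ p z → g z = 0) :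
    (s.map g).sum = (Multiset.card (s.filter p) : ℂ) * c := by
  induction s using Multiset.induction_on with
  | empty => simp
  | cons z s ih =>
    rw [Multiset.map_cons, Multiset.sum_cons, ih (fun w hw => h1 w (Multiset.mem_cons_of_mem hw))
      (fun w hw => h0 w (Multiset.mem_cons_of_mem hw))]
    by_cases hz : p z
    · rw [h1 z (Multiset.mem_cons_self z s) hz, Multiset.filter_cons_of_pos _ hz,
        Multiset.card_cons]
      push_cast
      ring
    · rw [h0 z (Multiset.mem_cons_self z s) hz, Multiset.filter_cons_of_neg _ hz, zero_add]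

theorem plifts_card (hf : f.Monic) (hn : f.natDegree = n) (hn0 : 0 < n) (hS : Sep f r O O')
    (hab : a < b) (hb : Real.exp b ≤ r) (hreg : ∀ u ∈ Ioo a b, Reg f u)
    (P : PLifts f O k a b) : k = nz f O := by
  classical
  have hu : (a + b) / 2 ∈ Ioo a b := ⟨by linarith, by linarith⟩
  set u : ℝ := (a + b) / 2 with hudef
  have hroot : ∀ z ∈ f.roots, f.eval z = 0 := fun z hz =>
    (Polynomial.mem_roots hf.ne_zero).1 hz
  have hne : ∀ z ∈ f.roots, ∀ i φ, (P.arc u hu).F i φ ≠ z := by
    intro z hz i φ he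
    have h1 : f.eval (P.Z i (u + φ * I)) = Complex.exp (u + φ * I) :=
      P.eval i _ (mem_strip hu φ)
    have h2 : P.Z i (u + φ * I) = z := he
    rw [h2, hroot z hz] at h1
    exact Complex.exp_ne_zero _ h1.symm
  have h1 : (f.roots.map (fun z => (P.arc u hu).wind z)).sum = (k : ℂ) * (2 * π * I) := by
    rw [pd_wind_sum _ _ hne]
    have h2 : ∀ i : Fin k, ∫ φ in (0 : ℝ)..(2 * π), (P.arc u hu).F' i φ *
        (f.roots.map (fun z => 1 / ((P.arc u hu).F i φ - z))).sum = 2 * π * I := by
      intro i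
      have h3 : ∀ φ : ℝ, (P.arc u hu).F' i φ *
          (f.roots.map (fun z => 1 / ((P.arc u hu).F i φ - z))).sum = I := by
        intro φ
        have hω : ((u : ℂ) + φ * I) ∈ strip a b := mem_strip hu φ
        change deriv (P.Z i) (u + φ * I) * I *
          (f.roots.map (fun z => 1 / (P.Z i (u + φ * I) - z))).sum = I
        have h4 := P.eval i _ hω
        have h5 : f.eval (P.Z i (u + φ * I)) ≠ 0 := by
          rw [h4]
          exact Complex.exp_ne_zero _
        rw [← (IsAlgClosed.splits f).eval_derivative_div_eval_of_ne_zero h5, h4,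
          (pderiv P i _ hω).2]
        have h6 := (pderiv P i _ hω).1
        have h7 := Complex.exp_ne_zero ((u : ℂ) + φ * I)
        field_simp
      simp only [h3]
      rw [intervalIntegral.integral_const]
      simp
    rw [Finset.sum_congr rfl fun i _ => h2 i]
    simp
  have h2 : (f.roots.map (fun z => (P.arc u hu).wind z)).sum = (nz f O : ℂ) * (2 * π * I) := by
    unfold nz
    apply pd_sum_ite
    · intro z hz hzO
      apply pwind_in hf hn hn0 hS hb hreg P u hu z hzO
      rw [hroot z hz, norm_zero]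
      exact Real.exp_pos u
    · intro z hz hzO
      apply pwind_out hS hb P u hu z _ (Or.inl hzO)
      rw [hroot z hz, norm_zero]
      exact (Real.exp_pos u).ne
  rw [h1] at h2
  have h3 : (2 * π * I : ℂ) ≠ 0 := Complex.two_pi_I_ne_zero
  exact_mod_cast mul_right_cancel₀ h3 h2

theorem exists_plifts (hf : f.Monic) (hn : f.natDegree = n) (hn0 : 0 < n) (hS : Sep f r O O')
    (hab : a < b) (hb : Real.exp b ≤ r) (hreg : ∀ u ∈ Ioo a b, Reg f u) :
    Nonempty (PLifts f O (nz f O) a b) := by
  obtain ⟨L⟩ := exists_lifts f hf n hn hn0 a b hab hreg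
  obtain ⟨k₁, k', P₁, P', -, -⟩ := exists_split hf hn hn0 hS hab hb L
  have h := plifts_card hf hn hn0 hS hab hb hreg P₁
  subst h
  exact ⟨P₁⟩

end Pool.Agent.H88.LE
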