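import Pool.Agent.H88.LE.PC
import Pool.Agent.H88.LD.FI
import Pool.Agent.H88.LD.LN

/-!
# LE-PE: area of a part

PROOF of `psarea_eq`: `area_of_wind` (LD/FI) with `U = {‖f‖ < e^u} ∩ O`; `pwind_in`, `pwind_out` outside of the null set
`{‖f.eval z‖ = e^u}` (`level_null`); `sublevel_bounded`, `sublevel_measurable`, `O` open. The other lemmas: measure
monotonicity and finiteness (`sublevel_bounded`), disjointness of `O` and `O'`.
-/

set_option autoImplicit false

open Polynomial Complex MeasureTheory Set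
open scoped Real ComplexConjugate
open Pool.Agent.H88.LD

noncomputable section

namespace Pool.Agent.H88.LE

variable {f : ℂ[X]} {n : ℕ} {r : ℝ} {O O' : Set ℂ} {k : ℕ} {a b : ℝ}

theorem psarea_eq (hf : f.Monic) (hn : f.natDegree = n) (hn0 : 0 < n) (hS : Sep f r O O')
    (hb : Real.exp b ≤ r) (hreg : ∀ u ∈ Ioo a b, Reg f u)
    (P : PLifts f O k a b) (u : ℝ) (hu : u ∈ Ioo a b) : (P.arc u hu).sarea = areaP f O u := by
  have hn' : f.natDegree ≠ 0 := by rw [hn]; exact hn0.ne'
  have hnull : ∀ᵐ z : ℂ, ‖f.eval z‖ ≠ Real.exp u := by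
    rw [ae_iff]
    simpa using level_null f hf hn' (Real.exp u)
  refine area_of_wind _ _ ((sublevel_measurable f u).inter hS.isOpen.measurableSet)
    ((sublevel_bounded f hf hn' u).subset inter_subset_left) ?_ ?_
  · filter_upwards with z hz
    exact pwind_in hf hn hn0 hS hb hreg P u hu z hz.2 hz.1
  · filter_upwards [hnull] with z hz hzU
    refine pwind_out hS hb P u hu z hz ?_
    by_cases hO : z ∈ O
    · right
      have h1 : ¬ ‖f.eval z‖ < Real.exp u := fun h => hzU ⟨h, hO⟩
      exact lt_of_le_of_ne (not_lt.1 h1) hz.symm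
    · exact Or.inl hO

theorem areaP_nonneg (f : ℂ[X]) (O : Set ℂ) (u : ℝ) : 0 ≤ areaP f O u :=
  ENNReal.toReal_nonneg

private theorem pe_fin (hf : f.Monic) (hn0 : f.natDegree ≠ 0) (u : ℝ) :
    volume {z : ℂ | ‖f.eval z‖ < Real.exp u} ≠ ⊤ :=
  (sublevel_bounded f hf hn0 u).measure_lt_top.ne

theorem areaP_mono (hf : f.Monic) (hn0 : f.natDegree ≠ 0) (O : Set ℂ) : Monotone (areaP f O) := by
  intro u v huv
  refine ENNReal.toReal_mono ?_ (measure_mono ?_)
  · exact ne_top_of_le_ne_top (pe_fin hf hn0 v) (measure_mono inter_subset_left)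
  · rintro z ⟨hz, hO⟩
    have h1 : ‖f.eval z‖ < Real.exp u := hz
    exact ⟨h1.trans_le (Real.exp_le_exp.2 huv), hO⟩

theorem areaP_univ (f : ℂ[X]) (u : ℝ) : areaP f univ u = area f u := by
  unfold areaP area
  rw [inter_univ]

theorem areaP_add_le (hf : f.Monic) (hn0 : f.natDegree ≠ 0) (hS : Sep f r O O') (u : ℝ) :
    areaP f O u + areaP f O' u ≤ area f u := by
  have hfin := pe_fin hf hn0 u
  unfold areaP area
  have h1 : volume ({z : ℂ | ‖f.eval z‖ < Real.exp u} ∩ O) ≠ ⊤ :=
    ne_top_of_le_ne_top hfin (measure_mono inter_subset_left)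
  have h2 : volume ({z : ℂ | ‖f.eval z‖ < Real.exp u} ∩ O') ≠ ⊤ :=
    ne_top_of_le_ne_top hfin (measure_mono inter_subset_left)
  rw [← ENNReal.toReal_add h1 h2]
  refine ENNReal.toReal_mono hfin ?_
  have hdisj : Disjoint ({z : ℂ | ‖f.eval z‖ < Real.exp u} ∩ O)
      ({z : ℂ | ‖f.eval z‖ < Real.exp u} ∩ O') :=
    hS.disj.mono inter_subset_right inter_subset_right
  rw [← measure_union hdisj
    ((sublevel_measurable f u).inter hS.isOpen'.measurableSet)]
  exact measure_mono (union_subset inter_subset_left inter_subset_left)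

end Pool.Agent.H88.LE
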