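import Pool.Agent.H88.LE.PE
import Pool.Agent.H88.LD.CV

/-!
# LE-PF: growth of the area of a part on a regular interval

PROOF: the same as that of `area_growth` in LD/CV (take it over word by word with `P` instead of `L`, `Fin k` instead
of `Fin n`): the images `Z i '' S`, `S = {re ∈ (a',b'), im ∈ (0,2π)}`, are pairwise disjoint subsets of
`({‖f‖ < e^{b'}} \ {‖f‖ < e^{a'}}) ∩ O`, their areas are `∫∫ ‖deriv (Z i)‖²`. The lemmas of LD/CV may be used if they do not
mention `Lifts`.
-/

set_option autoImplicit false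

open Polynomial Complex MeasureTheory Set
open scoped Real ComplexConjugate
open Pool.Agent.H88.LD

noncomputable section

namespace Pool.Agent.H88.LE

/-- the real box `a' < re < b'`, `0 < im < 2π` -/
private def pfS (a' b' : ℝ) : Set ℂ := {ω : ℂ | ω.re ∈ Ioo a' b' ∧ ω.im ∈ Ioo 0 (2 * π)}

private theorem pfS_meas (a' b' : ℝ) : MeasurableSet (pfS a' b') := by
  have : pfS a' b' = Complex.re ⁻¹' (Ioo a' b') ∩ Complex.im ⁻¹' (Ioo 0 (2 * π)) := rfl
  rw [this]
  exact (Complex.measurable_re measurableSet_Ioo).inter (Complex.measurable_im measurableSet_Ioo)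

private theorem pf_det (c : ℂ) :
    ((ContinuousLinearMap.toSpanSingleton ℂ c).restrictScalars ℝ : ℂ →L[ℝ] ℂ).det = ‖c‖ ^ 2 := by
  have h1 : (((ContinuousLinearMap.toSpanSingleton ℂ c).restrictScalars ℝ : ℂ →L[ℝ] ℂ) :
      ℂ →ₗ[ℝ] ℂ) = Algebra.lmul ℝ ℂ c := by
    ext x
    simp [mul_comm]
  rw [ContinuousLinearMap.det, h1, ← Algebra.norm_apply, Algebra.norm_complex_apply,
    Complex.normSq_eq_norm_sq]

/-- Fubini on the box -/
private theorem pf_fubini (a' b' : ℝ) (g : ℂ → ENNReal) (hg : Measurable g) :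
    ∫⁻ ω in pfS a' b', g ω =
      ∫⁻ u in Ioo a' b', ∫⁻ φ in Ioo (0 : ℝ) (2 * π), g ((u : ℂ) + φ * I) := by
  have h1 := Complex.volume_preserving_equiv_real_prod.symm.setLIntegral_comp_preimage_emb
    (Complex.measurableEquivRealProd.symm.measurableEmbedding) g (pfS a' b')
  rw [← h1]
  have h2 : (Complex.measurableEquivRealProd.symm : ℝ × ℝ → ℂ) ⁻¹' (pfS a' b') =
      Ioo a' b' ×ˢ Ioo (0 : ℝ) (2 * π) := by
    ext p
    simp [pfS, Complex.measurableEquivRealProd_symm_apply]
  rw [h2, Measure.volume_eq_prod, setLIntegral_prod]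
  · apply lintegral_congr
    intro u
    apply lintegral_congr
    intro φ
    congr 1
    apply Complex.ext <;> simp [Complex.measurableEquivRealProd_symm_apply]
  · exact (hg.comp Complex.measurableEquivRealProd.symm.measurable).aemeasurable

/-- the inner integral of the lifts is the energy -/
private theorem pf_energy {f : ℂ[X]} {O : Set ℂ} {k : ℕ} {a b : ℝ} (L : PLifts f O k a b) (u : ℝ)
    (hu : u ∈ Ioo a b) :
    ∑ i, ∫⁻ φ in Ioo (0 : ℝ) (2 * π), ENNReal.ofReal (‖deriv (L.Z i) ((u : ℂ) + φ * I)‖ ^ 2) =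
      ENNReal.ofReal (L.arc u hu).energy := by
  unfold ArcSys.energy
  rw [ENNReal.ofReal_sum_of_nonneg]
  · apply Finset.sum_congr rfl
    intro i _
    have hc : Continuous (fun φ : ℝ => ‖(L.arc u hu).F' i φ‖ ^ 2) :=
      ((L.arc u hu).cont i).norm.pow 2
    rw [intervalIntegral.integral_of_le (by positivity), integral_Ioc_eq_integral_Ioo,
      ofReal_integral_eq_lintegral_ofReal]
    · apply lintegral_congr
      intro φ
      change _ = ENNReal.ofReal (‖deriv (L.Z i) ((u : ℂ) + φ * I) * I‖ ^ 2)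
      rw [norm_mul, Complex.norm_I, mul_one]
    · exact (hc.integrableOn_Icc).mono_set Ioo_subset_Icc_self
    · exact ae_of_all _ fun φ => by positivity
  · intro i _
    apply intervalIntegral.integral_nonneg (by positivity)
    intro φ _
    positivity

theorem parea_growth {f : ℂ[X]} {O : Set ℂ} {k : ℕ} {a b : ℝ} (hf : f.Monic)
    (hn0 : f.natDegree ≠ 0) (hO : IsOpen O) (P : PLifts f O k a b) (a' b' : ℝ) (ha : a < a')
    (hab : a' ≤ b') (hb : b' < b) (m : ℝ)
    (hm : ∀ (u : ℝ) (hu : u ∈ Ioo a b), u ∈ Icc a' b' → m ≤ (P.arc u hu).energy) :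
    m * (b' - a') ≤ areaP f O b' - areaP f O a' := by
  rcases lt_or_ge m 0 with hm0 | hm0
  · have h1 := areaP_mono hf hn0 O hab
    have h2 : m * (b' - a') ≤ 0 := mul_nonpos_of_nonpos_of_nonneg hm0.le (by linarith)
    linarith
  set S : Set ℂ := pfS a' b' with hS
  have hSm : MeasurableSet S := pfS_meas a' b'
  have hSs : ∀ ω ∈ S, ω ∈ strip a b := by
    intro ω hω
    exact ⟨ha.trans hω.1.1, hω.1.2.trans hb⟩
  have hder : ∀ i, ∀ ω ∈ S, HasFDerivWithinAt (P.Z i)
      ((ContinuousLinearMap.toSpanSingleton ℂ (deriv (P.Z i) ω)).restrictScalars ℝ :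
        ℂ →L[ℝ] ℂ) S ω := by
    intro i ω hω
    have h1 : HasDerivAt (P.Z i) (deriv (P.Z i) ω) ω :=
      ((P.diff i).differentiableAt ((isOpen_strip a b).mem_nhds (hSs ω hω))).hasDerivAt
    exact (h1.hasFDerivAt.restrictScalars ℝ).hasFDerivWithinAt
  have hexp : ∀ i j, ∀ ω ∈ S, ∀ ω' ∈ S, P.Z i ω = P.Z j ω' → ω = ω' := by
    intro i j ω hω ω' hω' h
    have h1 : Complex.exp ω = Complex.exp ω' := by
      rw [← P.eval i ω (hSs ω hω), ← P.eval j ω' (hSs ω' hω'), h]
    obtain ⟨l, hk⟩ := Complex.exp_eq_exp_iff_exists_int.1 h1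
    have h2 : ω.im = ω'.im + l * (2 * π) := by
      have := congrArg Complex.im hk
      simpa using this
    have h3 := hω.2.1
    have h4 := hω.2.2
    have h5 := hω'.2.1
    have h6 := hω'.2.2
    have hpi := Real.pi_pos
    have h7 : (l : ℝ) < 1 := by
      by_contra h
      have := mul_le_mul_of_nonneg_right (not_lt.1 h) (show (0 : ℝ) ≤ 2 * π by positivity)
      linarith
    have h8 : (-1 : ℝ) < l := by
      by_contra h
      have := mul_le_mul_of_nonneg_right (not_lt.1 h) (show (0 : ℝ) ≤ 2 * π by positivity)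
      linarith
    have h9 : l = 0 := by
      have h7' : l < 1 := by exact_mod_cast h7
      have h8' : -1 < l := by exact_mod_cast h8
      omega
    rw [h9] at hk
    simpa using hk
  have hinj : ∀ i, InjOn (P.Z i) S := fun i ω hω ω' hω' h => hexp i i ω hω ω' hω' h
  have hdisj : Pairwise (Function.onFun Disjoint (fun i => P.Z i '' S)) := by
    intro i j hij
    rw [Function.onFun, Set.disjoint_left]
    rintro _ ⟨ω, hω, rfl⟩ ⟨ω', hω', h⟩
    have h1 := hexp j i ω' hω' ω hω h
    rw [h1] at h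
    exact hij (P.inj ω (hSs ω hω) h).symm
  have himm : ∀ i, MeasurableSet (P.Z i '' S) := fun i =>
    measurable_image_of_fderivWithin hSm (hder i) (hinj i)
  have hnorm : ∀ i, ∀ ω ∈ S, ‖f.eval (P.Z i ω)‖ = Real.exp ω.re := by
    intro i ω hω
    rw [P.eval i ω (hSs ω hω), Complex.norm_exp]
  have hvol : ∀ i, volume (P.Z i '' S) = ∫⁻ u in Ioo a' b', ∫⁻ φ in Ioo (0 : ℝ) (2 * π),
      ENNReal.ofReal (‖deriv (P.Z i) ((u : ℂ) + φ * I)‖ ^ 2) := by
    intro i
    rw [← lintegral_abs_det_fderiv_eq_addHaar_image volume hSm (hder i) (hinj i)]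
    simp only [pf_det]
    have h1 : ∀ ω : ℂ, ENNReal.ofReal |‖deriv (P.Z i) ω‖ ^ 2| =
        ENNReal.ofReal (‖deriv (P.Z i) ω‖ ^ 2) := fun ω => by rw [abs_of_nonneg (by positivity)]
    simp only [h1]
    exact pf_fubini a' b' (fun ω => ENNReal.ofReal (‖deriv (P.Z i) ω‖ ^ 2)) (by fun_prop)
  have hsum : ENNReal.ofReal (m * (b' - a')) ≤ ∑ i, volume (P.Z i '' S) := by
    simp only [hvol]
    rw [← lintegral_finsetSum]
    · calc ENNReal.ofReal (m * (b' - a')) = ∫⁻ u in Ioo a' b', ENNReal.ofReal m := by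
            rw [setLIntegral_const, Real.volume_Ioo, ENNReal.ofReal_mul hm0]
        _ ≤ _ := by
            apply setLIntegral_mono' measurableSet_Ioo
            intro u hu
            have hu' : u ∈ Ioo a b := ⟨ha.trans hu.1, hu.2.trans hb⟩
            rw [pf_energy P u hu']
            exact ENNReal.ofReal_le_ofReal (hm u hu' ⟨hu.1.le, hu.2.le⟩)
    · intro i _
      apply Measurable.lintegral_prod_right'
        (f := fun p : ℝ × ℝ => ENNReal.ofReal (‖deriv (P.Z i) ((p.1 : ℂ) + p.2 * I)‖ ^ 2))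
      fun_prop
  have hun : volume (⋃ i, P.Z i '' S) = ∑ i, volume (P.Z i '' S) := by
    rw [measure_iUnion hdisj himm, tsum_fintype]
  set A : Set ℂ := {z : ℂ | ‖f.eval z‖ < Real.exp a'} ∩ O with hA
  set B : Set ℂ := {z : ℂ | ‖f.eval z‖ < Real.exp b'} ∩ O with hB
  have hAB : volume A + volume (⋃ i, P.Z i '' S) ≤ volume B := by
    rw [← measure_union]
    · apply measure_mono
      apply union_subset
      · intro z hz
        exact ⟨lt_of_lt_of_le hz.1 (Real.exp_le_exp.2 hab), hz.2⟩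
      · apply iUnion_subset
        rintro i _ ⟨ω, hω, rfl⟩
        refine ⟨?_, P.mem i ω (hSs ω hω)⟩
        change ‖f.eval (P.Z i ω)‖ < Real.exp b'
        rw [hnorm i ω hω]
        exact Real.exp_lt_exp.2 hω.1.2
    · rw [Set.disjoint_left]
      intro z hz hz'
      obtain ⟨i, ω, hω, rfl⟩ := mem_iUnion.1 hz'
      have hz1 : ‖f.eval (P.Z i ω)‖ < Real.exp a' := hz.1
      rw [hnorm i ω hω] at hz1
      exact absurd hω.1.1 (not_lt.2 (Real.exp_lt_exp.1 hz1).le)
    · exact MeasurableSet.iUnion himm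
  have hfin : volume B ≠ ⊤ :=
    ne_top_of_le_ne_top (sublevel_bounded f hf hn0 b').measure_lt_top.ne
      (measure_mono inter_subset_left)
  have hfinA : volume A ≠ ⊤ :=
    ne_top_of_le_ne_top (sublevel_bounded f hf hn0 a').measure_lt_top.ne
      (measure_mono inter_subset_left)
  have h1 : volume A + ENNReal.ofReal (m * (b' - a')) ≤ volume B := by
    refine le_trans ?_ hAB
    rw [hun]
    gcongr
  have h2 := ENNReal.toReal_mono hfin h1
  rw [ENNReal.toReal_add hfinA ENNReal.ofReal_ne_top,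
    ENNReal.toReal_ofReal (mul_nonneg hm0 (by linarith))] at h2
  change m * (b' - a') ≤ (volume B).toReal - (volume A).toReal
  linarith

end Pool.Agent.H88.LE
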