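import Pool.Agent.H88.LE.PE
import Pool.Agent.H88.LD.LV
import Pool.Agent.H88.LD.WF

/-!
# LE-PG: the key inequality on a level `u > 0` of a part

PROOF: the same as that of `key_ineq` in LD/KI. `S = P.arc u hu`, `A = areaP f O u = S.sarea` (`psarea_eq`), `C, M, R` from
`level_discs S`, `h' = ∑_{c ∈ C} R c`. If `z ∈ lem f 1 ∩ O` then `‖f.eval z‖ ≤ 1 < e^u`, so `S.wind z = 2πI ≠ 0` (`pwind_in`) and
`‖z - M c‖ ≤ R c` for some `c ∈ C`: so `Cov (lem f 1 ∩ O) h'` (reindex `C` by `Fin #C`), hence `h ≤ h'`. The rest is word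
by word the proof in LD/KI.
-/

set_option autoImplicit false

open Polynomial Complex MeasureTheory Set
open scoped Real ComplexConjugate
open Pool.Agent.H88.LD

noncomputable section

namespace Pool.Agent.H88.LE

/-- reindexing: discs indexed by a finset give a cover in the sense of `Cov` -/
theorem pg_cov {n : ℕ} {S : Set ℂ} (C : Finset (Fin n)) (M : Fin n → ℂ) (R : Fin n → ℝ)
    (hR : ∀ c, 0 ≤ R c) (hc : ∀ z ∈ S, ∃ c ∈ C, ‖z - M c‖ ≤ R c) :
    Cov S (∑ c ∈ C, R c) := by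
  classical
  refine ⟨C.card, fun j => M (C.equivFin.symm j), fun j => R (C.equivFin.symm j),
    fun j => hR _, ?_, le_of_eq ?_⟩
  · intro z hz
    obtain ⟨c, hcC, h⟩ := hc z hz
    refine ⟨C.equivFin ⟨c, hcC⟩, ?_⟩
    simpa using h
  · rw [← Finset.sum_coe_sort C R]
    exact Fintype.sum_equiv C.equivFin.symm _ _ fun j => rfl

theorem pkey_ineq {f : ℂ[X]} {n : ℕ} {r : ℝ} {O O' : Set ℂ} {k : ℕ} {a b : ℝ}
    (hf : f.Monic) (hn : f.natDegree = n) (hn0 : 0 < n) (hS : Sep f r O O')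
    (hb : Real.exp b ≤ r) (hreg : ∀ u ∈ Ioo a b, Reg f u) (h : ℝ) (hh : 0 < h)
    (hnc : ∀ ρ, Cov (lem f 1 ∩ O) ρ → h ≤ ρ)
    (P : PLifts f O k a b) (u : ℝ) (hu : u ∈ Ioo a b) (hu0 : 0 < u) :
    4 * π * areaP f O u ≤ (P.arc u hu).len ^ 2 ∧
      ∀ ρ : ℝ, h ≤ ρ → areaP f O u ≤ π * h ^ 2 →
        areaP f O u / ρ + 2 * ρ * W (h / ρ) ≤ (P.arc u hu).len := by
  have hA0 : 0 ≤ areaP f O u := areaP_nonneg f O u
  have hSA : (P.arc u hu).sarea = areaP f O u := psarea_eq hf hn hn0 hS hb hreg P u hu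
  obtain ⟨C, M, R, hR0, hcov, hlens⟩ := level_discs (P.arc u hu)
  have hcover : ∀ z ∈ lem f 1 ∩ O, ∃ c ∈ C, ‖z - M c‖ ≤ R c := by
    rintro z ⟨hz, hzO⟩
    by_contra hcon
    push Not at hcon
    have h1 := hcov z hcon
    have h2 : ‖f.eval z‖ < Real.exp u := lt_of_le_of_lt hz (Real.one_lt_exp_iff.2 hu0)
    rw [pwind_in hf hn hn0 hS hb hreg P u hu z hzO h2] at h1
    exact Complex.two_pi_I_ne_zero h1
  have hh' : h ≤ ∑ c ∈ C, R c := hnc _ (pg_cov C M R hR0 hcover)
  set h' : ℝ := ∑ c ∈ C, R c with hh'def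
  have hpos : 0 < h' := hh.trans_le hh'
  have hRle : ∀ c ∈ C, R c ≤ h' := fun c hc =>
    Finset.single_le_sum (f := R) (fun i _ => hR0 i) hc
  rw [hSA] at hlens
  have hsum : ∀ ρ : ℝ, 0 < ρ → 2 * ρ * W (h' / ρ) ≤ ∑ c ∈ C, 2 * ρ * W (R c / ρ) := by
    intro ρ hρ
    rw [← Finset.mul_sum, hh'def, Finset.sum_div]
    exact mul_le_mul_of_nonneg_left
      (W_sum_le C (fun c => R c / ρ) fun i _ => div_nonneg (hR0 i) hρ.le) (by positivity)
  have hstar : areaP f O u / h' + π * h' ≤ (P.arc u hu).len := by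
    have h1 := hlens h' hpos hRle
    have h2 := hsum h' hpos
    rw [div_self hpos.ne', W_one] at h2
    have h3 : 2 * h' * (π / 2) = π * h' := by ring
    rw [h3] at h2
    linarith
  have hAh : areaP f O u / h' * h' = areaP f O u := div_mul_cancel₀ _ hpos.ne'
  constructor
  · have h0 : 0 ≤ areaP f O u / h' + π * h' := by positivity
    have h1 : 4 * π * areaP f O u ≤ (areaP f O u / h' + π * h') ^ 2 := by
      have h2 : (areaP f O u / h' + π * h') ^ 2 =
          (areaP f O u / h' - π * h') ^ 2 + 4 * π * (areaP f O u / h' * h') := by ring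
      rw [h2, hAh]
      have := sq_nonneg (areaP f O u / h' - π * h')
      linarith
    exact h1.trans (pow_le_pow_left₀ h0 hstar 2)
  · intro ρ hρ hA
    have hρ0 : 0 < ρ := hh.trans_le hρ
    rcases le_or_gt h' ρ with hc | hc
    · have h1 := hlens ρ hρ0 fun c hc' => (hRle c hc').trans hc
      have h2 := hsum ρ hρ0
      have h3 : 2 * ρ * W (h / ρ) ≤ 2 * ρ * W (h' / ρ) :=
        mul_le_mul_of_nonneg_left (W_mono (div_le_div_of_nonneg_right hh' hρ0.le)) (by positivity)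
      linarith
    · have h1 : 2 * ρ * W (h / ρ) ≤ π * ρ := by
        have := mul_le_mul_of_nonneg_left (W_le (h / ρ)) (by positivity : 0 ≤ 2 * ρ)
        linarith
      have h2 : areaP f O u / ρ + π * ρ ≤ areaP f O u / h' + π * h' := by
        have h3 : areaP f O u ≤ π * (ρ * h') := by
          refine hA.trans ?_
          have : h ^ 2 ≤ ρ * h' := by nlinarith
          exact mul_le_mul_of_nonneg_left this Real.pi_pos.le
        have h4 : (areaP f O u / h' + π * h') - (areaP f O u / ρ + π * ρ) =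
            (h' - ρ) * (π * (ρ * h') - areaP f O u) / (ρ * h') := by
          field_simp
          ring
        have h5 : 0 ≤ (h' - ρ) * (π * (ρ * h') - areaP f O u) / (ρ * h') :=
          div_nonneg (mul_nonneg (by linarith) (by linarith)) (by positivity)
        linarith
      linarith

end Pool.Agent.H88.LE
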