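import Pool.Agent.H88.LE.PD
import Pool.Agent.H88.LE.PF
import Pool.Agent.H88.LE.PG
import Pool.Agent.H88.LD.CS
import Pool.Agent.H88.LD.GR

/-!
# LE-PH: growth of the area of a part across critical levels

`k = nz f O`. PROOFS: the same as those of `growth_reg`, `growth_all`, `lensGrowth` in LD/GR (use `finite_split`, `crit_finite`
from there), with `exists_plifts` instead of `exists_lifts`, `parea_growth`, `pkey_ineq`, `len_sq_le` (for `ArcSys k`:
`len² ≤ 2πk energy`) and private time: `u = k s`. In `plensGrowth`: for `0 ≤ s₁ < s₂ < log r/k` apply `pgrowth_all` with `x = k s₁`,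
`y = k s₂`, `e^y ≤ r`, and `m = 4π areaP f O x` or `m = (q areaP f O x/h + 2 (h/q) W q)²`.
-/

set_option autoImplicit false

open Polynomial Complex MeasureTheory Set
open scoped Real ComplexConjugate
open Pool.Agent.H88.LD

noncomputable section

namespace Pool.Agent.H88.LE

theorem pgrowth_reg {f : ℂ[X]} {n : ℕ} (hf : f.Monic) (hn : f.natDegree = n) (hn0 : 0 < n)
    {r : ℝ} {O O' : Set ℂ} (hS : Sep f r O O') (hk : 0 < nz f O) (x y : ℝ) (hxy : x < y)
    (hy : Real.exp y ≤ r) (hreg : ∀ u ∈ Ioo x y, Reg f u) (m : ℝ)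
    (hm : ∀ (a b : ℝ) (P : PLifts f O (nz f O) a b) (_ : ∀ u ∈ Ioo a b, Reg f u)
      (_ : Real.exp b ≤ r) (u : ℝ) (hu : u ∈ Ioo a b), u ∈ Ioo x y → m ≤ (P.arc u hu).len ^ 2) :
    m / (2 * π * nz f O) * (y - x) ≤ areaP f O y - areaP f O x := by
  obtain ⟨P⟩ := exists_plifts hf hn hn0 hS hxy hy hreg
  have hnd : f.natDegree ≠ 0 := by omega
  have hmono := areaP_mono hf hnd O
  have hkpos : (0 : ℝ) < nz f O := by exact_mod_cast hk
  have hc : 0 < 2 * π * nz f O := by positivity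
  have key : ∀ a' b', x < a' → a' ≤ b' → b' < y →
      m / (2 * π * nz f O) * (b' - a') ≤ areaP f O y - areaP f O x := by
    intro a' b' h1 h2 h3
    have h := parea_growth hf hnd hS.isOpen P a' b' h1 h2 h3 (m / (2 * π * nz f O)) (by
      intro u hu _
      have e1 := hm x y P hreg hy u hu hu
      have e2 := len_sq_le (P.arc u hu)
      rw [div_le_iff₀ hc]
      linarith)
    have e1 : areaP f O b' ≤ areaP f O y := hmono h3.le
    have e2 : areaP f O x ≤ areaP f O a' := hmono h1.le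
    linarith
  -- let δ → 0
  set D := areaP f O y - areaP f O x with hD
  set K := m / (2 * π * nz f O) with hK
  have hcont : Filter.Tendsto (fun δ : ℝ => K * ((y - δ) - (x + δ))) (nhdsWithin 0 (Ioi 0))
      (nhds (K * (y - x))) := by
    have : Continuous (fun δ : ℝ => K * ((y - δ) - (x + δ))) := by fun_prop
    have h := this.tendsto 0
    simp only [sub_zero, add_zero] at h
    exact h.mono_left nhdsWithin_le_nhds
  apply le_of_tendsto hcont
  have hI : Ioo (0 : ℝ) ((y - x) / 2) ∈ nhdsWithin (0 : ℝ) (Ioi 0) :=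
    Ioo_mem_nhdsGT (by linarith)
  filter_upwards [hI] with δ hδ
  exact key (x + δ) (y - δ) (by linarith [hδ.1]) (by linarith [hδ.2]) (by linarith [hδ.1])

theorem pgrowth_all {f : ℂ[X]} {n : ℕ} (hf : f.Monic) (hn : f.natDegree = n) (hn0 : 0 < n)
    {r : ℝ} {O O' : Set ℂ} (hS : Sep f r O O') (hk : 0 < nz f O) (x y : ℝ) (hxy : x < y)
    (hy : Real.exp y ≤ r) (m : ℝ)
    (hm : ∀ (a b : ℝ) (P : PLifts f O (nz f O) a b) (_ : ∀ u ∈ Ioo a b, Reg f u)
      (_ : Real.exp b ≤ r) (u : ℝ) (hu : u ∈ Ioo a b), u ∈ Ioo x y → m ≤ (P.arc u hu).len ^ 2) :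
    m / (2 * π * nz f O) * (y - x) ≤ areaP f O y - areaP f O x := by
  have hnd : f.natDegree ≠ 0 := by omega
  obtain ⟨C, hC⟩ := crit_finite f hf hnd
  apply finite_split (areaP f O) (m / (2 * π * nz f O)) C x y ?_ x y le_rfl hxy le_rfl
  intro x' y' h1 h2 h3 h4
  apply pgrowth_reg hf hn hn0 hS hk x' y' h2 ((Real.exp_le_exp.2 h3).trans hy)
  · intro u hu
    by_contra hcon
    exact h4 u (hC u hcon) hu
  · intro a b P hreg hb u hu hu'
    exact hm a b P hreg hb u hu ⟨lt_of_le_of_lt h1 hu'.1, lt_of_lt_of_le hu'.2 h3⟩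

theorem plensGrowth {f : ℂ[X]} {n : ℕ} (hf : f.Monic) (hn : f.natDegree = n) (hn0 : 0 < n)
    {r : ℝ} {O O' : Set ℂ} (hr : 0 < r) (hS : Sep f r O O') (hk : 0 < nz f O) (h : ℝ) (hh : 0 < h)
    (hnc : ∀ ρ, Cov (lem f 1 ∩ O) ρ → h ≤ ρ) :
    LensGrowthOn (fun s => areaP f O (nz f O * s) / h ^ 2) (Real.log r / nz f O) := by
  have hnd : f.natDegree ≠ 0 := by omega
  have hmono := areaP_mono hf hnd O
  have hkpos : (0 : ℝ) < nz f O := by exact_mod_cast hk
  have hnn : ∀ u, 0 ≤ areaP f O u := fun u => areaP_nonneg f O u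
  have hh2 : 0 < h ^ 2 := by positivity
  have hexp : ∀ s, s < Real.log r / nz f O → Real.exp (nz f O * s) ≤ r := by
    intro s hs
    rw [lt_div_iff₀ hkpos] at hs
    rw [← Real.le_log_iff_exp_le hr]
    linarith
  refine ⟨?_, ?_, ?_, ?_⟩
  · intro s₁ s₂ _ h2 _
    have : areaP f O (nz f O * s₁) ≤ areaP f O (nz f O * s₂) := hmono (by nlinarith)
    show areaP f O (nz f O * s₁) / h ^ 2 ≤ areaP f O (nz f O * s₂) / h ^ 2
    gcongr
  · intro s _ _
    show 0 ≤ areaP f O (nz f O * s) / h ^ 2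
    exact div_nonneg (hnn _) hh2.le
  · intro q hq hq1 s₁ s₂ h0 h1 hT hπ
    show (s₂ - s₁) / (2 * π) * (q * (areaP f O (nz f O * s₁) / h ^ 2) + 2 * W q / q) ^ 2 ≤
      areaP f O (nz f O * s₂) / h ^ 2 - areaP f O (nz f O * s₁) / h ^ 2
    have hπ' : areaP f O (nz f O * s₂) ≤ π * h ^ 2 := by
      have : areaP f O (nz f O * s₂) / h ^ 2 ≤ π := hπ
      rwa [div_le_iff₀ hh2] at this
    have hlt : (nz f O : ℝ) * s₁ < nz f O * s₂ := by nlinarith
    have hx0 : 0 ≤ (nz f O : ℝ) * s₁ := by positivity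
    set A := areaP f O (nz f O * s₁) with hA
    have hA0 : 0 ≤ A := hnn _
    have hWq : 0 ≤ W q := W_nonneg hq.le
    have hbase : 0 ≤ q * A / h + 2 * (h / q) * W q := by positivity
    have hg := pgrowth_all hf hn hn0 hS hk (nz f O * s₁) (nz f O * s₂) hlt (hexp s₂ hT)
      ((q * A / h + 2 * (h / q) * W q) ^ 2) (by
        intro a b P hreg hb u hu hu'
        have hu0 : 0 < u := lt_of_le_of_lt hx0 hu'.1
        have hk := (pkey_ineq hf hn hn0 hS hb hreg h hh hnc P u hu hu0).2 (h / q)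
          (by rw [le_div_iff₀ hq]; nlinarith)
          ((hmono hu'.2.le).trans hπ')
        have e1 : h / (h / q) = q := by field_simp
        rw [e1] at hk
        have e2 : A ≤ areaP f O u := hmono hu'.1.le
        have e3 : q * A / h ≤ areaP f O u / (h / q) := by
          have : areaP f O u / (h / q) = q * areaP f O u / h := by field_simp
          rw [this]
          gcongr
        have e4 : q * A / h + 2 * (h / q) * W q ≤ (P.arc u hu).len := by linarith
        exact pow_le_pow_left₀ hbase e4 2)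
    have e5 : (s₂ - s₁) / (2 * π) * (q * (A / h ^ 2) + 2 * W q / q) ^ 2 =
        ((q * A / h + 2 * (h / q) * W q) ^ 2 / (2 * π * nz f O) *
          (nz f O * s₂ - nz f O * s₁)) / h ^ 2 := by
      have hπ0 : π ≠ 0 := Real.pi_ne_zero
      have hh0 : h ≠ 0 := hh.ne'
      have hq0 : q ≠ 0 := hq.ne'
      have hn0' : (nz f O : ℝ) ≠ 0 := hkpos.ne'
      field_simp
    rw [e5, ← sub_div]
    gcongr
  · intro s₁ s₂ h0 h1 hT
    show 2 * (s₂ - s₁) * (areaP f O (nz f O * s₁) / h ^ 2) ≤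
      areaP f O (nz f O * s₂) / h ^ 2 - areaP f O (nz f O * s₁) / h ^ 2
    have hlt : (nz f O : ℝ) * s₁ < nz f O * s₂ := by nlinarith
    have hx0 : 0 ≤ (nz f O : ℝ) * s₁ := by positivity
    set A := areaP f O (nz f O * s₁) with hA
    have hg := pgrowth_all hf hn hn0 hS hk (nz f O * s₁) (nz f O * s₂) hlt (hexp s₂ hT)
      (4 * π * A) (by
        intro a b P hreg hb u hu hu'
        have hu0 : 0 < u := lt_of_le_of_lt hx0 hu'.1
        have hk := (pkey_ineq hf hn hn0 hS hb hreg h hh hnc P u hu hu0).1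
        have e2 : A ≤ areaP f O u := hmono hu'.1.le
        have e3 : 4 * π * A ≤ 4 * π * areaP f O u := by
          have : 0 < 4 * π := by positivity
          gcongr
        linarith)
    have e5 : 2 * (s₂ - s₁) * (A / h ^ 2) =
        (4 * π * A / (2 * π * nz f O) * (nz f O * s₂ - nz f O * s₁)) / h ^ 2 := by
      have hπ0 : π ≠ 0 := Real.pi_ne_zero
      have hh0 : h ≠ 0 := hh.ne'
      have hn0' : (nz f O : ℝ) ≠ 0 := hkpos.ne'
      field_simp
      ring
    rw [e5, ← sub_div]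
    gcongr

end Pool.Agent.H88.LE
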