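import Pool.Agent.H88.LE.Defs
import Pool.Agent.H88.LD.NU

/-!
# LE-PI: the function `B τ = 2.54 τ + τ³`

PROOF of `W_lb` (`0 ≤ q ≤ 4/5`): both sides vanish at `0`, derivatives: `2 √(1 - q²) ≥ 2 - q² - (2/5) q⁴`, i.e. with `x = q² ≤ 16/25`:
`√(1-x) ≥ 1 - x/2 - x²/5`; the square of the right side is `1 - x - (3/20) x² + x³/5 + x⁴/25 ≤ 1 - x`.

PROOF of `B_ode`: given `τ ≥ 0` with `B τ ≤ π` find `q`. `2π · 2.54 ≤ 15.9594`, `6π ≤ 18.8496`, so it is enough that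
`(q B + 2 W q/q)² > 15.9594 + 18.8496 τ²`.
* `τ ≤ 1/50`: `q = 1/20`: `2 W q/q ≥ 4 - (2/3) q² - (4/25) q⁴ ≥ 3.9983` (`W_lb`), square `> 15.986`.
* `1/50 ≤ τ ≤ 0.38`: `q = (3/4) B τ ∈ (0, 0.77]`; `q B + 4 - (2/3) q² - (4/25) q⁴ = 4 + (3/8) B² - (81/1600) B⁴`. With `x = τ² ≤ 0.1444`,
  `x (6.4516 + 5.08 x) ≤ B² = x (2.54 + x)² ≤ 7.206 x ≤ 1.041`, the square is
  `≥ 16 + 3 B² - 0.264375 B⁴ - 0.038 B⁶ ≥ 16 + 19.3548 x + 1.5 x² - 14.3 x³ > 15.9594 + 18.8496 x`.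
* `0.38 ≤ τ ≤ 0.57`: `q = 4/5`, `2 W (4/5)/(4/5) ≥ 3.518` (`W_param` with `t = 1/2` and `arctan_lower`, LD/NU):
  `(0.8 B + 3.518)² > 15.9594 + 18.8496 τ²` (values at `0.38`: `18.78 > 18.69`, at `0.57`: `23.2 > 22.1`).
* `0.57 ≤ τ`: `q = 1`, `2 W 1 = π` (`W_one`), `(B + 3.1415)² > 15.9594 + 18.8496 τ²` (at `0.57`: `22.7 > 22.1`; it holds for all larger `τ`).
(The numbers are rounded; adjust them if necessary, only the statements count.)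

PROOF of `B_iso`: `B τ ≥ π > 3.14` forces `τ ≥ 0.9`, and `2 B τ - (2.54 + 3τ²)` is increasing there and positive.
-/

set_option autoImplicit false

open Polynomial Complex MeasureTheory Set
open scoped Real ComplexConjugate
open Pool.Agent.H88.LD

noncomputable section

namespace Pool.Agent.H88.LE

theorem pi_sqrt {q : ℝ} (h0 : 0 ≤ q) (h1 : q ≤ 4 / 5) :
    2 - q ^ 2 - 2 / 5 * q ^ 4 ≤ 2 * √(1 - q ^ 2) := by
  have hx0 : 0 ≤ q ^ 2 := by positivity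
  have hx1 : q ^ 2 ≤ 16 / 25 := by nlinarith
  have hy : 0 ≤ 1 - q ^ 2 / 2 - (q ^ 2) ^ 2 / 5 := by nlinarith
  have h : 1 - q ^ 2 / 2 - (q ^ 2) ^ 2 / 5 ≤ √(1 - q ^ 2) := by
    refine Real.le_sqrt_of_sq_le ?_
    have e : (1 - q ^ 2 / 2 - (q ^ 2) ^ 2 / 5) ^ 2 = 1 - q ^ 2 +
        (q ^ 2) ^ 2 * (-3 / 20 + q ^ 2 / 5 + (q ^ 2) ^ 2 / 25) := by ring
    rw [e]
    have h2 : -3 / 20 + q ^ 2 / 5 + (q ^ 2) ^ 2 / 25 ≤ 0 := by nlinarith
    have h3 : (q ^ 2) ^ 2 * (-3 / 20 + q ^ 2 / 5 + (q ^ 2) ^ 2 / 25) ≤ 0 :=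
      mul_nonpos_of_nonneg_of_nonpos (by positivity) h2
    linarith
  nlinarith

theorem W_lb {q : ℝ} (h0 : 0 ≤ q) (h1 : q ≤ 4 / 5) :
    2 * q - q ^ 3 / 3 - 2 / 25 * q ^ 5 ≤ W q := by
  have hd : ∀ x : ℝ, HasDerivAt (fun q : ℝ => W q - (2 * q - q ^ 3 / 3 - 2 / 25 * q ^ 5))
      (2 * √(1 - x ^ 2) - (2 - x ^ 2 - 2 / 5 * x ^ 4)) x := by
    intro x
    have e := (nu_W_deriv x).sub (((((hasDerivAt_id x).const_mul 2).sub
      ((hasDerivAt_pow 3 x).div_const 3))).sub ((hasDerivAt_pow 5 x).const_mul (2 / 25)))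
    refine e.congr_deriv ?_
    push_cast
    ring
  have hm : MonotoneOn (fun q : ℝ => W q - (2 * q - q ^ 3 / 3 - 2 / 25 * q ^ 5))
      (Icc (0 : ℝ) (4 / 5)) := by
    refine monotoneOn_of_deriv_nonneg (convex_Icc _ _)
      (fun x _ => (hd x).continuousAt.continuousWithinAt)
      (fun x _ => (hd x).differentiableAt.differentiableWithinAt) ?_
    intro x hx
    rw [interior_Icc] at hx
    rw [(hd x).deriv]
    have := pi_sqrt hx.1.le hx.2.le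
    linarith
  have h2 := hm (left_mem_Icc.2 (by norm_num)) ⟨h0, h1⟩ h0
  simp only [W_zero] at h2
  norm_num at h2
  linarith

theorem pi_two : 2 * π < 31415927 / 5000000 := by
  have := Real.pi_lt_d20
  norm_num at this ⊢
  linarith

theorem pi_lb {q : ℝ} (h0 : 0 < q) (h1 : q ≤ 4 / 5) :
    4 - 2 / 3 * q ^ 2 - 4 / 25 * q ^ 4 ≤ 2 * W q / q := by
  rw [le_div_iff₀ h0]
  have := W_lb h0.le h1
  nlinarith

theorem pi_W45 : (3518 / 1000 : ℝ) ≤ 2 * W (4 / 5) / (4 / 5) :=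
  nu_low (t := 1 / 2) (by norm_num) (by norm_num) (by norm_num) (by norm_num)

theorem pi_case2 {x y : ℝ} (h0 : 0 ≤ x) (h1 : x ≤ 361 / 2500) (hy : y = x * (127 / 50 + x) ^ 2) :
    (127 / 50 + 3 * x) * (31415927 / 5000000) < (4 + 3 / 8 * y - 81 / 1600 * y ^ 2) ^ 2 := by
  have hy0 : 0 ≤ y := by rw [hy]; positivity
  have hyl : 16129 / 2500 * x + 127 / 25 * x ^ 2 ≤ y := by
    rw [hy]
    nlinarith [pow_nonneg h0 3]
  have hyu : y ≤ 721 / 100 * x := by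
    rw [hy]
    nlinarith [mul_nonneg h0 h0, mul_nonneg h0 (sub_nonneg.2 h1)]
  have hyu2 : y ^ 2 ≤ 5199 / 100 * x ^ 2 := by
    have : y ^ 2 ≤ (721 / 100 * x) ^ 2 := pow_le_pow_left₀ hy0 hyu 2
    nlinarith [pow_nonneg h0 2]
  have hyu3 : y ^ 3 ≤ 375 * x ^ 3 := by
    have : y ^ 3 ≤ (721 / 100 * x) ^ 3 := pow_le_pow_left₀ hy0 hyu 3
    nlinarith [pow_nonneg h0 3]
  have e : (4 + 3 / 8 * y - 81 / 1600 * y ^ 2) ^ 2 = 16 + 3 * y - 423 / 1600 * y ^ 2 -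
      243 / 6400 * y ^ 3 + (81 / 1600) ^ 2 * y ^ 4 := by ring
  rw [e]
  have hy4 : 0 ≤ (81 / 1600 : ℝ) ^ 2 * y ^ 4 := by positivity
  have hx3 : x ^ 3 ≤ 361 / 2500 * x ^ 2 := by
    have : x ^ 3 = x * x ^ 2 := by ring
    rw [this]
    exact mul_le_mul_of_nonneg_right h1 (by positivity)
  have hx2 : x ^ 2 ≤ 361 / 2500 * x := by
    have : x ^ 2 = x * x := by ring
    rw [this]
    exact mul_le_mul_of_nonneg_right h1 h0
  have hx20 : 0 ≤ x ^ 2 := by positivity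
  linarith

theorem B_ode {τ : ℝ} (h0 : 0 ≤ τ) (h1 : B τ ≤ π) :
    ∃ q : ℝ, 0 < q ∧ q ≤ 1 ∧ (127 / 50 + 3 * τ ^ 2) * (2 * π) < (q * B τ + 2 * W q / q) ^ 2 := by
  have hpi := pi_two
  have hpos : 0 < 127 / 50 + 3 * τ ^ 2 := by positivity
  have hB : 0 ≤ B τ := by unfold B; positivity
  have hL : (127 / 50 + 3 * τ ^ 2) * (2 * π) ≤ (127 / 50 + 3 * τ ^ 2) * (31415927 / 5000000) :=
    mul_le_mul_of_nonneg_left hpi.le hpos.le
  rcases le_total τ (1 / 50) with c1 | c1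
  · refine ⟨1 / 20, by norm_num, by norm_num, hL.trans_lt ?_⟩
    have h2 := pi_lb (q := 1 / 20) (by norm_num) (by norm_num)
    have h3 : (3998 / 1000 : ℝ) ≤ 1 / 20 * B τ + 2 * W (1 / 20) / (1 / 20) := by
      norm_num at h2 ⊢
      linarith
    have h4 : (3998 / 1000 : ℝ) ^ 2 ≤ (1 / 20 * B τ + 2 * W (1 / 20) / (1 / 20)) ^ 2 :=
      pow_le_pow_left₀ (by norm_num) h3 2
    refine lt_of_lt_of_le ?_ h4
    have h5 : τ ^ 2 ≤ (1 / 50) ^ 2 := pow_le_pow_left₀ h0 c1 2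
    norm_num at h5 ⊢
    linarith
  rcases le_total τ (19 / 50) with c2 | c2
  · have hBτ : B τ = 127 / 50 * τ + τ ^ 3 := rfl
    have hτ2 : τ ^ 2 ≤ 361 / 2500 := by nlinarith
    have hB1 : 0 < B τ := by
      rw [hBτ]
      have : 0 < τ := by linarith
      positivity
    have hB2 : B τ ≤ 26 / 25 := by
      have h2 : τ ^ 3 = τ * τ ^ 2 := by ring
      rw [hBτ, h2]
      nlinarith
    have hq0 : 0 < 3 / 4 * B τ := by positivity
    have hq1 : 3 / 4 * B τ ≤ 4 / 5 := by linarith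
    refine ⟨3 / 4 * B τ, hq0, by linarith, hL.trans_lt ?_⟩
    have h2 := pi_lb hq0 hq1
    have h3 : 4 + 3 / 8 * (B τ) ^ 2 - 81 / 1600 * ((B τ) ^ 2) ^ 2 ≤
        3 / 4 * B τ * B τ + 2 * W (3 / 4 * B τ) / (3 / 4 * B τ) := by
      nlinarith
    have hy : (B τ) ^ 2 = τ ^ 2 * (127 / 50 + τ ^ 2) ^ 2 := by rw [hBτ]; ring
    have h5 := pi_case2 (x := τ ^ 2) (y := (B τ) ^ 2) (by positivity) hτ2 hy
    refine h5.trans_le (pow_le_pow_left₀ ?_ h3 2)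
    have h6 : (B τ) ^ 2 ≤ (26 / 25) ^ 2 := pow_le_pow_left₀ hB hB2 2
    have h7 : 0 ≤ (B τ) ^ 2 := by positivity
    nlinarith
  rcases le_total τ (57 / 100) with c3 | c3
  · refine ⟨4 / 5, by norm_num, by norm_num, hL.trans_lt ?_⟩
    have h2 := pi_W45
    obtain ⟨s, hs⟩ : ∃ s, s = τ - 19 / 50 := ⟨_, rfl⟩
    have hs0 : 0 ≤ s := by rw [hs]; linarith
    have hs1 : s ≤ 19 / 100 := by rw [hs]; linarith
    have hτ : τ = 19 / 50 + s := by rw [hs]; ring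
    have h3 : 4334 / 1000 + 2378 / 1000 * s + 9 / 10 * s ^ 2 ≤
        4 / 5 * B τ + 2 * W (4 / 5) / (4 / 5) := by
      have : B τ = 1020072 / 1000000 + 29732 / 10000 * s + 114 / 100 * s ^ 2 + s ^ 3 := by
        unfold B
        rw [hτ]
        ring
      rw [this]
      have h4 : 0 ≤ s ^ 2 := by positivity
      have h5 : 0 ≤ s ^ 3 := by positivity
      linarith
    refine lt_of_lt_of_le ?_ (pow_le_pow_left₀ (by positivity) h3 2)
    have e : (4334 / 1000 + 2378 / 1000 * s + 9 / 10 * s ^ 2) ^ 2 =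
        4695889 / 250000 + 2576563 / 125000 * s + (5654884 / 1000000 + 78012 / 10000) * s ^ 2 +
          (42804 / 10000) * s ^ 3 + 81 / 100 * s ^ 4 := by ring
    rw [e, hτ]
    have h4 : 0 ≤ s ^ 3 := by positivity
    have h5 : 0 ≤ s ^ 4 := by positivity
    have h6 : s ^ 2 ≤ 19 / 100 * s := by nlinarith
    nlinarith
  · refine ⟨1, by norm_num, le_refl _, hL.trans_lt ?_⟩
    have h2 : (31415 / 10000 : ℝ) ≤ 2 * W 1 / 1 := by
      rw [W_one]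
      have := Real.pi_gt_d20
      norm_num at this ⊢
      linarith
    obtain ⟨s, hs⟩ : ∃ s, s = τ - 57 / 100 := ⟨_, rfl⟩
    have hs0 : 0 ≤ s := by rw [hs]; linarith
    have hτ : τ = 57 / 100 + s := by rw [hs]; ring
    have h3 : 4774 / 1000 + 3514 / 1000 * s + 171 / 100 * s ^ 2 ≤
        1 * B τ + 2 * W 1 / 1 := by
      have : B τ = 1632993 / 1000000 + 35147 / 10000 * s + 171 / 100 * s ^ 2 + s ^ 3 := by
        unfold B
        rw [hτ]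
        ring
      rw [this]
      have h4 : 0 ≤ s ^ 2 := by positivity
      have h5 : 0 ≤ s ^ 3 := by positivity
      linarith
    refine lt_of_lt_of_le ?_ (pow_le_pow_left₀ (by positivity) h3 2)
    have h4 : 0 ≤ s ^ 2 := by positivity
    have h5 : 0 ≤ s ^ 3 := by positivity
    have h6 : 0 ≤ s ^ 4 := by positivity
    rw [hτ]
    nlinarith

theorem B_iso {τ : ℝ} (h0 : 0 ≤ τ) (h1 : π ≤ B τ) : 127 / 50 + 3 * τ ^ 2 < 2 * B τ := by
  have hpi : (314 / 100 : ℝ) < π := by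
    have := Real.pi_gt_d20
    norm_num at this ⊢
    linarith
  have h2 : 314 / 100 < 127 / 50 * τ + τ ^ 3 := hpi.trans_le h1
  have h3 : 9 / 10 ≤ τ := by
    by_contra h
    push Not at h
    have h4 : τ ^ 3 ≤ (9 / 10) ^ 3 := pow_le_pow_left₀ h0 h.le 3
    norm_num at h4
    linarith
  unfold B
  obtain ⟨s, hs⟩ : ∃ s, s = τ - 9 / 10 := ⟨_, rfl⟩
  have hs0 : 0 ≤ s := by rw [hs]; linarith
  have hτ : τ = 9 / 10 + s := by rw [hs]; ring
  rw [hτ]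
  have h4 : 0 ≤ s ^ 2 := by positivity
  have h5 : 0 ≤ s ^ 3 := by positivity
  nlinarith

end Pool.Agent.H88.LE
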