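import Pool.Agent.H88.LE.Defs

/-!
# LE-SA: near a critical point there are two roots of `f = w`

PROOF. Let `η₀ = ‖w - f zc‖ > 0`. `f zc - w = ∏ i, (zc - z i)` (`f - C w` is monic of degree `n` with the `n` distinct roots `z i`), so
some `i` has `‖zc - z i‖ ≤ η₀^{1/n} =: δ`, and no `zc - z i` vanishes. Logarithmic derivative at `zc`:
`∑ i, 1/(zc - z i) = f'(zc)/(f zc - w) = 0`. So `1/δ ≤ ‖1/(zc - z i)‖ = ‖∑_{j ≠ i} 1/(zc - z j)‖ ≤ (n-1)/min_{j≠i} ‖zc - z j‖`; in particular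
`n ≥ 2` and some `j ≠ i` has `‖zc - z j‖ ≤ (n-1) δ`. Choose `η` with `n η^{1/n} < ε`.
-/

set_option autoImplicit false

open Polynomial Complex MeasureTheory Set
open scoped Real ComplexConjugate
open Pool.Agent.H88.LD

noncomputable section

namespace Pool.Agent.H88.LE

theorem sa_prod (f : ℂ[X]) (hf : f.Monic) (n : ℕ) (hn : f.natDegree = n) (hn0 : 0 < n) (w : ℂ)
    (z : Fin n → ℂ) (hz : Function.Injective z) (hw : ∀ i, f.eval (z i) = w) :
    f - C w = ∏ i, (X - C (z i)) := by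
  have hd : f.degree = n := by
    rw [← hn]
    exact degree_eq_natDegree hf.ne_zero
  have hlt : (C w : ℂ[X]).degree < f.degree := by
    rw [hd]
    refine lt_of_le_of_lt degree_C_le ?_
    exact_mod_cast hn0
  have hm1 : (f - C w).Monic := hf.sub_of_left hlt
  have hd1 : (f - C w).degree = n := by
    rw [degree_sub_eq_left_of_degree_lt hlt, hd]
  have hm2 : (∏ i, (X - C (z i)) : ℂ[X]).Monic := monic_prod_of_monic _ _ fun i _ => monic_X_sub_C _
  have hd2 : (∏ i, (X - C (z i)) : ℂ[X]).degree = n := by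
    rw [degree_prod]
    simp
  apply eq_of_degree_sub_lt_of_eval_finset_eq (Finset.univ.image z)
  · rw [Finset.card_image_of_injective _ hz, Finset.card_univ, Fintype.card_fin, ← hd1]
    refine degree_sub_lt_left (by rw [hd1, hd2]) hm1.ne_zero ?_
    rw [hm1.leadingCoeff, hm2.leadingCoeff]
  · intro x hx
    obtain ⟨i, -, rfl⟩ := Finset.mem_image.1 hx
    rw [eval_sub, eval_C, hw i, sub_self, eval_prod]
    symm
    apply Finset.prod_eq_zero (Finset.mem_univ i)
    simp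

theorem two_roots (f : ℂ[X]) (hf : f.Monic) (n : ℕ) (hn : f.natDegree = n) (hn0 : 0 < n)
    (zc : ℂ) (hcrit : f.derivative.eval zc = 0) (ε : ℝ) (hε : 0 < ε) :
    ∃ η : ℝ, 0 < η ∧ ∀ w : ℂ, w ≠ f.eval zc → ‖w - f.eval zc‖ < η →
      ∀ z : Fin n → ℂ, Function.Injective z → (∀ i, f.eval (z i) = w) →
        ∃ i j, i ≠ j ∧ ‖z i - zc‖ < ε ∧ ‖z j - zc‖ < ε := by
  have hnR : (0 : ℝ) < n := by exact_mod_cast hn0
  refine ⟨(ε / n) ^ n, by positivity, ?_⟩
  intro w hw hwη z hz hzw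
  have hp := sa_prod f hf n hn hn0 w z hz hzw
  have hev : f.eval zc - w = ∏ i, (zc - z i) := by
    have := congrArg (eval zc) hp
    rw [eval_sub, eval_C, eval_prod] at this
    simpa using this
  have hne : ∀ i, zc - z i ≠ 0 := by
    intro i hi
    apply hw
    have : ∏ i, (zc - z i) = 0 := Finset.prod_eq_zero (Finset.mem_univ i) hi
    rw [this] at hev
    exact (sub_eq_zero.1 hev).symm
  have hder : ∑ i, (zc - z i)⁻¹ = 0 := by
    have h1 : (f - C w).derivative.eval zc = 0 := by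
      rw [derivative_sub, derivative_C, sub_zero, hcrit]
    rw [hp, derivative_prod_finset, eval_finset_sum] at h1
    have h2 : ∀ i ∈ (Finset.univ : Finset (Fin n)),
        eval zc ((∏ j ∈ Finset.univ.erase i, (X - C (z j))) * derivative (X - C (z i))) =
          (f.eval zc - w) * (zc - z i)⁻¹ := by
      intro i _
      rw [hev, ← Finset.mul_prod_erase _ _ (Finset.mem_univ i), eval_mul, eval_prod]
      simp only [eval_sub, eval_X, eval_C, derivative_sub, derivative_X, derivative_C, sub_zero,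
        eval_one, mul_one]
      field_simp [hne i]
    rw [Finset.sum_congr rfl h2, ← Finset.mul_sum] at h1
    rcases mul_eq_zero.1 h1 with h | h
    · exact absurd (sub_eq_zero.1 h).symm hw
    · exact h
  have : Nonempty (Fin n) := ⟨⟨0, hn0⟩⟩
  obtain ⟨i, hi⟩ := Finite.exists_min (fun i => ‖zc - z i‖)
  have hi0 : 0 < ‖zc - z i‖ := norm_pos_iff.2 (hne i)
  have him : ‖zc - z i‖ < ε / n := by
    have h1 : ‖zc - z i‖ ^ n ≤ ‖w - f.eval zc‖ := by
      rw [norm_sub_rev w, hev, norm_prod]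
      calc ‖zc - z i‖ ^ n = ∏ _j : Fin n, ‖zc - z i‖ := by simp
        _ ≤ ∏ j, ‖zc - z j‖ := Finset.prod_le_prod (fun j _ => norm_nonneg _) fun j _ => hi j
    exact lt_of_pow_lt_pow_left₀ n (by positivity) (lt_of_le_of_lt h1 hwη)
  have hn1 : (1 : ℝ) ≤ n := by exact_mod_cast hn0
  have hin : ε / n ≤ ε := div_le_self hε.le hn1
  by_contra hcon
  push Not at hcon
  have hbig : ∀ j, j ≠ i → ε ≤ ‖zc - z j‖ := by
    intro j hj
    rw [norm_sub_rev]
    refine hcon i j (Ne.symm hj) ?_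
    rw [norm_sub_rev]
    linarith
  have hsum : (zc - z i)⁻¹ = -∑ j ∈ Finset.univ.erase i, (zc - z j)⁻¹ := by
    rw [← Finset.add_sum_erase _ _ (Finset.mem_univ i)] at hder
    exact eq_neg_of_add_eq_zero_left hder
  have hnorm : ‖zc - z i‖⁻¹ ≤ (n - 1 : ℝ) * ε⁻¹ := by
    rw [← norm_inv, hsum, norm_neg]
    refine (norm_sum_le _ _).trans ?_
    calc ∑ j ∈ Finset.univ.erase i, ‖(zc - z j)⁻¹‖ ≤ ∑ _j ∈ Finset.univ.erase i, ε⁻¹ := by
          refine Finset.sum_le_sum fun j hj => ?_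
          rw [norm_inv]
          exact inv_anti₀ hε (hbig j (Finset.ne_of_mem_erase hj))
      _ = (n - 1 : ℝ) * ε⁻¹ := by
          rw [Finset.sum_const, Finset.card_erase_of_mem (Finset.mem_univ i), Finset.card_univ,
            Fintype.card_fin, nsmul_eq_mul, Nat.cast_sub hn0]
          simp
  have h3 : ‖zc - z i‖⁻¹ > n * ε⁻¹ := by
    have h4 : (ε / n)⁻¹ < ‖zc - z i‖⁻¹ := inv_strictAnti₀ hi0 him
    rw [inv_div, div_eq_mul_inv] at h4
    exact h4
  have h5 : (0 : ℝ) < ε⁻¹ := inv_pos.2 hε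
  nlinarith

end Pool.Agent.H88.LE
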