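import Pool.Agent.H88.LE.Defs
import Pool.Agent.H88.LD.LI

/-!
# LE-XA: lifts on a half plane

PROOF: word by word that of `exists_lifts` (LD/LI) with the half plane `half a` (convex, open, nonempty, invariant under
`ω ↦ ω + 2πi`) instead of the strip; `li_roots` and `li_diff` of LD/LI can be used as they are.
-/

set_option autoImplicit false

open Polynomial Complex MeasureTheory Set
open scoped Real ComplexConjugate
open Pool.Agent.H88.LD

noncomputable section

namespace Pool.Agent.H88.LE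

theorem isOpen_half (a : ℝ) : IsOpen (half a) :=
  isOpen_lt continuous_const Complex.continuous_re

theorem xa_convex (a : ℝ) : Convex ℝ (half a) := by
  have h := (convex_Ioi a).linear_preimage Complex.reLm
  exact h

theorem xa_mem_mid (a : ℝ) : (((a + 1 : ℝ)) : ℂ) ∈ half a := by
  have h : a < (((a + 1 : ℝ)) : ℂ).re := by
    rw [Complex.ofReal_re]
    linarith
  exact h

theorem xa_shift_mem {a : ℝ} {ω : ℂ} (h : ω ∈ half a) : ω + 2 * π * I ∈ half a := by
  have h1 : a < ω.re := h
  have h2 : (ω + 2 * π * I).re = ω.re := by simp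
  have h3 : a < (ω + 2 * π * I).re := by rw [h2]; exact h1
  exact h3

theorem xa_deriv_ne {f : ℂ[X]} {a : ℝ} (hreg : ∀ u, a < u → Reg f u) {ω z : ℂ}
    (hω : ω ∈ half a) (hz : f.eval z = Complex.exp ω) : f.derivative.eval z ≠ 0 := by
  intro h0
  have h1 : a < ω.re := hω
  apply hreg ω.re h1 z h0
  rw [hz, Complex.norm_exp]

/-- existence and uniqueness of lifts with a prescribed value -/
theorem xa_exUnique {f : ℂ[X]} {a : ℝ} (hreg : ∀ u, a < u → Reg f u)
    (ω : half a) (z : ℂ) (hz : f.eval z = Complex.exp ω) :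
    ∃! F : C(half a, ℂ), F ω = z ∧ ∀ w : half a, f.eval (F w) = Complex.exp w := by
  have : ContractibleSpace (half a) := (xa_convex a).contractibleSpace ⟨_, xa_mem_mid a⟩
  have : LocallyPathConnectedSpace (half a) := (isOpen_half a).locallyPathConnectedSpace
  have h := (Polynomial.isCoveringMapOn_eval f).existsUnique_continuousMap_lifts
    (⟨fun w : half a => Complex.exp w, by fun_prop⟩ : C(half a, ℂ)) (a₀ := ω) (e₀ := z)
    (by simpa using hz) (by
      intro w
      simp only [ContinuousMap.coe_mk, mem_compl_iff, mem_image, Set.mem_ofPred_eq, not_exists, not_and]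
      intro k hk hk2
      exact xa_deriv_ne hreg w.2 hk2 hk)
  obtain ⟨F, ⟨hF1, hF2⟩, hF3⟩ := h
  refine ⟨F, ⟨hF1, fun w => congrFun hF2 w⟩, ?_⟩
  rintro G ⟨hG1, hG2⟩
  apply hF3 G
  exact ⟨hG1, funext hG2⟩

theorem xa_unique {f : ℂ[X]} {a : ℝ} (hreg : ∀ u, a < u → Reg f u)
    (ω : half a) (F G : C(half a, ℂ))
    (hF : ∀ w : half a, f.eval (F w) = Complex.exp w)
    (hG : ∀ w : half a, f.eval (G w) = Complex.exp w) (h : F ω = G ω) : F = G := by
  have hu := xa_exUnique hreg ω (G ω) (hG ω)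
  exact hu.unique ⟨h, hF⟩ ⟨rfl, hG⟩

theorem exists_hlifts (f : ℂ[X]) (hf : f.Monic) (n : ℕ) (hn : f.natDegree = n) (hn0 : 0 < n)
    (a : ℝ) (hreg : ∀ u, a < u → Reg f u) : Nonempty (HLifts f n a) := by
  classical
  set ω₀ : half a := ⟨_, xa_mem_mid a⟩ with hω₀
  obtain ⟨e, -⟩ := li_roots hf hn hn0 (Complex.exp ω₀)
    (fun z hz => xa_deriv_ne hreg ω₀.2 hz)
  have hex : ∀ i : Fin n, ∃ F : C(half a, ℂ), F ω₀ = (e i : ℂ) ∧
      ∀ w : half a, f.eval (F w) = Complex.exp w := fun i =>
    (xa_exUnique hreg ω₀ (e i : ℂ) (e i).2).exists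
  choose F hF0 hF1 using hex
  have hFinj : ∀ (ω : half a) (i j : Fin n), F i ω = F j ω → i = j := by
    intro ω i j h
    have h1 : F i = F j := xa_unique hreg ω _ _ (hF1 i) (hF1 j) h
    have h2 : (e i : ℂ) = (e j : ℂ) := by rw [← hF0 i, ← hF0 j, h1]
    exact e.injective (Subtype.ext h2)
  set sh : half a → half a := fun w => ⟨(w : ℂ) + 2 * π * I, xa_shift_mem w.2⟩ with hsh
  have hshc : Continuous sh := by
    rw [hsh]
    exact Continuous.subtype_mk (by fun_prop) _
  have hexp : ∀ w : half a, Complex.exp (sh w : ℂ) = Complex.exp w := by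
    intro w
    have : (sh w : ℂ) = (w : ℂ) + 2 * π * I := rfl
    rw [this, Complex.exp_periodic]
  have hG1 : ∀ (i : Fin n) (w : half a), f.eval (F i (sh w)) = Complex.exp w := by
    intro i w
    rw [hF1 i (sh w), hexp]
  set σ : Fin n → Fin n := fun i => e.symm ⟨F i (sh ω₀), hG1 i ω₀⟩ with hσ
  have hσe : ∀ i, (e (σ i) : ℂ) = F i (sh ω₀) := by
    intro i
    rw [hσ]
    simp
  have hσF : ∀ (i : Fin n) (w : half a), F i (sh w) = F (σ i) w := by
    intro i w
    have h1 : (F i).comp ⟨sh, hshc⟩ = F (σ i) := by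
      apply xa_unique hreg ω₀ _ _ (fun w => hG1 i w) (hF1 (σ i))
      rw [hF0, hσe]
      rfl
    have h2 := congrArg (fun G : C(half a, ℂ) => G w) h1
    exact h2
  have hσinj : Function.Injective σ := by
    intro i j h
    apply hFinj (sh ω₀) i j
    rw [← hσe, ← hσe, h]
  have hσbij : Function.Bijective σ := Finite.injective_iff_bijective.mp hσinj
  have hZ : ∀ (i : Fin n) (ω : ℂ) (h : ω ∈ half a),
      (if h : ω ∈ half a then F i ⟨ω, h⟩ else 0) = F i ⟨ω, h⟩ := by
    intro i ω h
    rw [dif_pos h]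
  refine ⟨{
    Z := fun i ω => if h : ω ∈ half a then F i ⟨ω, h⟩ else 0
    σ := Equiv.ofBijective σ hσbij
    diff := ?_
    eval := ?_
    inj := ?_
    shift := ?_ }⟩
  · intro i ω hω
    apply DifferentiableAt.differentiableWithinAt
    have hnh : half a ∈ nhds ω := (isOpen_half a).mem_nhds hω
    apply li_diff (f := f)
    · have hc : ContinuousOn (fun ω => if h : ω ∈ half a then F i ⟨ω, h⟩ else 0)
          (half a) := by
        rw [continuousOn_iff_continuous_domRestrict]
        have : (half a).domRestrict (fun ω => if h : ω ∈ half a then F i ⟨ω, h⟩ else 0)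
            = F i := by
          ext w
          simp [Set.domRestrict]
        rw [this]
        exact (F i).continuous
      exact hc.continuousAt hnh
    · filter_upwards [hnh] with w hw
      rw [hZ i w hw]
      exact hF1 i ⟨w, hw⟩
    · rw [hZ i ω hω]
      exact xa_deriv_ne hreg hω (hF1 i ⟨ω, hω⟩)
  · intro i ω hω
    rw [hZ i ω hω]
    exact hF1 i ⟨ω, hω⟩
  · intro ω hω i j hij
    simp only at hij
    rw [hZ i ω hω, hZ j ω hω] at hij
    exact hFinj ⟨ω, hω⟩ i j hij
  · intro i ω hω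
    rw [hZ i _ (xa_shift_mem hω), hZ _ ω hω]
    exact hσF i ⟨ω, hω⟩

/-- restriction to a strip -/
def HLifts.toLifts {f : ℂ[X]} {n : ℕ} {a : ℝ} (L : HLifts f n a) (x y : ℝ) (hx : a ≤ x) :
    Lifts f n x y where
  Z := L.Z
  σ := L.σ
  diff i := (L.diff i).mono (fun ω hω => lt_of_le_of_lt hx hω.1)
  eval i ω hω := L.eval i ω (lt_of_le_of_lt hx hω.1)
  inj ω hω := L.inj ω (lt_of_le_of_lt hx hω.1)
  shift i ω hω := L.shift i ω (lt_of_le_of_lt hx hω.1)

end Pool.Agent.H88.LE
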