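import Pool.Agent.H88.LE.Defs

/-!
# LE-XB: Laurent (Fourier) expansion of a `2πi`-periodic holomorphic function on a half plane

PROOF of `laurent`. Let `c s m = (1/2π) ∫_0^{2π} G (s + iθ) e^{-imθ} dθ`. For `b < s < s'` Cauchy's theorem on the rectangle
`[s,s'] × [0,2π]` for the holomorphic function `ω ↦ G ω e^{-mω}` (`Complex.integral_boundary_rect_eq_zero_of_differentiableOn`;
the horizontal sides cancel by periodicity) gives `e^{-ms} c s m = e^{-ms'} c s' m`. Put `C m = e^{-ms} c s m` (any `s > b`).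
(1) is the definition. (2): `‖C m‖ e^{ms} ≤ max_θ ‖G (s + iθ)‖ =: M s`. For `b < s₁ < s < s₂`:
`‖C m‖ e^{ms} ≤ M s₂ e^{-m(s₂ - s)}` for `m ≥ 0` and `≤ M s₁ e^{-|m|(s - s₁)}` for `m ≤ 0`: summable with the weight `m²`.
(3): the function `θ ↦ G (s + iθ)` is continuous, `2π`-periodic with summable Fourier coefficients `C m e^{ms}`:
`has_pointwise_sum_fourier_series_of_summable` on `AddCircle (2π)` (or: the difference of `G (s+iθ)` and the sum of
the series is continuous with all Fourier coefficients `0`).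
-/

set_option autoImplicit false

open Polynomial Complex MeasureTheory Set
open scoped Real ComplexConjugate
open Pool.Agent.H88.LD

noncomputable section

namespace Pool.Agent.H88.LE

theorem xb_mem {b s : ℝ} (hs : b < s) (θ : ℝ) : ((s : ℂ) + θ * I) ∈ half b := by
  have : b < ((s : ℂ) + θ * I).re := by simpa using hs
  exact this

theorem xb_cont {b : ℝ} {G : ℂ → ℂ} (hG : DifferentiableOn ℂ G (half b)) {s : ℝ} (hs : b < s) :
    Continuous (fun θ : ℝ => G (s + θ * I)) :=
  hG.continuousOn.comp_continuous (by fun_prop) (xb_mem hs)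

theorem xb_exp (m : ℤ) : Complex.exp (-(m * (2 * π * I))) = 1 := by
  have h := Complex.exp_int_mul_two_pi_mul_I (-m)
  rw [← h]
  congr 1
  push_cast
  ring

/-- the coefficients do not depend on the line -/
theorem xb_shift {b : ℝ} {G : ℂ → ℂ} (hG : DifferentiableOn ℂ G (half b))
    (hper : ∀ ω ∈ half b, G (ω + 2 * π * I) = G ω) (m : ℤ) {s s' : ℝ} (hs : b < s)
    (hs' : b < s') :
    Complex.exp (-(m * s)) * ∫ θ in (0 : ℝ)..(2 * π), G (s + θ * I) * Complex.exp (-(m * θ * I)) =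
    Complex.exp (-(m * s')) *
      ∫ θ in (0 : ℝ)..(2 * π), G (s' + θ * I) * Complex.exp (-(m * θ * I)) := by
  set F : ℂ → ℂ := fun ω => G ω * Complex.exp (-(m * ω)) with hF
  have hFd : DifferentiableOn ℂ F (half b) := hG.mul (by fun_prop)
  have hrect : (uIcc s s' ×ℂ uIcc 0 (2 * π)) ⊆ half b := by
    intro ω hω
    have h1 : ω.re ∈ uIcc s s' := hω.1
    have h2 : min s s' ≤ ω.re := h1.1
    have h3 : b < min s s' := lt_min hs hs'
    exact lt_of_lt_of_le h3 h2
  have h : (∫ x : ℝ in s..s', F (x + (0 : ℝ) * I)) - (∫ x : ℝ in s..s', F (x + (2 * π : ℝ) * I)) +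
      I • (∫ y : ℝ in (0 : ℝ)..(2 * π), F ((s' : ℝ) + y * I)) -
      I • (∫ y : ℝ in (0 : ℝ)..(2 * π), F ((s : ℝ) + y * I)) = 0 :=
    Complex.integral_boundary_rect_eq_zero_of_differentiableOn F ⟨s, 0⟩ ⟨s', 2 * π⟩
      (hFd.mono hrect)
  have hhor : (∫ x : ℝ in s..s', F (x + (0 : ℝ) * I)) =
      ∫ x : ℝ in s..s', F (x + (2 * π : ℝ) * I) := by
    apply intervalIntegral.integral_congr
    intro x hx
    have hx1 : min s s' ≤ x := hx.1
    have hx2 : b < x := lt_of_lt_of_le (lt_min hs hs') hx1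
    have hx3 : (x : ℂ) ∈ half b := by
      have : b < (x : ℂ).re := by simpa using hx2
      exact this
    have e1 : ((x : ℂ) + ((2 * π : ℝ) : ℂ) * I) = (x : ℂ) + 2 * π * I := by push_cast; ring
    have e2 : ((x : ℂ) + ((0 : ℝ) : ℂ) * I) = (x : ℂ) := by simp
    simp only [hF]
    rw [e1, e2, hper _ hx3]
    congr 1
    have e3 : (-(m * ((x : ℂ) + 2 * π * I))) = -(m * (x : ℂ)) + -(m * (2 * π * I)) := by ring
    rw [e3, Complex.exp_add, xb_exp, mul_one]
  have hver : ∀ r : ℝ, (∫ y : ℝ in (0 : ℝ)..(2 * π), F ((r : ℝ) + y * I)) =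
      Complex.exp (-(m * r)) *
        ∫ θ in (0 : ℝ)..(2 * π), G (r + θ * I) * Complex.exp (-(m * θ * I)) := by
    intro r
    rw [← intervalIntegral.integral_const_mul]
    apply intervalIntegral.integral_congr
    intro y _
    simp only [hF]
    have e3 : (-(m * ((r : ℂ) + y * I))) = -(m * (r : ℂ)) + -(m * y * I) := by ring
    rw [e3, Complex.exp_add]
    ring
  rw [hhor, sub_self, zero_add, ← smul_sub, smul_eq_zero] at h
  rcases h with h | h
  · exact absurd h I_ne_zero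
  · rw [hver s', hver s, sub_eq_zero] at h
    exact h.symm

theorem xb_bound {b : ℝ} {G : ℂ → ℂ} (hG : DifferentiableOn ℂ G (half b)) {s : ℝ} (hs : b < s) :
    ∃ M : ℝ, 0 ≤ M ∧ ∀ m : ℤ, ‖(1 / (2 * π) : ℂ) *
      ∫ θ in (0 : ℝ)..(2 * π), G (s + θ * I) * Complex.exp (-(m * θ * I))‖ ≤ M := by
  obtain ⟨M, hM⟩ := (isCompact_Icc (a := (0 : ℝ)) (b := 2 * π)).exists_bound_of_continuousOn
    (xb_cont hG hs).continuousOn
  have hpi : (0 : ℝ) < 2 * π := Real.two_pi_pos
  have hM0 : 0 ≤ M := le_trans (norm_nonneg _) (hM 0 ⟨le_refl _, hpi.le⟩)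
  refine ⟨M, hM0, fun m => ?_⟩
  have h1 : ‖∫ θ in (0 : ℝ)..(2 * π), G (s + θ * I) * Complex.exp (-(m * θ * I))‖ ≤
      M * |2 * π - 0| := by
    apply intervalIntegral.norm_integral_le_of_norm_le_const
    intro θ hθ
    rw [uIoc_of_le hpi.le] at hθ
    have e1 : ‖Complex.exp (-(m * θ * I))‖ = 1 := by
      have : (-(m * θ * I) : ℂ) = ((-(m * θ) : ℝ) : ℂ) * I := by push_cast; ring
      rw [this, Complex.norm_exp_ofReal_mul_I]
    rw [norm_mul, e1, mul_one]
    exact hM θ ⟨hθ.1.le, hθ.2⟩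
  rw [sub_zero, abs_of_pos hpi] at h1
  rw [norm_mul]
  have e2 : ‖(1 / (2 * π) : ℂ)‖ = 1 / (2 * π) := by
    have : (1 / (2 * π) : ℂ) = ((1 / (2 * π) : ℝ) : ℂ) := by push_cast; ring
    rw [this, Complex.norm_real, Real.norm_of_nonneg (by positivity)]
  rw [e2]
  calc 1 / (2 * π) * ‖∫ θ in (0 : ℝ)..(2 * π), G (s + θ * I) * Complex.exp (-(m * θ * I))‖
      ≤ 1 / (2 * π) * (M * (2 * π)) := by gcongr
    _ = M := by field_simp

theorem xb_summable {c : ℤ → ℝ} (hc : ∀ m, 0 ≤ c m) {s δ M₁ M₂ : ℝ} (hδ : 0 < δ)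
    (hM₁ : 0 ≤ M₁) (hM₂ : 0 ≤ M₂)
    (h₁ : ∀ m : ℤ, c m * Real.exp (m * (s - δ)) ≤ M₁)
    (h₂ : ∀ m : ℤ, c m * Real.exp (m * (s + δ)) ≤ M₂) (k : ℕ) :
    Summable (fun m : ℤ => |(m : ℝ)| ^ k * (c m * Real.exp (m * s))) := by
  have hg : Summable (fun m : ℤ => (M₁ + M₂) * (|(m : ℝ)| ^ k * Real.exp (-δ * |(m : ℝ)|))) := by
    apply Summable.mul_left
    have hn := Real.summable_pow_mul_exp_neg_nat_mul k hδ
    rw [summable_int_iff_summable_nat_and_neg]
    constructor
    · refine hn.congr (fun n => ?_)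
      simp
    · refine hn.congr (fun n => ?_)
      simp
  refine Summable.of_nonneg_of_le (fun m => ?_) (fun m => ?_) hg
  · have := hc m
    positivity
  · have key : c m * Real.exp (m * s) ≤ (M₁ + M₂) * Real.exp (-δ * |(m : ℝ)|) := by
      rcases le_total 0 (m : ℝ) with hm | hm
      · have e : Real.exp (m * s) = Real.exp (m * (s + δ)) * Real.exp (-δ * |(m : ℝ)|) := by
          rw [← Real.exp_add, abs_of_nonneg hm]
          congr 1
          ring
        rw [e, ← mul_assoc]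
        have h3 : c m * Real.exp (m * (s + δ)) ≤ M₁ + M₂ := by
          have := h₂ m
          linarith
        exact mul_le_mul_of_nonneg_right h3 (Real.exp_pos _).le
      · have e : Real.exp (m * s) = Real.exp (m * (s - δ)) * Real.exp (-δ * |(m : ℝ)|) := by
          rw [← Real.exp_add, abs_of_nonpos hm]
          congr 1
          ring
        rw [e, ← mul_assoc]
        have h3 : c m * Real.exp (m * (s - δ)) ≤ M₁ + M₂ := by
          have := h₁ m
          linarith
        exact mul_le_mul_of_nonneg_right h3 (Real.exp_pos _).le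
    calc |(m : ℝ)| ^ k * (c m * Real.exp (m * s))
        ≤ |(m : ℝ)| ^ k * ((M₁ + M₂) * Real.exp (-δ * |(m : ℝ)|)) :=
          mul_le_mul_of_nonneg_left key (by positivity)
      _ = (M₁ + M₂) * (|(m : ℝ)| ^ k * Real.exp (-δ * |(m : ℝ)|)) := by ring

theorem laurent (b : ℝ) (G : ℂ → ℂ) (hG : DifferentiableOn ℂ G (half b))
    (hper : ∀ ω ∈ half b, G (ω + 2 * π * I) = G ω) :
    ∃ C : ℤ → ℂ,
      (∀ s, b < s → ∀ m : ℤ, C m * Real.exp (m * s) =
        1 / (2 * π) * ∫ θ in (0 : ℝ)..(2 * π), G (s + θ * I) * Complex.exp (-(m * θ * I))) ∧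
      (∀ s, b < s → Summable (fun m : ℤ => (m : ℝ) ^ 2 * (‖C m‖ * Real.exp (m * s)))) ∧
      (∀ s, b < s → Summable (fun m : ℤ => ‖C m‖ * Real.exp (m * s))) ∧
      (∀ s, b < s → ∀ θ : ℝ,
        HasSum (fun m : ℤ => C m * Complex.exp (m * (s + θ * I))) (G (s + θ * I))) := by
  classical
  set J : ℝ → ℤ → ℂ := fun s m =>
    ∫ θ in (0 : ℝ)..(2 * π), G (s + θ * I) * Complex.exp (-(m * θ * I)) with hJ
  obtain ⟨C, hC⟩ : ∃ C : ℤ → ℂ, C = fun m : ℤ => 1 / (2 * π) *
    (Complex.exp (-(m * ((b + 1 : ℝ) : ℂ))) * J (b + 1) m) := ⟨_, rfl⟩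
  have hexp : ∀ (m : ℤ) (s : ℝ), ((Real.exp (m * s) : ℝ) : ℂ) = Complex.exp (m * s) := by
    intro m s
    rw [Complex.ofReal_exp]
    push_cast
    rfl
  have h1 : ∀ s, b < s → ∀ m : ℤ, C m * Real.exp (m * s) = 1 / (2 * π) * J s m := by
    intro s hs m
    have hsh := xb_shift hG hper m (show b < b + 1 by linarith) hs
    simp only [hC, hJ]
    rw [hsh, hexp]
    have e : Complex.exp (-(m * (s : ℂ))) * Complex.exp (m * s) = 1 := by
      rw [← Complex.exp_add, neg_add_cancel, Complex.exp_zero]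
    linear_combination (1 / (2 * π) *
      ∫ θ in (0 : ℝ)..(2 * π), G (s + θ * I) * Complex.exp (-(m * θ * I))) * e
  have h2 : ∀ s, b < s → ∃ M : ℝ, 0 ≤ M ∧ ∀ m : ℤ, ‖C m‖ * Real.exp (m * s) ≤ M := by
    intro s hs
    obtain ⟨M, hM0, hM⟩ := xb_bound hG hs
    refine ⟨M, hM0, fun m => ?_⟩
    have e : ‖C m‖ * Real.exp (m * s) = ‖C m * (Real.exp (m * s) : ℝ)‖ := by
      rw [norm_mul, Complex.norm_real, Real.norm_of_nonneg (Real.exp_pos _).le]
    rw [e, h1 s hs m]
    exact hM m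
  have h3 : ∀ s, b < s → ∀ k : ℕ,
      Summable (fun m : ℤ => |(m : ℝ)| ^ k * (‖C m‖ * Real.exp (m * s))) := by
    intro s hs k
    have hδ : 0 < (s - b) / 2 := by linarith
    obtain ⟨M₁, hM₁, hb₁⟩ := h2 (s - (s - b) / 2) (by linarith)
    obtain ⟨M₂, hM₂, hb₂⟩ := h2 (s + (s - b) / 2) (by linarith)
    exact xb_summable (fun m => norm_nonneg _) hδ hM₁ hM₂ hb₁ hb₂ k
  have h4 : ∀ s, b < s → Summable (fun m : ℤ => ‖C m‖ * Real.exp (m * s)) := by
    intro s hs
    refine (h3 s hs 0).congr (fun m => ?_)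
    rw [pow_zero, one_mul]
  refine ⟨C, h1, ?_, h4, ?_⟩
  · intro s hs
    refine (h3 s hs 2).congr (fun m => ?_)
    rw [sq_abs]
  · intro s hs θ
    have hT : Fact (0 < 2 * π) := ⟨Real.two_pi_pos⟩
    have hp : Function.Periodic (fun θ : ℝ => G (s + θ * I)) (2 * π) := by
      intro θ
      have h := hper _ (xb_mem hs θ)
      simp only
      rw [← h]
      congr 1
      push_cast
      ring
    have hcont := xb_cont hG hs
    set g : C(AddCircle (2 * π), ℂ) :=
      ⟨hp.lift, continuous_coinduced_dom.mpr hcont⟩ with hg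
    have hgv : ∀ x : ℝ, g (x : AddCircle (2 * π)) = G (s + x * I) := fun x => hp.lift_coe x
    have hcoe : ∀ m : ℤ, fourierCoeff g m = C m * Real.exp (m * s) := by
      intro m
      rw [h1 s hs m, fourierCoeff_eq_intervalIntegral g m 0, zero_add]
      have e1 : (∫ x in (0 : ℝ)..(2 * π), fourier (-m) (x : AddCircle (2 * π)) •
          g (x : AddCircle (2 * π))) = J s m := by
        simp only [hJ]
        apply intervalIntegral.integral_congr
        intro x _
        simp only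
        rw [hgv, fourier_coe_apply, smul_eq_mul, mul_comm]
        congr 2
        have hpi : ((2 * π : ℝ) : ℂ) ≠ 0 := by
          exact_mod_cast Real.two_pi_pos.ne'
        push_cast at hpi ⊢
        field_simp
      rw [e1]
      rw [Complex.real_smul]
      push_cast
      ring
    have hsum : Summable (fourierCoeff g) := by
      apply Summable.of_norm
      refine (h4 s hs).congr (fun m => ?_)
      rw [hcoe m, norm_mul, Complex.norm_real, Real.norm_of_nonneg (Real.exp_pos _).le]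
    have hfin := has_pointwise_sum_fourier_series_of_summable hsum (θ : AddCircle (2 * π))
    rw [hgv] at hfin
    have hfun : (fun m : ℤ => fourierCoeff g m • (fourier m (θ : AddCircle (2 * π)) : ℂ)) =
        fun m : ℤ => C m * Complex.exp (m * (s + θ * I)) := by
      funext m
      rw [hcoe m, fourier_coe_apply, smul_eq_mul, hexp, mul_assoc, ← Complex.exp_add]
      congr 2
      have hpi : ((2 * π : ℝ) : ℂ) ≠ 0 := by
        exact_mod_cast Real.two_pi_pos.ne'
      push_cast at hpi ⊢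
      field_simp
    rw [hfun] at hfin
    exact hfin

end Pool.Agent.H88.LE
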