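import Pool.Agent.H88.LE.Defs

/-!
# LE-XBa: bounds for the coefficients

PROOF of `coeff_le`: norm of the integral `≤ 2π M`.

PROOF of `coeff_zero`, `coeff_one`: divide by `e^{ms}` (resp. `e^s`) and let `s → ∞`.
-/

set_option autoImplicit false

open Polynomial Complex MeasureTheory Set
open scoped Real ComplexConjugate
open Pool.Agent.H88.LD

noncomputable section

namespace Pool.Agent.H88.LE

theorem coeff_le (G : ℂ → ℂ) (C : ℤ → ℂ) (s M : ℝ)
    (hC : ∀ m : ℤ, C m * Real.exp (m * s) =
      1 / (2 * π) * ∫ θ in (0 : ℝ)..(2 * π), G (s + θ * I) * Complex.exp (-(m * θ * I)))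
    (hM : ∀ θ : ℝ, ‖G (s + θ * I)‖ ≤ M) (m : ℤ) : ‖C m‖ * Real.exp (m * s) ≤ M := by
  have h1 : ‖C m‖ * Real.exp (m * s) = ‖C m * ((Real.exp (m * s) : ℝ) : ℂ)‖ := by
    rw [norm_mul, Complex.norm_real, Real.norm_eq_abs, abs_of_pos (Real.exp_pos _)]
  have h2 : ‖∫ θ in (0 : ℝ)..(2 * π), G (s + θ * I) * Complex.exp (-(m * θ * I))‖
      ≤ M * |2 * π - 0| := by
    apply intervalIntegral.norm_integral_le_of_norm_le_const
    intro θ _
    rw [norm_mul, Complex.norm_exp]
    have : (-((m : ℂ) * (θ : ℂ) * I)).re = 0 := by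
      simp
    rw [this, Real.exp_zero, mul_one]
    exact hM θ
  have hπ : (0 : ℝ) < 2 * π := by positivity
  rw [h1, hC m, norm_mul]
  have h3 : ‖(1 / (2 * (π : ℂ)))‖ = 1 / (2 * π) := by
    rw [norm_div, norm_mul, Complex.norm_real, Real.norm_eq_abs, abs_of_pos Real.pi_pos]
    simp
  rw [h3]
  rw [sub_zero, abs_of_pos hπ] at h2
  calc 1 / (2 * π) * ‖∫ θ in (0 : ℝ)..(2 * π), G (s + θ * I) * Complex.exp (-(m * θ * I))‖
      ≤ 1 / (2 * π) * (M * (2 * π)) := by
        apply mul_le_mul_of_nonneg_left h2 (by positivity)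
    _ = M := by field_simp

/-- growth `e^{γ s}` forces the coefficients with `m > γ` to vanish -/
theorem coeff_zero (c A γ K b : ℝ) (m : ℤ) (hm : γ < m)
    (h : ∀ s, b < s → c * Real.exp (m * s) ≤ A * Real.exp (γ * s) + K) (hm0 : 0 < m) : c ≤ 0 := by
  have hm' : (0 : ℝ) < m := by exact_mod_cast hm0
  have hlim : Filter.Tendsto (fun s : ℝ => A * Real.exp (-((m - γ) * s)) + K * Real.exp (-(m * s)))
      Filter.atTop (nhds (A * 0 + K * 0)) := by
    apply Filter.Tendsto.add
    · apply Filter.Tendsto.const_mul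
      exact Real.tendsto_exp_neg_atTop_nhds_zero.comp
        (Filter.Tendsto.const_mul_atTop (by linarith) Filter.tendsto_id)
    · apply Filter.Tendsto.const_mul
      exact Real.tendsto_exp_neg_atTop_nhds_zero.comp
        (Filter.Tendsto.const_mul_atTop hm' Filter.tendsto_id)
  rw [mul_zero, mul_zero, add_zero] at hlim
  refine ge_of_tendsto hlim ?_
  filter_upwards [Filter.eventually_gt_atTop b] with s hs
  have h1 := mul_le_mul_of_nonneg_right (h s hs) (Real.exp_pos (-(m * s))).le
  have e1 : c * Real.exp (m * s) * Real.exp (-(m * s)) = c := by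
    rw [mul_assoc, ← Real.exp_add]; simp
  have e2 : (A * Real.exp (γ * s) + K) * Real.exp (-(m * s))
      = A * Real.exp (-((m - γ) * s)) + K * Real.exp (-(m * s)) := by
    rw [add_mul, mul_assoc, ← Real.exp_add]
    congr 3
    ring
  rw [e1, e2] at h1
  exact h1

theorem coeff_one (c A K b : ℝ)
    (h : ∀ s, b < s → c * Real.exp s ≤ A * Real.exp s + K) : c ≤ A := by
  have hlim : Filter.Tendsto (fun s : ℝ => A + K * Real.exp (-s))
      Filter.atTop (nhds (A + K * 0)) := by
    apply Filter.Tendsto.const_add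
    apply Filter.Tendsto.const_mul
    exact Real.tendsto_exp_neg_atTop_nhds_zero
  rw [mul_zero, add_zero] at hlim
  refine ge_of_tendsto hlim ?_
  filter_upwards [Filter.eventually_gt_atTop b] with s hs
  have h1 := mul_le_mul_of_nonneg_right (h s hs) (Real.exp_pos (-s)).le
  have e1 : c * Real.exp s * Real.exp (-s) = c := by
    rw [mul_assoc, ← Real.exp_add]; simp
  have e2 : (A * Real.exp s + K) * Real.exp (-s) = A + K * Real.exp (-s) := by
    rw [add_mul, mul_assoc, ← Real.exp_add]; simp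
  rw [e1, e2] at h1
  exact h1

end Pool.Agent.H88.LE
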