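import Pool.Agent.H88.LE.Defs

/-!
# LE-XBb: the area series (Green and Parseval)

PROOF of `area_series`: with `g θ = G (s + iθ) = ∑ C m e^{ms} e^{imθ}`, `g' θ = deriv G (s+iθ) I = ∑ i m C m e^{ms} e^{imθ}` (differentiate the
series for `g` termwise in `θ`: the derivatives `i m C m e^{ms} e^{imθ}` have norms `|m| ‖C m‖ e^{ms} ≤ m² ‖C m‖ e^{ms}`, summable: `hasDerivAt_tsum`;
and `θ ↦ G (s+iθ)` has the derivative `deriv G (s+iθ) I`): `∫_0^{2π} conj g g' = 2π ∑ i m ‖C m‖² e^{2ms}` (multiply the two absolutely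
convergent series and integrate termwise with `∫_0^{2π} e^{i(m-m')θ} dθ = 2π δ_{m m'}`; or the Parseval/Plancherel theorem for
`L²(AddCircle)`). Take the imaginary part. Summability: `‖C m‖ e^{ms}` is bounded, `|m| ‖C m‖² e^{2ms} ≤ K m² ‖C m‖ e^{ms}`.
A way to have only one sum: for fixed `m`, `∫ conj (g θ) (i m C m e^{ms} e^{imθ}) dθ = i m C m e^{ms} conj (∫ g θ e^{-imθ} dθ)
= 2π i m ‖C m‖² e^{2ms}` where the last integral is again termwise; then sum over `m` (`hasSum_integral_of_summable_norm`-like).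
-/

set_option autoImplicit false

open Polynomial Complex MeasureTheory Set
open scoped Real ComplexConjugate
open Pool.Agent.H88.LD

noncomputable section

namespace Pool.Agent.H88.LE

private theorem xbb_congr {E : Type*} [AddCommMonoid E] [TopologicalSpace E] {f g : ℤ → E} {a : E}
    (hf : HasSum f a) (h : ∀ m, f m = g m) : HasSum g a := by
  have e : f = g := funext h
  rwa [← e]

set_option linter.unusedVariables false in
theorem area_series (b : ℝ) (G : ℂ → ℂ) (hG : DifferentiableOn ℂ G (half b))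
    (hper : ∀ ω ∈ half b, G (ω + 2 * π * I) = G ω) (C : ℤ → ℂ)
    (h2 : ∀ s, b < s → Summable (fun m : ℤ => (m : ℝ) ^ 2 * (‖C m‖ * Real.exp (m * s))))
    (h1 : ∀ s, b < s → Summable (fun m : ℤ => ‖C m‖ * Real.exp (m * s)))
    (h3 : ∀ s, b < s → ∀ θ : ℝ,
      HasSum (fun m : ℤ => C m * Complex.exp (m * (s + θ * I))) (G (s + θ * I)))
    (s : ℝ) (hs : b < s) :
    Summable (fun m : ℤ => (m : ℝ) * ‖C m‖ ^ 2 * Real.exp (2 * m * s)) ∧
    1 / 2 * ∫ θ in (0 : ℝ)..(2 * π), (conj (G (s + θ * I)) * (deriv G (s + θ * I) * I)).im =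
      π * ∑' m : ℤ, (m : ℝ) * ‖C m‖ ^ 2 * Real.exp (2 * m * s) := by
  -- the coefficients on the line
  obtain ⟨cc, hcc⟩ : ∃ cc : ℤ → ℂ, cc = fun m => C m * Complex.exp (m * s) := ⟨_, rfl⟩
  have hcn : ∀ m, ‖cc m‖ = ‖C m‖ * Real.exp (m * s) := by
    intro m
    simp only [hcc]
    rw [norm_mul, Complex.norm_exp]
    congr 2
    have : ((m : ℂ) * (s : ℂ)) = (((m : ℝ) * s : ℝ) : ℂ) := by push_cast; rfl
    rw [this, Complex.ofReal_re]
  have hA : Summable (fun m => ‖cc m‖) := by
    simp only [hcn]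
    exact h1 s hs
  have hA2 : Summable (fun m : ℤ => (m : ℝ) ^ 2 * ‖cc m‖) := by
    simp only [hcn]
    exact h2 s hs
  have habs : ∀ m : ℤ, |(m : ℝ)| ≤ (m : ℝ) ^ 2 := by
    intro m
    rcases eq_or_ne m 0 with rfl | hm
    · simp
    · have h : (1 : ℝ) ≤ |(m : ℝ)| := by
        rw [← Int.cast_abs]
        exact_mod_cast Int.one_le_abs hm
      nlinarith [sq_abs (m : ℝ)]
  have hA1 : Summable (fun m : ℤ => |(m : ℝ)| * ‖cc m‖) :=
    Summable.of_nonneg_of_le (fun m => by positivity)
      (fun m => mul_le_mul_of_nonneg_right (habs m) (norm_nonneg _)) hA2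
  -- exponentials
  obtain ⟨e, he⟩ : ∃ e : ℤ → ℝ → ℂ,
      e = fun (m : ℤ) (θ : ℝ) => Complex.exp ((((m : ℝ) * θ : ℝ) : ℂ) * I) := ⟨_, rfl⟩
  have hen : ∀ m θ, ‖e m θ‖ = 1 := fun m θ => by
    rw [he]
    exact Complex.norm_exp_ofReal_mul_I _
  have hnt : ∀ (m : ℤ) (θ : ℝ), ‖cc m * (e m θ * (m * I))‖ = |(m : ℝ)| * ‖cc m‖ := by
    intro m θ
    rw [norm_mul, norm_mul, norm_mul, hen, Complex.norm_I, Complex.norm_intCast, one_mul,
          mul_one, mul_comm]
  have hec : ∀ m, Continuous (e m) := by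
    intro m
    rw [he]
    fun_prop
  have hg : ∀ θ : ℝ, HasSum (fun m => cc m * e m θ) (G (s + θ * I)) := by
    intro θ
    have h := h3 s hs θ
    convert h using 2 with m
    simp only [hcc, he]
    rw [mul_assoc, ← Complex.exp_add]
    congr 2
    push_cast
    ring
  -- the derivative
  have hline : ∀ θ : ℝ, ((s : ℂ) + θ * I) ∈ half b := by
    intro θ
    simpa [half] using hs
  have hop : IsOpen (half b) := isOpen_lt continuous_const Complex.continuous_re
  have hd1 : ∀ θ : ℝ, HasDerivAt (fun θ : ℝ => G (s + θ * I)) (deriv G (s + θ * I) * I) θ := by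
    intro θ
    have h1 : HasDerivAt G (deriv G (s + θ * I)) (s + θ * I) :=
      (hG.differentiableAt (hop.mem_nhds (hline θ))).hasDerivAt
    have h2 : HasDerivAt (fun θ : ℝ => (s : ℂ) + θ * I) I θ := by
      have := (Complex.ofRealCLM.hasDerivAt (x := θ)).mul_const I
      simpa using this.const_add (s : ℂ)
    exact h1.comp θ h2
  have hem : ∀ (m : ℤ) (θ : ℝ), HasDerivAt (fun θ : ℝ => cc m * e m θ)
      (cc m * (e m θ * (m * I))) θ := by
    intro m θ
    have h2 : HasDerivAt (fun θ : ℝ => ((m * θ : ℝ) : ℂ) * I) (m * I) θ := by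
      have h0 : HasDerivAt (fun θ : ℝ => ((m : ℝ) * θ)) (m : ℝ) θ := by
        simpa using (hasDerivAt_id θ).const_mul (m : ℝ)
      have := (h0.ofReal_comp).mul_const I
      simpa using this
    rw [he]
    exact (h2.cexp).const_mul (cc m)
  have hgt : ∀ θ : ℝ, G (s + θ * I) = ∑' m, cc m * e m θ := fun θ => (hg θ).tsum_eq.symm
  have hd2 : ∀ θ : ℝ, HasDerivAt (fun θ : ℝ => G (s + θ * I))
      (∑' m : ℤ, cc m * (e m θ * (m * I))) θ := by
    intro θ
    have h := hasDerivAt_tsum (u := fun m : ℤ => |(m : ℝ)| * ‖cc m‖)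
      (g := fun m θ => cc m * e m θ) (g' := fun m θ => cc m * (e m θ * (m * I))) (y₀ := 0) hA1
      (fun m y => hem m y) (fun m y => (hnt m y).le) (hg 0).summable θ
    have h' : (fun θ : ℝ => G (s + θ * I)) = fun θ => ∑' m, cc m * e m θ := funext hgt
    rw [h']
    exact h
  have hg' : ∀ θ : ℝ, HasSum (fun m : ℤ => cc m * (e m θ * (m * I))) (deriv G (s + θ * I) * I) := by
    intro θ
    have hsm : Summable (fun m : ℤ => cc m * (e m θ * (m * I))) := by
      refine Summable.of_norm ?_
      exact hA1.congr fun m => (hnt m θ).symm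
    rw [(hd1 θ).unique (hd2 θ)]
    exact hsm.hasSum
  have hgc : Continuous (fun θ : ℝ => G (s + θ * I)) :=
    continuous_iff_continuousAt.2 fun θ => (hd1 θ).continuousAt
  have hgc' : Continuous (fun θ : ℝ => deriv G (s + θ * I) * I) := by
    have h1 : ContinuousOn (deriv G) (half b) := (hG.deriv hop).continuousOn
    have h2 : Continuous (fun θ : ℝ => (s : ℂ) + θ * I) := by fun_prop
    exact (h1.comp_continuous h2 hline).mul continuous_const
  have hgb : ∀ θ : ℝ, ‖G (s + θ * I)‖ ≤ ∑' m, ‖cc m‖ := by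
    intro θ
    rw [hgt θ]
    refine (norm_tsum_le_tsum_norm ?_).trans (le_of_eq ?_)
    · refine hA.congr fun m => ?_
      rw [norm_mul, hen, mul_one]
    · exact tsum_congr fun m => by rw [norm_mul, hen, mul_one]
  -- orthogonality
  have horth : ∀ k : ℤ, ∫ θ in (0 : ℝ)..(2 * π), e k θ = if k = 0 then (2 * π : ℂ) else 0 := by
    intro k
    split_ifs with hk
    · subst hk
      simp [he]
    · have hkc : (k : ℂ) * I ≠ 0 := mul_ne_zero (by exact_mod_cast hk) Complex.I_ne_zero
      have h1 : ∀ θ : ℝ, e k θ = Complex.exp ((k * I) * θ) := by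
        intro θ
        simp only [he]
        congr 1
        push_cast
        ring
      simp only [h1]
      rw [integral_exp_mul_complex hkc]
      have h2 : Complex.exp (k * I * ((2 * π : ℝ) : ℂ)) = 1 := by
        have := Complex.exp_int_mul_two_pi_mul_I k
        convert this using 2
        push_cast
        ring
      rw [h2]
      simp
  have hee : ∀ (k m : ℤ) (θ : ℝ), e k θ * conj (e m θ) = e (k - m) θ := by
    intro k m θ
    simp only [he]
    rw [← Complex.exp_conj, ← Complex.exp_add]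
    congr 1
    rw [map_mul, Complex.conj_I, Complex.conj_ofReal]
    push_cast
    ring
  -- the Fourier coefficients of `g`
  have hfc : ∀ m : ℤ, ∫ θ in (0 : ℝ)..(2 * π), G (s + θ * I) * conj (e m θ) = 2 * π * cc m := by
    intro m
    have h := intervalIntegral.hasSum_integral_of_dominated_convergence (μ := volume)
      (a := 0) (b := 2 * π) (F := fun (k : ℤ) θ => cc k * e k θ * conj (e m θ))
      (f := fun θ : ℝ => G (s + θ * I) * conj (e m θ)) (bound := fun k _ => ‖cc k‖)
      (fun k => by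
        refine Continuous.aestronglyMeasurable ?_
        exact (continuous_const.mul (hec k)).mul (Complex.continuous_conj.comp (hec m)))
      (fun k => Filter.Eventually.of_forall fun θ _ => by
        rw [norm_mul, norm_mul, RCLike.norm_conj, hen, hen, mul_one, mul_one])
      (Filter.Eventually.of_forall fun θ _ => hA) (by simp)
      (Filter.Eventually.of_forall fun θ _ => (hg θ).mul_right _)
    have h2 : ∀ k : ℤ, ∫ θ in (0 : ℝ)..(2 * π), cc k * e k θ * conj (e m θ) =
        if k = m then 2 * π * cc m else 0 := by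
      intro k
      have : ∀ θ : ℝ, cc k * e k θ * conj (e m θ) = cc k * e (k - m) θ := by
        intro θ
        rw [mul_assoc, hee]
      simp only [this]
      rw [intervalIntegral.integral_const_mul, horth]
      by_cases hkm : k = m
      · subst hkm
        simp
        ring
      · rw [if_neg (sub_ne_zero.2 hkm), if_neg hkm, mul_zero]
    simp only [h2] at h
    have h4 := hasSum_ite_eq m (2 * π * cc m)
    exact h.unique h4
  -- the main sum
  have hmain : HasSum (fun m : ℤ => ((2 * π : ℝ) : ℂ) * ((((m : ℝ) * ‖cc m‖ ^ 2 : ℝ) : ℂ) * I))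
      (∫ θ in (0 : ℝ)..(2 * π), conj (G (s + θ * I)) * (deriv G (s + θ * I) * I)) := by
    have h := intervalIntegral.hasSum_integral_of_dominated_convergence (μ := volume)
      (a := 0) (b := 2 * π)
      (F := fun (m : ℤ) (θ : ℝ) => conj (G (s + θ * I)) * (cc m * (e m θ * (m * I))))
      (f := fun θ : ℝ => conj (G (s + θ * I)) * (deriv G (s + θ * I) * I))
      (bound := fun m _ => (∑' m, ‖cc m‖) * (|(m : ℝ)| * ‖cc m‖))
      (fun m => by
        refine Continuous.aestronglyMeasurable ?_
        exact (Complex.continuous_conj.comp hgc).mul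
          (continuous_const.mul ((hec m).mul continuous_const)))
      (fun m => Filter.Eventually.of_forall fun θ _ => by
        rw [norm_mul, RCLike.norm_conj]
        exact mul_le_mul (hgb θ) (hnt m θ).le (norm_nonneg _)
          (tsum_nonneg fun _ => norm_nonneg _))
      (Filter.Eventually.of_forall fun θ _ => hA1.mul_left _) (by simp)
      (Filter.Eventually.of_forall fun θ _ => (hg' θ).mul_left _)
    refine xbb_congr h fun m => ?_
    have h5 : ∀ θ : ℝ, conj (G (s + θ * I)) * (cc m * (e m θ * (m * I))) =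
        (cc m * (m * I)) * conj (G (s + θ * I) * conj (e m θ)) := by
      intro θ
      rw [map_mul, Complex.conj_conj]
      ring
    simp only [h5]
    rw [intervalIntegral.integral_const_mul]
    have h6 : ∫ θ in (0 : ℝ)..(2 * π), conj (G (s + θ * I) * conj (e m θ)) =
        conj (∫ θ in (0 : ℝ)..(2 * π), G (s + θ * I) * conj (e m θ)) := by
      rw [intervalIntegral.integral_of_le (by positivity),
        intervalIntegral.integral_of_le (by positivity)]
      exact integral_conj
    rw [h6, hfc, map_mul, map_mul, Complex.conj_ofReal]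
    have h7 : conj (2 : ℂ) = 2 := Complex.conj_ofNat 2
    have h8 : cc m * conj (cc m) = ((‖cc m‖ ^ 2 : ℝ) : ℂ) := by
      rw [Complex.mul_conj, Complex.normSq_eq_norm_sq]
    rw [h7]
    have h9 : cc m * (m * I) * (2 * π * conj (cc m)) = 2 * π * (m * (cc m * conj (cc m)) * I) := by
      ring
    rw [h9, h8]
    push_cast
    ring
  have him := Complex.hasSum_im hmain
  have him2 : (∫ θ in (0 : ℝ)..(2 * π), conj (G (s + θ * I)) * (deriv G (s + θ * I) * I)).im =
      ∫ θ in (0 : ℝ)..(2 * π), (conj (G (s + θ * I)) * (deriv G (s + θ * I) * I)).im := by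
    have hi : IntervalIntegrable
        (fun θ : ℝ => conj (G (s + θ * I)) * (deriv G (s + θ * I) * I)) volume 0 (2 * π) :=
      ((Complex.continuous_conj.comp hgc).mul hgc').intervalIntegrable _ _
    exact (Complex.imCLM.intervalIntegral_comp_comm hi).symm
  rw [him2] at him
  have hterm : ∀ m : ℤ, (((2 * π : ℝ) : ℂ) * ((((m : ℝ) * ‖cc m‖ ^ 2 : ℝ) : ℂ) * I)).im =
      2 * π * ((m : ℝ) * ‖C m‖ ^ 2 * Real.exp (2 * m * s)) := by
    intro m
    have h10 : ∀ x y : ℝ, ((x : ℂ) * ((y : ℂ) * I)).im = x * y := by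
      intro x y
      simp
    rw [h10, hcn, mul_pow, ← Real.exp_nat_mul]
    have h11 : ((2 : ℕ) : ℝ) * ((m : ℝ) * s) = 2 * m * s := by
      push_cast
      ring
    rw [h11]
    ring
  simp only [hterm] at him
  have hpi : (2 * π : ℝ) ≠ 0 := by positivity
  have hs1 : HasSum (fun m : ℤ => (m : ℝ) * ‖C m‖ ^ 2 * Real.exp (2 * m * s))
      ((2 * π)⁻¹ * ∫ θ in (0 : ℝ)..(2 * π),
        (conj (G (s + θ * I)) * (deriv G (s + θ * I) * I)).im) := by
    refine xbb_congr (him.mul_left (2 * π)⁻¹) fun m => ?_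
    rw [← mul_assoc, inv_mul_cancel₀ hpi, one_mul]
  refine ⟨hs1.summable, ?_⟩
  rw [hs1.tsum_eq]
  generalize (∫ θ in (0 : ℝ)..(2 * π),
    (conj (G (s + θ * I)) * (deriv G (s + θ * I) * I)).im) = J
  field_simp

end Pool.Agent.H88.LE
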