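import Pool.Agent.H88.LE.XA
import Pool.Agent.H88.LE.XB
import Pool.Agent.H88.LE.XBa
import Pool.Agent.H88.LE.XBb
import Pool.Agent.H88.LD.LN

/-!
# LE-XCa: a cycle of length `k < n` has nonpositive signed area

PROOF. `G ω = L.Z c (k ω)` on `half (a/k)`: holomorphic, `G (ω + 2πi) = L.Z c (kω + 2πik) = L.Z ((σ^k) c) (kω) = G ω` (induction with
`L.shift`). `laurent` gives `C`. `‖f.eval (G (s+iθ))‖ = ‖exp (k (s+iθ))‖ = e^{ks}`, so by `exists_bound` (LD/LN; `n = natDegree f`)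
`‖G (s + iθ)‖ ≤ e^{s'} + K` for all `s'` with `ks < n s'`, so `≤ e^{ks/n} + K` (let `s'` tend to `ks/n`; or use `≤ 2 e^{ks/n} + K` with
`s' = ks/n + log 2`). By `coeff_le` and `coeff_zero` (`γ = k/n < 1 ≤ m`), `C m = 0` for `m ≥ 1`. `area_series`:
`½ ∫_0^{2π} Im (conj G (deriv G I)) = π ∑ m ‖C m‖² e^{2ms} ≤ 0` (all terms are `≤ 0`). With `u = k s`, `deriv G ω = k (deriv (L.Z c)) (k ω)` and
the substitution `φ = kθ`: `∫_0^{2πk} Im (conj (Z c (u+iφ)) (deriv (Z c) (u+iφ) I)) dφ = ∫_0^{2π} Im (conj G (deriv G I)) dθ ≤ 0`.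
-/

set_option autoImplicit false

open Polynomial Complex MeasureTheory Set
open scoped Real ComplexConjugate
open Pool.Agent.H88.LD

noncomputable section

namespace Pool.Agent.H88.LE

/-- `Z c` on the half plane is `2πik`-periodic if `(σ^k) c = c` -/
theorem hlifts_shift_iter {f : ℂ[X]} {n : ℕ} {a : ℝ} (L : HLifts f n a) (c : Fin n) (k : ℕ)
    (ω : ℂ) (hω : ω ∈ half a) : L.Z c (ω + 2 * π * I * k) = L.Z ((L.σ ^ k) c) ω := by
  induction k generalizing c with
  | zero => simp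
  | succ k ih =>
    have hmem : ω + 2 * π * I * k ∈ half a := by
      have h1 : a < ω.re := hω
      have h2 : (ω + 2 * π * I * k).re = ω.re := by simp
      have h3 : a < (ω + 2 * π * I * k).re := by rw [h2]; exact h1
      exact h3
    have e1 : ω + 2 * π * I * ((k + 1 : ℕ) : ℂ) = (ω + 2 * π * I * k) + 2 * π * I := by
      push_cast
      ring
    rw [e1, L.shift c _ hmem, ih (L.σ c), pow_succ, Equiv.Perm.mul_apply]

theorem cycle_area_nonpos (f : ℂ[X]) (hf : f.Monic) (n : ℕ) (hn : f.natDegree = n) (hn0 : 0 < n)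
    (a : ℝ) (L : HLifts f n a) (c : Fin n) (k : ℕ) (hk : 0 < k) (hkn : k < n)
    (hc : (L.σ ^ k) c = c) (u : ℝ) (hu : a < u) :
    ∫ φ in (0 : ℝ)..(2 * π * k),
      (conj (L.Z c (u + φ * I)) * (deriv (L.Z c) (u + φ * I) * I)).im ≤ 0 := by
  have hkR : (0 : ℝ) < k := by exact_mod_cast hk
  have hkC : (k : ℂ) ≠ 0 := by exact_mod_cast hk.ne'
  have hnR : (0 : ℝ) < n := by exact_mod_cast hn0
  set b : ℝ := a / k with hb
  set G : ℂ → ℂ := fun ω => L.Z c (k * ω) with hGdef
  have hmem : ∀ ω ∈ half b, (k : ℂ) * ω ∈ half a := by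
    intro ω hω
    have h1 : b < ω.re := hω
    have h2 : ((k : ℂ) * ω).re = k * ω.re := by simp
    have h3 : a < ((k : ℂ) * ω).re := by
      rw [h2]
      rw [hb, div_lt_iff₀ hkR] at h1
      linarith
    exact h3
  have hG : DifferentiableOn ℂ G (half b) := by
    have h1 : DifferentiableOn ℂ (fun ω : ℂ => (k : ℂ) * ω) (half b) := by fun_prop
    exact (L.diff c).comp h1 hmem
  have hper : ∀ ω ∈ half b, G (ω + 2 * π * I) = G ω := by
    intro ω hω
    have e1 : (k : ℂ) * (ω + 2 * π * I) = k * ω + 2 * π * I * k := by ring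
    show L.Z c (k * (ω + 2 * π * I)) = L.Z c (k * ω)
    rw [e1, hlifts_shift_iter L c k _ (hmem ω hω), hc]
  obtain ⟨C, hC1, hC2, hC3, hC4⟩ := laurent b G hG hper
  obtain ⟨K, hK0, hK⟩ := exists_bound f hf (by rw [hn]; exact hn0.ne')
  have hbound : ∀ s, b < s → ∀ θ : ℝ,
      ‖G (s + θ * I)‖ ≤ 2 * Real.exp ((k : ℝ) / n * s) + K := by
    intro s hs θ
    have hm : ((s : ℂ) + θ * I) ∈ half b := by
      have h3 : b < ((s : ℂ) + θ * I).re := by simpa using hs
      exact h3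
    have hev : f.eval (G (s + θ * I)) = Complex.exp (k * (s + θ * I)) := L.eval c _ (hmem _ hm)
    have hlog : 0 < Real.log 2 := Real.log_pos (by norm_num)
    have hin : G (s + θ * I) ∈
        {z : ℂ | ‖f.eval z‖ < Real.exp (f.natDegree * ((k : ℝ) / n * s + Real.log 2))} := by
      show ‖f.eval (G (s + θ * I))‖ < _
      rw [hev, Complex.norm_exp, hn]
      apply Real.exp_lt_exp.mpr
      have h2 : ((k : ℂ) * (s + θ * I)).re = k * s := by simp
      have h4 : (n : ℝ) * ((k : ℝ) / n * s + Real.log 2) = k * s + n * Real.log 2 := by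
        field_simp
      rw [h2, h4]
      have : 0 < (n : ℝ) * Real.log 2 := by positivity
      linarith
    have h5 := hK _ hin
    rw [mem_ball_zero_iff, Real.exp_add, Real.exp_log (by norm_num)] at h5
    linarith
  have hCz : ∀ m : ℤ, 0 < m → ‖C m‖ ≤ 0 := by
    intro m hm
    apply coeff_zero ‖C m‖ 2 ((k : ℝ) / n) K b m _ _ hm
    · have h1 : (k : ℝ) / n < 1 := by
        rw [div_lt_one hnR]
        exact_mod_cast hkn
      have h2 : (1 : ℝ) ≤ m := by exact_mod_cast hm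
      linarith
    · intro s hs
      exact coeff_le G C s _ (hC1 s hs) (hbound s hs) m
  set s : ℝ := u / k with hsdef
  have hs : b < s := by
    rw [hb, hsdef]
    exact div_lt_div_of_pos_right hu hkR
  obtain ⟨-, hA⟩ := area_series b G hG hper C hC2 hC3 hC4 s hs
  have htsum : ∑' m : ℤ, (m : ℝ) * ‖C m‖ ^ 2 * Real.exp (2 * m * s) ≤ 0 := by
    apply tsum_nonpos
    intro m
    rcases lt_or_ge 0 m with hm | hm
    · have h1 : ‖C m‖ = 0 := le_antisymm (hCz m hm) (norm_nonneg _)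
      rw [h1]
      simp
    · have h1 : (m : ℝ) ≤ 0 := by exact_mod_cast hm
      have h2 : 0 ≤ ‖C m‖ ^ 2 * Real.exp (2 * m * s) := by positivity
      rw [mul_assoc]
      exact mul_nonpos_of_nonpos_of_nonneg h1 h2
  have hI : ∫ θ in (0 : ℝ)..(2 * π), (conj (G (s + θ * I)) * (deriv G (s + θ * I) * I)).im ≤ 0 := by
    have h1 : π * ∑' m : ℤ, (m : ℝ) * ‖C m‖ ^ 2 * Real.exp (2 * m * s) ≤ 0 :=
      mul_nonpos_of_nonneg_of_nonpos Real.pi_pos.le htsum
    rw [← hA] at h1
    linarith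
  -- substitution
  have hderiv : ∀ ω : ℂ, deriv G ω = k * deriv (L.Z c) (k * ω) := by
    intro ω
    have := deriv_comp_mul_left (k : ℂ) (L.Z c) ω
    rw [hGdef, this, smul_eq_mul]
  have hsub : ∀ θ : ℝ, (conj (G (s + θ * I)) * (deriv G (s + θ * I) * I)).im =
      k * (conj (L.Z c (u + ((k * θ : ℝ) : ℂ) * I)) *
        (deriv (L.Z c) (u + ((k * θ : ℝ) : ℂ) * I) * I)).im := by
    intro θ
    have e1 : (k : ℂ) * (s + θ * I) = u + ((k * θ : ℝ) : ℂ) * I := by
      rw [hsdef]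
      push_cast
      field_simp
    rw [hderiv, ← e1]
    have e2 : conj (G (s + θ * I)) * (k * deriv (L.Z c) (k * (s + θ * I)) * I) =
        ((k : ℝ) : ℂ) * (conj (L.Z c (k * (s + θ * I))) *
          (deriv (L.Z c) (k * (s + θ * I)) * I)) := by
      push_cast
      rw [hGdef]
      ring
    rw [e2, Complex.im_ofReal_mul]
  simp only [hsub] at hI
  rw [intervalIntegral.integral_const_mul,
    intervalIntegral.integral_comp_mul_left (fun φ : ℝ => (conj (L.Z c (u + (φ : ℂ) * I)) *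
      (deriv (L.Z c) (u + (φ : ℂ) * I) * I)).im) hkR.ne'] at hI
  rw [mul_zero, smul_eq_mul, ← mul_assoc, mul_inv_cancel₀ hkR.ne', one_mul,
    mul_comm (k : ℝ) (2 * π)] at hI
  exact hI

end Pool.Agent.H88.LE
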