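import Pool.Agent.H88.LE.Defs

/-!
# LE-XCb: every point of the level curve is a value of `G`

PROOF. `f.eval z = exp (n (s + iθ₀))` for some real `θ₀` (modulus `e^{ns}`, argument divided by `n`). The `n` numbers
`G (s + iθ₀ + 2πij/n)`, `j < n`, are different roots of the polynomial `f - C (exp (n (s+iθ₀)))` of degree `n`
(`exp (n (ω + 2πij/n)) = exp (n ω)`), so they are all its roots (`Polynomial.card_roots'`), and `z` is one of them. `θ = θ₀ + 2πj/n`.
-/

set_option autoImplicit false

open Polynomial Complex MeasureTheory Set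
open scoped Real ComplexConjugate
open Pool.Agent.H88.LD

noncomputable section

namespace Pool.Agent.H88.LE

/-- if `n` different values are roots of `f = w`, every root is among them -/
theorem roots_all (f : ℂ[X]) (hf : f.Monic) (n : ℕ) (hn : f.natDegree = n) (hn0 : 0 < n) (w : ℂ)
    (z : Fin n → ℂ) (hz : Function.Injective z) (hw : ∀ i, f.eval (z i) = w) (x : ℂ)
    (hx : f.eval x = w) : ∃ i, x = z i := by
  classical
  by_contra hcon
  push Not at hcon
  have hdeg : (f - C w).natDegree = n := by rw [natDegree_sub_C, hn]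
  have hg0 : f - C w ≠ 0 := by
    intro h
    rw [h, natDegree_zero] at hdeg
    omega
  have hsub : insert x (Finset.univ.image z) ⊆ (f - C w).roots.toFinset := by
    intro y hy
    rw [Multiset.mem_toFinset, mem_roots hg0, IsRoot.def, eval_sub, eval_C, sub_eq_zero]
    rw [Finset.mem_insert, Finset.mem_image] at hy
    rcases hy with rfl | ⟨i, _, rfl⟩
    · exact hx
    · exact hw i
  have hx' : x ∉ Finset.univ.image z := by
    rw [Finset.mem_image]
    rintro ⟨i, _, hi⟩
    exact hcon i hi.symm
  have h1 := Finset.card_le_card hsub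
  rw [Finset.card_insert_of_notMem hx', Finset.card_image_of_injective _ hz, Finset.card_univ,
    Fintype.card_fin] at h1
  have h2 := Multiset.toFinset_card_le (f - C w).roots
  have h3 := card_roots' (f - C w)
  rw [hdeg] at h3
  omega

/-- every point of the level curve is a value of `G` -/
theorem exterior_surj (f : ℂ[X]) (hf : f.Monic) (n : ℕ) (hn : f.natDegree = n) (hn0 : 0 < n)
    (b : ℝ) (G : ℂ → ℂ) (heval : ∀ ω ∈ half b, f.eval (G ω) = Complex.exp (n * ω))
    (hinj : ∀ ω ∈ half b, Function.Injective (fun j : Fin n => G (ω + 2 * π * I * j / n)))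
    (s : ℝ) (hs : b < s) (z : ℂ) (hz : ‖f.eval z‖ = Real.exp (n * s)) :
    ∃ θ : ℝ, z = G (s + θ * I) := by
  have hnC : (n : ℂ) ≠ 0 := by exact_mod_cast hn0.ne'
  have hnR : (n : ℝ) ≠ 0 := by exact_mod_cast hn0.ne'
  have hmem : ∀ θ : ℝ, (s : ℂ) + θ * I ∈ half b := by
    intro θ
    simpa [half] using hs
  have hw : f.eval z = Complex.exp (n * (s + ((arg (f.eval z) / n : ℝ) : ℂ) * I)) := by
    conv_lhs => rw [← Complex.norm_mul_exp_arg_mul_I (f.eval z)]
    rw [hz, Complex.ofReal_exp, ← Complex.exp_add]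
    congr 1
    push_cast
    field_simp
  obtain ⟨j, hj⟩ := roots_all f hf n hn hn0 (f.eval z)
    (fun j : Fin n => G ((s + ((arg (f.eval z) / n : ℝ) : ℂ) * I) + 2 * π * I * j / n))
    (hinj _ (hmem _)) (fun j => by
      have h1 : (s + ((arg (f.eval z) / n : ℝ) : ℂ) * I) + 2 * π * I * j / n =
          (s : ℂ) + ((arg (f.eval z) / n + 2 * π * j / n : ℝ) : ℂ) * I := by
        push_cast
        ring
      rw [heval _ (by rw [h1]; exact hmem _)]
      conv_rhs => rw [hw]
      rw [mul_add, Complex.exp_add]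
      have h2 : (n : ℂ) * (2 * π * I * j / n) = ((j : ℕ) : ℂ) * (2 * π * I) := by
        field_simp
      rw [h2, Complex.exp_nat_mul_two_pi_mul_I, mul_one]) z rfl
  refine ⟨arg (f.eval z) / n + 2 * π * j / n, hj.trans ?_⟩
  congr 1
  push_cast
  ring

end Pool.Agent.H88.LE
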