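import Pool.Agent.H88.LE.XC
import Pool.Agent.H88.LE.XCb

/-!
# LE-XD: exterior expansion of a connected lemniscate

PROOF. `G` from `exterior_map`, `C` from `laurent` (`b = a/n`). As `‖f.eval (G (s+iθ))‖ = e^{ns}`, `exists_bound` (LD/LN) gives
`‖G (s+iθ)‖ ≤ e^s + K` up to an arbitrarily small increase (for every `s' > s`: `< e^{s'} + K`; let `s' → s`). So `C m = 0`
for `m ≥ 2` (`coeff_le`, `coeff_zero` with `γ = 1`) and `‖C 1‖ ≤ 1` (`coeff_one`). Put `c₁ = C 1`, `b₀ = C 0`, `β j = C (-(j+1))`.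
The sums over `ℤ` become a sum over `ℕ` plus the two terms `m = 0, 1` (the terms `m ≥ 2` vanish). The area is
`area_series` together with the last property of `exterior_map`. Surjectivity: `exterior_surj`.
-/

set_option autoImplicit false

open Polynomial Complex MeasureTheory Set
open scoped Real ComplexConjugate
open Pool.Agent.H88.LD

noncomputable section

namespace Pool.Agent.H88.LE

/-- a sum over `ℤ` without terms `m ≥ 2` -/
theorem xd_split {E : Type*} [NormedAddCommGroup E] (F : ℤ → E) (S : E) (h : HasSum F S)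
    (h0 : ∀ m : ℤ, 2 ≤ m → F m = 0) :
    HasSum (fun j : ℕ => F (-((j : ℤ) + 1))) (S - F 1 - F 0) := by
  have hinj : Function.Injective (fun j : ℕ => (1 : ℤ) - j) := by
    intro i j hij
    have h1 : (1 : ℤ) - i = 1 - j := hij
    omega
  have h1 : HasSum (F ∘ fun j : ℕ => (1 : ℤ) - j) S := by
    rw [hinj.hasSum_iff]
    · exact h
    · intro m hm
      apply h0
      by_contra hcon
      apply hm
      refine ⟨(1 - m).toNat, ?_⟩
      have h2 : ((1 - m).toNat : ℤ) = 1 - m := Int.toNat_of_nonneg (by omega)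
      change (1 : ℤ) - ((1 - m).toNat : ℤ) = m
      omega
  have h2 := (hasSum_nat_add_iff' (f := F ∘ fun j : ℕ => (1 : ℤ) - j) 2).2 h1
  rw [Finset.sum_range_succ, Finset.sum_range_one] at h2
  have e0 : (F ∘ fun j : ℕ => (1 : ℤ) - j) 0 = F 1 := by simp
  have e1 : (F ∘ fun j : ℕ => (1 : ℤ) - j) 1 = F 0 := by simp
  rw [e0, e1, ← sub_sub] at h2
  have e2 : (fun j : ℕ => F (-((j : ℤ) + 1))) =
      fun j : ℕ => (F ∘ fun j : ℕ => (1 : ℤ) - j) (j + 2) := by
    funext j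
    have e3 : -((j : ℤ) + 1) = (1 : ℤ) - ((j + 2 : ℕ) : ℤ) := by
      push_cast
      ring
    rw [e3]
    rfl
  rw [e2]
  exact h2

theorem exterior_expansion (f : ℂ[X]) (hf : f.Monic) (n : ℕ) (hn : f.natDegree = n)
    (hn0 : 0 < n) (a : ℝ) (hreg : ∀ u, a < u → Reg f u) :
    ∃ (G : ℂ → ℂ) (c₁ b₀ : ℂ) (β : ℕ → ℂ), ‖c₁‖ ≤ 1 ∧
      (∀ s, a / n < s → ∀ z : ℂ, ‖f.eval z‖ = Real.exp (n * s) → ∃ θ : ℝ, z = G (s + θ * I)) ∧
      ∀ s, a / n < s →
        Summable (fun j : ℕ => ((j : ℝ) + 1) * ‖β j‖ ^ 2 * Real.exp (-(2 * (j + 1) * s))) ∧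
        area f (n * s) = π * (‖c₁‖ ^ 2 * Real.exp (2 * s) -
          ∑' j : ℕ, ((j : ℝ) + 1) * ‖β j‖ ^ 2 * Real.exp (-(2 * (j + 1) * s))) ∧
        ∀ θ : ℝ, HasSum (fun j : ℕ => β j * Complex.exp (-((j + 1) * (s + θ * I))))
          (G (s + θ * I) - c₁ * Complex.exp (s + θ * I) - b₀) := by
  obtain ⟨G, hG, hper, heval, hinj, harea⟩ := exterior_map f hf n hn hn0 a hreg
  obtain ⟨C, hC, h2, h1, h3⟩ := laurent (a / n) G hG hper
  have hn' : f.natDegree ≠ 0 := by rw [hn]; exact hn0.ne'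
  obtain ⟨K, hK0, hK⟩ := exists_bound f hf hn'
  have hnpos : (0 : ℝ) < n := by exact_mod_cast hn0
  have hmem : ∀ s, a / n < s → ∀ θ : ℝ, ((s : ℂ) + θ * I) ∈ half (a / n) := by
    intro s hs θ
    have h4 : ((s : ℂ) + θ * I).re = s := by simp
    change a / n < ((s : ℂ) + θ * I).re
    rw [h4]
    exact hs
  have hbound : ∀ s, a / n < s → ∀ θ : ℝ, ‖G (s + θ * I)‖ ≤ Real.exp s + K := by
    intro s hs θ
    have ht : Filter.Tendsto (fun s' : ℝ => Real.exp s' + K) (nhdsWithin s (Ioi s))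
        (nhds (Real.exp s + K)) := by
      have h4 : Continuous (fun s' : ℝ => Real.exp s' + K) := by fun_prop
      exact (h4.tendsto s).mono_left nhdsWithin_le_nhds
    refine ge_of_tendsto ht ?_
    filter_upwards [self_mem_nhdsWithin] with s' hs'
    have h5 : s < s' := hs'
    have h6 : G (s + θ * I) ∈ {z : ℂ | ‖f.eval z‖ < Real.exp (f.natDegree * s')} := by
      change ‖f.eval (G (s + θ * I))‖ < Real.exp (f.natDegree * s')
      rw [heval _ (hmem s hs θ), Complex.norm_exp, hn]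
      have h7 : ((n : ℂ) * (s + θ * I)).re = n * s := by simp
      rw [h7]
      apply Real.exp_lt_exp.2
      exact mul_lt_mul_of_pos_left h5 hnpos
    have h8 := hK s' h6
    rw [mem_ball_zero_iff] at h8
    exact h8.le
  have hcle : ∀ m : ℤ, ∀ s, a / n < s → ‖C m‖ * Real.exp (m * s) ≤ Real.exp s + K :=
    fun m s hs => coeff_le G C s _ (hC s hs) (hbound s hs) m
  have hC0 : ∀ m : ℤ, 2 ≤ m → C m = 0 := by
    intro m hm
    have hm' : (1 : ℝ) < m := by exact_mod_cast (by omega : (1 : ℤ) < m)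
    have h4 : ‖C m‖ ≤ 0 := by
      refine coeff_zero ‖C m‖ 1 1 K (a / n) m hm' ?_ (by omega)
      intro s hs
      rw [one_mul, one_mul]
      exact hcle m s hs
    exact norm_le_zero_iff.1 h4
  have hC1 : ‖C 1‖ ≤ 1 := by
    refine coeff_one ‖C 1‖ 1 K (a / n) ?_
    intro s hs
    have h4 := hcle 1 s hs
    rw [Int.cast_one, one_mul] at h4
    rw [one_mul]
    exact h4
  refine ⟨G, C 1, C 0, fun j => C (-((j : ℤ) + 1)), hC1, ?_, ?_⟩
  · intro s hs z hz
    exact exterior_surj f hf n hn hn0 (a / n) G heval hinj s hs z hz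
  · intro s hs
    obtain ⟨hsum, hint⟩ := area_series (a / n) G hG hper C h2 h1 h3 s hs
    have h4 := xd_split _ _ hsum.hasSum (fun m hm => by rw [hC0 m hm]; simp)
    have e1 : ((1 : ℤ) : ℝ) * ‖C 1‖ ^ 2 * Real.exp (2 * ((1 : ℤ) : ℝ) * s) =
        ‖C 1‖ ^ 2 * Real.exp (2 * s) := by
      rw [Int.cast_one, one_mul, mul_one]
    have e0 : ((0 : ℤ) : ℝ) * ‖C 0‖ ^ 2 * Real.exp (2 * ((0 : ℤ) : ℝ) * s) = 0 := by
      rw [Int.cast_zero, zero_mul, zero_mul]
    rw [e1, e0, sub_zero] at h4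
    have h5 : HasSum (fun j : ℕ => ((j : ℝ) + 1) * ‖C (-((j : ℤ) + 1))‖ ^ 2 *
        Real.exp (-(2 * (j + 1) * s)))
        (-(∑' m : ℤ, (m : ℝ) * ‖C m‖ ^ 2 * Real.exp (2 * m * s) -
          ‖C 1‖ ^ 2 * Real.exp (2 * s))) := by
      have e3 : (fun j : ℕ => ((j : ℝ) + 1) * ‖C (-((j : ℤ) + 1))‖ ^ 2 *
          Real.exp (-(2 * (j + 1) * s))) = fun j : ℕ => -((((-((j : ℤ) + 1) : ℤ)) : ℝ) *
            ‖C (-((j : ℤ) + 1))‖ ^ 2 * Real.exp (2 * (((-((j : ℤ) + 1) : ℤ)) : ℝ) * s)) := by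
        funext j
        have e2 : 2 * (((-((j : ℤ) + 1) : ℤ)) : ℝ) * s = -(2 * ((j : ℝ) + 1) * s) := by
          push_cast
          ring
        rw [e2]
        push_cast
        ring
      rw [e3]
      exact h4.neg
    refine ⟨h5.summable, ?_, ?_⟩
    · rw [h5.tsum_eq, ← harea s hs, hint]
      ring
    · intro θ
      have h6 := xd_split _ _ (h3 s hs θ) (fun m hm => by rw [hC0 m hm, zero_mul])
      have e3 : C 1 * Complex.exp (((1 : ℤ) : ℂ) * (s + θ * I)) =
          C 1 * Complex.exp (s + θ * I) := by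
        rw [Int.cast_one, one_mul]
      have e4 : C 0 * Complex.exp (((0 : ℤ) : ℂ) * (s + θ * I)) = C 0 := by
        rw [Int.cast_zero, zero_mul, Complex.exp_zero, mul_one]
      rw [e3, e4] at h6
      have e6 : (fun j : ℕ => C (-((j : ℤ) + 1)) * Complex.exp (-((j + 1) * (s + θ * I)))) =
          fun j : ℕ => C (-((j : ℤ) + 1)) *
            Complex.exp ((((-((j : ℤ) + 1) : ℤ)) : ℂ) * (s + θ * I)) := by
        funext j
        have e5 : ((((-((j : ℤ) + 1) : ℤ)) : ℂ)) * (s + θ * I) =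
            -(((j : ℂ) + 1) * (s + θ * I)) := by
          push_cast
          ring
        rw [e5]
      rw [e6]
      exact h6

end Pool.Agent.H88.LE
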